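import Pool.Agent.Burn.Defs

set_option autoImplicit false

/-!
# Integer valued hyperbolic metrics: basic facts
-/

namespace Burn

section HYP
variable {X : Type} {d : X → X → ℕ}

theorem Btw.symm (hg : Geo d) {x u y : X} (h : Btw d x u y) : Btw d y u x := by
  unfold Btw at *
  have := hg.symm x u
  have := hg.symm u y
  have := hg.symm x y
  omega

/-- if `u` is between `x` and `y`, and `v` between `x` and `u`, then `v` is between `x` and `y` and
`u` is between `v` and `y`. -/
theorem Btw.trans (hg : Geo d) {x u y v : X} (h : Btw d x u y) (h' : Btw d x v u) :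
    Btw d x v y ∧ Btw d v u y := by
  unfold Btw at *
  have := hg.tri x v y
  have := hg.tri v u y
  omega

theorem hyp_slim {δ : ℕ} (hg : Geo d) (h : Hyp d δ) : Slim d (2 * δ) := by
  intro x y z p hp
  unfold Btw at hp
  have s1 := hg.symm y p
  have s2 := hg.symm z p
  have s3 := hg.symm y z
  have s4 := hg.symm x p
  have hxx := hg.refl z
  rcases h x y z p with h1 | h1
  · by_cases h2 : d x p ≤ d x z
    · obtain ⟨q, hq1, hq2⟩ := hg.mid x z (d x p) (d x z - d x p) (by omega)
      refine ⟨q, Or.inl (by unfold Btw; omega), ?_⟩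
      have s5 := hg.symm x q
      rcases h p q x z with h3 | h3 <;> omega
    · exact ⟨z, Or.inl (by unfold Btw; omega), by omega⟩
  · by_cases h2 : d p y ≤ d z y
    · obtain ⟨q, hq1, hq2⟩ := hg.mid z y (d z y - d p y) (d p y) (by omega)
      refine ⟨q, Or.inr (by unfold Btw; omega), ?_⟩
      have s5 := hg.symm z q
      rcases h p q y z with h3 | h3 <;> omega
    · exact ⟨z, Or.inr (by unfold Btw; omega), by omega⟩

theorem hyp_switch {A B : ℕ → Prop} (m : ℕ) (h0 : A 0) (h : ∀ i, i ≤ m → A i ∨ B i) :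
    A m ∨ ∃ i, i < m ∧ A i ∧ B (i + 1) := by
  induction m with
  | zero => exact Or.inl h0
  | succ m ih =>
    rcases h (m + 1) le_rfl with h1 | h1
    · exact Or.inl h1
    · rcases ih (fun i hi => h i (by omega)) with h2 | ⟨i, hi, h2⟩
      · exact Or.inr ⟨m, by omega, h2, h1⟩
      · exact Or.inr ⟨i, by omega, h2⟩

theorem exists_path (hg : Geo d) (x y : X) :
    ∃ p : ℕ → X, IsPath d p (d x y) ∧ p 0 = x ∧ d (p (d x y)) y = 0 := by
  generalize hn : d x y = n
  induction n generalizing x with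
  | zero =>
    refine ⟨fun _ => x, fun i j hij hj => ?_, rfl, hn⟩
    have := hg.refl x
    change d x x = j - i
    omega
  | succ n ih =>
    obtain ⟨w, hw1, hw2⟩ := hg.mid x y 1 n (by omega)
    obtain ⟨p, hp1, hp2, hp3⟩ := ih w hw2
    refine ⟨fun i => if i = 0 then x else p (i - 1), fun i j hij hj => ?_, by simp, by simpa using hp3⟩
    simp only
    split_ifs with h1 h2 h2
    · have := hg.refl x
      omega
    · have e1 := hp1 0 (j - 1) (by omega) (by omega)
      have e2 := hp1 (j - 1) n (by omega) le_rfl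
      have e3 := hg.tri x w (p (j - 1))
      have e4 := hg.tri x (p (j - 1)) y
      have e5 := hg.tri (p (j - 1)) (p n) y
      rw [hp2] at e1
      omega
    · omega
    · have e1 := hp1 (i - 1) (j - 1) (by omega) (by omega)
      omega

theorem exists_path_through (hg : Geo d) {x u y : X} (h : Btw d x u y) :
    ∃ p : ℕ → X, IsPath d p (d x y) ∧ p 0 = x ∧ d (p (d x u)) u = 0 ∧ d (p (d x y)) y = 0 := by
  obtain ⟨p, hp1, hp2, hp3⟩ := exists_path hg x u
  obtain ⟨q, hq1, hq2, hq3⟩ := exists_path hg u y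
  unfold Btw at h
  set a := d x u with ha
  set b := d u y with hb
  refine ⟨fun i => if i ≤ a then p i else q (i - a), fun i j hij hj => ?_, by simp [hp2],
    by simp [hp3], ?_⟩
  · simp only
    split_ifs with h1 h2 h2
    · exact hp1 i j hij h2
    · have e1 := hp1 i a h1 le_rfl
      have e2 := hq1 0 (j - a) (by omega) (by omega)
      have e3 := hp1 0 i (by omega) h1
      have e4 := hq1 (j - a) b (by omega) le_rfl
      have t1 := hg.tri (p i) (p a) (q (j - a))
      have t2 := hg.tri (p a) u (q (j - a))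
      have t3 := hg.tri x (p i) y
      have t4 := hg.tri (p i) (q (j - a)) y
      have t5 := hg.tri (q (j - a)) (q b) y
      rw [hq2] at e2
      rw [hp2] at e3
      omega
    · omega
    · have e1 := hq1 (i - a) (j - a) (by omega) (by omega)
      omega
  · simp only
    split_ifs with h1
    · have hb0 : b = 0 := by omega
      have e1 : d x y = a := by omega
      rw [e1]
      have t1 := hg.tri (p a) u y
      omega
    · have e1 : d x y - a = b := by omega
      rw [e1]
      exact hq3

theorem IsPath.btw (hg : Geo d) {p : ℕ → X} {m i : ℕ} (h : IsPath d p m) (hi : i ≤ m) :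
    Btw d (p 0) (p i) (p m) := by
  unfold Btw
  have h1 := h 0 i (by omega) hi
  have h2 := h i m hi le_rfl
  have h3 := h 0 m (by omega) le_rfl
  omega

theorem hyp_steps (hg : Geo d) {p : ℕ → X} {m : ℕ} (h : ∀ i, i < m → d (p i) (p (i + 1)) ≤ 1)
    {i j : ℕ} (hij : i ≤ j) (hj : j ≤ m) : d (p i) (p j) ≤ j - i := by
  induction j, hij using Nat.le_induction with
  | base =>
    have := hg.refl (p i)
    omega
  | succ j hij ih =>
    have h1 := ih (by omega)
    have h2 := h j (by omega)
    have h3 := hg.tri (p i) (p j) (p (j + 1))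
    omega

/-- chains of steps of length at most one which are globally long enough are geodesics. -/
theorem isPath_of_steps (hg : Geo d) {p : ℕ → X} {m : ℕ} (h : ∀ i, i < m → d (p i) (p (i + 1)) ≤ 1)
    (hm : m ≤ d (p 0) (p m)) : IsPath d p m := by
  intro i j hij hj
  have h1 := hyp_steps hg h hij hj
  have h2 := hyp_steps hg h (Nat.zero_le i) (by omega)
  have h3 := hyp_steps hg h hj le_rfl
  have t1 := hg.tri (p 0) (p i) (p m)
  have t2 := hg.tri (p i) (p j) (p m)
  omega

/-- every integer function which changes by at most `s` along steps takes almost every value. -/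
theorem ivt {m : ℕ} {f : ℕ → ℤ} {s a : ℤ} (hs : 0 ≤ s) (h : ∀ i, i < m → |f i - f (i + 1)| ≤ s)
    (h0 : f 0 ≤ a) (hm : a ≤ f m) : ∃ i, i ≤ m ∧ f i ≤ a ∧ a - s ≤ f i := by
  rcases hyp_switch (A := fun i => f i ≤ a) (B := fun i => a < f i) m h0
    (fun i _ => le_or_gt (f i) a) with h1 | ⟨i, hi, h1, h2⟩
  · exact ⟨m, le_rfl, h1, by linarith⟩
  · have h3 := abs_le.1 (h i hi)
    exact ⟨i, hi.le, h1, by linarith [h3.1]⟩

theorem Hyp.mono {δ δ' : ℕ} (h : Hyp d δ) (hle : δ ≤ δ') : Hyp d δ' := by
  intro x y z w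
  rcases h x y z w with h1 | h1
  · exact Or.inl (by omega)
  · exact Or.inr (by omega)

theorem hyp_mid {k : ℕ} (hg : Geo d) (h : Slim d k) {p : ℕ → X} {m : ℕ} (hp : IsPath d p m)
    (z : X) : ∃ i, i ≤ m ∧ (∃ q, Btw d (p 0) q z ∧ d (p i) q ≤ k) ∧
      ∃ q, Btw d z q (p m) ∧ d (p i) q ≤ k + 1 := by
  rcases hyp_switch (A := fun i => ∃ q, Btw d (p 0) q z ∧ d (p i) q ≤ k)
    (B := fun i => ∃ q, Btw d z q (p m) ∧ d (p i) q ≤ k) m
    ⟨p 0, by unfold Btw; have := hg.refl (p 0); omega, by have := hg.refl (p 0); omega⟩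
    (fun i hi => by
      obtain ⟨q, hq1 | hq1, hq2⟩ := h (p 0) (p m) z (p i) (hp.btw hg hi)
      · exact Or.inl ⟨q, hq1, hq2⟩
      · exact Or.inr ⟨q, hq1, hq2⟩) with h1 | ⟨i, hi, h1, q, h2, h3⟩
  · refine ⟨m, le_rfl, h1, p m, ?_, ?_⟩
    · unfold Btw
      have := hg.refl (p m)
      omega
    · have := hg.refl (p m)
      omega
  · refine ⟨i, hi.le, h1, q, h2, ?_⟩
    have e1 := hp i (i + 1) (by omega) (by omega)
    have e2 := hg.tri (p i) (p (i + 1)) q
    omega

theorem slim_hyp {k : ℕ} (hg : Geo d) (h : Slim d k) : Hyp d (4 * k + 2) := by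
  intro x y z w
  obtain ⟨p, hp, hx, hy⟩ := exists_path hg x y
  obtain ⟨i, hi, ⟨q, hq1, hq2⟩, q', hq3, hq4⟩ := hyp_mid hg h hp z
  obtain ⟨j, hj, ⟨r, hr1, hr2⟩, r', hr3, hr4⟩ := hyp_mid hg h hp w
  set m := d x y with hm
  rw [hx] at hq1 hr1
  unfold Btw at hq1 hq3 hr1 hr3
  have pi0 := hp 0 i (by omega) hi
  have pj0 := hp 0 j (by omega) hj
  rw [hx] at pi0 pj0
  have pim := hp i m hi le_rfl
  have pjm := hp j m hj le_rfl
  -- distances to `y` instead of `p m`
  have y1 := hg.tri z y (p m)
  have y2 := hg.tri w y (p m)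
  have y3 := hg.symm y (p m)
  have sy1 := hg.symm y z
  have sy2 := hg.symm y w
  have s1 := hg.symm (p i) z
  have s2 := hg.symm (p j) w
  have s3 := hg.symm (p i) q
  have s4 := hg.symm (p i) q'
  have s5 := hg.symm (p j) r
  have s6 := hg.symm (p j) r'
  have s7 := hg.symm (p i) (p j)
  have s8 := hg.symm z (p i)
  -- triangle inequalities
  have a1 := hg.tri x q (p i)
  have a2 := hg.tri (p i) q z
  have a3 := hg.tri z q' (p i)
  have a4 := hg.tri (p i) q' (p m)
  have b1 := hg.tri x r (p j)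
  have b2 := hg.tri (p j) r w
  have b3 := hg.tri w r' (p j)
  have b4 := hg.tri (p j) r' (p m)
  have c1 := hg.tri z (p i) w
  have c2 := hg.tri (p i) (p j) w
  rcases le_total i j with hij | hij
  · right
    have e1 := hp i j hij hj
    omega
  · left
    have e1 := hp j i hij hi
    omega

variable {G : Type} [Group G] {e : G → G → ℕ}

theorem conv {δ R : ℕ} (hg : Geo e) (h : Hyp e δ) (hl : LeftInv e) {x u y g : G}
    (hb : Btw e x u y) (hm : Moves R e x y g) : e u (g * u) ≤ R + 2 * δ := by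
  unfold Btw at hb
  obtain ⟨m1, m2⟩ := hm
  have l1 := hl g x y
  have l2 := hl g x u
  have l3 := hl g u y
  have s1 := hg.symm y (g * u)
  have s2 := hg.symm x (g * u)
  have s3 := hg.symm (g * x) x
  have s4 := hg.symm (g * y) y
  have s5 := hg.symm (g * y) (g * u)
  have s6 := hg.symm (g * y) x
  have s7 := hg.symm (g * x) y
  have s8 := hg.symm u y
  have s9 := hg.symm (g * u) (g * x)
  have t1 := hg.tri x (g * x) (g * y)
  have t2 := hg.tri x y (g * y)
  have t3 := hg.tri (g * x) x y
  rcases h x y u (g * u) with h1 | h1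
  · rcases h (g * x) (g * y) (g * u) y with h2 | h2 <;> omega
  · rcases h (g * x) (g * y) (g * u) x with h2 | h2 <;> omega

end HYP

end Burn
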