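import Pool.Agent.Burn.WDefs
import Pool.Agent.Burn.Hyp

set_option autoImplicit false

/-!
# AXL : position and height functions, Behrstock inequality
-/

namespace Burn

section AXL
variable {X : Type} {d : X → X → ℕ} {c : ℤ} {P Q : X → ℤ}

theorem Axis.mono {c' : ℤ} (h : Axis d c P Q) (hle : c ≤ c') : Axis d c' P Q where
  nonneg := h.nonneg
  up x y := (h.up x y).trans (by linarith)
  low x y hxy := (h.low x y (hle.trans hxy)).trans (by linarith)
  lipP := h.lipP
  lipQ := h.lipQ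
  proj x := by
    obtain ⟨a, h1, h2⟩ := h.proj x
    exact ⟨a, h1.trans hle, h2.trans hle⟩

theorem Axis.axl_nonneg (h : Axis d c P Q) (x : X) : 0 ≤ c := by
  obtain ⟨a, h1, _⟩ := h.proj x
  exact (h.nonneg a).trans h1

/-- the key remark -/
theorem Axis.axl_key (h : Axis d c P Q) {x u y : X} (hb : Btw d x u y)
    (h1 : c ≤ |P x - P u|) (h2 : c ≤ |P u - P y|) :
    2 * Q u + |P x - P u| + |P u - P y| ≤ |P x - P y| + 3 * c := by
  have e1 := h.low x u h1
  have e2 := h.low u y h2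
  have e3 := h.up x y
  have e4 : (d x u : ℤ) + d u y = d x y := by exact_mod_cast hb
  linarith

theorem Axis.axq (hg : Geo d) (h : Axis d c P Q) {x u y : X} (hb : Btw d x u y) :
    Q u ≤ Q x + Q y + 2 * c := by
  have e4 : (d x u : ℤ) + d u y = d x y := by exact_mod_cast hb
  have t1 := abs_sub_le (P x) (P u) (P y)
  have n1 := h.nonneg x
  have n2 := h.nonneg y
  have n3 := h.nonneg u
  have hc := h.axl_nonneg x
  have up := h.up x y
  have q1 := (abs_le.1 (h.lipQ x u)).1
  have q2 := (abs_le.1 (h.lipQ u y)).2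
  by_cases h1 : c ≤ |P x - P u|
  · by_cases h2 : c ≤ |P u - P y|
    · have := h.axl_key hb h1 h2
      linarith
    · have := h.low x u h1
      push Not at h2
      linarith
  · push Not at h1
    by_cases h2 : c ≤ |P u - P y|
    · have := h.low u y h2
      linarith
    · push Not at h2
      linarith

theorem Axis.axm (hg : Geo d) (h : Axis d c P Q) {x u y : X} (hb : Btw d x u y) :
    |P x - P u| + |P u - P y| ≤ |P x - P y| + 3 * c := by
  have hc := h.axl_nonneg x
  have n3 := h.nonneg u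
  by_cases h1 : c ≤ |P x - P u|
  · by_cases h2 : c ≤ |P u - P y|
    · have := h.axl_key hb h1 h2
      linarith
    · push Not at h2
      have t1 := abs_sub_le (P x) (P y) (P u)
      rw [abs_sub_comm (P y) (P u)] at t1
      linarith
  · push Not at h1
    have t1 := abs_sub_le (P u) (P x) (P y)
    rw [abs_sub_comm (P u) (P x)] at t1
    linarith

theorem Axis.axl_neg (h : Axis d c P Q) : Axis d c (fun x => - P x) Q where
  nonneg := h.nonneg
  up x y := by
    have : |(-P x) - (-P y)| = |P x - P y| := by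
      rw [← abs_neg]
      congr 1
      ring
    rw [this]
    exact h.up x y
  low x y hxy := by
    have : |(-P x) - (-P y)| = |P x - P y| := by
      rw [← abs_neg]
      congr 1
      ring
    rw [this] at hxy ⊢
    exact h.low x y hxy
  lipP x y := by
    have : |(-P x) - (-P y)| = |P x - P y| := by
      rw [← abs_neg]
      congr 1
      ring
    rw [this]
    exact h.lipP x y
  lipQ := h.lipQ
  proj x := by
    obtain ⟨a, h1, h2⟩ := h.proj x
    refine ⟨a, h1, ?_⟩
    have : |(-P a) - (-P x)| = |P a - P x| := by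
      rw [← abs_neg]
      congr 1
      ring
    rw [this]
    exact h2

theorem Axis.axl_step (h : Axis d c P Q) {p : ℕ → X} {m : ℕ} (hp : IsPath d p m) (i : ℕ)
    (hi : i < m) : |P (p i) - P (p (i + 1))| ≤ 2 := by
  have h1 := h.lipP (p i) (p (i + 1))
  have h2 := hp i (i + 1) (Nat.le_succ i) hi
  rw [h2] at h1
  simpa using h1

theorem Axis.axl_path_aux (hg : Geo d) (h : Axis d c P Q) (hc : 10 ≤ c) {p : ℕ → X} {m : ℕ}
    (hp : IsPath d p m) (hab : P (p 0) + 6 * c ≤ P (p m)) :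
    ∃ i, i ≤ m ∧ Q (p i) ≤ 2 * c ∧ |P (p i) - P (p 0)| ≤ 2 * c := by
  obtain ⟨i, hi, h1, h2⟩ := ivt (f := fun i => P (p i)) (a := P (p 0) + c + 2) (m := m)
    (by norm_num : (0 : ℤ) ≤ 2) (fun i hi => h.axl_step hp i hi) (by show P (p 0) ≤ _; linarith)
    (by show _ ≤ P (p m); linarith)
  have h1' : P (p i) ≤ P (p 0) + c + 2 := h1
  have h2' : P (p 0) + c + 2 - 2 ≤ P (p i) := h2
  have e1 : |P (p 0) - P (p i)| = P (p i) - P (p 0) := by
    rw [abs_sub_comm, abs_of_nonneg (by linarith)]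
  have e2 : |P (p i) - P (p m)| = P (p m) - P (p i) := by
    rw [abs_sub_comm, abs_of_nonneg (by linarith)]
  have e3 : |P (p 0) - P (p m)| = P (p m) - P (p 0) := by
    rw [abs_sub_comm, abs_of_nonneg (by linarith)]
  have hk := h.axl_key (IsPath.btw hg hp hi) (by rw [e1]; linarith) (by rw [e2]; linarith)
  rw [e1, e2, e3] at hk
  refine ⟨i, hi, by linarith, ?_⟩
  rw [abs_sub_comm, e1]
  linarith

theorem Axis.axu_path (hg : Geo d) (h : Axis d c P Q) (hc : 10 ≤ c) {p : ℕ → X} {m : ℕ}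
    (hp : IsPath d p m) (hab : 6 * c ≤ |P (p 0) - P (p m)|) :
    ∃ i, i ≤ m ∧ Q (p i) ≤ 2 * c ∧ |P (p i) - P (p 0)| ≤ 2 * c := by
  rcases le_total (P (p 0)) (P (p m)) with hle | hle
  · rw [abs_sub_comm, abs_of_nonneg (by linarith)] at hab
    exact h.axl_path_aux hg hc hp (by linarith)
  · rw [abs_of_nonneg (by linarith)] at hab
    obtain ⟨i, hi, h1, h2⟩ := h.axl_neg.axl_path_aux hg hc hp (by linarith)
    refine ⟨i, hi, h1, ?_⟩
    have : |(-P (p i)) - (-P (p 0))| = |P (p i) - P (p 0)| := by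
      rw [← abs_neg]
      congr 1
      ring
    rw [this] at h2
    exact h2

theorem axl_zero (hg : Geo d) {x y : X} (h : d x y = 0) (w : X) : d w x = d w y := by
  have h1 := hg.tri w x y
  have h2 := hg.tri w y x
  have h3 := hg.symm x y
  omega

theorem Axis.axl_P_zero (h : Axis d c P Q) {x y : X} (h0 : d x y = 0) : P x = P y := by
  have h1 := h.lipP x y
  rw [h0] at h1
  have h2 := abs_nonpos_iff.1 (by simpa using h1 : |P x - P y| ≤ 0)
  linarith

theorem Axis.axl_Q_zero (h : Axis d c P Q) {x y : X} (h0 : d x y = 0) : Q x = Q y := by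
  have h1 := h.lipQ x y
  rw [h0] at h1
  have h2 := abs_nonpos_iff.1 (by simpa using h1 : |Q x - Q y| ≤ 0)
  linarith

theorem axl_btw (hg : Geo d) {a b : X} {p : ℕ → X} {m i : ℕ} (hp : IsPath d p m)
    (h0 : p 0 = a) (h1 : d (p m) b = 0) (hi : i ≤ m) : Btw d a (p i) b := by
  have h2 := IsPath.btw hg hp hi
  unfold Btw at h2 ⊢
  rw [h0] at h2
  rw [← axl_zero hg h1 (p i), ← axl_zero hg h1 a]
  exact h2

theorem Axis.axu (hg : Geo d) (h : Axis d c P Q) (hc : 10 ≤ c) {a b : X}
    (hab : 6 * c ≤ |P a - P b|) :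
    ∃ u, Btw d a u b ∧ Q u ≤ 2 * c ∧ |P u - P a| ≤ 2 * c := by
  obtain ⟨p, hp, h0, h1⟩ := exists_path hg a b
  have h2 := h.axl_P_zero h1
  obtain ⟨i, hi, h3, h4⟩ := h.axu_path hg hc hp (by rw [h0, h2]; exact hab)
  rw [h0] at h4
  exact ⟨p i, axl_btw hg hp h0 h1 hi, h3, h4⟩

theorem Axis.axn (hg : Geo d) (h : Axis d c P Q) (x : X) :
    ∃ a, Q a ≤ c ∧ |P a - P x| ≤ c ∧ 2 * (d x a : ℤ) ≤ Q x + 3 * c := by
  obtain ⟨a, h1, h2⟩ := h.proj x
  refine ⟨a, h1, h2, ?_⟩
  have h3 := h.up x a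
  rw [abs_sub_comm] at h2
  linarith

/-- points between `a` and `b` with a given position. -/
theorem Axis.axs (hg : Geo d) (h : Axis d c P Q) {a b : X} {v : ℤ} (h1 : P a ≤ v) (h2 : v ≤ P b) :
    ∃ u, Btw d a u b ∧ P u ≤ v ∧ v - 2 ≤ P u := by
  obtain ⟨p, hp, h0, h3⟩ := exists_path hg a b
  have h4 := h.axl_P_zero h3
  obtain ⟨i, hi, h5, h6⟩ := ivt (f := fun i => P (p i)) (a := v) (m := d a b)
    (by norm_num : (0 : ℤ) ≤ 2) (fun i hi => h.axl_step hp i hi)
    (by show P (p 0) ≤ v; rw [h0]; exact h1)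
    (by show v ≤ P (p (d a b)); rw [h4]; exact h2)
  exact ⟨p i, axl_btw hg hp h0 h3 hi, h5, h6⟩

end AXL

section FAMLEM
variable {G : Type} [Group G] {ι : Type} [MulAction G ι] {c Δ T0 : ℤ} {z : G} {d : G → G → ℕ}
  {P Q : ι → G → ℤ} {r : ι → G} {T : ι → ℤ}

/-- Behrstock inequality. -/
theorem Fam.beh (F : Fam c Δ T0 z d P Q r T) {E E' : ι} (hne : E ≠ E') {x u v : G}
    (hu : Q E' u ≤ 2 * c) (hv : Q E v ≤ 2 * c) :
    |P E x - P E u| ≤ Δ + 6 * c ∨ |P E' x - P E' v| ≤ Δ + 6 * c := by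
  have hg := F.base.geo
  have hc := F.hc
  have hΔ := F.hΔ
  by_contra hcon
  push Not at hcon
  obtain ⟨h1, h2⟩ := hcon
  obtain ⟨w, w1, w2, w3⟩ := (F.axis E).axu hg (by linarith) (a := x) (b := u) (by linarith)
  have o1 := F.ov E' E w v (Ne.symm hne) (by linarith) (by linarith)
  have t1 := abs_sub_le (P E' x) (P E' w) (P E' v)
  have h3 : 6 * c ≤ |P E' x - P E' w| := by linarith
  obtain ⟨w', v1, v2, v3⟩ := (F.axis E').axu hg (by linarith) (a := x) (b := w) h3
  have hb := (Btw.trans hg w1 v1).2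
  have m1 := (F.axis E).axm hg hb
  have o2 := F.ov E E' w' u hne (by linarith) (by linarith)
  have t2 := abs_sub_le (P E x) (P E w) (P E u)
  rw [abs_sub_comm (P E x) (P E w)] at t2
  have n1 := abs_nonneg (P E w' - P E w)
  linarith

/-- nontrivial powers of the rotation move all points far. -/
theorem Fam.shz (F : Fam c Δ T0 z d P Q r T) (E : ι) {k : ℤ} (hk : k ≠ 0) (x : G) :
    T E - c ≤ |P E (r E ^ k * x) - P E x| := by
  obtain ⟨n, rfl | rfl⟩ := k.eq_nat_or_neg
  · have hn : 1 ≤ n := by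
      by_contra h
      apply hk
      have : n = 0 := by omega
      rw [this]
      rfl
    have h1 := F.sh E n x hn
    rw [zpow_natCast]
    exact h1.trans (le_abs_self _)
  · have hn : 1 ≤ n := by
      by_contra h
      apply hk
      have : n = 0 := by omega
      rw [this]
      rfl
    have h1 := F.sh E n (r E ^ (-(n : ℤ)) * x) hn
    have h2 : r E ^ n * (r E ^ (-(n : ℤ)) * x) = x := by
      rw [← mul_assoc, ← zpow_natCast, ← zpow_add]
      simp
    rw [h2] at h1
    rw [abs_sub_comm]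
    exact h1.trans (le_abs_self _)

theorem Fam.rpow_smul (F : Fam c Δ T0 z d P Q r T) (E : ι) (k : ℤ) : r E ^ k • E = E := by
  have h1 : r E ∈ MulAction.stabilizer G E := F.rfix E
  exact (MulAction.stabilizer G E).zpow_mem h1 k

theorem Fam.Q_stab (F : Fam c Δ T0 z d P Q r T) {E : ι} {g : G} (h : g • E = E) (x : G) :
    Q E (g * x) = Q E x := by
  have h1 := F.eqQ g E x
  rw [h] at h1
  exact h1

/-- the elements of the stabiliser act as translations. -/
theorem Fam.P_stab (F : Fam c Δ T0 z d P Q r T) {E : ι} {g : G} (h : g • E = E) (x y : G) :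
    |(P E (g * x) - P E x) - (P E (g * y) - P E y)| ≤ c := by
  have h1 := F.eqP g E x y
  rw [h] at h1
  have h2 : (P E (g * x) - P E x) - (P E (g * y) - P E y) =
      (P E (g * x) - P E (g * y)) - (P E x - P E y) := by ring
  rw [h2]
  exact h1

theorem Fam.KK_normal (F : Fam c Δ T0 z d P Q r T) : (KK r).Normal := by
  constructor
  intro n hn g
  unfold KK at hn ⊢
  induction hn using Subgroup.closure_induction with
  | mem x hx =>
    obtain ⟨E, rfl⟩ := hx
    rw [← F.rconj g E]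
    exact Subgroup.subset_closure ⟨g • E, rfl⟩
  | one =>
    have : g * 1 * g⁻¹ = 1 := by group
    rw [this]
    exact Subgroup.one_mem _
  | mul x y _ _ hx hy =>
    have : g * (x * y) * g⁻¹ = (g * x * g⁻¹) * (g * y * g⁻¹) := by group
    rw [this]
    exact Subgroup.mul_mem _ hx hy
  | inv x _ hx =>
    have : g * x⁻¹ * g⁻¹ = (g * x * g⁻¹)⁻¹ := by group
    rw [this]
    exact Subgroup.inv_mem _ hx

theorem Fam.KK_rot (E : ι) (k : ℤ) : r E ^ k ∈ KK r :=
  Subgroup.zpow_mem _ (Subgroup.subset_closure (Set.mem_range_self E)) k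

theorem Fam.P_zero (F : Fam c Δ T0 z d P Q r T) (E : ι) {x y : G} (h : d x y = 0) :
    P E x = P E y ∧ Q E x = Q E y :=
  ⟨(F.axis E).axl_P_zero h, (F.axis E).axl_Q_zero h⟩

end FAMLEM

end Burn
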