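import Pool.Agent.Burn.Prod

set_option autoImplicit false

/-!
# The axis of a loxodromic element
-/

namespace Burn

open Filter

section AXIS
variable {G : Type} [Group G] {d : G → G → ℕ} {z : G} {δ : ℕ}

/-- limits along an ultrafilter -/
theorem axis_lim {f : ℕ → ℤ} {B : ℕ} (h : ∀ N, |f N| ≤ B) :
    ∃ v : ℤ, ∀ᶠ N in (hyperfilter ℕ : Filter ℕ), f N = v := by
  have h1 : (⋃ v ∈ Set.Icc (-(B : ℤ)) B, {N | f N = v}) ∈ hyperfilter ℕ := by
    have : (⋃ v ∈ Set.Icc (-(B : ℤ)) B, {N | f N = v}) = Set.univ := by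
      ext N
      simp only [Set.mem_iUnion, Set.mem_univ, iff_true]
      exact ⟨f N, abs_le.1 (h N), rfl⟩
    rw [this]
    exact Filter.univ_mem
  rw [Ultrafilter.finite_biUnion_mem_iff (Set.finite_Icc _ _)] at h1
  obtain ⟨v, -, hv⟩ := h1
  exact ⟨v, hv⟩

theorem axis_ge (K : ℕ) : ∀ᶠ N in (hyperfilter ℕ : Filter ℕ), K ≤ N :=
  (eventually_ge_atTop K).filter_mono Nat.hyperfilter_le_atTop

/-- homogenisation of a quasi-morphism on `ℕ` -/
theorem axis_homog {t : ℕ → ℤ} {K : ℕ} (h : ∀ m n, |t (m + n) - t m - t n| ≤ K) :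
    ∃ τ : ℝ, ∀ n, |(t n : ℝ) - n * τ| ≤ K := by
  have hr : ∀ m n, |(t (m + n) : ℝ) - t m - t n| ≤ K := by
    intro m n
    exact_mod_cast h m n
  have hlin : ∀ n, |(t n : ℝ)| ≤ n * (|(t 1 : ℝ)| + K) + |(t 0 : ℝ)| := by
    intro n
    induction n with
    | zero => simp
    | succ n ih =>
      have h1 := abs_le.1 (hr n 1)
      have h2 := abs_le.1 ih
      have h3 := neg_abs_le (t 1 : ℝ)
      have h4 := le_abs_self (t 1 : ℝ)
      push_cast
      rw [abs_le]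
      constructor <;> linarith [h1.1, h1.2, h2.1, h2.2]
  have hsub : ∀ e : ℝ, |e| = 1 → Subadditive (fun n => e * (t n : ℝ) + K) := by
    intro e he m n
    have h1 := hr m n
    have h2 : |e * ((t (m + n) : ℝ) - t m - t n)| ≤ K := by rw [abs_mul, he, one_mul]; exact h1
    have h3 := (abs_le.1 h2).2
    simp only
    linarith
  have hbdd : ∀ e : ℝ, |e| = 1 → BddBelow (Set.range fun n : ℕ => (e * (t n : ℝ) + K) / n) := by
    intro e he
    refine ⟨-(|(t 1 : ℝ)| + K + |(t 0 : ℝ)|), ?_⟩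
    rintro _ ⟨n, rfl⟩
    simp only
    have hK : (0 : ℝ) ≤ K := Nat.cast_nonneg K
    have a1 := abs_nonneg (t 1 : ℝ)
    have a0 := abs_nonneg (t 0 : ℝ)
    rcases Nat.eq_zero_or_pos n with h0 | h0
    · rw [h0]
      simp only [Nat.cast_zero, div_zero]
      linarith
    · have hn : (1 : ℝ) ≤ n := by exact_mod_cast h0
      rw [le_div_iff₀ (by linarith)]
      have h1 : |e * (t n : ℝ)| ≤ n * (|(t 1 : ℝ)| + K) + |(t 0 : ℝ)| := by
        rw [abs_mul, he, one_mul]; exact hlin n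
      have h2 := (abs_le.1 h1).1
      nlinarith
  have e1 : |(1 : ℝ)| = 1 := abs_one
  have e2 : |(-1 : ℝ)| = 1 := by rw [abs_neg, abs_one]
  have l1 := (hsub 1 e1).tendsto_lim (hbdd 1 e1)
  have l2 := (hsub (-1) e2).tendsto_lim (hbdd (-1) e2)
  have l3 : Tendsto (fun n : ℕ => (2 * (K : ℝ)) / n) atTop (nhds 0) :=
    tendsto_const_div_atTop_nhds_zero_nat _
  have l4 := l1.add l2
  have l5 : (hsub 1 e1).lim + (hsub (-1) e2).lim = 0 := by
    refine tendsto_nhds_unique l4 (l3.congr fun n => ?_)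
    rw [← add_div]
    congr 1
    ring
  refine ⟨(hsub 1 e1).lim, fun n => ?_⟩
  rcases Nat.eq_zero_or_pos n with h0 | h0
  · rw [h0]
    have h1 := hr 0 0
    simp only [add_zero, sub_self, zero_sub, abs_neg] at h1
    simpa using h1
  · have hn : (0 : ℝ) < n := by exact_mod_cast h0
    have h1 := (hsub 1 e1).lim_le_div (hbdd 1 e1) h0.ne'
    have h2 := (hsub (-1) e2).lim_le_div (hbdd (-1) e2) h0.ne'
    rw [le_div_iff₀ hn] at h1 h2
    have h3 : (hsub (-1) e2).lim = -(hsub 1 e1).lim := by linarith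
    rw [h3] at h2
    rw [abs_le]
    constructor <;> linarith

/-- four points -/
theorem axis_4 (hB : Base δ z d) {x p q : G} {C : ℕ} (hx : d x 1 ≤ C)
    (h : d p q + (2 * C + δ + 1) ≤ d 1 p + d 1 q) :
    |((d x p : ℤ) - d 1 p) - ((d x q : ℤ) - d 1 q)| ≤ δ := by
  have hg := hB.geo
  have s1 := hg.symm x 1
  have s2 := hg.symm p 1
  have s3 := hg.symm q 1
  have s4 := hg.symm p q
  have t1 := hg.tri 1 x p
  have t2 := hg.tri 1 x q
  rw [abs_le]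
  rcases hB.hyp x p 1 q with h1 | h1 <;> rcases hB.hyp x q 1 p with h2 | h2 <;>
    constructor <;> omega

theorem axis_inv (hB : Base δ z d) (u : G) : d 1 u⁻¹ = d 1 u := by
  have h1 := hB.left u 1 u⁻¹
  rw [mul_one, mul_inv_cancel] at h1
  rw [← h1, hB.geo.symm]

theorem axis_pow (hB : Base δ z d) (g : G) {N M : ℕ} (h : N ≤ M) :
    d (g ^ N) (g ^ M) = d 1 (g ^ (M - N)) ∧ d (g ^ N)⁻¹ (g ^ M)⁻¹ = d 1 (g ^ (M - N)) := by
  have e : g ^ M = g ^ N * g ^ (M - N) := by rw [← pow_add, Nat.add_sub_cancel' h]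
  have e' : g ^ M = g ^ (M - N) * g ^ N := by rw [← pow_add, Nat.sub_add_cancel h]
  constructor
  · have h1 := hB.left (g ^ N) 1 (g ^ (M - N))
    rw [mul_one, ← e] at h1
    exact h1
  · have h1 := hB.left (g ^ M) (g ^ N)⁻¹ (g ^ M)⁻¹
    rw [mul_inv_cancel] at h1
    rw [← h1, hB.geo.symm, e', mul_assoc, mul_inv_cancel, mul_one]

theorem axis_far {κ : ℕ} {g : G} (hB : Base δ z d) (hL : Lox d κ g) (K : ℕ) :
    ∃ N0 : ℕ, ∀ N M : ℕ, N0 ≤ N → N0 ≤ M → d (g ^ N) (g ^ M) + K ≤ d 1 (g ^ N) + d 1 (g ^ M) ∧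
      d (g ^ N)⁻¹ (g ^ M)⁻¹ + K ≤ d 1 (g ^ N)⁻¹ + d 1 (g ^ M)⁻¹ := by
  obtain ⟨B, hb⟩ := lox_products hB hL 1
  simp only [mul_one] at hb
  have hκ : 0 < κ := by
    have := hL 1 1
    by_contra h
    have h0 : κ = 0 := by omega
    rw [h0] at this
    omega
  have hs : ∀ N : ℕ, κ * (K + B) ≤ N → K + B ≤ d 1 (g ^ N) := by
    intro N hN
    have h1 := hL N 1
    rw [mul_one] at h1
    exact Nat.le_of_mul_le_mul_left (hN.trans h1) hκ
  have key : ∀ N M : ℕ, κ * (K + B) ≤ N → N ≤ M →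
      d 1 (g ^ (M - N)) + K ≤ d 1 (g ^ N) + d 1 (g ^ M) := by
    intro N M hN hNM
    have h1 := hb N (M - N)
    rw [Nat.add_sub_cancel' hNM] at h1
    have h2 := hs N hN
    omega
  refine ⟨κ * (K + B), fun N M hN hM => ?_⟩
  rw [axis_inv hB, axis_inv hB]
  rcases le_total N M with h | h
  · obtain ⟨e1, e2⟩ := axis_pow hB g h
    have := key N M hN h
    rw [e1, e2]
    exact ⟨this, this⟩
  · obtain ⟨e1, e2⟩ := axis_pow hB g h
    have := key M N hM h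
    rw [hB.geo.symm (g ^ N) (g ^ M), hB.geo.symm (g ^ N)⁻¹ (g ^ M)⁻¹, e1, e2]
    exact ⟨by omega, by omega⟩

theorem axis_large {κ : ℕ} {g : G} (hL : Lox d κ g) (K : ℕ) :
    ∀ᶠ N in (hyperfilter ℕ : Filter ℕ), K ≤ d 1 (g ^ N) := by
  filter_upwards [axis_ge (κ * K + 1)] with N hN
  have h1 := hL N 1
  rw [mul_one] at h1
  by_contra h
  push Not at h
  have h2 : κ * d 1 (g ^ N) ≤ κ * K := Nat.mul_le_mul_left κ h.le
  omega

/-- the limit data of an axis -/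
structure AxLim (d : G → G → ℕ) (g : G) (α β : G → ℤ) (w : ℤ) : Prop where
  a : ∀ x, ∀ᶠ N in (hyperfilter ℕ : Filter ℕ), (d x (g ^ N) : ℤ) - d 1 (g ^ N) = α x
  b : ∀ x, ∀ᶠ N in (hyperfilter ℕ : Filter ℕ), (d x (g ^ N)⁻¹ : ℤ) - d 1 (g ^ N)⁻¹ = β x
  w : ∀ᶠ N in (hyperfilter ℕ : Filter ℕ), 2 * (d 1 (g ^ N) : ℤ) - d (g ^ N) (g ^ N)⁻¹ = w

theorem axis_lims {κ : ℕ} {g : G} (hB : Base δ z d) (hL : Lox d κ g) :
    ∃ (α β : G → ℤ) (w : ℤ), AxLim d g α β w := by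
  have hg := hB.geo
  have h1 : ∀ x, ∃ v : ℤ, ∀ᶠ N in (hyperfilter ℕ : Filter ℕ),
      (d x (g ^ N) : ℤ) - d 1 (g ^ N) = v := by
    intro x
    refine axis_lim (B := d x 1) fun N => ?_
    have t1 := hg.tri x 1 (g ^ N)
    have t2 := hg.tri 1 x (g ^ N)
    have s1 := hg.symm x 1
    rw [abs_le]
    constructor <;> omega
  have h2 : ∀ x, ∃ v : ℤ, ∀ᶠ N in (hyperfilter ℕ : Filter ℕ),
      (d x (g ^ N)⁻¹ : ℤ) - d 1 (g ^ N)⁻¹ = v := by
    intro x
    refine axis_lim (B := d x 1) fun N => ?_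
    have t1 := hg.tri x 1 (g ^ N)⁻¹
    have t2 := hg.tri 1 x (g ^ N)⁻¹
    have s1 := hg.symm x 1
    rw [abs_le]
    constructor <;> omega
  have h3 : ∃ v : ℤ, ∀ᶠ N in (hyperfilter ℕ : Filter ℕ),
      2 * (d 1 (g ^ N) : ℤ) - d (g ^ N) (g ^ N)⁻¹ = v := by
    obtain ⟨B, hb⟩ := lox_products hB hL 1
    simp only [mul_one] at hb
    refine axis_lim (B := B) fun N => ?_
    have e1 := hB.left (g ^ N) (g ^ N)⁻¹ (g ^ N)
    rw [mul_inv_cancel, ← pow_add] at e1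
    have s1 := hg.symm (g ^ N) (g ^ N)⁻¹
    have e2 := hb N N
    have t1 := hg.tri (g ^ N)⁻¹ 1 (g ^ N)
    have s2 := hg.symm (g ^ N)⁻¹ 1
    have e3 := axis_inv hB (g ^ N)
    rw [abs_le]
    constructor <;> omega
  choose α hα using h1
  choose β hβ using h2
  obtain ⟨w, hw⟩ := h3
  exact ⟨α, β, w, hα, hβ, hw⟩

theorem axis_axis {κ : ℕ} {g : G} (hB : Base δ z d) (hδ : 1 ≤ δ) (hL : Lox d κ g)
    {α β : G → ℤ} {w : ℤ} (h : AxLim d g α β w) :
    Axis d (3 * (δ : ℤ)) (fun x => β x - α x) (fun x => α x + β x + w) := by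
  have hg := hB.geo
  have hi := axis_inv hB
  refine ⟨fun x => ?_, fun x y => ?_, fun x y hxy => ?_, fun x y => ?_, fun x y => ?_, fun x => ?_⟩
  · obtain ⟨N, ha, hb, hw⟩ := ((h.a x).and ((h.b x).and h.w)).exists
    have t1 := hg.tri (g ^ N) x (g ^ N)⁻¹
    have s1 := hg.symm (g ^ N) x
    have e1 := hi (g ^ N)
    omega
  · obtain ⟨N, ha, hb, ha', hb', hw⟩ :=
      ((h.a x).and ((h.b x).and ((h.a y).and ((h.b y).and h.w)))).exists
    have e1 := hi (g ^ N)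
    have s1 := le_abs_self (β x - α x - (β y - α y))
    have s2 := neg_abs_le (β x - α x - (β y - α y))
    rcases hB.hyp x y (g ^ N) (g ^ N)⁻¹ with h1 | h1 <;> omega
  · obtain ⟨N, ha, hb, ha', hb', hw⟩ :=
      ((h.a x).and ((h.b x).and ((h.a y).and ((h.b y).and h.w)))).exists
    have e1 := hi (g ^ N)
    have s1 := hg.symm x (g ^ N)
    have s2 := hg.symm y (g ^ N)
    have s3 := hg.symm x (g ^ N)⁻¹
    have s4 := hg.symm y (g ^ N)⁻¹
    have s5 := hg.symm x y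
    have s6 := hg.symm (g ^ N) (g ^ N)⁻¹
    rcases abs_cases (β x - α x - (β y - α y)) with h1 | h1
    · rcases hB.hyp x (g ^ N)⁻¹ y (g ^ N) with h2 | h2 <;> omega
    · rcases hB.hyp x (g ^ N) y (g ^ N)⁻¹ with h2 | h2 <;> omega
  · obtain ⟨N, ha, hb, ha', hb'⟩ := ((h.a x).and ((h.b x).and ((h.a y).and (h.b y)))).exists
    have t1 := hg.tri x y (g ^ N)
    have t2 := hg.tri y x (g ^ N)
    have t3 := hg.tri x y (g ^ N)⁻¹
    have t4 := hg.tri y x (g ^ N)⁻¹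
    have s1 := hg.symm x y
    rw [abs_le]
    constructor <;> omega
  · obtain ⟨N, ha, hb, ha', hb'⟩ := ((h.a x).and ((h.b x).and ((h.a y).and (h.b y)))).exists
    have t1 := hg.tri x y (g ^ N)
    have t2 := hg.tri y x (g ^ N)
    have t3 := hg.tri x y (g ^ N)⁻¹
    have t4 := hg.tri y x (g ^ N)⁻¹
    have s1 := hg.symm x y
    rw [abs_le]
    constructor <;> omega
  · -- a point near the axis
    obtain ⟨C, hC⟩ : ∃ C : ℕ, 2 * (d x 1 : ℤ) + (α x + β x + w) + 1 + 2 * δ ≤ C :=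
      ⟨(2 * (d x 1 : ℤ) + (α x + β x + w) + 1 + 2 * δ).toNat, Int.self_le_toNat _⟩
    obtain ⟨N0, hN0⟩ := axis_far hB hL (2 * C + δ + 1)
    obtain ⟨M, hM, ha, hb, hw⟩ :=
      ((axis_ge N0).and ((h.a x).and ((h.b x).and h.w))).exists
    have e1 := hi (g ^ M)
    -- the point
    set ξ := g ^ M with hξ
    have t1 := hg.tri ξ⁻¹ x ξ
    have t2 := hg.tri x ξ⁻¹ ξ
    have t3 := hg.tri x ξ ξ⁻¹
    have s1 := hg.symm ξ x
    have s2 := hg.symm ξ⁻¹ x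
    have s3 := hg.symm ξ ξ⁻¹
    obtain ⟨k, hk1, hk2⟩ : ∃ k : ℕ, (2 * (k : ℤ) ≤ d ξ⁻¹ ξ + ((d x ξ⁻¹ : ℤ) - d x ξ)) ∧
        ((d ξ⁻¹ ξ : ℤ) + ((d x ξ⁻¹ : ℤ) - d x ξ) ≤ 2 * k + 1) :=
      ⟨(((d ξ⁻¹ ξ : ℤ) + ((d x ξ⁻¹ : ℤ) - d x ξ)) / 2).toNat, by omega, by omega⟩
    obtain ⟨a, ha1, ha2⟩ := hg.mid ξ⁻¹ ξ k (d ξ⁻¹ ξ - k) (by omega)
    have s4 := hg.symm ξ⁻¹ a
    have s5 := hg.symm ξ a
    have s6 := hg.symm x a
    have hxa : 2 * (d x a : ℤ) ≤ (α x + β x + w) + 1 + 2 * δ := by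
      rcases hB.hyp x a ξ⁻¹ ξ with h1 | h1 <;> omega
    have ta := hg.tri a x 1
    have haC : d a 1 ≤ C := by omega
    obtain ⟨N, hN, hav, hbv⟩ := ((axis_ge N0).and ((h.a a).and (h.b a))).exists
    obtain ⟨f1, f2⟩ := hN0 N M hN hM
    have g1 := abs_le.1 (axis_4 hB haC f1)
    have g2 := abs_le.1 (axis_4 hB haC f2)
    rw [← hξ] at g1 g2
    refine ⟨a, ?_, ?_⟩
    · omega
    · rw [abs_le]
      constructor <;> omega

/-- shifts -/
theorem axis_shift {κ : ℕ} {g k : G} (hB : Base δ z d) (hL : Lox d κ g) (hk : Bdd d g k)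
    {α β : G → ℤ} {w : ℤ} (h : AxLim d g α β w) (x : G) :
    |α (k * x) - α x - α k| ≤ δ ∧ |β (k * x) - β x - β k| ≤ δ := by
  obtain ⟨B, hb⟩ := hk
  have hg := hB.geo
  have hl := hB.left
  have hi := axis_inv hB
  obtain ⟨N, hN, ha1, ha2, ha3, hb1, hb2, hb3⟩ := ((axis_large hL (2 * d x 1 + 2 * B + δ + 1)).and
    ((h.a (k * x)).and ((h.a x).and ((h.a k).and ((h.b (k * x)).and ((h.b x).and (h.b k))))))).exists
  have e1 := hi (g ^ N)
  have key : ∀ ζ : G, d (k * ζ) ζ ≤ B → 2 * d x 1 + 2 * B + δ + 1 ≤ d 1 ζ →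
      |((d x (k⁻¹ * ζ) : ℤ) - d 1 (k⁻¹ * ζ)) - ((d x ζ : ℤ) - d 1 ζ)| ≤ δ := by
    intro ζ h1 h2
    refine axis_4 hB le_rfl ?_
    have e2 := hl k (k⁻¹ * ζ) ζ
    rw [mul_inv_cancel_left] at e2
    have s1 := hg.symm ζ (k * ζ)
    have t1 := hg.tri 1 (k⁻¹ * ζ) ζ
    omega
  have l1 : ∀ ζ : G, d (k * x) ζ = d x (k⁻¹ * ζ) := by
    intro ζ
    rw [← hl k x, mul_inv_cancel_left]
  have l2 : ∀ ζ : G, d k ζ = d 1 (k⁻¹ * ζ) := by
    intro ζ
    rw [← hl k 1, mul_inv_cancel_left, mul_one]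
  have k1 := key (g ^ N) (by have := hb N; rwa [zpow_natCast] at this) hN
  have k2 := key (g ^ N)⁻¹ (by have := hb (-N); rwa [zpow_neg, zpow_natCast] at this) (by omega)
  rw [← l1, ← l2] at k1 k2
  rw [← ha1, ← ha2, ← ha3, ← hb1, ← hb2, ← hb3]
  rw [abs_le] at k1 k2
  constructor <;> rw [abs_le] <;> constructor <;> omega

theorem axis_bdd_pow {g k : G} (hB : Base δ z d) (hk : Bdd d g k) (n : ℕ) : Bdd d g (k ^ n) := by
  obtain ⟨B, hb⟩ := hk
  refine ⟨n * B, fun N => ?_⟩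
  induction n with
  | zero =>
    have := hB.geo.refl (g ^ N)
    simp only [pow_zero, one_mul]
    omega
  | succ n ih =>
    have e1 : d (k ^ (n + 1) * g ^ N) (k ^ n * g ^ N) = d (k * g ^ N) (g ^ N) := by
      rw [pow_succ, mul_assoc, hB.left]
    have t1 := hB.geo.tri (k ^ (n + 1) * g ^ N) (k ^ n * g ^ N) (g ^ N)
    have h1 := hb N
    have e2 : (n + 1) * B = n * B + B := by ring
    omega

theorem exists_axis {κ : ℕ} {g : G} (hB : Base δ z d) (hδ : 1 ≤ δ) (hL : Lox d κ g) :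
    ∃ P Q : G → ℤ, AxisOf d (50 * (δ : ℤ)) g P Q := by
  obtain ⟨α, β, w, h⟩ := axis_lims hB hL
  have hA := axis_axis hB hδ hL h
  have hδ' : (1 : ℤ) ≤ δ := by exact_mod_cast hδ
  refine ⟨fun x => β x - α x, fun x => α x + β x + w, ⟨hA.nonneg, fun x y => ?_,
    fun x y hxy => ?_, hA.lipP, hA.lipQ, fun x => ?_⟩, fun k hk => ?_, fun k hk x => ?_⟩
  · have := hA.up x y
    linarith
  · have := hA.low x y (by linarith)
    linarith
  · obtain ⟨a, ha1, ha2⟩ := hA.proj x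
    exact ⟨a, by linarith, by linarith⟩
  · -- the shift
    obtain ⟨τ, hτ⟩ := axis_homog (t := fun n => β (k ^ n) - α (k ^ n)) (K := 2 * δ) (by
      intro m n
      obtain ⟨h1, h2⟩ := axis_shift hB hL (axis_bdd_pow hB hk m) h (k ^ n)
      rw [← pow_add] at h1 h2
      rw [abs_le] at h1 h2 ⊢
      push_cast
      constructor <;> linarith [h1.1, h1.2, h2.1, h2.2])
    have key : ∀ (n : ℕ) (x : G),
        |((β (k ^ n * x) - α (k ^ n * x) : ℤ) : ℝ) - ((β x - α x : ℤ) : ℝ) - n * τ| ≤ 4 * δ := by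
      intro n x
      obtain ⟨h1, h2⟩ := axis_shift hB hL (axis_bdd_pow hB hk n) h x
      have h3 := hτ n
      have h1' : |(α (k ^ n * x) : ℝ) - α x - α (k ^ n)| ≤ δ := by exact_mod_cast h1
      have h2' : |(β (k ^ n * x) : ℝ) - β x - β (k ^ n)| ≤ δ := by exact_mod_cast h2
      rw [abs_le] at h1' h2' h3 ⊢
      push_cast at h3 ⊢
      constructor <;> linarith [h1'.1, h1'.2, h2'.1, h2'.2, h3.1, h3.2]
    have hd : (0 : ℝ) ≤ δ := Nat.cast_nonneg δ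
    refine ⟨τ, fun m x => ?_⟩
    push_cast
    rcases Int.eq_nat_or_neg m with ⟨n, rfl | rfl⟩
    · have h1 := key n x
      rw [zpow_natCast]
      push_cast at h1 ⊢
      exact h1.trans (by linarith)
    · have h1 := key n (k ^ (-(n : ℤ)) * x)
      rw [zpow_neg, zpow_natCast, mul_inv_cancel_left] at h1
      rw [zpow_neg, zpow_natCast]
      rw [abs_le] at h1 ⊢
      push_cast at h1 ⊢
      constructor <;> linarith [h1.1, h1.2]
  · -- the heights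
    obtain ⟨a, ha, -⟩ := hA.proj 1
    have n1 := hA.nonneg (k * a)
    have n2 := hA.nonneg (k⁻¹ * a)
    obtain ⟨h1, h2⟩ := axis_shift hB hL hk h a
    obtain ⟨h3, h4⟩ := axis_shift hB hL hk h (k⁻¹ * a)
    rw [mul_inv_cancel_left] at h3 h4
    obtain ⟨h5, h6⟩ := axis_shift hB hL hk h x
    rw [abs_le] at h1 h2 h3 h4 h5 h6 ⊢
    constructor <;> linarith [h1.1, h1.2, h2.1, h2.2, h3.1, h3.2, h4.1, h4.2, h5.1, h5.2, h6.1,
      h6.2]

theorem AxisOf.mono {c c' : ℤ} {g : G} {P Q : G → ℤ} (h : AxisOf d c g P Q) (hle : c ≤ c') :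
    AxisOf d c' g P Q := by
  refine ⟨⟨h.axis.nonneg, fun x y => ?_, fun x y hxy => ?_, h.axis.lipP, h.axis.lipQ,
    fun x => ?_⟩, fun k hk => ?_, fun k hk x => ?_⟩
  · have := h.axis.up x y
    linarith
  · have := h.axis.low x y (hle.trans hxy)
    linarith
  · obtain ⟨a, ha1, ha2⟩ := h.axis.proj x
    exact ⟨a, ha1.trans hle, ha2.trans hle⟩
  · obtain ⟨t, ht⟩ := h.sh k hk
    refine ⟨t, fun m x => (ht m x).trans ?_⟩
    exact_mod_cast hle
  · exact (h.ht k hk x).trans hle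

theorem AxisOf.neg {c : ℤ} {g : G} {P Q : G → ℤ} (h : AxisOf d c g P Q) :
    AxisOf d c g (fun x => - P x) Q := by
  have e : ∀ x y, |(-P x) - (-P y)| = |P x - P y| := by
    intro x y
    rw [← abs_neg]
    congr 1
    ring
  refine ⟨⟨h.axis.nonneg, fun x y => ?_, fun x y hxy => ?_, fun x y => ?_, h.axis.lipQ,
    fun x => ?_⟩, fun k hk => ?_, h.ht⟩
  · rw [e]
    exact h.axis.up x y
  · rw [e] at hxy ⊢
    exact h.axis.low x y hxy
  · rw [e]
    exact h.axis.lipP x y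
  · obtain ⟨a, ha1, ha2⟩ := h.axis.proj x
    exact ⟨a, ha1, by rw [e]; exact ha2⟩
  · obtain ⟨t, ht⟩ := h.sh k hk
    refine ⟨-t, fun m x => ?_⟩
    have h1 := ht m x
    rw [← abs_neg] at h1
    refine le_trans (le_of_eq ?_) h1
    congr 1
    push_cast
    ring

end AXIS

end Burn
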