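import Pool.Agent.Burn.Grow

set_option autoImplicit false

/-!
# Bounded Gromov products of orbits
-/

namespace Burn

section AXIS
variable {G : Type} [Group G] {d : G → G → ℕ} {z : G} {δ : ℕ}

lemma prod_exp (c : ℕ) : ∃ r : ℕ, 1 ≤ r ∧ c * r < 2 ^ r := by
  refine ⟨2 * (c + 1), by omega, ?_⟩
  have h1 : c + 1 < 2 ^ (c + 1) := Nat.lt_two_pow_self
  have h2 : 2 * (c + 1) ≤ 2 ^ (c + 1) := by
    rw [pow_succ]
    have : c < 2 ^ c := Nat.lt_two_pow_self
    omega
  have h3 : 2 ^ (2 * (c + 1)) = 2 ^ (c + 1) * 2 ^ (c + 1) := by rw [two_mul, pow_add]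
  rw [h3]
  calc c * (2 * (c + 1)) ≤ c * 2 ^ (c + 1) := Nat.mul_le_mul_left _ h2
    _ < 2 ^ (c + 1) * 2 ^ (c + 1) := by
      apply Nat.mul_lt_mul_of_pos_right _ (by positivity)
      omega

/-- some power of two has quickly growing squares -/
lemma prod_two {κ : ℕ} {g : G} (hL : Lox d κ g) (x : G) (a : ℕ) :
    ∃ N : ℕ, 0 < N ∧ 2 * d x (g ^ N * x) + a < 2 * d x (g ^ (2 * N) * x) := by
  by_contra hcon
  push Not at hcon
  have h1 : ∀ r : ℕ, 2 * d x (g ^ (2 ^ r) * x) ≤ 2 * d x (g ^ 1 * x) + a * r := by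
    intro r
    induction r with
    | zero => simp
    | succ r ih =>
      have h2 := hcon (2 ^ r) (by positivity)
      rw [← pow_succ'] at h2
      have e : a * (r + 1) = a * r + a := by ring
      rw [e]
      omega
  obtain ⟨r, hr1, hr⟩ := prod_exp (κ * (2 * d x (g ^ 1 * x) + a))
  have h2 := h1 r
  have h3 := hL (2 ^ r) x
  have h4 : κ * (2 * d x (g ^ (2 ^ r) * x)) ≤ κ * (2 * d x (g ^ 1 * x) + a * r) :=
    Nat.mul_le_mul_left _ h2
  have h5 : κ * (2 * d x (g ^ 1 * x) + a * r) ≤ κ * (2 * d x (g ^ 1 * x) + a) * r := by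
    rw [mul_assoc]
    apply Nat.mul_le_mul_left
    nlinarith
  have h6 : κ * (2 * d x (g ^ (2 ^ r) * x)) = 2 * (κ * d x (g ^ (2 ^ r) * x)) := by ring
  omega

theorem lox_products {κ : ℕ} {g : G} (hB : Base δ z d) (hL : Lox d κ g) (x : G) :
    ∃ B : ℕ, ∀ i j : ℕ, d x (g ^ i * x) + d x (g ^ j * x) ≤ d x (g ^ (i + j) * x) + B := by
  obtain ⟨N, hN, h1⟩ := prod_two hL x (3 * δ)
  set M := ∑ r ∈ Finset.range N, d x (g ^ r * x) with hM
  have hMr : ∀ r, r < N → d x (g ^ r * x) ≤ M := fun r hr =>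
    Finset.single_le_sum (f := fun r => d x (g ^ r * x)) (fun _ _ => Nat.zero_le _)
      (Finset.mem_range.2 hr)
  -- adding exponents
  have hadd : ∀ i j : ℕ, d x (g ^ (i + j) * x) ≤ d x (g ^ i * x) + d x (g ^ j * x) ∧
      d x (g ^ i * x) ≤ d x (g ^ (i + j) * x) + d x (g ^ j * x) := by
    intro i j
    have t1 := hB.geo.tri x (g ^ i * x) (g ^ (i + j) * x)
    have t2 := hB.geo.tri x (g ^ (i + j) * x) (g ^ i * x)
    rw [hB.geo.symm (g ^ (i + j) * x)] at t2
    rw [grow_dist hB.left] at t1 t2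
    exact ⟨t1, t2⟩
  have hmul : ∀ i : ℕ, (g ^ N) ^ i = g ^ (N * i) := fun i => (pow_mul g N i).symm
  obtain ⟨-, h2⟩ := grow (g := g ^ N) (x := x) (a := 2 * d x (g ^ N * x) - d x (g ^ (2 * N) * x))
    hB.geo hB.hyp hB.left (by rw [hmul, mul_comm N 2]; omega) (by
      have := (hadd N N).1
      rw [← two_mul N] at this
      omega)
  set a := 2 * d x (g ^ N * x) - d x (g ^ (2 * N) * x) with ha
  refine ⟨a + 2 * δ + 4 * M, ?_⟩
  intro i j
  have h3 := h2 (i / N) (j / N)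
  rw [hmul, hmul, hmul] at h3
  have hi := Nat.div_add_mod i N
  have hj := Nat.div_add_mod j N
  have mi := Nat.mod_lt i hN
  have mj := Nat.mod_lt j hN
  have b1 := (hadd (N * (i / N)) (i % N)).1
  rw [hi] at b1
  have b2 := (hadd (N * (j / N)) (j % N)).1
  rw [hj] at b2
  have b3 := (hadd (N * (i / N + j / N)) (i % N)).2
  have b4 := (hadd (N * (i / N + j / N) + i % N) (j % N)).2
  have e : N * (i / N + j / N) + i % N + j % N = i + j := by
    rw [mul_add]; omega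
  rw [e] at b4
  have c1 := hMr _ mi
  have c2 := hMr _ mj
  omega

end AXIS

end Burn
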