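import Pool.Agent.Burn.Rot

set_option autoImplicit false

/-!
# Segments with large angles : translates of a line along paths in the quotient
-/

namespace Burn

section Apx
variable {G : Type} [Group G] {ι : Type} [MulAction G ι] {n κ L k : ℕ} {c Δ T0 Θ : ℤ} {z : G}
  {d : G → G → ℕ} {P Q : ι → G → ℤ} {r : ι → G} {T : ι → ℤ} {γ : ι → G}

/-- the index of a jump is the distance to the line. -/
theorem apx_idx (V : Env n κ L k c Δ T0 Θ z d P Q r T γ) {E : ι} {q : ℕ → G} {m i : ℕ}
    (hq : IsPath (dh c d Q) q m) (hi : i < m) (h1 : Q E (q i) ≤ 2 * c)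
    (h2 : Q E (q (i + 1)) ≤ 2 * c) : dE c d Q E (q 0) = i ∧ dE c d Q E (q m) + i + 1 = m := by
  have F := V.fl.fam
  obtain ⟨⟨a, ha, ha'⟩, hmin, -⟩ := elec_dE F E (q 0)
  obtain ⟨⟨b, hb, hb'⟩, hmin', -⟩ := elec_dE F E (q m)
  have e1 := hmin _ h1
  have e2 := hmin' _ h2
  have e3 := hq 0 i (Nat.zero_le _) hi.le
  have e4 := hq (i + 1) m hi le_rfl
  have e5 := hq 0 m (Nat.zero_le _) le_rfl
  rw [V.geoh.symm] at e4
  have e6 := V.jmp E a b ha hb
  have e7 := V.geoh.tri (q 0) a (q m)
  have e8 := V.geoh.tri a b (q m)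
  have e9 := V.geoh.symm b (q m)
  omega

/-- translation of `Big`. -/
theorem apx_big_smul {l : ℤ} {E : ι} {x y g : G} (h : Big P l E (g * x) (g * y)) :
    Big P l (g⁻¹ • E) x y := by
  obtain ⟨a, ha⟩ := h
  refine ⟨a * g, ?_⟩
  have e : (a * g) • g⁻¹ • E = a • E := by
    rw [smul_smul]; congr 1; group
  rw [e, mul_assoc, mul_assoc]
  exact ha

theorem apx_big_one {l : ℤ} {E : ι} {x y : G} (h : l ≤ |P E x - P E y|) : Big P l E x y :=
  ⟨1, by simpa using h⟩

/-- a line with a big jump between points near another line is the other line. -/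
theorem apx_big_ov (V : Env n κ L k c Δ T0 Θ z d P Q r T γ) {E F : ι} {x y : G}
    (h : Big P (40 * Θ) E x y) (hx : Q F x ≤ 2 * c) (hy : Q F y ≤ 2 * c) : E = F := by
  by_contra hne
  have hF := V.fl.fam
  have hc := hF.hc
  have hΔ := hF.hΔ
  have hΘ := V.hΘ
  obtain ⟨a, ha⟩ := h
  have h1 := hF.ov E F x y hne (by linarith) (by linarith)
  have h2 := hF.eqP a E x y
  have h3 := abs_le.mp h1
  have h4 := abs_le.mp h2
  have h5 : |P (a • E) (a * x) - P (a • E) (a * y)| ≤ Δ + c := by
    rw [abs_le]; constructor <;> linarith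
  linarith

theorem apx (V : Env n κ L k c Δ T0 Θ z d P Q r T γ) {s t : G} {E : ι} {R : ℕ}
    (hred : ∀ F, 2 * |P F s - P F t| ≤ T F + 20 * Θ) (hE : 60 * Θ ≤ |P E s - P E t|)
    (h1 : R + k < dE c d Q E s) (h2 : R + k < dE c d Q E t) :
    ∀ a ∈ KK r, ∀ (q : ℕ → G) (m : ℕ), IsPath (dh c d Q) q m →
      (∀ b ∈ KK r, m ≤ dh c d Q (q 0) (b * q m)) → dh c d Q s (q 0) ≤ R →
      dh c d Q (a * t) (q m) ≤ R →
      ∃ b ∈ KK r, ∃ i : ℕ, i < m ∧ Q (b • E) (q i) ≤ 2 * c ∧ Q (b • E) (q (i + 1)) ≤ 2 * c ∧
        Big P (40 * Θ) (b • E) (q i) (q (i + 1)) ∧ i ≤ dE c d Q E s + R ∧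
        dE c d Q E s ≤ i + R := by
  have F := V.fl.fam
  have hc := F.hc
  have hΔ := F.hΔ
  have hΘ := V.hΘ
  have hbig := V.big
  intro a
  induction hN : d t (a * t) using Nat.strong_induction_on generalizing a with
  | _ N ih =>
  intro ha q m hq hmin hs ht
  by_cases ha1 : a = 1
  · -- the base case
    subst ha1
    rw [one_mul] at ht
    have f1 := V.farc E s (q 0) (by omega)
    have f2 := V.farc E t (q m) (by omega)
    have f1' := abs_le.mp f1
    have f2' := abs_le.mp f2
    have f3 : 60 * Θ - 12 * c ≤ |P E (q 0) - P E (q m)| := by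
      have : |P E s - P E t| ≤ |P E s - P E (q 0)| + |P E (q 0) - P E (q m)| +
          |P E (q m) - P E t| := by
        have := abs_add_three (P E s - P E (q 0)) (P E (q 0) - P E (q m)) (P E (q m) - P E t)
        simpa using this
      rw [abs_sub_comm (P E (q m))] at this
      linarith
    obtain ⟨i, hi, hi1, hi2⟩ := V.pass E q m hq (by linarith)
    obtain ⟨j1, j2⟩ := V.jump E q m i hq hi hi1 hi2
    obtain ⟨x1, x2⟩ := apx_idx V hq hi hi1 hi2
    obtain ⟨-, -, y1⟩ := elec_dE F E s
    obtain ⟨-, -, y2⟩ := elec_dE F E (q 0)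
    have y1' := y1 (q 0)
    have y2' := y2 s
    rw [V.geoh.symm] at y2'
    refine ⟨1, Subgroup.one_mem _, i, hi, by simpa using hi1, by simpa using hi2, ?_, by omega,
      by omega⟩
    rw [one_smul]
    apply apx_big_one
    have : |P E (q 0) - P E (q m)| ≤ |P E (q 0) - P E (q i)| + |P E (q i) - P E (q (i + 1))| +
        |P E (q (i + 1)) - P E (q m)| := by
      have := abs_add_three (P E (q 0) - P E (q i)) (P E (q i) - P E (q (i + 1)))
        (P E (q (i + 1)) - P E (q m))
      simpa using this
    linarith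
  · obtain ⟨E', hE'⟩ := V.green a ha ha1 t
    have hT' : 1000 * Θ ≤ T E' := hbig.trans (F.hT E')
    obtain ⟨ρ, hρ, hρE, hρd⟩ := rot_d V (E := E') (a := t) (b := a * t) (by linarith)
    rw [← mul_assoc] at hρd
    have hρa : ρ * a ∈ KK r := mul_mem hρ ha
    have ih' := ih (d t (ρ * a * t)) (by rw [← hN]; exact hρd) (ρ * a) rfl hρa
    by_cases c1 : 50 * Θ ≤ |P E' (q 0) - P E' (q m)|
    · -- cut at the jump
      obtain ⟨j, hj, hj1, hj2⟩ := V.pass E' q m hq (by linarith)
      obtain ⟨v1, v2⟩ := V.jump E' q m j hq hj hj1 hj2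
      have hQ : Q E' (ρ * q (j + 1)) ≤ 2 * c := by rw [F.Q_stab hρE]; exact hj2
      set q' : ℕ → G := fun i => if i ≤ j then q i else ρ * q i with hq'
      have q0 : q' 0 = q 0 := by simp [hq']
      have qm : q' m = ρ * q m := by
        simp only [hq']; rw [if_neg (by omega)]
      have hpath : IsPath (dh c d Q) q' m := by
        apply isPath_of_steps V.geoh
        · intro i hi
          simp only [hq']
          rcases lt_trichotomy i j with h | h | h
          · rw [if_pos h.le, if_pos (show i + 1 ≤ j from h), hq i (i + 1) (by omega) (by omega)]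
            omega
          · subst h
            rw [if_pos le_rfl, if_neg (by omega)]
            exact V.jmp E' _ _ hj1 hQ
          · rw [if_neg (by omega), if_neg (by omega), V.lefth, hq i (i + 1) (by omega) (by omega)]
            omega
        · rw [q0, qm]; exact hmin ρ hρ
      obtain ⟨b, hb, i, hi, g1, g2, g3, g4, g5⟩ := ih' q' m hpath (by
          intro b hb
          rw [q0, qm, ← mul_assoc]
          exact hmin _ (mul_mem hb hρ)) (by rw [q0]; exact hs) (by
          rw [qm, mul_assoc, V.lefth]; exact ht)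
      rcases lt_trichotomy i j with h | h | h
      · refine ⟨b, hb, i, hi, ?_, ?_, ?_, g4, g5⟩
        · simpa [hq', h.le] using g1
        · simp only [hq'] at g2
          rwa [if_pos (by omega)] at g2
        · simp only [hq'] at g3
          rwa [if_pos (by omega), if_pos (by omega)] at g3
      · subst h
        have e1 : q' i = q i := by simp [hq']
        have e2 : q' (i + 1) = ρ * q (i + 1) := by
          simp only [hq']; rw [if_neg (by omega)]
        rw [e1] at g1 g3
        rw [e2] at g2 g3
        have e3 : b • E = E' := apx_big_ov V g3 hj1 hQ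
        refine ⟨b, hb, i, hi, g1, by rw [e3]; exact hj2, ?_, g4, g5⟩
        rw [e3]
        apply apx_big_one
        have : |P E' (q 0) - P E' (q m)| ≤ |P E' (q 0) - P E' (q i)| +
            |P E' (q i) - P E' (q (i + 1))| + |P E' (q (i + 1)) - P E' (q m)| := by
          have := abs_add_three (P E' (q 0) - P E' (q i)) (P E' (q i) - P E' (q (i + 1)))
            (P E' (q (i + 1)) - P E' (q m))
          simpa using this
        linarith
      · have e1 : q' i = ρ * q i := by
          simp only [hq']; rw [if_neg (by omega)]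
        have e2 : q' (i + 1) = ρ * q (i + 1) := by
          simp only [hq']; rw [if_neg (by omega)]
        rw [e1] at g1 g3
        rw [e2] at g2 g3
        have key : ∀ x, Q ((ρ⁻¹ * b) • E) x = Q (b • E) (ρ * x) := by
          intro x
          have := F.eqQ ρ ((ρ⁻¹ * b) • E) x
          rw [smul_smul, mul_inv_cancel_left] at this
          exact this.symm
        refine ⟨ρ⁻¹ * b, mul_mem (inv_mem hρ) hb, i, hi, ?_, ?_, ?_, g4, g5⟩
        · rw [key]; exact g1
        · rw [key]; exact g2
        · rw [mul_smul]; exact apx_big_smul g3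
    by_cases c2 : Θ ≤ |P E' s - P E' (q 0)|
    · -- translate the path
      obtain ⟨b, hb, i, hi, g1, g2, g3, g4, g5⟩ := ih' (fun i => ρ * q i) m (by
          intro i j hij hj
          rw [V.lefth]
          exact hq i j hij hj) (by
          intro b hb
          have := hmin (ρ⁻¹ * b * ρ) (mul_mem (mul_mem (inv_mem hρ) hb) hρ)
          rw [← V.lefth ρ] at this
          have e : ρ * (ρ⁻¹ * b * ρ * q m) = b * (ρ * q m) := by group
          rw [e] at this
          exact this) ((rot_h V hρE c2).trans hs) (by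
          rw [mul_assoc, V.lefth]; exact ht)
      have key : ∀ x, Q ((ρ⁻¹ * b) • E) x = Q (b • E) (ρ * x) := by
        intro x
        have := F.eqQ ρ ((ρ⁻¹ * b) • E) x
        rw [smul_smul, mul_inv_cancel_left] at this
        exact this.symm
      refine ⟨ρ⁻¹ * b, mul_mem (inv_mem hρ) hb, i, hi, ?_, ?_, ?_, g4, g5⟩
      · rw [key]; exact g1
      · rw [key]; exact g2
      · rw [mul_smul]; exact apx_big_smul g3
    by_cases c3 : Θ ≤ |P E' (q m) - P E' (a * t)|
    · refine ih' q m hq hmin hs ?_
      rw [V.geoh.symm] at ht ⊢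
      rw [mul_assoc]
      exact (rot_h V hρE c3).trans ht
    · exfalso
      push Not at c1 c2 c3
      have := hred E'
      have e1 : |P E' t - P E' (a * t)| ≤ |P E' t - P E' s| + (|P E' s - P E' (q 0)| +
          |P E' (q 0) - P E' (q m)| + |P E' (q m) - P E' (a * t)|) := by
        have := abs_add_three (P E' s - P E' (q 0)) (P E' (q 0) - P E' (q m))
          (P E' (q m) - P E' (a * t))
        have h' := abs_add_le (P E' t - P E' s) (P E' s - P E' (q 0) + (P E' (q 0) - P E' (q m)) +
          (P E' (q m) - P E' (a * t)))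
        have e : P E' t - P E' s + (P E' s - P E' (q 0) + (P E' (q 0) - P E' (q m)) +
          (P E' (q m) - P E' (a * t))) = P E' t - P E' (a * t) := by ring
        rw [e] at h'
        linarith
      rw [abs_sub_comm (P E' t) (P E' s)] at e1
      linarith

end Apx

end Burn
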