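import Pool.Agent.Burn.Defs

set_option autoImplicit false

/-!
# The quotient metric : lifting distances and intervals
-/

namespace Burn

section gen
variable {G : Type} [Group G]

theorem dq_coset {K : Subgroup G} [K.Normal] {x y : G} (h : (x : G ⧸ K) = (y : G ⧸ K)) :
    ∃ s ∈ K, y = s * x := by
  have h1 : x⁻¹ * y ∈ K := QuotientGroup.eq.1 h
  refine ⟨x * (x⁻¹ * y) * x⁻¹, Subgroup.Normal.conj_mem inferInstance _ h1 x, by group⟩

theorem dq_mk {K : Subgroup G} [K.Normal] {s : G} (hs : s ∈ K) (x : G) :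
    ((s * x : G) : G ⧸ K) = (x : G ⧸ K) := by
  rw [QuotientGroup.eq]
  have h1 : x⁻¹ * s⁻¹ * x⁻¹⁻¹ ∈ K :=
    Subgroup.Normal.conj_mem inferInstance _ (K.inv_mem hs) x⁻¹
  have h2 : (s * x)⁻¹ * x = x⁻¹ * s⁻¹ * x⁻¹⁻¹ := by group
  rw [h2]; exact h1

theorem dq_le0 {K : Subgroup G} (D : G → G → ℕ) (x y : G) :
    dq D K (x : G ⧸ K) (y : G ⧸ K) ≤ D x y :=
  Nat.sInf_le ⟨x, y, rfl, rfl, rfl⟩

theorem dq_att {K : Subgroup G} (D : G → G → ℕ) (a b : G ⧸ K) :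
    ∃ x y : G, (x : G ⧸ K) = a ∧ (y : G ⧸ K) = b ∧ D x y = dq D K a b := by
  have hne : {m | ∃ x y : G, (x : G ⧸ K) = a ∧ (y : G ⧸ K) = b ∧ D x y = m}.Nonempty := by
    obtain ⟨x, rfl⟩ := QuotientGroup.mk_surjective a
    obtain ⟨y, rfl⟩ := QuotientGroup.mk_surjective b
    exact ⟨D x y, x, y, rfl, rfl, rfl⟩
  exact Nat.sInf_mem hne

theorem dq_lift0 {K : Subgroup G} [K.Normal] {D : G → G → ℕ} (hl : LeftInv D) (x y : G) :
    ∃ s ∈ K, dq D K (x : G ⧸ K) (y : G ⧸ K) = D x (s * y) := by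
  obtain ⟨x', y', hx, hy, h⟩ := dq_att D (x : G ⧸ K) (y : G ⧸ K)
  obtain ⟨s, hs, rfl⟩ := dq_coset hx.symm
  obtain ⟨t, ht, rfl⟩ := dq_coset hy.symm
  refine ⟨s⁻¹ * t, K.mul_mem (K.inv_mem hs) ht, ?_⟩
  rw [← h, ← hl s⁻¹ (s * x) (t * y)]
  congr 1 <;> group

theorem dq_tri {K : Subgroup G} [K.Normal] {D : G → G → ℕ} (hg : Geo D) (hl : LeftInv D)
    (a b e : G ⧸ K) : dq D K a e ≤ dq D K a b + dq D K b e := by
  obtain ⟨x, rfl⟩ := QuotientGroup.mk_surjective a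
  obtain ⟨y, rfl⟩ := QuotientGroup.mk_surjective b
  obtain ⟨w, rfl⟩ := QuotientGroup.mk_surjective e
  obtain ⟨s, hs, h1⟩ := dq_lift0 (K := K) hl x y
  obtain ⟨t, ht, h2⟩ := dq_lift0 (K := K) hl y w
  have h3 := dq_le0 (K := K) D x (s * t * w)
  rw [dq_mk (K.mul_mem hs ht)] at h3
  have h4 := hg.tri x (s * y) (s * t * w)
  have h5 : D (s * y) (s * t * w) = D y (t * w) := by
    rw [mul_assoc, hl]
  change dq D K (x : G ⧸ K) (w : G ⧸ K) ≤ dq D K (x : G ⧸ K) (y : G ⧸ K) +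
    dq D K (y : G ⧸ K) (w : G ⧸ K)
  rw [h1, h2]
  omega

theorem dq_geo {K : Subgroup G} [K.Normal] {D : G → G → ℕ} (hg : Geo D) (hl : LeftInv D) :
    Geo (dq D K) where
  refl a := by
    obtain ⟨x, rfl⟩ := QuotientGroup.mk_surjective a
    have h := dq_le0 (K := K) D x x
    rw [hg.refl] at h
    exact Nat.le_zero.1 h
  symm a b := by
    have key : ∀ a b : G ⧸ K, dq D K a b ≤ dq D K b a := by
      intro a b
      obtain ⟨x, y, rfl, rfl, h⟩ := dq_att D b a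
      rw [← h, hg.symm x y]
      exact dq_le0 D y x
    exact le_antisymm (key a b) (key b a)
  tri a b e := dq_tri hg hl a b e
  mid a b s t h := by
    obtain ⟨x, y, rfl, rfl, h1⟩ := dq_att D a b
    rw [h] at h1
    obtain ⟨w, h2, h3⟩ := hg.mid x y s t h1
    refine ⟨(w : G ⧸ K), ?_⟩
    have h4 := dq_le0 (K := K) D x w
    have h5 := dq_le0 (K := K) D w y
    have h6 := dq_tri hg hl (x : G ⧸ K) (w : G ⧸ K) (y : G ⧸ K)
    omega

theorem dq_btw0 {K : Subgroup G} [K.Normal] {D : G → G → ℕ} (hg : Geo D) (hl : LeftInv D)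
    {x u y : G} (h : D x y ≤ dq D K (x : G ⧸ K) (y : G ⧸ K)) (hb : Btw D x u y) :
    Btw (dq D K) (x : G ⧸ K) (u : G ⧸ K) (y : G ⧸ K) ∧
    dq D K (x : G ⧸ K) (u : G ⧸ K) = D x u ∧ dq D K (u : G ⧸ K) (y : G ⧸ K) = D u y := by
  have h1 := dq_le0 (K := K) D x u
  have h2 := dq_le0 (K := K) D u y
  have h3 := dq_tri hg hl (x : G ⧸ K) (u : G ⧸ K) (y : G ⧸ K)
  have h4 := dq_le0 (K := K) D x y
  unfold Btw at hb ⊢
  omega

end gen

section C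
variable {G : Type} [Group G] {ι : Type} [MulAction G ι] {n κ L k D : ℕ} {c Δ T0 Θ : ℤ} {z : G}
  {d : G → G → ℕ} {P Q : ι → G → ℤ} {r : ι → G} {T : ι → ℤ} {γ : ι → G}

theorem dq_le [(KK r).Normal] (x y : G) :
    dq (dh c d Q) (KK r) (x : G ⧸ KK r) (y : G ⧸ KK r) ≤ dh c d Q x y := dq_le0 _ x y

theorem dq_lift (V : Env n κ L k c Δ T0 Θ z d P Q r T γ) [(KK r).Normal] (x y : G) :
    ∃ s ∈ KK r, dq (dh c d Q) (KK r) (x : G ⧸ KK r) (y : G ⧸ KK r) = dh c d Q x (s * y) :=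
  dq_lift0 V.lefth x y

theorem dq_iso (V : Env n κ L k c Δ T0 Θ z d P Q r T γ) [(KK r).Normal] {x y : G}
    (h : ∀ s ∈ KK r, dh c d Q x y ≤ dh c d Q x (s * y)) :
    dq (dh c d Q) (KK r) (x : G ⧸ KK r) (y : G ⧸ KK r) = dh c d Q x y := by
  obtain ⟨s, hs, h1⟩ := dq_lift V x y
  have h2 := dq_le (r := r) (c := c) (d := d) (Q := Q) x y
  have h3 := h s hs
  omega

theorem dq_btw (V : Env n κ L k c Δ T0 Θ z d P Q r T γ) [(KK r).Normal] {x u y : G}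
    (h : ∀ s ∈ KK r, dh c d Q x y ≤ dh c d Q x (s * y)) (hb : Btw (dh c d Q) x u y) :
    Btw (dq (dh c d Q) (KK r)) (x : G ⧸ KK r) (u : G ⧸ KK r) (y : G ⧸ KK r) ∧
    dq (dh c d Q) (KK r) (x : G ⧸ KK r) (u : G ⧸ KK r) = dh c d Q x u ∧
    dq (dh c d Q) (KK r) (u : G ⧸ KK r) (y : G ⧸ KK r) = dh c d Q u y :=
  dq_btw0 V.geoh V.lefth (dq_iso V h).ge hb

end C

end Burn
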