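import Pool.Agent.Burn.Rot

set_option autoImplicit false

/-!
# Rotations: closing up polygons and shortest representatives
-/

namespace Burn

section
variable {G : Type} [Group G] {ι : Type} [MulAction G ι] {n κ L k D : ℕ} {c Δ T0 Θ : ℤ} {z : G}
  {d : G → G → ℕ} {P Q : ι → G → ℤ} {r : ι → G} {T : ι → ℤ} {γ : ι → G}

theorem poly4_aux (V : Env n κ L k c Δ T0 Θ z d P Q r T γ) (N : ℕ) :
    ∀ (a b e f s : G), s ∈ KK r → d a (s * a) < N →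
    ∃ s1 ∈ KK r, ∃ s2 ∈ KK r, ∃ s3 ∈ KK r, dh c d Q a (s1 * b) ≤ dh c d Q a b ∧
      dh c d Q (s1 * b) (s2 * e) ≤ dh c d Q b e ∧ dh c d Q (s2 * e) (s3 * f) ≤ dh c d Q e f ∧
      dh c d Q (s3 * f) a ≤ dh c d Q f (s * a) := by
  induction N with
  | zero => intro a b e f s _ h; exact absurd h (Nat.not_lt_zero _)
  | succ N ih =>
  intro a b e f s hs hN
  have hc := V.fl.fam.hc
  have hΔ := V.fl.fam.hΔ
  have hΘ := V.hΘ
  have hbig := V.big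
  have hl := V.lefth
  by_cases h1 : s = 1
  · subst h1
    refine ⟨1, one_mem _, 1, one_mem _, 1, one_mem _, ?_⟩
    simp only [one_mul]
    exact ⟨le_rfl, le_rfl, le_rfl, le_rfl⟩
  obtain ⟨E, hE⟩ := V.green s hs h1 a
  have hTE := V.fl.fam.hT E
  obtain ⟨ρ, hρ, hρE, hρd⟩ := rot_d V (E := E) (a := a) (b := s * a) (by linarith)
  have hN' : d a (ρ * s * a) < N := by rw [mul_assoc]; omega
  have hρs : ρ * s ∈ KK r := mul_mem hρ hs
  have hsplit : Θ ≤ |P E a - P E b| ∨ Θ ≤ |P E b - P E e| ∨ Θ ≤ |P E e - P E f| ∨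
      Θ ≤ |P E f - P E (s * a)| := by
    by_contra hcon
    push Not at hcon
    obtain ⟨g1, g2, g3, g4⟩ := hcon
    have t1 := abs_sub_le (P E a) (P E b) (P E (s * a))
    have t2 := abs_sub_le (P E b) (P E e) (P E (s * a))
    have t3 := abs_sub_le (P E e) (P E f) (P E (s * a))
    linarith
  rcases hsplit with hq | hq | hq | hq
  · obtain ⟨s1, hs1, s2, hs2, s3, hs3, e1, e2, e3, e4⟩ := ih a (ρ * b) (ρ * e) (ρ * f) (ρ * s) hρs hN'
    refine ⟨s1 * ρ, mul_mem hs1 hρ, s2 * ρ, mul_mem hs2 hρ, s3 * ρ, mul_mem hs3 hρ, ?_, ?_, ?_, ?_⟩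
    · rw [mul_assoc]; exact e1.trans (rot_h V hρE hq)
    · rw [mul_assoc, mul_assoc]; rwa [hl] at e2
    · rw [mul_assoc, mul_assoc]; rwa [hl] at e3
    · rw [mul_assoc]; rwa [mul_assoc ρ s a, hl] at e4
  · obtain ⟨s1, hs1, s2, hs2, s3, hs3, e1, e2, e3, e4⟩ := ih a b (ρ * e) (ρ * f) (ρ * s) hρs hN'
    refine ⟨s1, hs1, s2 * ρ, mul_mem hs2 hρ, s3 * ρ, mul_mem hs3 hρ, e1, ?_, ?_, ?_⟩
    · rw [mul_assoc]; exact e2.trans (rot_h V hρE hq)
    · rw [mul_assoc, mul_assoc]; rwa [hl] at e3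
    · rw [mul_assoc]; rwa [mul_assoc ρ s a, hl] at e4
  · obtain ⟨s1, hs1, s2, hs2, s3, hs3, e1, e2, e3, e4⟩ := ih a b e (ρ * f) (ρ * s) hρs hN'
    refine ⟨s1, hs1, s2, hs2, s3 * ρ, mul_mem hs3 hρ, e1, e2, ?_, ?_⟩
    · rw [mul_assoc]; exact e3.trans (rot_h V hρE hq)
    · rw [mul_assoc]; rwa [mul_assoc ρ s a, hl] at e4
  · obtain ⟨s1, hs1, s2, hs2, s3, hs3, e1, e2, e3, e4⟩ := ih a b e f (ρ * s) hρs hN'
    refine ⟨s1, hs1, s2, hs2, s3, hs3, e1, e2, e3, ?_⟩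
    rw [mul_assoc ρ s a] at e4
    exact e4.trans (rot_h V hρE hq)

/-- closing up polygons. -/
theorem poly4 (V : Env n κ L k c Δ T0 Θ z d P Q r T γ) (a b e f : G) {s : G} (hs : s ∈ KK r) :
    ∃ s1 ∈ KK r, ∃ s2 ∈ KK r, ∃ s3 ∈ KK r, dh c d Q a (s1 * b) ≤ dh c d Q a b ∧
      dh c d Q (s1 * b) (s2 * e) ≤ dh c d Q b e ∧ dh c d Q (s2 * e) (s3 * f) ≤ dh c d Q e f ∧
      dh c d Q (s3 * f) a ≤ dh c d Q f (s * a) :=
  poly4_aux V (d a (s * a) + 1) a b e f s hs (Nat.lt_succ_self _)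

/-- two minimisations over the group one after the other. -/
theorem poly_min {K : Subgroup G} (f g : G → ℕ) :
    ∃ s ∈ K, (∀ s' ∈ K, f s ≤ f s') ∧ ∀ s' ∈ K, f s' ≤ f s → g s ≤ g s' := by
  classical
  have h1 : ∃ m, ∃ s ∈ K, f s = m := ⟨_, 1, one_mem _, rfl⟩
  obtain ⟨s0, hs0, hm0⟩ := Nat.find_spec h1
  have hmin : ∀ s' ∈ K, Nat.find h1 ≤ f s' := fun s' hs' => Nat.find_min' h1 ⟨s', hs', rfl⟩
  have h2 : ∃ m, ∃ s ∈ K, f s = Nat.find h1 ∧ g s = m := ⟨_, s0, hs0, hm0, rfl⟩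
  obtain ⟨s, hs, hsf, hsg⟩ := Nat.find_spec h2
  refine ⟨s, hs, fun s' hs' => hsf ▸ hmin s' hs', fun s' hs' hle => ?_⟩
  rw [hsg]
  refine Nat.find_min' h2 ⟨s', hs', le_antisymm (hle.trans hsf.le) (hmin s' hs'), rfl⟩

theorem iso_le (V : Env n κ L k c Δ T0 Θ z d P Q r T γ) {x y : G}
    (h : ∀ E, |P E x - P E y| ≤ T E - 2 * Θ) {s : G} (hs : s ∈ KK r) :
    dh c d Q x y ≤ dh c d Q x (s * y) := by
  have hc := V.fl.fam.hc
  have hΔ := V.fl.fam.hΔ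
  have hΘ := V.hΘ
  have hbig := V.big
  obtain ⟨t, ht, ht1, ht2⟩ := poly_min (K := KK r) (fun s => dh c d Q x (s * y))
    (fun s => d y (s * y))
  by_cases h1 : t = 1
  · have := ht1 s hs
    simp only [h1, one_mul] at this
    exact this
  exfalso
  obtain ⟨E, hE⟩ := V.green t ht h1 y
  have hTE := V.fl.fam.hT E
  obtain ⟨ρ, hρ, hρE, hρd⟩ := rot_d V (E := E) (a := y) (b := t * y) (by linarith)
  have hx : Θ ≤ |P E x - P E (t * y)| := by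
    have t1 := abs_sub_le (P E y) (P E x) (P E (t * y))
    rw [abs_sub_comm (P E y) (P E x)] at t1
    linarith [h E]
  have h3 := rot_h V hρE hx
  have h4 := ht2 (ρ * t) (mul_mem hρ ht) (by simp only [mul_assoc]; exact h3)
  simp only [mul_assoc] at h4
  omega

theorem red (V : Env n κ L k c Δ T0 Θ z d P Q r T γ) (x y : G) :
    ∃ s ∈ KK r, (∀ s' ∈ KK r, dh c d Q x (s * y) ≤ dh c d Q x (s' * y)) ∧
      ∀ E, 2 * |P E x - P E (s * y)| < T E + 5 * c := by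
  have hc := V.fl.fam.hc
  have hΔ := V.fl.fam.hΔ
  have hΘ := V.hΘ
  have hbig := V.big
  obtain ⟨t, ht, ht1, ht2⟩ := poly_min (K := KK r) (fun s => dh c d Q x (s * y))
    (fun s => d x (s * y))
  refine ⟨t, ht, ht1, fun E => ?_⟩
  by_contra hcon
  push Not at hcon
  have hTE := V.fl.fam.hT E
  obtain ⟨ρ, hρ, hρE, hρd⟩ := rot_d V (E := E) (a := x) (b := t * y) hcon
  have h3 := rot_h V (E := E) (a := x) (b := t * y) hρE (by linarith)
  have h4 := ht2 (ρ * t) (mul_mem hρ ht) (by simp only [mul_assoc]; exact h3)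
  simp only [mul_assoc] at h4
  omega

end

end Burn
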