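import Pool.Agent.Burn.Defs

set_option autoImplicit false

/-!
# Growth of orbits, from local to global
-/

namespace Burn

section GROW
variable {G : Type} [Group G] {d : G → G → ℕ}

lemma grow_dist (hl : LeftInv d) (g x : G) (i j : ℕ) :
    d (g ^ i * x) (g ^ (i + j) * x) = d x (g ^ j * x) := by
  rw [pow_add, mul_assoc]
  exact hl (g ^ i) x (g ^ j * x)

theorem grow {δ a : ℕ} (hg : Geo d) (hh : Hyp d δ) (hl : LeftInv d) {g x : G}
    (h1 : 2 * d x (g * x) ≤ d x (g ^ 2 * x) + a) (h2 : 2 * a + 3 * δ < 2 * d x (g * x)) :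
    (∀ i : ℕ, d x (g ^ i * x) + d x (g * x) ≤ d x (g ^ (i + 1) * x) + a + δ) ∧
    (∀ i j : ℕ, d x (g ^ i * x) + d x (g ^ j * x) ≤ d x (g ^ (i + j) * x) + a + 2 * δ) := by
  have hs : ∀ i j : ℕ, d (g ^ i * x) (g ^ (i + j) * x) = d x (g ^ j * x) :=
    fun i j => grow_dist hl g x i j
  have h00 : d x (g ^ 0 * x) = 0 := by rw [pow_zero, one_mul]; exact hg.refl x
  have hone : d x (g ^ 1 * x) = d x (g * x) := by rw [pow_one]
  have hx0 : ∀ i : ℕ, d (g ^ 0 * x) (g ^ i * x) = d x (g ^ i * x) := fun i => by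
    rw [pow_zero, one_mul]
  rw [← hone] at h1 h2
  have A : ∀ i : ℕ, d x (g ^ i * x) + d x (g ^ 1 * x) ≤ d x (g ^ (i + 1) * x) + a + δ := by
    intro i
    induction i with
    | zero => simp only [h00, zero_add]; omega
    | succ i ih =>
      have h4 := hh (g ^ 0 * x) (g ^ (i + 1) * x) (g ^ i * x) (g ^ (i + 2) * x)
      rw [hx0, hx0, hx0, hs i 2] at h4
      have e1 : d (g ^ (i + 1) * x) (g ^ (i + 2) * x) = d x (g ^ 1 * x) := hs (i + 1) 1
      have e2 : d (g ^ (i + 1) * x) (g ^ i * x) = d x (g ^ 1 * x) := by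
        rw [hg.symm]; exact hs i 1
      rw [e1, e2] at h4
      have e3 : i + 1 + 1 = i + 2 := rfl
      rw [e3]
      omega
  refine ⟨fun i => by rw [← hone]; exact A i, ?_⟩
  intro i j
  rcases i with _ | i
  · rw [h00, Nat.zero_add, Nat.zero_add]; omega
  rcases j with _ | j
  · rw [h00]; simp only [Nat.add_zero]; omega
  have hA1 := A i
  have hA2 := A j
  -- base point `g ^ (i + 1) * x`
  have p1 := hh (g ^ i * x) (g ^ (i + 2) * x) (g ^ 0 * x) (g ^ (i + 1) * x)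
  have p2 := hh (g ^ 0 * x) (g ^ (i + 2) * x) (g ^ (i + 1 + (j + 1)) * x) (g ^ (i + 1) * x)
  have e0 : d (g ^ i * x) (g ^ (i + 2) * x) = d x (g ^ 2 * x) := hs i 2
  have e1 : d (g ^ (i + 2) * x) (g ^ (i + 1) * x) = d x (g ^ 1 * x) := by
    rw [hg.symm]; exact hs (i + 1) 1
  have e2 : d (g ^ i * x) (g ^ (i + 1) * x) = d x (g ^ 1 * x) := hs i 1
  have e3 : d (g ^ i * x) (g ^ 0 * x) = d x (g ^ i * x) := by rw [hg.symm]; exact hx0 i
  have e4 : d (g ^ (i + 2) * x) (g ^ 0 * x) = d x (g ^ (i + 2) * x) := by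
    rw [hg.symm]; exact hx0 (i + 2)
  have e5 : d (g ^ (i + 1 + (j + 1)) * x) (g ^ (i + 1) * x) = d x (g ^ (j + 1) * x) := by
    rw [hg.symm]; exact hs (i + 1) (j + 1)
  have e6 : d (g ^ (i + 2) * x) (g ^ (i + 1 + (j + 1)) * x) = d x (g ^ j * x) := by
    have : i + 1 + (j + 1) = i + 2 + j := by omega
    rw [this]; exact hs (i + 2) j
  rw [e0, e1, e2, e3, e4, hx0] at p1
  rw [e1, e5, e6, hx0, hx0, hx0] at p2
  omega

theorem grow' {δ a : ℕ} (hg : Geo d) (hh : Hyp d δ) (hl : LeftInv d) {g x : G}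
    (h1 : 2 * d x (g * x) ≤ d x (g ^ 2 * x) + a) (h2 : 2 * a + 3 * δ < 2 * d x (g * x)) :
    NearAx d (a + 2 * δ) g x ∧ ∀ i : ℕ, i ≤ d x (g ^ i * x) := by
  obtain ⟨A, B⟩ := grow hg hh hl h1 h2
  constructor
  · intro i
    have h3 := B i i
    rw [show i + i = 2 * i by ring] at h3
    omega
  · intro i
    induction i with
    | zero => exact Nat.zero_le _
    | succ i ih =>
      have := A i
      omega

theorem z_move {δ : ℕ} {z : G} (hB : Base δ z d) (i : ℤ) (x y : G) :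
    d (z ^ i * x) y = d x y ∧ d x (z ^ i * y) = d x y := by
  have hcz : ∀ (i : ℤ) (g : G), z ^ i * g = g * z ^ i := by
    intro i g
    exact (Commute.zpow_left (hB.cen g) i).eq
  have h0 : ∀ x : G, d x (x * z) = 0 := by
    intro x
    have := hB.left x 1 z
    rw [mul_one] at this
    rw [this, hB.zd]
  have h0' : ∀ x : G, d x (x * z⁻¹) = 0 := by
    intro x
    have := h0 (x * z⁻¹)
    rw [inv_mul_cancel_right] at this
    rw [hB.geo.symm]
    exact this
  have h1 : ∀ (i : ℤ) (x : G), d x (x * z ^ i) = 0 := by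
    intro i
    induction i using Int.induction_on with
    | zero => intro x; rw [zpow_zero, mul_one]; exact hB.geo.refl x
    | succ i ih =>
      intro x
      have h2 := hB.geo.tri x (x * z ^ (i : ℤ)) (x * z ^ ((i : ℤ) + 1))
      have h3 := h0 (x * z ^ (i : ℤ))
      rw [zpow_add_one, ← mul_assoc] at h2 ⊢
      rw [ih x, h3] at h2
      omega
    | pred i ih =>
      intro x
      have h2 := hB.geo.tri x (x * z ^ (-(i : ℤ))) (x * z ^ (-(i : ℤ) - 1))
      have h3 := h0' (x * z ^ (-(i : ℤ)))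
      rw [zpow_sub_one, ← mul_assoc] at h2 ⊢
      rw [ih x, h3] at h2
      omega
  have h2 : ∀ (i : ℤ) (x y : G), d x (z ^ i * y) = d x y := by
    intro i x y
    rw [hcz]
    have t1 := hB.geo.tri x y (y * z ^ i)
    have t2 := hB.geo.tri x (y * z ^ i) y
    rw [h1 i y] at t1
    rw [hB.geo.symm (y * z ^ i) y, h1 i y] at t2
    omega
  refine ⟨?_, h2 i x y⟩
  rw [hB.geo.symm, h2, hB.geo.symm]

theorem Lox.mono {κ κ' : ℕ} {g : G} (h : Lox d κ g) (hle : κ ≤ κ') : Lox d κ' g :=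
  fun i x => (h i x).trans (Nat.mul_le_mul_right _ hle)

/-- a positive power of a loxodromic element is not a power of `z` -/
lemma grow_not_zpow {δ κ : ℕ} {z g : G} (hB : Base δ z d) (h : Lox d κ g) {m : ℕ} (hm : 0 < m) :
    g ^ m ∉ Subgroup.zpowers z := by
  intro hmem
  obtain ⟨c, hc⟩ := Subgroup.mem_zpowers_iff.1 hmem
  have h1 := h m 1
  rw [← hc, (z_move hB c 1 1).2, hB.geo.refl] at h1
  omega

theorem Lox.not_z {δ κ : ℕ} {z g : G} (hB : Base δ z d) (h : Lox d κ g) :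
    g ∉ Subgroup.zpowers z := by
  have := grow_not_zpow hB h one_pos
  rwa [pow_one] at this

theorem Lox.not_fin {δ κ n : ℕ} {z g : G} (hB : Base δ z d) (hn : 0 < n) (h : Lox d κ g) :
    ¬ Fin1 n z g := by
  rintro ⟨c, hc, -⟩
  exact grow_not_zpow hB h hn (Subgroup.mem_zpowers_iff.2 ⟨c, hc.symm⟩)

theorem Lox.pow {δ n κ : ℕ} {z g : G} (hB : Base δ z d) (hT : Tri n κ z d) (hn : 0 < n)
    (h : Lox d κ g) {i : ℤ} (hi : i ≠ 0) : Lox d κ (g ^ i) := by
  have key : ∀ j : ℤ, j ≠ 0 → g ^ j ∉ Subgroup.zpowers z := by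
    intro j hj hmem
    have h0 : 0 < j.natAbs := by omega
    apply grow_not_zpow hB h h0
    rcases Int.natAbs_eq j with e | e
    · rw [e, zpow_natCast] at hmem
      exact hmem
    · rw [e, zpow_neg, zpow_natCast] at hmem
      exact (Subgroup.inv_mem_iff _).1 hmem
  rcases hT (g ^ i) with h1 | h1 | h1
  · exact absurd h1 (key i hi)
  · obtain ⟨c, hc, -⟩ := h1
    exfalso
    apply key (i * n) (mul_ne_zero hi (by exact_mod_cast hn.ne'))
    rw [zpow_mul, zpow_natCast, hc]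
    exact Subgroup.zpow_mem_zpowers z c
  · exact h1

theorem Lox.conj {κ : ℕ} {g : G} (hl : LeftInv d) (h : Lox d κ g) (a : G) :
    Lox d κ (a * g * a⁻¹) := by
  intro i x
  have h1 := h i (a⁻¹ * x)
  have e : (a * g * a⁻¹) ^ i * x = a * (g ^ i * (a⁻¹ * x)) := by
    rw [conj_pow]
    group
  have h2 := hl a⁻¹ x ((a * g * a⁻¹) ^ i * x)
  rw [e, inv_mul_cancel_left] at h2
  rw [e, ← h2]
  exact h1

theorem lox_of_unbdd {δ n κ : ℕ} {z : G} (hB : Base δ z d) (hT : Tri n κ z d) (hn : 0 < n)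
    {g x : G} (h : ∀ B : ℕ, ∃ i : ℕ, B < d x (g ^ i * x)) : Lox d κ g := by
  rcases hT g with h1 | h1 | h1
  · exfalso
    obtain ⟨c, hc⟩ := Subgroup.mem_zpowers_iff.1 h1
    obtain ⟨i, hi⟩ := h 0
    rw [← hc, ← zpow_natCast, ← zpow_mul, (z_move hB _ _ _).2, hB.geo.refl] at hi
    omega
  · exfalso
    obtain ⟨c, hc, -⟩ := h1
    obtain ⟨i, hi⟩ := h (∑ r ∈ Finset.range n, d x (g ^ r * x))
    have e : g ^ i = z ^ (c * (i / n : ℕ)) * g ^ (i % n) := by
      conv_lhs => rw [← Nat.div_add_mod i n]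
      rw [pow_add, pow_mul, hc, zpow_mul, zpow_natCast]
    rw [e, mul_assoc, (z_move hB _ _ _).2] at hi
    have h2 : d x (g ^ (i % n) * x) ≤ ∑ r ∈ Finset.range n, d x (g ^ r * x) :=
      Finset.single_le_sum (f := fun r => d x (g ^ r * x)) (fun _ _ => Nat.zero_le _)
        (Finset.mem_range.2 (Nat.mod_lt i hn))
    omega
  · exact h1

end GROW

end Burn
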