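import Pool.Agent.Burn.Elec1
import Pool.Agent.Burn.Grow
import Pool.Agent.Burn.Hyp

set_option autoImplicit false

/-!
# ROT : rotations around the lines
-/

namespace Burn

section C
variable {G : Type} [Group G] {ι : Type} [MulAction G ι] {n κ L k D : ℕ} {c Δ T0 Θ : ℤ} {z : G}
  {d : G → G → ℕ} {P Q : ι → G → ℤ} {r : ι → G} {T : ι → ℤ} {γ : ι → G}

theorem rot_mem (r : ι → G) (E : ι) : r E ∈ KK r := Subgroup.subset_closure ⟨E, rfl⟩

theorem rot_inv_fix (F : Fam c Δ T0 z d P Q r T) (E : ι) : (r E)⁻¹ • E = E := by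
  rw [inv_smul_eq_iff, F.rfix]

theorem rot_q (V : Env n κ L k c Δ T0 Θ z d P Q r T γ) {E : ι} {a b : G} {l : ℤ} (hl : 0 ≤ l)
    (hl2 : l + 3 * c ≤ T0) (h : T E + 3 * c + l ≤ 2 * |P E a - P E b|) :
    ∃ s ∈ KK r, s • E = E ∧ 2 * (d a (s * b) : ℤ) + l ≤ 2 * d a b := by
  have F := V.fl.fam
  have hc := F.hc
  have hT := F.hT E
  have hA := F.axis E
  have hup := hA.up
  have hlow := hA.low a b
  rcases le_total (P E a) (P E b) with hle | hle
  · -- rotate backwards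
    refine ⟨(r E)⁻¹, (KK r).inv_mem (rot_mem r E), rot_inv_fix F E, ?_⟩
    have hQ : Q E ((r E)⁻¹ * b) = Q E b := by
      have := F.eqQ (r E)⁻¹ E b
      rwa [rot_inv_fix F E] at this
    have h1 := F.sh E 1 ((r E)⁻¹ * b) le_rfl
    have h2 := F.sh1 E ((r E)⁻¹ * b)
    rw [pow_one, mul_inv_cancel_left] at h1
    rw [mul_inv_cancel_left] at h2
    have h3 := hup a ((r E)⁻¹ * b)
    rw [hQ] at h3
    rw [abs_of_nonpos (by linarith : P E a - P E b ≤ 0)] at h hlow
    have h4 := hlow (by linarith)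
    rcases abs_cases (P E a - P E ((r E)⁻¹ * b)) with ⟨h5, -⟩ | ⟨h5, -⟩ <;> rw [h5] at h3 <;>
      linarith
  · refine ⟨r E, rot_mem r E, F.rfix E, ?_⟩
    have hQ : Q E (r E * b) = Q E b := by
      have := F.eqQ (r E) E b
      rwa [F.rfix E] at this
    have h1 := F.sh E 1 b le_rfl
    have h2 := F.sh1 E b
    rw [pow_one] at h1
    have h3 := hup a (r E * b)
    rw [hQ] at h3
    rw [abs_of_nonneg (by linarith : 0 ≤ P E a - P E b)] at h hlow
    have h4 := hlow (by linarith)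
    rcases abs_cases (P E a - P E (r E * b)) with ⟨h5, -⟩ | ⟨h5, -⟩ <;> rw [h5] at h3 <;>
      linarith

theorem rot_d (V : Env n κ L k c Δ T0 Θ z d P Q r T γ) {E : ι} {a b : G}
    (h : T E + 5 * c ≤ 2 * |P E a - P E b|) :
    ∃ s ∈ KK r, s • E = E ∧ d a (s * b) < d a b := by
  have F := V.fl.fam
  have hc := F.hc
  have hD := F.hΔ
  have h1 := V.hΘ
  have h2 := V.big
  obtain ⟨s, hs, hsE, hd⟩ := rot_q V (E := E) (a := a) (b := b) (l := 2 * c) (by linarith)
    (by linarith) (by linarith)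
  exact ⟨s, hs, hsE, by omega⟩

theorem rot_h (V : Env n κ L k c Δ T0 Θ z d P Q r T γ) {E : ι} {a b s : G} (hs : s • E = E)
    (h : Θ ≤ |P E a - P E b|) : dh c d Q a (s * b) ≤ dh c d Q a b := by
  have F := V.fl.fam
  have hg := V.geoh
  obtain ⟨p, hp, h0, hm⟩ := exists_path hg a b
  set m := dh c d Q a b with hmdef
  have hd0 : d (p m) b = 0 := elec1_zero_of F hm
  have hP : P E (p m) = P E b := by
    have h1 := (F.axis E).lipP (p m) b
    rw [hd0] at h1
    have h2 := abs_nonneg (P E (p m) - P E b)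
    have h3 : |P E (p m) - P E b| = 0 := le_antisymm (by simpa using h1) h2
    linarith [abs_eq_zero.1 h3]
  obtain ⟨j, hj, hq1, hq2⟩ := V.pass E p m hp (by rw [h0, hP]; exact h)
  have hq3 : Q E (s * p (j + 1)) ≤ 2 * c := by
    have h1 := F.eqQ s E (p (j + 1))
    rw [hs] at h1
    rw [h1]
    exact hq2
  have h1 : dh c d Q a (p j) = j := by
    have := hp 0 j (Nat.zero_le _) hj.le
    rwa [h0, Nat.sub_zero] at this
  have h2 := V.jmp E (p j) (s * p (j + 1)) hq1 hq3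
  have h3 : dh c d Q (s * p (j + 1)) (s * b) ≤ m - (j + 1) := by
    rw [V.lefth]
    have h4 := hp (j + 1) m (by omega) le_rfl
    have h5 := hg.tri (p (j + 1)) (p m) b
    omega
  have h4 := hg.tri a (p j) (s * b)
  have h5 := hg.tri (p j) (s * p (j + 1)) (s * b)
  omega

theorem KK_z (V : Env n κ L k c Δ T0 Θ z d P Q r T γ) {i : ℤ} (h : z ^ i ∈ KK r) : i = 0 := by
  have F := V.fl.fam
  by_contra hi
  have hne : z ^ i ≠ 1 := fun h1 => hi (F.base.inf i h1)
  obtain ⟨E, hE⟩ := V.green _ h hne 1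
  have h1 : d 1 (z ^ i * 1) = 0 := by
    have h2 := (z_move F.base i 1 1).2
    rwa [F.base.geo.refl] at h2
  have h3 := (F.axis E).lipP 1 (z ^ i * 1)
  rw [h1] at h3
  have hT := F.hT E
  have hc := F.hc
  have hD := F.hΔ
  have h4 := V.hΘ
  have h5 := V.big
  push_cast at h3
  linarith

theorem KK_disp (V : Env n κ L k c Δ T0 Θ z d P Q r T γ) {s : G} (h : s ∈ KK r) (hs : s ≠ 1)
    (x : G) : 100 ≤ d x (s * x) := by
  have F := V.fl.fam
  obtain ⟨E, hE⟩ := V.green _ h hs x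
  have h3 := (F.axis E).lipP x (s * x)
  have hT := F.hT E
  have hc := F.hc
  have hD := F.hΔ
  have h4 := V.hΘ
  have h5 := V.big
  omega

theorem T_inv (V : Env n κ L k c Δ T0 Θ z d P Q r T γ) (g : G) (E : ι) :
    |T (g • E) - T E| ≤ 3 * c := by
  have F := V.fl.fam
  have h1 := F.eqP g E (r E * 1) 1
  have h2 := F.sh E 1 1 le_rfl
  have h3 := F.sh1 E 1
  have h4 := F.sh (g • E) 1 (g * 1) le_rfl
  have h5 := F.sh1 (g • E) (g * 1)
  rw [F.rconj] at h4 h5
  rw [pow_one] at h2 h4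
  have h6 : g * r E * g⁻¹ * (g * 1) = g * (r E * 1) := by group
  rw [h6] at h4 h5
  rw [abs_le] at h1 ⊢
  constructor <;> linarith [h1.1, h1.2]

end C

end Burn
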