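import Pool.Agent.Burn.Hyp
import Pool.Agent.Burn.Dq1
import Pool.Agent.Burn.Rot
import Pool.Agent.Burn.Poly

set_option autoImplicit false

/-!
# The quotient metric : slimness and basic properties
-/

namespace Burn

section C
variable {G : Type} [Group G] {ι : Type} [MulAction G ι] {n κ L k D : ℕ} {c Δ T0 Θ : ℤ} {z : G}
  {d : G → G → ℕ} {P Q : ι → G → ℤ} {r : ι → G} {T : ι → ℤ} {γ : ι → G}

theorem dq_slim (V : Env n κ L k c Δ T0 Θ z d P Q r T γ) [(KK r).Normal] :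
    Slim (dq (dh c d Q) (KK r)) k := by
  have hg := V.geoh
  have hl := V.lefth
  have hq : Geo (dq (dh c d Q) (KK r)) := dq_geo hg hl
  intro a b e p hb
  obtain ⟨x, rfl⟩ := QuotientGroup.mk_surjective a
  obtain ⟨y, rfl⟩ := QuotientGroup.mk_surjective b
  obtain ⟨w, rfl⟩ := QuotientGroup.mk_surjective e
  obtain ⟨v, rfl⟩ := QuotientGroup.mk_surjective p
  change Btw (dq (dh c d Q) (KK r)) (x : G ⧸ KK r) (v : G ⧸ KK r) (y : G ⧸ KK r) at hb
  obtain ⟨s1, hs1, h1⟩ := dq_lift V x v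
  obtain ⟨s2, hs2, h2⟩ := dq_lift V (s1 * v) y
  obtain ⟨s3, hs3, h3⟩ := dq_lift V (s2 * y) w
  obtain ⟨s4, hs4, h4⟩ := dq_lift V (s3 * w) x
  obtain ⟨t1, ht1, t2, ht2, t3, ht3, e1, e2, e3, e4⟩ :=
    poly4 V x (s1 * v) (s2 * y) (s3 * w) hs4
  have m1 : ((t1 * (s1 * v) : G) : G ⧸ KK r) = (v : G ⧸ KK r) := by
    rw [dq_mk ht1, dq_mk hs1]
  have m2 : ((t2 * (s2 * y) : G) : G ⧸ KK r) = (y : G ⧸ KK r) := by
    rw [dq_mk ht2, dq_mk hs2]
  have m3 : ((t3 * (s3 * w) : G) : G ⧸ KK r) = (w : G ⧸ KK r) := by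
    rw [dq_mk ht3, dq_mk hs3]
  rw [dq_mk hs1] at h2
  rw [dq_mk hs2] at h3
  rw [dq_mk hs3] at h4
  set v' := t1 * (s1 * v) with hv'
  set y' := t2 * (s2 * y) with hy'
  set w' := t3 * (s3 * w) with hw'
  have f1 := dq_le (r := r) (c := c) (d := d) (Q := Q) x v'
  have f2 := dq_le (r := r) (c := c) (d := d) (Q := Q) v' y'
  have f3 := dq_le (r := r) (c := c) (d := d) (Q := Q) y' w'
  have f4 := dq_le (r := r) (c := c) (d := d) (Q := Q) w' x
  have f5 := dq_le (r := r) (c := c) (d := d) (Q := Q) x y'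
  rw [m1] at f1 f2
  rw [m2] at f2 f3 f5
  rw [m3] at f3 f4
  have hb0 := hb
  unfold Btw at hb
  have g5 := hg.tri x v' y'
  have hb' : Btw (dh c d Q) x v' y' := by
    unfold Btw
    omega
  have g6 : dh c d Q x w' ≤ dq (dh c d Q) (KK r) (x : G ⧸ KK r) (w' : G ⧸ KK r) := by
    rw [m3, hg.symm x w', hq.symm]
    omega
  have g7 : dh c d Q w' y' ≤ dq (dh c d Q) (KK r) (w' : G ⧸ KK r) (y' : G ⧸ KK r) := by
    rw [m3, m2, hg.symm w' y', hq.symm]
    omega
  obtain ⟨q, hq1, hq2⟩ := V.slimh x y' w' v' hb'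
  refine ⟨(q : G ⧸ KK r), ?_, ?_⟩
  · rcases hq1 with h | h
    · left
      have := (dq_btw0 hg hl g6 h).1
      rw [m3] at this
      exact this
    · right
      have := (dq_btw0 hg hl g7 h).1
      rw [m3, m2] at this
      exact this
  · have h6 := dq_le (r := r) (c := c) (d := d) (Q := Q) v' q
    rw [m1] at h6
    exact h6.trans hq2

theorem dq_base (V : Env n κ L k c Δ T0 Θ z d P Q r T γ) [(KK r).Normal] :
    Base (4 * k + 2) (z : G ⧸ KK r) (dq (dh c d Q) (KK r)) := by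
  have hg := V.geoh
  have hl := V.lefth
  have hq : Geo (dq (dh c d Q) (KK r)) := dq_geo hg hl
  refine ⟨hq, slim_hyp hq (dq_slim V), ?_, ?_, ?_, ?_⟩
  · have key : ∀ g a b : G ⧸ KK r, dq (dh c d Q) (KK r) (g * a) (g * b) ≤
        dq (dh c d Q) (KK r) a b := by
      intro g a b
      obtain ⟨g', rfl⟩ := QuotientGroup.mk_surjective g
      obtain ⟨x, y, rfl, rfl, h⟩ := dq_att (dh c d Q) a b
      rw [← h, ← hl g' x y]
      exact dq_le (g' * x) (g' * y)
    intro g a b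
    refine le_antisymm (key g a b) ?_
    have h := key g⁻¹ (g * a) (g * b)
    rwa [inv_mul_cancel_left, inv_mul_cancel_left] at h
  · intro g
    obtain ⟨g', rfl⟩ := QuotientGroup.mk_surjective g
    exact congrArg (fun x : G => (x : G ⧸ KK r)) (V.fl.fam.base.cen g')
  · intro i hi
    have h1 : ((z ^ i : G) : G ⧸ KK r) = 1 := by
      rw [← hi]; rfl
    exact KK_z V ((QuotientGroup.eq_one_iff _).1 h1)
  · have h1 := dq_le (r := r) (c := c) (d := d) (Q := Q) 1 z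
    have h2 := V.le 1 z
    have h3 := V.fl.fam.base.zd
    have h4 : dq (dh c d Q) (KK r) (1 : G ⧸ KK r) (z : G ⧸ KK r) ≤ dh c d Q 1 z := h1
    omega

end C

end Burn
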