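import Pool.Agent.Burn.Rot

set_option autoImplicit false

/-!
# Elements which fix the orbits of two close lines
-/

namespace Burn

section
variable {G : Type} [Group G] {ι : Type} [MulAction G ι] {n κ L k D : ℕ} {c Δ T0 Θ : ℤ} {z : G}
  {d : G → G → ℕ} {P Q : ι → G → ℤ} {r : ι → G} {T : ι → ℤ} {γ : ι → G}

/-- a power of the rotation brings every point close to a given one. -/
theorem sl_pow (V : Env n κ L k c Δ T0 Θ z d P Q r T γ) (E : ι) (x y : G) :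
    ∃ l : ℤ, 2 * |P E (r E ^ l * x) - P E y| ≤ T E + 3 * c := by
  have F := V.fl.fam
  have hc := F.hc
  have hΔ := F.hΔ
  have hΘ := V.hΘ
  have hbig := V.big
  have hTE := F.hT E
  classical
  have h1 : ∃ m : ℕ, ∃ l : ℤ, (P E (r E ^ l * x) - P E y).natAbs = m := ⟨_, 0, rfl⟩
  obtain ⟨l, hl⟩ := Nat.find_spec h1
  have hmin : ∀ l' : ℤ, |P E (r E ^ l * x) - P E y| ≤ |P E (r E ^ l' * x) - P E y| := by
    intro l'
    have := Nat.find_min' h1 ⟨l', rfl⟩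
    rw [← hl] at this
    rw [Int.abs_eq_natAbs, Int.abs_eq_natAbs]
    exact_mod_cast this
  refine ⟨l, ?_⟩
  have s1 : ∀ w : G, T E - c ≤ P E (r E * w) - P E w := fun w => by
    have := F.sh E 1 w le_rfl
    rwa [pow_one] at this
  have s2 := F.sh1 E
  have m1 := hmin (l - 1)
  have m2 := hmin (l + 1)
  have e1 : r E * (r E ^ (l - 1) * x) = r E ^ l * x := by
    rw [← mul_assoc, ← zpow_one_add]
    congr 2
    ring
  have e2 : r E * (r E ^ l * x) = r E ^ (l + 1) * x := by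
    rw [← mul_assoc, ← zpow_one_add]
    congr 2
    ring
  have a1 := s1 (r E ^ (l - 1) * x)
  have a2 := s2 (r E ^ (l - 1) * x)
  have a3 := s1 (r E ^ l * x)
  have a4 := s2 (r E ^ l * x)
  rw [e1] at a1 a2
  rw [e2] at a3 a4
  rcases le_total 0 (P E (r E ^ l * x) - P E y) with h0 | h0
  · rw [abs_of_nonneg h0] at m1 ⊢
    rcases abs_cases (P E (r E ^ (l - 1) * x) - P E y) with ⟨h3, h4⟩ | ⟨h3, h4⟩ <;>
    rw [h3] at m1 <;> linarith
  · rw [abs_of_nonpos h0] at m2 ⊢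
    rcases abs_cases (P E (r E ^ (l + 1) * x) - P E y) with ⟨h3, h4⟩ | ⟨h3, h4⟩ <;>
    rw [h3] at m2 <;> linarith

theorem sl_rconj (F : Fam c Δ T0 z d P Q r T) (g : G) (E : ι) (l : ℤ) :
    r (g • E) ^ l * g = g * r E ^ l := by
  rw [F.rconj, conj_zpow]
  group

theorem sl_main (V : Env n κ L k c Δ T0 Θ z d P Q r T γ) {E1 E2 : ι} {e1 e2 g b : G} (hne : E1 ≠ E2)
    (h1 : Q E1 e1 ≤ 2 * c) (h2 : Q E2 e2 ≤ 2 * c) (hE : ∀ E, |P E e1 - P E e2| ≤ 200 * Θ)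
    (hb : b ∈ KK r) (hg1 : g • E1 = E1) (hg2 : g • E2 = b • E2)
    (hm1 : 2 * |P E1 (g * e2) - P E1 e2| ≤ T E1 + 3 * c)
    (hm2 : 2 * |P (g • E2) (b * e2) - P (g • E2) e2| ≤ T (g • E2) + 3 * c) :
    ∃ j : ℤ, g = z ^ j := by
  have F := V.fl.fam
  have hc := F.hc
  have hΔ := F.hΔ
  have hΘ := V.hΘ
  have hbig := V.big
  have hb1 : b = 1 := by
    by_contra hb1
    obtain ⟨E, hEE⟩ := V.green b hb hb1 e2
    have hTE := F.hT E
    have hEF : E ≠ g • E2 := by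
      rintro rfl
      rw [abs_sub_comm] at hm2
      linarith
    have q1 : Q (g • E2) (b * e2) ≤ 100 * c := by
      rw [hg2, F.eqQ]; linarith
    have q2 : Q (g • E2) (g * e2) ≤ 100 * c := by
      rw [F.eqQ]; linarith
    have o1 := F.ov E (g • E2) (b * e2) (g * e2) hEF q1 q2
    have t1 := abs_sub_le (P E e2) (P E (g * e2)) (P E (b * e2))
    rw [abs_sub_comm (P E (g * e2)) (P E (b * e2))] at t1
    by_cases hE1 : E = E1
    · subst hE1
      rw [abs_sub_comm] at hm1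
      linarith
    have q3 : Q E1 (g * e1) ≤ 100 * c := by
      have := F.eqQ g E1 e1
      rw [hg1] at this
      rw [this]
      linarith
    have o2 := F.ov E E1 e1 (g * e1) hE1 (by linarith) q3
    have hge : |P E (g * e1) - P E (g * e2)| ≤ 200 * Θ + c := by
      have e1' := F.eqP g (g⁻¹ • E) e1 e2
      rw [smul_inv_smul] at e1'
      have e2' := hE (g⁻¹ • E)
      have e3' := abs_sub_abs_le_abs_sub (P E (g * e1) - P E (g * e2))
        (P (g⁻¹ • E) e1 - P (g⁻¹ • E) e2)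
      linarith
    have t2 := abs_sub_le (P E e2) (P E e1) (P E (g * e2))
    have t3 := abs_sub_le (P E e1) (P E (g * e1)) (P E (g * e2))
    have t4 := hE E
    rw [abs_sub_comm] at t4
    linarith
  subst hb1
  rw [one_smul] at hg2
  obtain ⟨j, hj⟩ := Subgroup.mem_zpowers_iff.1 (F.two E1 E2 g hne hg1 hg2)
  exact ⟨j, hj.symm⟩

theorem sl (V : Env n κ L k c Δ T0 Θ z d P Q r T γ) {E1 E2 : ι} {e1 e2 g a b : G} (hne : E1 ≠ E2)
    (h1 : Q E1 e1 ≤ 2 * c) (h2 : Q E2 e2 ≤ 2 * c) (hE : ∀ E, |P E e1 - P E e2| ≤ 200 * Θ)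
    (ha : a ∈ KK r) (hb : b ∈ KK r) (hg1 : g • E1 = a • E1) (hg2 : g • E2 = b • E2) :
    ∃ j : ℤ, ∃ s ∈ KK r, g = z ^ j * s := by
  have F := V.fl.fam
  have hrK : ∀ (E : ι) (l : ℤ), r E ^ l ∈ KK r := fun E l => Fam.KK_rot E l
  obtain ⟨l1, hl1⟩ := sl_pow V E1 (a⁻¹ * g * e2) e2
  set g' : G := r E1 ^ l1 * (a⁻¹ * g) with hg'
  have hg'1 : g' • E1 = E1 := by
    rw [hg', mul_smul, mul_smul, hg1, inv_smul_smul, F.rpow_smul]
  have hg'2 : g' • E2 = (r E1 ^ l1 * (a⁻¹ * b)) • E2 := by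
    rw [hg', mul_smul, mul_smul, hg2, mul_smul, mul_smul]
  set b' : G := r E1 ^ l1 * (a⁻¹ * b) with hb'
  have hb'K : b' ∈ KK r := mul_mem (hrK _ _) (mul_mem (inv_mem ha) hb)
  obtain ⟨l2, hl2⟩ := sl_pow V (g' • E2) (b' * e2) e2
  have hb''2 : g' • E2 = (r (g' • E2) ^ l2 * b') • E2 := by
    rw [mul_smul (r (g' • E2) ^ l2) b' E2, ← hg'2, F.rpow_smul]
  obtain ⟨j, hj⟩ := sl_main V (g := g') (b := r (g' • E2) ^ l2 * b') hne h1 h2 hE
    (mul_mem (hrK _ _) hb'K) hg'1 hb''2 (by rw [hg', mul_assoc]; exact hl1)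
    (by rw [mul_assoc]; exact hl2)
  refine ⟨j, a * (r E1 ^ l1)⁻¹, mul_mem ha (inv_mem (hrK _ _)), ?_⟩
  have hcen : ∀ x : G, z ^ j * x = x * z ^ j := fun x =>
    (Commute.zpow_left (F.base.cen x) j).eq
  rw [hcen, ← hj, hg']
  group

end

end Burn
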