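import Pool.Agent.Burn.Elec1
import Pool.Agent.Burn.Dq
import Pool.Agent.Burn.Rot
import Pool.Agent.Burn.Apx
import Pool.Agent.Burn.Sl

set_option autoImplicit false

/-!
# Counting the elements which move a segment with two large angles a little
-/

namespace Burn

section C
variable {G : Type} [Group G] {ι : Type} [MulAction G ι] {n κ L k D : ℕ} {c Δ T0 Θ : ℤ} {z : G}
  {d : G → G → ℕ} {P Q : ι → G → ℤ} {r : ι → G} {T : ι → ℤ} {γ : ι → G}

theorem acount_dE (V : Env n κ L k c Δ T0 Θ z d P Q r T γ) {q : ℕ → G} {m i : ℕ} {E : ι}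
    (hq : IsPath (dh c d Q) q m) (hi : i < m) (h1 : Q E (q i) ≤ 2 * c)
    (h2 : Q E (q (i + 1)) ≤ 2 * c) :
    dE c d Q E (q 0) = i ∧ dE c d Q E (q m) + i + 1 = m := by
  obtain ⟨⟨a, ha, ha'⟩, hle, -⟩ := elec_dE V.fl.fam E (q 0)
  obtain ⟨⟨b, hb, hb'⟩, hle', -⟩ := elec_dE V.fl.fam E (q m)
  have e1 := hq 0 i (Nat.zero_le _) hi.le
  have e2 := hq 0 (i + 1) (Nat.zero_le _) hi
  have e3 := hq i m hi.le le_rfl
  have e4 := hq (i + 1) m hi le_rfl
  have l1 := hle (q i) h1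
  have l2 := hle' (q (i + 1)) h2
  have j1 := V.jmp E a (q (i + 1)) ha h2
  have j2 := V.jmp E b (q i) hb h1
  have t1 := V.geoh.tri (q 0) a (q (i + 1))
  have t2 := V.geoh.tri (q m) b (q i)
  have s1 := V.geoh.symm (q m) (q i)
  have s2 := V.geoh.symm (q m) (q (i + 1))
  omega

theorem acount_path (V : Env n κ L k c Δ T0 Θ z d P Q r T γ) {q : ℕ → G} {m : ℕ} (g : G)
    (hq : IsPath (dh c d Q) q m) : IsPath (dh c d Q) (fun i => g * q i) m := by
  intro i j hij hj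
  have := hq i j hij hj
  change dh c d Q (g * q i) (g * q j) = j - i
  rw [V.lefth, this]

theorem acount_one (V : Env n κ L k c Δ T0 Θ z d P Q r T γ) {p : ℕ → G} {m i1 R : ℕ} {E1 : ι}
    (hp : IsPath (dh c d Q) p m) (hmin : ∀ s ∈ KK r, m ≤ dh c d Q (p 0) (s * p m))
    (hred : ∀ F, 2 * |P F (p 0) - P F (p m)| ≤ T F + 10 * Θ)
    (ha : Q E1 (p i1) ≤ 2 * c) (ha' : Q E1 (p (i1 + 1)) ≤ 2 * c)
    (h1 : 70 * Θ ≤ |P E1 (p 0) - P E1 (p m)|) (hR1 : R + k < i1) (hR2 : R + k + i1 + 1 < m)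
    {g a : G} (haK : a ∈ KK r) (hg : dh c d Q (p 0) (g * p 0) ≤ R)
    (hg' : dh c d Q (p m) (a * (g * p m)) ≤ R) :
    ∃ b ∈ KK r, ∃ i : ℕ, i < m ∧ Q (b • g • E1) (p i) ≤ 2 * c ∧
      Q (b • g • E1) (p (i + 1)) ≤ 2 * c ∧ Big P (40 * Θ) (b • g • E1) (p i) (p (i + 1)) ∧
      i ≤ i1 + R ∧ i1 ≤ i + R := by
  have F := V.fl.fam
  have hΘ := V.hΘ
  have hc := F.hc
  have hΔ := F.hΔ
  obtain ⟨e1, e2⟩ := acount_dE V (i := i1) (E := g • E1) (acount_path V g hp) (by omega)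
    (by rw [F.eqQ]; exact ha)
    (by rw [F.eqQ]; exact ha')
  change dE c d Q (g • E1) (g * p 0) = i1 at e1
  change dE c d Q (g • E1) (g * p m) + i1 + 1 = m at e2
  have hred' : ∀ F', 2 * |P F' (g * p 0) - P F' (g * p m)| ≤ T F' + 20 * Θ := by
    intro F'
    have h3 := hred (g⁻¹ • F')
    have h4 := F.eqP g (g⁻¹ • F') (p 0) (p m)
    have h5 := T_inv V g⁻¹ F'
    rw [smul_inv_smul] at h4
    have h6 := abs_le.1 h4
    have h7 := abs_le.1 h5
    have h8 : |P F' (g * p 0) - P F' (g * p m)| ≤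
        |P (g⁻¹ • F') (p 0) - P (g⁻¹ • F') (p m)| + c := by
      have := abs_sub_abs_le_abs_sub (P F' (g * p 0) - P F' (g * p m))
        (P (g⁻¹ • F') (p 0) - P (g⁻¹ • F') (p m))
      linarith
    linarith [h7.2]
  have hE' : 60 * Θ ≤ |P (g • E1) (g * p 0) - P (g • E1) (g * p m)| := by
    have h4 := F.eqP g E1 (p 0) (p m)
    have h8 : |P E1 (p 0) - P E1 (p m)| - |P (g • E1) (g * p 0) - P (g • E1) (g * p m)| ≤ c := by
      have := abs_sub_abs_le_abs_sub (P E1 (p 0) - P E1 (p m))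
        (P (g • E1) (g * p 0) - P (g • E1) (g * p m))
      rw [abs_sub_comm (P E1 (p 0) - P E1 (p m))] at this
      linarith
    linarith
  obtain ⟨b, hb, i, hi, q1, q2, q3, q4, q5⟩ := apx V hred' hE' (R := R) (by omega) (by omega)
    a haK p m hp hmin (by rw [V.geoh.symm]; exact hg) (by rw [V.geoh.symm]; exact hg')
  rw [e1] at q4 q5
  exact ⟨b, hb, i, hi, q1, q2, q3, q4, q5⟩

/-- at most one line with a big jump. -/
theorem acount_uniq (V : Env n κ L k c Δ T0 Θ z d P Q r T γ) {E F : ι} {x y : G}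
    (h1 : Q F x ≤ 2 * c) (h2 : Q F y ≤ 2 * c) (h3 : Big P (40 * Θ) E x y) : E = F := by
  by_contra hne
  have Fa := V.fl.fam
  have hΘ := V.hΘ
  have hc := Fa.hc
  have hΔ := Fa.hΔ
  obtain ⟨a, ha⟩ := h3
  have hne' : a • E ≠ a • F := fun h => hne (smul_left_cancel a h)
  have := Fa.ov (a • E) (a • F) (a * x) (a * y) hne' (by rw [Fa.eqQ]; linarith)
    (by rw [Fa.eqQ]; linarith)
  linarith

theorem acount (V : Env n κ L k c Δ T0 Θ z d P Q r T γ) [(KK r).Normal] {p : ℕ → G}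
    {m i1 i2 B : ℕ} {E1 E2 : ι} (hp : IsPath (dh c d Q) p m)
    (hmin : ∀ s ∈ KK r, m ≤ dh c d Q (p 0) (s * p m))
    (hred : ∀ F, 2 * |P F (p 0) - P F (p m)| ≤ T F + 10 * Θ) (h12 : i1 < i2)
    (ha : Q E1 (p i1) ≤ 2 * c) (ha' : Q E1 (p (i1 + 1)) ≤ 2 * c)
    (hb : Q E2 (p i2) ≤ 2 * c) (hb' : Q E2 (p (i2 + 1)) ≤ 2 * c)
    (h1 : 70 * Θ ≤ |P E1 (p 0) - P E1 (p m)|) (h2 : 70 * Θ ≤ |P E2 (p 0) - P E2 (p m)|)
    (hE : ∀ E, |P E (p (i1 + 1)) - P E (p i2)| ≤ 200 * Θ)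
    (hB1 : B + k + 2 ≤ i1) (hB2 : i2 + B + k + 3 ≤ m) :
    Count (fun R => (2 * R + 1) ^ 2) B (z : G ⧸ KK r) (dq (dh c d Q) (KK r))
      (p 0 : G ⧸ KK r) (p m : G ⧸ KK r) := by
  intro R m' f hR hf hne
  change m' ≤ (2 * R + 1) ^ 2
  have hEE : E1 ≠ E2 := by
    rintro rfl
    have q1 := (acount_dE V hp (by omega : i1 < m) ha ha').1
    have q2 := (acount_dE V hp (by omega : i2 < m) hb hb').1
    omega
  have key : ∀ j, j < m' → ∃ g : G, (g : G ⧸ KK r) = f j ∧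
      (∃ b ∈ KK r, ∃ i : ℕ, i < m ∧ Q (b • g • E1) (p i) ≤ 2 * c ∧
        Q (b • g • E1) (p (i + 1)) ≤ 2 * c ∧ Big P (40 * Θ) (b • g • E1) (p i) (p (i + 1)) ∧
        i ≤ i1 + R ∧ i1 ≤ i + R) ∧
      (∃ b ∈ KK r, ∃ i : ℕ, i < m ∧ Q (b • g • E2) (p i) ≤ 2 * c ∧
        Q (b • g • E2) (p (i + 1)) ≤ 2 * c ∧ Big P (40 * Θ) (b • g • E2) (p i) (p (i + 1)) ∧
        i ≤ i2 + R ∧ i2 ≤ i + R) := by
    intro j hj
    obtain ⟨hm1, hm2⟩ := hf j hj
    obtain ⟨x, hx⟩ := QuotientGroup.mk_surjective (f j)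
    rw [← hx] at hm1 hm2
    obtain ⟨s, hs, hs'⟩ := dq_lift V (p 0) (x * p 0)
    obtain ⟨t, ht, ht'⟩ := dq_lift V (p m) (x * p m)
    have hm1' : dh c d Q (p 0) (s * x * p 0) ≤ R := by
      rw [mul_assoc, ← hs']; exact hm1
    have hm2' : dh c d Q (p m) (t * s⁻¹ * (s * x * p m)) ≤ R := by
      have : t * s⁻¹ * (s * x * p m) = t * (x * p m) := by group
      rw [this, ← ht']; exact hm2
    refine ⟨s * x, by rw [dq_mk hs, hx], ?_, ?_⟩
    · exact acount_one V hp hmin hred ha ha' h1 (by omega) (by omega)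
        ((KK r).mul_mem ht ((KK r).inv_mem hs)) hm1' hm2'
    · exact acount_one V hp hmin hred hb hb' h2 (by omega) (by omega)
        ((KK r).mul_mem ht ((KK r).inv_mem hs)) hm1' hm2'
  choose! g hg hA hB' using key
  choose! b hbK i him q1 q2 q3 q4 q5 using hA
  choose! b' hbK' i' him' q1' q2' q3' q4' q5' using hB'
  by_contra hlt
  rw [not_le] at hlt
  obtain ⟨x, hx, y, hy, hxy, hφ⟩ := Finset.exists_ne_map_eq_of_card_lt_of_maps_to
    (s := Finset.range m')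
    (t := Finset.Icc (i1 - R) (i1 + R) ×ˢ Finset.Icc (i2 - R) (i2 + R))
    (f := fun j => (i j, i' j))
    (by
      rw [Finset.card_product, Nat.card_Icc, Nat.card_Icc, Finset.card_range]
      have e1 : i1 + R + 1 - (i1 - R) = 2 * R + 1 := by omega
      have e2 : i2 + R + 1 - (i2 - R) = 2 * R + 1 := by omega
      rw [e1, e2, ← pow_two]
      exact hlt)
    (by
      intro j hj
      have hj' : j < m' := by simpa using hj
      have a1 := q4 j hj'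
      have a2 := q5 j hj'
      have a3 := q4' j hj'
      have a4 := q5' j hj'
      simp only [Finset.coe_product, Set.mem_prod, Finset.coe_Icc, Set.mem_Icc]
      omega)
  have hx' : x < m' := by simpa using hx
  have hy' : y < m' := by simpa using hy
  have main : ∀ x y, x < m' → y < m' → i x = i y → i' x = i' y →
      (f x)⁻¹ * f y ∈ Subgroup.zpowers (z : G ⧸ KK r) := by
    intro x y hx hy e1 e2
    have u1 : b x • g x • E1 = b y • g y • E1 := by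
      apply acount_uniq V (x := p (i x)) (y := p (i x + 1)) _ _ (q3 x hx)
      · rw [e1]; exact q1 y hy
      · rw [e1]; exact q2 y hy
    have u2 : b' x • g x • E2 = b' y • g y • E2 := by
      apply acount_uniq V (x := p (i' x)) (y := p (i' x + 1)) _ _ (q3' x hx)
      · rw [e2]; exact q1' y hy
      · rw [e2]; exact q2' y hy
    have v1 : ((g x)⁻¹ * g y) • E1 = ((g x)⁻¹ * ((b y)⁻¹ * b x) * (g x)⁻¹⁻¹) • E1 := by
      have : g y • E1 = (b y)⁻¹ • b x • g x • E1 := by rw [u1, inv_smul_smul]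
      rw [inv_inv, mul_smul, this]
      simp only [mul_smul]
    have v2 : ((g x)⁻¹ * g y) • E2 = ((g x)⁻¹ * ((b' y)⁻¹ * b' x) * (g x)⁻¹⁻¹) • E2 := by
      have : g y • E2 = (b' y)⁻¹ • b' x • g x • E2 := by rw [u2, inv_smul_smul]
      rw [inv_inv, mul_smul, this]
      simp only [mul_smul]
    have w1 : (g x)⁻¹ * ((b y)⁻¹ * b x) * (g x)⁻¹⁻¹ ∈ KK r :=
      Subgroup.Normal.conj_mem inferInstance _
        ((KK r).mul_mem ((KK r).inv_mem (hbK y hy)) (hbK x hx)) _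
    have w2 : (g x)⁻¹ * ((b' y)⁻¹ * b' x) * (g x)⁻¹⁻¹ ∈ KK r :=
      Subgroup.Normal.conj_mem inferInstance _
        ((KK r).mul_mem ((KK r).inv_mem (hbK' y hy)) (hbK' x hx)) _
    obtain ⟨j, s, hs, hj⟩ := sl V hEE ha' hb hE w1 w2 v1 v2
    have hj' : (((g x)⁻¹ * g y : G) : G ⧸ KK r) = (z : G ⧸ KK r) ^ j := by
      rw [hj]
      have e3 : ((z ^ j * s : G) : G ⧸ KK r) = ((z ^ j : G) : G ⧸ KK r) * (s : G ⧸ KK r) := rfl
      rw [e3, (QuotientGroup.eq_one_iff s).2 hs, mul_one]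
      rfl
    rw [← hg x hx, ← hg y hy]
    exact Subgroup.mem_zpowers_iff.2 ⟨j, hj'.symm⟩
  have h3 : i x = i y := congrArg Prod.fst hφ
  have h4 : i' x = i' y := congrArg Prod.snd hφ
  rcases lt_or_gt_of_ne hxy with h | h
  · exact hne x y h hy' (main x y hx' hy' h3 h4)
  · exact hne y x h hx' (main y x hy' hx' h3.symm h4.symm)

end C

end Burn
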