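import Pool.Agent.Burn.Defs

set_option autoImplicit false

/-!
# Shifts along the axis of a loxodromic element
-/

namespace Burn

section TAU
variable {G : Type} [Group G] {d : G → G → ℕ} {z : G} {δ κ : ℕ}

lemma tau_zcen (hB : Base δ z d) (i : ℤ) (x : G) : z ^ i * x = x * z ^ i := by
  have h : Commute z x := hB.cen x
  exact (h.zpow_left i)

lemma tau_z0nat (hB : Base δ z d) (i : ℕ) : d 1 (z ^ i) = 0 := by
  induction i with
  | zero => rw [pow_zero]; exact hB.geo.refl 1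
  | succ n ih =>
    have h1 := hB.geo.tri 1 (z ^ n) (z ^ (n + 1))
    have h2 : d (z ^ n) (z ^ (n + 1)) = d 1 z := by
      rw [pow_succ]
      have := hB.left (z ^ n) 1 z
      rwa [mul_one] at this
    rw [h2, hB.zd] at h1
    omega

lemma tau_z0 (hB : Base δ z d) (i : ℤ) : d 1 (z ^ i) = 0 := by
  obtain ⟨n, rfl | rfl⟩ := i.eq_nat_or_neg
  · rw [zpow_natCast]; exact tau_z0nat hB n
  · rw [zpow_neg, zpow_natCast]
    have := hB.left (z ^ n) 1 (z ^ n)⁻¹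
    rw [mul_one, mul_inv_cancel] at this
    rw [← this, hB.geo.symm]
    exact tau_z0nat hB n

lemma tau_zr (hB : Base δ z d) (i : ℤ) (x : G) : d x (z ^ i * x) = 0 := by
  rw [tau_zcen hB]
  have := hB.left x 1 (z ^ i)
  rw [mul_one] at this
  rw [this, tau_z0 hB]

lemma tau_zl (hB : Base δ z d) (i : ℤ) (x y : G) : d (z ^ i * x) y = d x y := by
  have h1 := hB.geo.tri (z ^ i * x) x y
  have h2 := hB.geo.tri x (z ^ i * x) y
  have h3 := tau_zr hB i x
  have h4 := hB.geo.symm (z ^ i * x) x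
  omega

/-- `h` commutes with a nontrivial power of `g` up to `z`. -/
theorem bdd_of_comm (hB : Base δ z d) {g h : G} {m : ℕ} {j : ℤ} (hm : 0 < m)
    (e : h * g ^ m = g ^ m * h * z ^ j) : Bdd d g h := by
  refine ⟨∑ r ∈ Finset.range m, d (h * g ^ r) (g ^ r), fun N => ?_⟩
  have hm' : (0 : ℤ) < m := by exact_mod_cast hm
  set q := N / (m : ℤ) with hq
  set r := (N % (m : ℤ)).toNat with hr
  have hr0 : 0 ≤ N % (m : ℤ) := Int.emod_nonneg _ (by omega)
  have hr1 : N % (m : ℤ) < m := Int.emod_lt_of_pos _ hm'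
  have hrm : r < m := by omega
  have hN : N = m * q + r := by
    have h' : (r : ℤ) = N % m := Int.toNat_of_nonneg hr0
    rw [h']
    exact (Int.mul_ediv_add_emod N m).symm
  have hc : h * g ^ ((m : ℤ) * q) = z ^ (j * q) * (g ^ ((m : ℤ) * q) * h) := by
    have e1 : h * g ^ m * h⁻¹ = g ^ m * z ^ j := by
      rw [e, mul_assoc, mul_assoc, tau_zcen hB j h⁻¹, mul_inv_cancel_left]
    have e2 : (h * g ^ m * h⁻¹) ^ q = h * (g ^ m) ^ q * h⁻¹ := by
      rw [conj_zpow]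
    have e3 : (g ^ m * z ^ j) ^ q = (g ^ m) ^ q * (z ^ j) ^ q := by
      apply Commute.mul_zpow
      exact (tau_zcen hB j (g ^ m)).symm
    rw [e1, e3, ← zpow_mul z, ← zpow_natCast g m, ← zpow_mul g] at e2
    rw [tau_zcen hB, mul_assoc, ← tau_zcen hB (j * q) h, ← mul_assoc, e2, inv_mul_cancel_right]
  have e4 : h * g ^ N = z ^ (j * q) * (g ^ ((m : ℤ) * q) * (h * g ^ r)) := by
    rw [hN, zpow_add, ← mul_assoc, hc, zpow_natCast]
    simp only [mul_assoc]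
  have e5 : g ^ N = g ^ ((m : ℤ) * q) * g ^ r := by
    rw [hN, zpow_add, zpow_natCast]
  rw [e4, tau_zl hB, e5, hB.left]
  exact Finset.single_le_sum (f := fun r => d (h * g ^ r) (g ^ r)) (fun _ _ => Nat.zero_le _)
    (Finset.mem_range.2 hrm)

theorem Bdd.mul (hg : Geo d) (hl : LeftInv d) {g a b : G} (ha : Bdd d g a) (hb : Bdd d g b) :
    Bdd d g (a * b) := by
  obtain ⟨A, hA⟩ := ha
  obtain ⟨B, hB⟩ := hb
  refine ⟨B + A, fun N => ?_⟩
  have h1 := hg.tri (a * b * g ^ N) (a * g ^ N) (g ^ N)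
  have h2 : d (a * b * g ^ N) (a * g ^ N) = d (b * g ^ N) (g ^ N) := by
    rw [mul_assoc, hl]
  have h3 := hA N
  have h4 := hB N
  omega

theorem Bdd.inv (hg : Geo d) (hl : LeftInv d) {g a : G} (ha : Bdd d g a) : Bdd d g a⁻¹ := by
  obtain ⟨A, hA⟩ := ha
  refine ⟨A, fun N => ?_⟩
  have h1 := hl a (a⁻¹ * g ^ N) (g ^ N)
  rw [mul_inv_cancel_left] at h1
  rw [← h1, hg.symm]
  exact hA N

lemma tau_bdd_one (hg : Geo d) (g : G) : Bdd d g 1 :=
  ⟨0, fun N => by rw [one_mul, hg.refl]⟩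

theorem Bdd.zpow (hg : Geo d) (hl : LeftInv d) {g a : G} (ha : Bdd d g a) (m : ℤ) :
    Bdd d g (a ^ m) := by
  induction m with
  | zero => rw [zpow_zero]; exact tau_bdd_one hg g
  | succ n ih => rw [zpow_add_one]; exact ih.mul hg hl ha
  | pred n ih => rw [zpow_sub_one]; exact ih.mul hg hl (ha.inv hg hl)

/-- a real which is small after multiplication with all natural numbers is nonpositive -/
lemma tau_arch {t c : ℝ} (h : ∀ m : ℕ, (m : ℝ) * t ≤ c) : t ≤ 0 := by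
  by_contra hc
  push Not at hc
  obtain ⟨m, hm⟩ := exists_nat_gt (c / t)
  have := h m
  rw [div_lt_iff₀ hc] at hm
  linarith

theorem sh_unique {P : G → ℤ} {c c' : ℤ} {h : G} {t t' : ℝ} (h1 : Sh P c h t)
    (h2 : Sh P c' h t') : t = t' := by
  have key : ∀ (s s' : ℝ) (c c' : ℤ), Sh P c h s → Sh P c' h s' → s ≤ s' := by
    intro s s' c c' h1 h2
    have : s - s' ≤ 0 := by
      apply tau_arch (c := (c : ℝ) + c')
      intro m
      have a1 := abs_le.1 (h1 m 1)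
      have a2 := abs_le.1 (h2 m 1)
      push_cast at a1 a2
      have : (m : ℝ) * (s - s') = m * s - m * s' := by ring
      linarith [a1.1, a1.2, a2.1, a2.2]
    linarith
  exact le_antisymm (key _ _ _ _ h1 h2) (key _ _ _ _ h2 h1)

theorem Sh.zpow {P : G → ℤ} {c : ℤ} {h : G} {t : ℝ} (h1 : Sh P c h t) (m : ℤ) :
    Sh P c (h ^ m) (m * t) := by
  intro k x
  have := h1 (m * k) x
  rw [← zpow_mul]
  push_cast at this
  rwa [show (k : ℝ) * (m * t) = m * k * t by ring]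

/-- conjugation with an element which is bounded with respect to the axis. -/
theorem sh_conj {c : ℤ} {g : G} {P Q : G → ℤ} (hA : AxisOf d c g P Q) {a h : G} {t : ℝ}
    (ha : Bdd d g a) (h1 : Sh P c h t) : Sh P (3 * c) (a * h * a⁻¹) t := by
  obtain ⟨s, hs⟩ := hA.sh a ha
  intro m x
  have e : (a * h * a⁻¹) ^ m * x = a * (h ^ m * (a⁻¹ * x)) := by
    rw [conj_zpow]
    simp only [mul_assoc]
  rw [e]
  have a1 := abs_le.1 (hs 1 (h ^ m * (a⁻¹ * x)))
  have a2 := abs_le.1 (h1 m (a⁻¹ * x))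
  have a3 := abs_le.1 (hs (-1) x)
  rw [zpow_one] at a1
  rw [zpow_neg_one] at a3
  push_cast at a1 a2 a3 ⊢
  rw [abs_le]
  constructor <;> linarith [a1.1, a1.2, a2.1, a2.2, a3.1, a3.2]

lemma tau_conj_comm (hB : Base δ z d) {a b : G} {j : ℤ} (e : a * b = b * a * z ^ j) (m : ℤ) :
    a * b ^ m * a⁻¹ = b ^ m * z ^ (j * m) := by
  have e1 : a * b * a⁻¹ = b * z ^ j := by
    rw [e, mul_assoc, mul_assoc, tau_zcen hB j a⁻¹, mul_inv_cancel_left]
  rw [← conj_zpow, e1, Commute.mul_zpow (tau_zcen hB j b).symm, ← zpow_mul]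

lemma tau_mul_zpow (hB : Base δ z d) {a b : G} {j : ℤ} (e : a * b = b * a * z ^ j) (m : ℤ) :
    ∃ k : ℤ, (a * b) ^ m = a ^ m * b ^ m * z ^ k := by
  induction m with
  | zero => exact ⟨0, by simp⟩
  | succ n ih =>
    obtain ⟨k, hk⟩ := ih
    refine ⟨k - j * n, ?_⟩
    have h1 := tau_conj_comm hB e n
    have h2 : b ^ (n : ℤ) * a = a * b ^ (n : ℤ) * z ^ (-(j * n)) := by
      have : b ^ (n : ℤ) = a * b ^ (n : ℤ) * a⁻¹ * z ^ (-(j * n)) := by
        rw [h1, mul_assoc, ← zpow_add]; simp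
      calc b ^ (n : ℤ) * a = (a * b ^ (n : ℤ) * a⁻¹ * z ^ (-(j * n))) * a := by rw [← this]
        _ = a * b ^ (n : ℤ) * a⁻¹ * (z ^ (-(j * n)) * a) := by rw [mul_assoc]
        _ = a * b ^ (n : ℤ) * z ^ (-(j * n)) := by
          rw [tau_zcen hB, ← mul_assoc, inv_mul_cancel_right]
    calc (a * b) ^ ((n : ℤ) + 1) = a ^ (n : ℤ) * b ^ (n : ℤ) * z ^ k * (a * b) := by
          rw [zpow_add_one, hk]
      _ = a ^ (n : ℤ) * (b ^ (n : ℤ) * a) * b * z ^ k := by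
          rw [mul_assoc _ (z ^ k), tau_zcen hB k (a * b)]; simp only [mul_assoc]
      _ = a ^ ((n : ℤ) + 1) * b ^ ((n : ℤ) + 1) * z ^ (k - j * n) := by
          rw [h2, zpow_add_one, zpow_add_one, sub_eq_neg_add, zpow_add]
          have := tau_zcen hB (-(j * n)) b
          simp only [mul_assoc]
          rw [← mul_assoc (z ^ (-(j * (n : ℤ)))) b, this]
          simp only [mul_assoc]
  | pred n ih =>
    obtain ⟨k, hk⟩ := ih
    refine ⟨k + j * (-(n : ℤ) - 1), ?_⟩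
    have h1 := tau_conj_comm hB e (-(n : ℤ) - 1)
    have h2 : b ^ (-(n : ℤ) - 1) * a⁻¹ = a⁻¹ * b ^ (-(n : ℤ) - 1) * z ^ (j * (-(n : ℤ) - 1)) := by
      rw [mul_assoc a⁻¹, ← h1]
      simp only [mul_assoc, inv_mul_cancel_left]
    calc (a * b) ^ (-(n : ℤ) - 1) = a ^ (-(n : ℤ)) * b ^ (-(n : ℤ)) * z ^ k * (a * b)⁻¹ := by
          rw [zpow_sub_one, hk]
      _ = a ^ (-(n : ℤ)) * (b ^ (-(n : ℤ) - 1) * a⁻¹) * z ^ k := by
          rw [mul_inv_rev, mul_assoc _ (z ^ k), tau_zcen hB k, zpow_sub_one b]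
          simp only [mul_assoc]
      _ = a ^ (-(n : ℤ) - 1) * b ^ (-(n : ℤ) - 1) * z ^ (k + j * (-(n : ℤ) - 1)) := by
          rw [h2, add_comm k, zpow_add, zpow_sub_one a]
          simp only [mul_assoc]

lemma tau_Pz (hB : Base δ z d) {c : ℤ} {g : G} {P Q : G → ℤ} (hA : AxisOf d c g P Q) (k : ℤ)
    (x : G) : P (z ^ k * x) = P x := by
  have h := hA.axis.lipP x (z ^ k * x)
  rw [tau_zr hB] at h
  have := abs_nonpos_iff.1 h
  omega

/-- commuting elements up to `z`: the shifts add up. -/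
theorem sh_mul (hB : Base δ z d) {c : ℤ} {g : G} {P Q : G → ℤ} (hA : AxisOf d c g P Q) {a b : G}
    {s t : ℝ} {j : ℤ} (e : a * b = b * a * z ^ j) (h1 : Sh P c a s) (h2 : Sh P c b t) :
    Sh P (2 * c) (a * b) (s + t) := by
  intro m x
  obtain ⟨k, hk⟩ := tau_mul_zpow hB e m
  have e1 : (a * b) ^ m * x = a ^ m * (b ^ m * (z ^ k * x)) := by
    rw [hk]; simp only [mul_assoc]
  rw [e1]
  have a1 := abs_le.1 (h1 m (b ^ m * (z ^ k * x)))
  have a2 := abs_le.1 (h2 m (z ^ k * x))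
  rw [tau_Pz hB hA] at a2
  push_cast at a1 a2 ⊢
  rw [abs_le, mul_add]
  constructor <;> linarith [a1.1, a1.2, a2.1, a2.2]

lemma tau_c_nonneg (hB : Base δ z d) {c : ℤ} {g : G} {P Q : G → ℤ} (hA : AxisOf d c g P Q) :
    0 ≤ c :=
  le_trans (abs_nonneg _) (hA.ht 1 (tau_bdd_one hB.geo g) 1)

lemma tau_up (hB : Base δ z d) {c : ℤ} {g : G} {P Q : G → ℤ} (hA : AxisOf d c g P Q) {h : G}
    {t : ℝ} (hb : Bdd d g h) (h1 : Sh P c h t) (m : ℕ) (x : G) :
    2 * (d x (h ^ m * x) : ℝ) ≤ 2 * (Q x : ℝ) + 3 * c + m * |t| := by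
  have u := hA.axis.up x (h ^ m * x)
  have q := abs_le.1 (hA.ht (h ^ m) (by
    have := hb.zpow hB.geo hB.left (m : ℤ)
    rwa [zpow_natCast] at this) x)
  have s := h1 m x
  rw [zpow_natCast] at s
  push_cast at s
  have s2 : |(P x : ℝ) - P (h ^ m * x)| ≤ c + m * |t| := by
    have : (P x : ℝ) - P (h ^ m * x) = -(P (h ^ m * x) - P x - m * t) - m * t := by ring
    rw [this]
    refine (abs_sub _ _).trans ?_
    rw [abs_neg, abs_mul, Nat.abs_cast]
    linarith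
  have u' : 2 * (d x (h ^ m * x) : ℝ) ≤ Q x + Q (h ^ m * x) + |(P x : ℝ) - P (h ^ m * x)| + c := by
    exact_mod_cast u
  have q' : (Q (h ^ m * x) : ℝ) ≤ Q x + c := by
    have := q.2
    have h3 : Q (h ^ m * x) ≤ Q x + c := by linarith
    exact_mod_cast h3
  linarith

lemma tau_lo {c : ℤ} {g : G} {P Q : G → ℤ} (hA : AxisOf d c g P Q) {h : G}
    {t : ℝ} (h1 : Sh P c h t) (m : ℕ) (x : G) :
    (m : ℝ) * |t| - c ≤ |(P x : ℝ) - P (h ^ m * x)| ∧
      (m : ℝ) * |t| - c ≤ 2 * (d x (h ^ m * x) : ℝ) := by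
  have s := h1 m x
  rw [zpow_natCast] at s
  push_cast at s
  have h2 : (m : ℝ) * |t| - c ≤ |(P x : ℝ) - P (h ^ m * x)| := by
    have : (m : ℝ) * t = -(P (h ^ m * x) - P x - m * t) - (P x - P (h ^ m * x)) := by ring
    have h3 : (m : ℝ) * |t| = |(m : ℝ) * t| := by rw [abs_mul, Nat.abs_cast]
    rw [h3, this]
    have := abs_sub (-((P (h ^ m * x) : ℝ) - P x - m * t)) ((P x : ℝ) - P (h ^ m * x))
    rw [abs_neg] at this
    linarith
  refine ⟨h2, h2.trans ?_⟩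
  have := hA.axis.lipP x (h ^ m * x)
  exact_mod_cast this

theorem sh_lox (hB : Base δ z d) {c : ℤ} {g : G} {P Q : G → ℤ} (hA : AxisOf d c g P Q) {h : G}
    {t : ℝ} (hL : Lox d κ h) (hb : Bdd d g h) (h1 : Sh P c h t) : 2 ≤ κ * |t| := by
  have : 2 - κ * |t| ≤ 0 := by
    apply tau_arch (c := κ * (2 * (Q 1 : ℝ) + 3 * c))
    intro m
    have u := tau_up hB hA hb h1 m 1
    have l : (m : ℝ) ≤ κ * (d 1 (h ^ m * 1) : ℝ) := by exact_mod_cast hL m 1
    have : (κ : ℝ) * (2 * (d 1 (h ^ m * 1) : ℝ)) ≤ κ * (2 * (Q 1 : ℝ) + 3 * c + m * |t|) :=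
      mul_le_mul_of_nonneg_left u (Nat.cast_nonneg _)
    nlinarith
  linarith

theorem not_lox_of_sh (hB : Base δ z d) {c : ℤ} {g : G} {P Q : G → ℤ} (hA : AxisOf d c g P Q)
    {h : G} (hb : Bdd d g h) (h1 : Sh P c h 0) : ¬ Lox d κ h := by
  intro hL
  have := sh_lox hB hA hL hb h1
  rw [abs_zero, mul_zero] at this
  linarith

lemma tau_abs_le (hB : Base δ z d) {c : ℤ} {g : G} {P Q : G → ℤ} (hA : AxisOf d c g P Q)
    {a h : G} {s t : ℝ} (hb : Bdd d g h) (h1 : Sh P c h s)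
    (h2 : Sh P c (a * h * a⁻¹) t) : |t| ≤ |s| := by
  have : |t| - |s| ≤ 0 := by
    apply tau_arch (c := 2 * (Q 1 : ℝ) + 4 * c + 4 * (d 1 a⁻¹ : ℝ))
    intro m
    have u := tau_up hB hA hb h1 m 1
    have l := (tau_lo hA h2 m 1).2
    have e1 : d 1 ((a * h * a⁻¹) ^ m * 1) = d a⁻¹ (h ^ m * a⁻¹) := by
      rw [mul_one, conj_pow]
      have := hB.left a a⁻¹ (h ^ m * a⁻¹)
      rw [mul_inv_cancel, ← mul_assoc] at this
      exact this
    have e2 := hB.geo.tri a⁻¹ 1 (h ^ m * a⁻¹)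
    have e3 := hB.geo.tri 1 (h ^ m * 1) (h ^ m * a⁻¹)
    rw [hB.left] at e3
    have e4 := hB.geo.symm a⁻¹ 1
    have e5 : d a⁻¹ (h ^ m * a⁻¹) ≤ d 1 (h ^ m * 1) + 2 * d 1 a⁻¹ := by omega
    have e6 : (d 1 ((a * h * a⁻¹) ^ m * 1) : ℝ) ≤ d 1 (h ^ m * 1) + 2 * d 1 a⁻¹ := by
      rw [e1]; exact_mod_cast e5
    rw [mul_sub]
    linarith
  linarith

/-- the absolute value of the shift is a conjugacy invariant. -/
theorem sh_abs (hB : Base δ z d) {c : ℤ} {g : G} {P Q : G → ℤ} (hA : AxisOf d c g P Q)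
    {a h : G} {s t : ℝ} (hb : Bdd d g h) (hb' : Bdd d g (a * h * a⁻¹)) (h1 : Sh P c h s)
    (h2 : Sh P c (a * h * a⁻¹) t) : |s| = |t| := by
  refine le_antisymm ?_ (tau_abs_le hB hA hb h1 h2)
  apply tau_abs_le hB hA (a := a⁻¹) hb' h2
  have : a⁻¹ * (a * h * a⁻¹) * a⁻¹⁻¹ = h := by group
  rwa [this]

theorem near_Q (hB : Base δ z d) {c : ℤ} {g : G} {P Q : G → ℤ} (hA : AxisOf d c g P Q) {h u : G}
    {t : ℝ} {C : ℕ} (hb : Bdd d g h) (h1 : Sh P c h t) (ht : t ≠ 0) (hN : NearAx d C h u) :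
    Q u ≤ C + 6 * c := by
  have hc := tau_c_nonneg hB hA
  have hc' : (0 : ℝ) ≤ c := by exact_mod_cast hc
  have ht' : 0 < |t| := abs_pos.2 ht
  obtain ⟨i, hi⟩ := exists_nat_gt (2 * (c : ℝ) / |t|)
  rw [div_lt_iff₀ ht'] at hi
  have l := (tau_lo hA h1 i u).1
  have hP : c ≤ |P u - P (h ^ i * u)| := by
    have : (c : ℝ) ≤ |(P u : ℝ) - P (h ^ i * u)| := by linarith
    exact_mod_cast this
  have low := hA.axis.low u (h ^ i * u) hP
  have low' : (Q u : ℝ) + Q (h ^ i * u) + |(P u : ℝ) - P (h ^ i * u)| ≤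
      2 * (d u (h ^ i * u) : ℝ) + c := by exact_mod_cast low
  have q := abs_le.1 (hA.ht (h ^ i) (by
    have := hb.zpow hB.geo hB.left (i : ℤ)
    rwa [zpow_natCast] at this) u)
  have q' : (Q u : ℝ) - c ≤ Q (h ^ i * u) := by
    have h3 : Q u - c ≤ Q (h ^ i * u) := by linarith [q.1]
    exact_mod_cast h3
  have n : 2 * (d u (h ^ i * u) : ℝ) ≤ d u (h ^ (2 * i) * u) + C := by exact_mod_cast hN i
  have u2 := tau_up hB hA hb h1 (2 * i) u
  push_cast at u2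
  have : (Q u : ℝ) ≤ C + 6 * c := by nlinarith
  exact_mod_cast this

theorem Q_near (hB : Base δ z d) {c : ℤ} {g : G} {P Q : G → ℤ} (hA : AxisOf d c g P Q) {h u : G}
    {t : ℝ} {C : ℕ} (hb : Bdd d g h) (h1 : Sh P c h t) (hQ : 2 * Q u + 5 * c ≤ C) :
    NearAx d C h u := by
  intro i
  have hc := tau_c_nonneg hB hA
  have hc' : (0 : ℝ) ≤ c := by exact_mod_cast hc
  have u1 := tau_up hB hA hb h1 i u
  have l := (tau_lo hA h1 (2 * i) u).2
  push_cast at l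
  have hQ' : 2 * (Q u : ℝ) + 5 * c ≤ C := by exact_mod_cast hQ
  have : 2 * (d u (h ^ i * u) : ℝ) ≤ d u (h ^ (2 * i) * u) + C := by nlinarith
  exact_mod_cast this

end TAU

end Burn
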