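import Pool.Agent.Burn.Defs
import Pool.Agent.Burn.Hyp
import Pool.Agent.Burn.Grow
import Pool.Agent.Burn.Axis
import Pool.Agent.Burn.Tau

set_option autoImplicit false

/-!
# EXN: from the weak to the strong form of acylindricity
-/

namespace Burn

section ACYL

theorem exn_q {X : Type} {d : X → X → ℕ} {c : ℤ} {P Q : X → ℤ} (hA : Axis d c P Q) (hc : 0 ≤ c)
    {x u y : X} (hb : Btw d x u y) : Q u ≤ Q x + Q y + 2 * c := by
  have h0 := hA.nonneg x
  have h1 := hA.nonneg y
  have h2 := hA.up x y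
  have h3 : (d x y : ℤ) = d x u + d u y := by
    unfold Btw at hb
    exact_mod_cast hb.symm
  have h4 := abs_le.mp (hA.lipQ x u)
  have h5 := abs_le.mp (hA.lipQ u y)
  have h6 : |P x - P y| ≤ |P x - P u| + |P u - P y| := abs_sub_le _ _ _
  rcases le_or_gt c |P x - P u| with a | a
  · have h7 := hA.low x u a
    rcases le_or_gt c |P u - P y| with b | b
    · have h8 := hA.low u y b
      linarith
    · linarith [h5.1, h5.2]
  · rcases le_or_gt c |P u - P y| with b | b
    · have h8 := hA.low u y b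
      linarith [h4.1, h4.2]
    · linarith [h4.1, h4.2, h5.1, h5.2]

variable {G : Type} [Group G] {d : G → G → ℕ} {z : G} {δ κ n : ℕ}

theorem exn_bdd (hB : Base δ z d) (g : G) : Bdd d g g := by
  refine ⟨d g 1, fun N => ?_⟩
  have e : g * g ^ N = g ^ N * g := ((Commute.refl g).zpow_right N).eq
  have h := hB.left (g ^ N) g 1
  rw [mul_one] at h
  rw [e, h]

theorem exn (hB : Base δ z d) (hδ : 1 ≤ δ) {D0 R C : ℕ} (h : AcylE κ D0 (R + 2 * δ) C z d) :
    Acyl0 κ D0 R D0 (4 * C + 1700 * δ) z d := by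
  intro x y g h' hxy hg hh
  have mono : ∀ {x y f : G}, Moves R d x y f → Moves (R + 2 * δ) d x y f := fun hm =>
    ⟨hm.1.trans (by omega), hm.2.trans (by omega)⟩
  obtain ⟨hcomm, hor⟩ := h x y g h' hxy (mono hg) (mono hh)
  refine ⟨hcomm, ?_⟩
  rcases hor with hz | ⟨hL, _⟩
  · exact Or.inl hz
  · right
    refine ⟨hL, fun u hu h1 h2 => ?_⟩
    have hmu := conv hB.geo hB.hyp hB.left hu hg
    have hnz := hL.not_z hB
    obtain ⟨_, hor1⟩ := h x u g g h1 ⟨hg.1.trans (by omega), hmu⟩ ⟨hg.1.trans (by omega), hmu⟩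
    obtain ⟨_, hor2⟩ := h u y g g h2 ⟨hmu, hg.2.trans (by omega)⟩ ⟨hmu, hg.2.trans (by omega)⟩
    rcases hor1 with hz | ⟨_, w, hw, hNw⟩
    · exact absurd hz hnz
    rcases hor2 with hz | ⟨_, w', hw', hNw'⟩
    · exact absurd hz hnz
    obtain ⟨P, Q, hA⟩ := exists_axis hB hδ hL
    have hbd := exn_bdd hB g
    obtain ⟨t, ht⟩ := hA.sh g hbd
    have ht0 : t ≠ 0 := by
      rintro rfl
      have := sh_lox hB hA hL hbd ht
      simp at this
      linarith
    have q1 := near_Q hB hA hbd ht ht0 hNw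
    have q2 := near_Q hB hA hbd ht ht0 hNw'
    have hbt : Btw d w u w' := by
      unfold Btw at hu hw hw' ⊢
      have t1 := hB.geo.tri x w y
      have t2 := hB.geo.tri w w' y
      have t3 := hB.geo.tri w u w'
      omega
    have q3 := exn_q hA.axis (by positivity) hbt
    apply Q_near hB hA hbd ht
    push_cast
    have : (1 : ℤ) ≤ δ := by exact_mod_cast hδ
    linarith

end ACYL

end Burn
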