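import Pool.Agent.Burn.Axl

set_option autoImplicit false

/-!
# ELEC1 : the electric metric
-/

namespace Burn

section ELEC
variable {G : Type} [Group G] {ι : Type} [MulAction G ι] {c Δ T0 : ℤ} {z : G} {d : G → G → ℕ}
  {P Q : ι → G → ℤ} {r : ι → G} {T : ι → ℤ}

theorem elec1_zero (F : Fam c Δ T0 z d P Q r T) {x x' y y' : G} (hx : d x x' = 0)
    (hy : d y y' = 0) (h : Step c d Q x y) : Step c d Q x' y' := by
  have hg := F.base.geo
  rcases h with h | ⟨E, h1, h2⟩
  · left
    have h1 := hg.tri x' x y'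
    have h2 := hg.tri x y y'
    rw [hg.symm x' x] at h1
    omega
  · right
    refine ⟨E, ?_, ?_⟩
    · rw [← (F.P_zero E hx).2]; exact h1
    · rw [← (F.P_zero E hy).2]; exact h2

theorem elec1_symm (F : Fam c Δ T0 z d P Q r T) {x y : G} (h : Step c d Q x y) :
    Step c d Q y x := by
  rcases h with h | ⟨E, h1, h2⟩
  · left
    rw [F.base.geo.symm]
    exact h
  · exact Or.inr ⟨E, h2, h1⟩

theorem elec1_left (F : Fam c Δ T0 z d P Q r T) (g : G) {x y : G} (h : Step c d Q x y) :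
    Step c d Q (g * x) (g * y) := by
  rcases h with h | ⟨E, h1, h2⟩
  · left
    rw [F.base.left]
    exact h
  · right
    exact ⟨g • E, by rw [F.eqQ]; exact h1, by rw [F.eqQ]; exact h2⟩

theorem elec1_chn_refl (F : Fam c Δ T0 z d P Q r T) (x : G) : Chn c d Q x x 0 :=
  ⟨fun _ => x, F.base.geo.refl x, F.base.geo.refl x, fun i hi => absurd hi (Nat.not_lt_zero i)⟩

theorem elec1_chn_symm (F : Fam c Δ T0 z d P Q r T) {x y : G} {m : ℕ} (h : Chn c d Q x y m) :
    Chn c d Q y x m := by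
  have hg := F.base.geo
  obtain ⟨p, h0, h1, h2⟩ := h
  refine ⟨fun i => p (m - i), ?_, ?_, fun i hi => ?_⟩
  · simp only [Nat.sub_zero]
    rw [hg.symm]
    exact h1
  · simp only [Nat.sub_self]
    rw [hg.symm]
    exact h0
  · have h3 := h2 (m - (i + 1)) (by omega)
    have e : m - (i + 1) + 1 = m - i := by omega
    rw [e] at h3
    exact elec1_symm F h3

theorem elec1_chn_left (F : Fam c Δ T0 z d P Q r T) (g : G) {x y : G} {m : ℕ}
    (h : Chn c d Q x y m) : Chn c d Q (g * x) (g * y) m := by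
  obtain ⟨p, h0, h1, h2⟩ := h
  refine ⟨fun i => g * p i, ?_, ?_, fun i hi => elec1_left F g (h2 i hi)⟩
  · rw [F.base.left]
    exact h0
  · rw [F.base.left]
    exact h1

theorem elec1_chn_trans (F : Fam c Δ T0 z d P Q r T) {x w y : G} {s t : ℕ}
    (h : Chn c d Q x w s) (h' : Chn c d Q w y t) : Chn c d Q x y (s + t) := by
  have hg := F.base.geo
  obtain ⟨p, h0, h1, h2⟩ := h
  obtain ⟨q, h0', h1', h2'⟩ := h'
  have hpq : d (p s) (q 0) = 0 := by
    have := hg.tri (p s) w (q 0)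
    omega
  refine ⟨fun i => if i < s then p i else q (i - s), ?_, ?_, fun i hi => ?_⟩
  · by_cases hs : 0 < s
    · simp only [if_pos hs]
      exact h0
    · have hs' : s = 0 := by omega
      subst hs'
      simp only [lt_irrefl, if_false, Nat.sub_zero]
      have := hg.tri x (p 0) (q 0)
      omega
  · simp only
    rw [if_neg (by omega), Nat.add_sub_cancel_left]
    exact h1'
  · simp only
    by_cases h3 : i + 1 < s
    · rw [if_pos (by omega), if_pos h3]
      exact h2 i (by omega)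
    · by_cases h4 : i < s
      · have e : s = i + 1 := by omega
        rw [if_pos h4, if_neg h3]
        have e2 : i + 1 - s = 0 := by omega
        rw [e2]
        refine elec1_zero F (hg.refl _) ?_ (h2 i h4)
        rw [← e]
        exact hpq
      · rw [if_neg h4, if_neg h3]
        have e2 : i + 1 - s = (i - s) + 1 := by omega
        rw [e2]
        exact h2' (i - s) (by omega)

theorem elec1_chn_cut (F : Fam c Δ T0 z d P Q r T) {x y : G} {s t : ℕ}
    (h : Chn c d Q x y (s + t)) : ∃ w, Chn c d Q x w s ∧ Chn c d Q w y t := by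
  have hg := F.base.geo
  obtain ⟨p, h0, h1, h2⟩ := h
  refine ⟨p s, ⟨p, h0, hg.refl _, fun i hi => h2 i (by omega)⟩,
    ⟨fun i => p (s + i), hg.refl _, h1, fun i hi => h2 (s + i) (by omega)⟩⟩

theorem elec1_chn_d (F : Fam c Δ T0 z d P Q r T) (x y : G) : Chn c d Q x y (d x y) := by
  have hg := F.base.geo
  obtain ⟨p, hp, h0, h1⟩ := exists_path hg x y
  refine ⟨p, by rw [h0]; exact hg.refl x, h1, fun i hi => Or.inl ?_⟩
  have := hp i (i + 1) (by omega) (by omega)
  omega

theorem elec1_chn (F : Fam c Δ T0 z d P Q r T) (x y : G) : Chn c d Q x y (dh c d Q x y) :=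
  Nat.sInf_mem (s := {m | Chn c d Q x y m}) ⟨d x y, elec1_chn_d F x y⟩

omit [Group G] [MulAction G ι] in
theorem elec1_dh_le {x y : G} {m : ℕ} (h : Chn c d Q x y m) : dh c d Q x y ≤ m :=
  Nat.sInf_le (s := {m | Chn c d Q x y m}) h

theorem elec_geo (F : Fam c Δ T0 z d P Q r T) : Geo (dh c d Q) where
  refl x := Nat.le_zero.1 (elec1_dh_le (elec1_chn_refl F x))
  symm x y := le_antisymm (elec1_dh_le (elec1_chn_symm F (elec1_chn F y x)))
    (elec1_dh_le (elec1_chn_symm F (elec1_chn F x y)))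
  tri x y w := elec1_dh_le (elec1_chn_trans F (elec1_chn F x y) (elec1_chn F y w))
  mid x y s t h := by
    have h1 := elec1_chn F x y
    rw [h] at h1
    obtain ⟨w, hw1, hw2⟩ := elec1_chn_cut F h1
    have h2 := elec1_dh_le hw1
    have h3 := elec1_dh_le hw2
    have h4 := elec1_dh_le (elec1_chn_trans F (elec1_chn F x w) (elec1_chn F w y))
    exact ⟨w, by omega, by omega⟩

theorem elec_left (F : Fam c Δ T0 z d P Q r T) : LeftInv (dh c d Q) := by
  intro g x y
  refine le_antisymm (elec1_dh_le (elec1_chn_left F g (elec1_chn F x y))) (elec1_dh_le ?_)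
  have h := elec1_chn_left F g⁻¹ (elec1_chn F (g * x) (g * y))
  rwa [inv_mul_cancel_left, inv_mul_cancel_left] at h

theorem elec_le (F : Fam c Δ T0 z d P Q r T) (x y : G) : dh c d Q x y ≤ d x y :=
  elec1_dh_le (elec1_chn_d F x y)

theorem elec_jmp (F : Fam c Δ T0 z d P Q r T) (E : ι) (x y : G) (hx : Q E x ≤ 2 * c)
    (hy : Q E y ≤ 2 * c) : dh c d Q x y ≤ 1 := by
  have hg := F.base.geo
  refine elec1_dh_le ⟨fun i => if i = 0 then x else y, hg.refl x, hg.refl y, fun i hi => ?_⟩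
  have : i = 0 := by omega
  subst this
  exact Or.inr ⟨E, hx, hy⟩

theorem elec1_zero_of (F : Fam c Δ T0 z d P Q r T) {x y : G} (h : dh c d Q x y = 0) :
    d x y = 0 := by
  have hg := F.base.geo
  have h1 := elec1_chn F x y
  rw [h] at h1
  obtain ⟨p, h2, h3, _⟩ := h1
  have := hg.tri x (p 0) y
  omega

theorem elec_step (F : Fam c Δ T0 z d P Q r T) {x y : G} (h : dh c d Q x y ≤ 1) :
    Step c d Q x y := by
  have hg := F.base.geo
  rcases Nat.le_one_iff_eq_zero_or_eq_one.1 h with h0 | h0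
  · left
    have := elec1_zero_of F h0
    omega
  · have h1 := elec1_chn F x y
    rw [h0] at h1
    obtain ⟨p, h2, h3, h4⟩ := h1
    have h5 := h4 0 (by omega)
    exact elec1_zero F (by rw [hg.symm]; exact h2) h3 h5

theorem elec_guess (F : Fam c Δ T0 z d P Q r T) {x y u : G} (h : dh c d Q x y ≤ 1)
    (hb : Btw d x u y) : (dh c d Q x u : ℤ) ≤ 5 * c + 1 := by
  have hg := F.base.geo
  have hc := F.hc
  rcases elec_step F h with h1 | ⟨E, hx, hy⟩
  · have h2 : d x u ≤ 1 := by
      unfold Btw at hb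
      omega
    have h3 := elec_le F x u
    have h4 : (dh c d Q x u : ℤ) ≤ 1 := by exact_mod_cast h3.trans h2
    linarith
  · have h2 := (F.axis E).axq hg hb
    obtain ⟨a, ha1, _, ha3⟩ := (F.axis E).axn hg u
    have h3 := elec_jmp F E x a hx (by linarith)
    have h4 := (elec_geo F).tri x a u
    have h5 := elec_le F a u
    have h6 : (dh c d Q x u : ℤ) ≤ 1 + d a u := by exact_mod_cast (by omega : dh c d Q x u ≤ 1 + d a u)
    have h7 : (d u a : ℤ) = d a u := by rw [hg.symm]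
    rw [h7] at ha3
    linarith

theorem elec_dE (F : Fam c Δ T0 z d P Q r T) (E : ι) (x : G) :
    (∃ a, Q E a ≤ 2 * c ∧ dh c d Q x a = dE c d Q E x) ∧
    (∀ a, Q E a ≤ 2 * c → dE c d Q E x ≤ dh c d Q x a) ∧
    (∀ y, dE c d Q E x ≤ dh c d Q x y + dE c d Q E y) := by
  have hg := F.base.geo
  have hc := F.hc
  have h1 : ∀ x, ∃ a, Q E a ≤ 2 * c ∧ dh c d Q x a = dE c d Q E x := by
    intro x
    obtain ⟨a, ha1, _⟩ := (F.axis E).proj x
    exact Nat.sInf_mem (s := {m | ∃ a, Q E a ≤ 2 * c ∧ dh c d Q x a = m})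
      ⟨_, a, by linarith, rfl⟩
  have h2 : ∀ x a, Q E a ≤ 2 * c → dE c d Q E x ≤ dh c d Q x a := by
    intro x a ha
    exact Nat.sInf_le (s := {m | ∃ a, Q E a ≤ 2 * c ∧ dh c d Q x a = m}) ⟨a, ha, rfl⟩
  refine ⟨h1 x, h2 x, fun y => ?_⟩
  obtain ⟨a, ha, h3⟩ := h1 y
  rw [← h3]
  exact (h2 x a ha).trans ((elec_geo F).tri x y a)

end ELEC

end Burn
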