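import Pool.Agent.Burn.Axl
import Pool.Agent.Burn.Tau
import Pool.Agent.Burn.Elec1

set_option autoImplicit false

/-!
# FO : overlaps of the axis of an element with the lines
-/

namespace Burn

section FO
variable {G : Type} [Group G] {ι : Type} [MulAction G ι] {c Δ T0 : ℤ} {z : G} {d : G → G → ℕ}
  {P Q : ι → G → ℤ} {r : ι → G} {T : ι → ℤ}

omit [Group G] in
/-- a point of the interval with (almost) a given real position -/
theorem fo_pos {Pg Qg : G → ℤ} (hg : Geo d) (A : Axis d c Pg Qg) {u1 u2 : G} {v : ℝ}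
    (h1 : (Pg u1 : ℝ) ≤ v) (h2 : v ≤ Pg u2) :
    ∃ u, Btw d u1 u u2 ∧ |(Pg u : ℝ) - v| ≤ 3 := by
  obtain ⟨u, hb, hu1, hu2⟩ := A.axs hg (v := ⌊v⌋) (a := u1) (b := u2)
    (Int.le_floor.2 h1) (by exact_mod_cast (Int.floor_le v).trans h2)
  refine ⟨u, hb, ?_⟩
  have h3 := Int.floor_le v
  have h4 := Int.lt_floor_add_one v
  have h5 : (Pg u : ℝ) ≤ ⌊v⌋ := by exact_mod_cast hu1
  have h6 : (⌊v⌋ : ℝ) - 2 ≤ Pg u := by exact_mod_cast hu2
  rw [abs_le]
  constructor <;> linarith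

theorem fo_aux (F : Fam c Δ T0 z d P Q r T) {Pg Qg : G → ℤ} (A : Axis d c Pg Qg) {a : G} {t : ℝ}
    (ht : 0 ≤ t) (hQ : ∀ x, |Qg (a * x) - Qg x| ≤ c)
    (hP : ∀ x, |(Pg (a * x) : ℝ) - Pg x - t| ≤ c) {E : ι} (hne : a • E ≠ E) {u1 u2 : G}
    (h1 : Q E u1 ≤ 10 * c) (h2 : Q E u2 ≤ 10 * c) (h3 : Qg u1 ≤ 10 * c) (h4 : Qg u2 ≤ 10 * c) :
    (Pg u2 : ℝ) - Pg u1 ≤ t + Δ + 100 * c := by
  by_contra hcon
  push Not at hcon
  have hg := F.base.geo
  have hc := F.hc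
  have hΔ := F.hΔ
  have hcR : (1000 : ℝ) ≤ c := by exact_mod_cast hc
  have hΔR : (c : ℝ) ≤ Δ := by exact_mod_cast hΔ
  have AE := F.axis E
  -- the point with the position of `a * u1`
  obtain ⟨u3, hb3, hu3⟩ := fo_pos hg A (u1 := u1) (u2 := u2) (v := Pg u1 + t) (by linarith)
    (by linarith)
  obtain ⟨u4, hb4, hu4⟩ := fo_pos hg A (u1 := u1) (u2 := u2) (v := Pg u2 - t) (by linarith)
    (by linarith)
  rw [abs_le] at hu3 hu4
  have q3 := A.axq hg hb3
  have q4 := A.axq hg hb4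
  have q3' := AE.axq hg hb3
  have q4' := AE.axq hg hb4
  have p1 := abs_le.1 (hP u1)
  have p2 := abs_le.1 (hP (a⁻¹ * u2))
  rw [mul_inv_cancel_left] at p2
  have k1 := abs_le.1 (hQ u1)
  have k2 := abs_le.1 (hQ (a⁻¹ * u2))
  rw [mul_inv_cancel_left] at k2
  -- first distance
  have d1 : 2 * (d u3 (a * u1) : ℤ) ≤ 36 * c := by
    have h5 := A.up u3 (a * u1)
    have h6 : |Pg u3 - Pg (a * u1)| ≤ c + 3 := by
      have : |(Pg u3 : ℝ) - Pg (a * u1)| ≤ c + 3 := by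
        rw [abs_le]
        constructor <;> linarith
      exact_mod_cast this
    linarith
  have d2 : 2 * (d u4 (a⁻¹ * u2) : ℤ) ≤ 36 * c := by
    have h5 := A.up u4 (a⁻¹ * u2)
    have h6 : |Pg u4 - Pg (a⁻¹ * u2)| ≤ c + 3 := by
      have : |(Pg u4 : ℝ) - Pg (a⁻¹ * u2)| ≤ c + 3 := by
        rw [abs_le]
        constructor <;> linarith
      exact_mod_cast this
    linarith
  have w1 : Q (a • E) u3 ≤ 100 * c := by
    have h5 := abs_le.1 ((F.axis (a • E)).lipQ u3 (a * u1))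
    rw [F.eqQ] at h5
    linarith
  have w2 : Q (a • E) u2 ≤ 100 * c := by
    have h5 := abs_le.1 (AE.lipQ u4 (a⁻¹ * u2))
    have h6 := F.eqQ a E (a⁻¹ * u2)
    rw [mul_inv_cancel_left] at h6
    linarith
  have w3 := F.ov E (a • E) u3 u2 (Ne.symm hne) w1 w2
  have w4 := AE.up u3 u2
  have w5 := A.lipP u3 u2
  have w6 : (Pg u2 : ℤ) - Pg u3 ≤ Δ + 33 * c := by
    have := neg_abs_le (Pg u3 - Pg u2)
    linarith
  have w7 : (Pg u2 : ℝ) - Pg u3 ≤ Δ + 33 * c := by exact_mod_cast w6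
  linarith

theorem fo_bdd (hB : Base 3 z d) (g : G) : Bdd d g g := by
  refine ⟨d g 1, fun N => ?_⟩
  have h1 : g * g ^ N = g ^ N * g := ((Commute.refl g).zpow_right N).eq
  rw [h1]
  have h2 := hB.left (g ^ N) g 1
  rw [mul_one] at h2
  exact h2.le

/-- overlaps of the axis of `g` with the lines. -/
theorem fo (F : Fam c Δ T0 z d P Q r T) {g : G} {Pg Qg : G → ℤ} (hA : AxisOf d c g Pg Qg) {t : ℝ}
    (ht : Sh Pg c g t) {E : ι} (hne : g • E ≠ E) {u1 u2 : G} (h1 : Q E u1 ≤ 10 * c)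
    (h2 : Q E u2 ≤ 10 * c) (h3 : Qg u1 ≤ 10 * c) (h4 : Qg u2 ≤ 10 * c) :
    |(Pg u1 : ℝ) - Pg u2| ≤ |t| + Δ + 100 * c := by
  have hB := F.base
  have b1 := fo_bdd hB g
  have b2 := Bdd.inv hB.geo hB.left b1
  have key : ∀ v1 v2 : G, Q E v1 ≤ 10 * c → Q E v2 ≤ 10 * c → Qg v1 ≤ 10 * c →
      Qg v2 ≤ 10 * c → (Pg v2 : ℝ) - Pg v1 ≤ |t| + Δ + 100 * c := by
    intro v1 v2 k1 k2 k3 k4
    rcases le_total 0 t with h | h
    · rw [abs_of_nonneg h]
      refine fo_aux F hA.axis h (hA.ht g b1) (fun x => ?_) hne k1 k2 k3 k4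
      have := ht 1 x
      rw [zpow_one] at this
      push_cast at this
      rwa [one_mul] at this
    · rw [abs_of_nonpos h]
      refine fo_aux F hA.axis (by linarith) (hA.ht g⁻¹ b2) (fun x => ?_) (a := g⁻¹) ?_ k1 k2 k3 k4
      · have := ht (-1) x
        rw [zpow_neg_one] at this
        push_cast at this
        rwa [neg_one_mul] at this
      · intro h5
        apply hne
        rw [inv_smul_eq_iff] at h5
        exact h5.symm
  rw [abs_le]
  have e1 := key u1 u2 h1 h2 h3 h4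
  have e2 := key u2 u1 h2 h1 h4 h3
  constructor <;> linarith

theorem ovg (F : Fam c Δ T0 z d P Q r T) {g : G} {Pg Qg : G → ℤ} (hA : AxisOf d c g Pg Qg) {t : ℝ}
    (ht : Sh Pg c g t) {E : ι} (hne : g • E ≠ E) {x : G} (hx : Qg x ≤ 2 * c) (i : ℕ) :
    |(P E x : ℝ) - P E (g ^ i * x)| ≤ |t| + Δ + 120 * c := by
  have hB := F.base
  have hg := hB.geo
  have hc := F.hc
  have hΔ := F.hΔ
  have hcR : (1000 : ℝ) ≤ c := by exact_mod_cast hc
  have hΔR : (c : ℝ) ≤ Δ := by exact_mod_cast hΔ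
  have AE := F.axis E
  have hti := abs_nonneg t
  by_cases h : 6 * c ≤ |P E x - P E (g ^ i * x)|
  · obtain ⟨u1, hb1, q1, p1⟩ := AE.axu hg (by linarith) h
    rw [abs_sub_comm] at h
    obtain ⟨u2, hb2, q2, p2⟩ := AE.axu hg (by linarith) h
    replace hb2 := hb2.symm hg
    have k1 := hA.axis.axq hg hb1
    have k2 := hA.axis.axq hg hb2
    have k3 := abs_le.1 (hA.ht (g ^ (i : ℤ)) (Bdd.zpow hg hB.left (fo_bdd hB g) i) x)
    rw [zpow_natCast] at k3
    have k4 := fo F hA ht hne (u1 := u1) (u2 := u2) (by linarith) (by linarith) (by linarith)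
      (by linarith)
    have k5 := hA.axis.up u1 u2
    have k6 := AE.lipP u1 u2
    have k7 : |P E u1 - P E u2| ≤ 15 * c + |Pg u1 - Pg u2| := by linarith
    have k8 : |P E x - P E (g ^ i * x)| ≤ 19 * c + |Pg u1 - Pg u2| := by
      rw [abs_le] at p1 p2
      have k9 := abs_le.1 k7
      rw [abs_le]
      constructor <;> linarith [k9.1, k9.2]
    have k9 : |(P E x : ℝ) - P E (g ^ i * x)| ≤ 19 * c + |(Pg u1 : ℝ) - Pg u2| := by
      exact_mod_cast k8
    linarith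
  · push Not at h
    have h' : |(P E x : ℝ) - P E (g ^ i * x)| < 6 * c := by exact_mod_cast h
    linarith

theorem fo_step (F : Fam c Δ T0 z d P Q r T) {g : G} {Pg Qg : G → ℤ} (hA : AxisOf d c g Pg Qg)
    {t : ℝ} (ht : Sh Pg c g t) (hne : ∀ E : ι, g • E ≠ E) {a b : G} (h : Step c d Q a b) :
    |(Pg a : ℝ) - Pg b| ≤ |t| + Δ + 130 * c := by
  have hB := F.base
  have hg := hB.geo
  have hc := F.hc
  have hΔ := F.hΔ
  have hcR : (1000 : ℝ) ≤ c := by exact_mod_cast hc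
  have hΔR : (c : ℝ) ≤ Δ := by exact_mod_cast hΔ
  have hti := abs_nonneg t
  rcases h with h | ⟨E, h1, h2⟩
  · have k1 := hA.axis.lipP a b
    have k2 : |Pg a - Pg b| ≤ 2 := by
      have : (d a b : ℤ) ≤ 1 := by exact_mod_cast h
      linarith
    have k3 : |(Pg a : ℝ) - Pg b| ≤ 2 := by exact_mod_cast k2
    linarith
  · by_cases h : 6 * c ≤ |Pg a - Pg b|
    · obtain ⟨u1, hb1, q1, p1⟩ := hA.axis.axu hg (by linarith) h
      rw [abs_sub_comm] at h
      obtain ⟨u2, hb2, q2, p2⟩ := hA.axis.axu hg (by linarith) h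
      replace hb2 := hb2.symm hg
      have k1 := (F.axis E).axq hg hb1
      have k2 := (F.axis E).axq hg hb2
      have k4 := abs_le.1 (fo F hA ht (hne E) (u1 := u1) (u2 := u2) (by linarith) (by linarith)
        (by linarith) (by linarith))
      have p1' : |(Pg u1 : ℝ) - Pg a| ≤ 2 * c := by exact_mod_cast p1
      have p2' : |(Pg u2 : ℝ) - Pg b| ≤ 2 * c := by exact_mod_cast p2
      rw [abs_le] at p1' p2'
      rw [abs_le]
      constructor <;> linarith [k4.1, k4.2]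
    · push Not at h
      have h' : |(Pg a : ℝ) - Pg b| < 6 * c := by exact_mod_cast h
      linarith

theorem lbg (F : Fam c Δ T0 z d P Q r T) {g : G} {Pg Qg : G → ℤ} (hA : AxisOf d c g Pg Qg) {t : ℝ}
    (ht : Sh Pg c g t) (hne : ∀ E : ι, g • E ≠ E) (x y : G) :
    |(Pg x : ℝ) - Pg y| ≤ (|t| + Δ + 130 * c) * dh c d Q x y := by
  obtain ⟨p, h0, h1, h2⟩ := elec1_chn F x y
  rw [hA.axis.axl_P_zero h0, ← hA.axis.axl_P_zero h1]
  generalize dh c d Q x y = m at h2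
  clear h1
  induction m with
  | zero => simp
  | succ m ih =>
    have ih := ih fun i hi => h2 i (Nat.lt_succ_of_lt hi)
    have h3 := fo_step F hA ht hne (h2 m (Nat.lt_succ_self m))
    have h4 := abs_sub_le (Pg (p 0) : ℝ) (Pg (p m)) (Pg (p (m + 1)))
    push_cast
    linarith

end FO

end Burn
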