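import Pool.Agent.Burn.Rot

set_option autoImplicit false

/-!
# Common lifts for segments without large angles
-/

namespace Burn

section
variable {G : Type} [Group G] {ι : Type} [MulAction G ι] {n κ L k D : ℕ} {c Δ T0 Θ : ℤ} {z : G}
  {d : G → G → ℕ} {P Q : ι → G → ℤ} {r : ι → G} {T : ι → ℤ} {γ : ι → G}

theorem liftb_aux (V : Env n κ L k c Δ T0 Θ z d P Q r T γ) {u v : G} {R : ℕ}
    (hE : ∀ E, |P E u - P E v| ≤ 100 * Θ) (N : ℕ) :
    ∀ g s : G, s ∈ KK r → d (g * u) (s * g * u) < N → dh c d Q u (g * u) ≤ R →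
    dh c d Q v (s * g * v) ≤ R →
    ∃ s' ∈ KK r, dh c d Q u (s' * g * u) ≤ R ∧ dh c d Q v (s' * g * v) ≤ R := by
  induction N with
  | zero => intro g s _ h; exact absurd h (Nat.not_lt_zero _)
  | succ N ih =>
  intro g s hs hN h1 h2
  have F := V.fl.fam
  have hg := F.base.geo
  have hc := F.hc
  have hΔ := F.hΔ
  have hΘ := V.hΘ
  have hbig := V.big
  by_cases hs1 : s = 1
  · subst hs1
    refine ⟨1, one_mem _, ?_⟩
    rw [one_mul] at h2 ⊢
    exact ⟨h1, h2⟩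
  obtain ⟨E, hEE⟩ := V.green s hs hs1 (g * u)
  rw [← mul_assoc] at hEE
  have hTE := F.hT E
  have hsg : |P E (s * g * v) - P E (s * g * u)| ≤ 100 * Θ + c := by
    have e1 := F.eqP (s * g) ((s * g)⁻¹ • E) v u
    rw [smul_inv_smul] at e1
    have e2 := hE ((s * g)⁻¹ • E)
    rw [abs_sub_comm] at e2
    have e3 := abs_sub_abs_le_abs_sub (P E (s * g * v) - P E (s * g * u))
      (P ((s * g)⁻¹ • E) v - P ((s * g)⁻¹ • E) u)
    linarith
  have hsplit : Θ ≤ |P E v - P E (s * g * v)| ∨ Θ ≤ |P E u - P E (g * u)| := by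
    by_contra hcon
    push Not at hcon
    obtain ⟨g1, g2⟩ := hcon
    have t1 := abs_sub_le (P E (g * u)) (P E u) (P E (s * g * u))
    have t2 := abs_sub_le (P E u) (P E v) (P E (s * g * u))
    have t3 := abs_sub_le (P E v) (P E (s * g * v)) (P E (s * g * u))
    rw [abs_sub_comm (P E (g * u)) (P E u)] at t1
    linarith [hE E]
  rcases hsplit with hq | hq
  · obtain ⟨ρ, hρ, hρE, hρd⟩ := rot_d V (E := E) (a := g * u) (b := s * g * u) (by linarith)
    have h3 := rot_h V hρE hq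
    refine ih g (ρ * s) (mul_mem hρ hs) ?_ h1 ?_
    · rw [mul_assoc ρ s g, mul_assoc ρ (s * g) u]; omega
    · rw [mul_assoc ρ s g, mul_assoc ρ (s * g) v]; exact h3.trans h2
  · rw [abs_sub_comm] at hEE
    obtain ⟨ρ, hρ, hρE, hρd⟩ := rot_d V (E := E) (a := s * g * u) (b := g * u) (by linarith)
    have h3 := rot_h V hρE hq
    have e1 : s * ρ⁻¹ * (ρ * g) = s * g := by group
    obtain ⟨s', hs', h4, h5⟩ := ih (ρ * g) (s * ρ⁻¹) (mul_mem hs (inv_mem hρ)) (by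
      rw [e1, mul_assoc ρ g u, hg.symm]
      rw [hg.symm (g * u)] at hN
      omega) (by rw [mul_assoc]; exact h3.trans h1) (by rw [e1]; exact h2)
    refine ⟨s' * ρ, mul_mem hs' hρ, ?_, ?_⟩
    · rwa [← mul_assoc s' ρ g] at h4
    · rwa [← mul_assoc s' ρ g] at h5

theorem liftb (V : Env n κ L k c Δ T0 Θ z d P Q r T γ) {u v g s : G} {R : ℕ} (hs : s ∈ KK r)
    (hE : ∀ E, |P E u - P E v| ≤ 100 * Θ) (h1 : dh c d Q u (g * u) ≤ R)
    (h2 : dh c d Q v (s * g * v) ≤ R) :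
    ∃ s' ∈ KK r, dh c d Q u (s' * g * u) ≤ R ∧ dh c d Q v (s' * g * v) ≤ R :=
  liftb_aux V hE (d (g * u) (s * g * u) + 1) g s hs (Nat.lt_succ_self _) h1 h2

end

end Burn
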