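import Pool.Agent.Burn.Dq1
import Pool.Agent.Burn.Poly
import Pool.Agent.Burn.Fo

set_option autoImplicit false

/-!
# Loxodromic elements of the quotient
-/

namespace Burn

theorem loxq_pow {H : Type} [Group H] {e : H → H → ℕ} (hg : Geo e) (hl : LeftInv e) (a y : H)
    (N : ℕ) : e y (a ^ N * y) ≤ N * e y (a * y) := by
  induction N with
  | zero => simp [hg.refl]
  | succ N ih =>
    have h1 := hg.tri y (a ^ N * y) (a ^ (N + 1) * y)
    have h2 : e (a ^ N * y) (a ^ (N + 1) * y) = e y (a * y) := by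
      rw [pow_succ, mul_assoc, hl]
    rw [h2] at h1
    rw [add_mul, one_mul]
    omega

theorem loxq_left {G : Type} [Group G] {K : Subgroup G} [K.Normal] {D : G → G → ℕ}
    (hl : LeftInv D) : LeftInv (dq D K) := by
  have key : ∀ g a b : G ⧸ K, dq D K (g * a) (g * b) ≤ dq D K a b := by
    intro g a b
    obtain ⟨x, y, rfl, rfl, h⟩ := dq_att (K := K) D a b
    obtain ⟨g, rfl⟩ := QuotientGroup.mk_surjective g
    rw [← h, ← hl g x y]
    exact dq_le0 D (g * x) (g * y)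
  intro g a b
  refine le_antisymm (key g a b) ?_
  have := key g⁻¹ (g * a) (g * b)
  rwa [inv_mul_cancel_left, inv_mul_cancel_left] at this

theorem loxq_sh {G : Type} [Group G] {g : G} {Pg : G → ℤ} {c : ℤ} {t : ℝ}
    (ht : Sh Pg c g t) (j : ℕ) (x : G) : (j : ℝ) * |t| - c ≤ |(Pg x : ℝ) - Pg (g ^ j * x)| := by
  have h := ht j x
  rw [zpow_natCast] at h
  have h1 : |((j : ℤ) : ℝ) * t| ≤ |(Pg (g ^ j * x) : ℝ) - Pg x| +
      |(Pg (g ^ j * x) : ℝ) - Pg x - ((j : ℤ) : ℝ) * t| := by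
    have : ((j : ℤ) : ℝ) * t = ((Pg (g ^ j * x) : ℝ) - Pg x) -
        ((Pg (g ^ j * x) : ℝ) - Pg x - ((j : ℤ) : ℝ) * t) := by ring
    calc |((j : ℤ) : ℝ) * t| = |((Pg (g ^ j * x) : ℝ) - Pg x) -
        ((Pg (g ^ j * x) : ℝ) - Pg x - ((j : ℤ) : ℝ) * t)| := by rw [← this]
      _ ≤ _ := abs_sub _ _
  rw [abs_mul, abs_sub_comm (Pg (g ^ j * x) : ℝ) (Pg x)] at h1
  have h2 : |((j : ℤ) : ℝ)| = (j : ℝ) := by simp
  rw [h2] at h1
  linarith

theorem lox_quot {G : Type} [Group G] {ι : Type} [MulAction G ι] {n κ L k : ℕ} {c Δ T0 Θ : ℤ}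
    {z : G} {d : G → G → ℕ} {P Q : ι → G → ℤ} {r : ι → G} {T : ι → ℤ} {γ : ι → G}
    (V : Env n κ L k c Δ T0 Θ z d P Q r T γ) [(KK r).Normal] {g x : G}
    {Pg Qg : G → ℤ} (hA : AxisOf d c g Pg Qg) {t : ℝ} (ht : Sh Pg c g t)
    (hne : ∀ E : ι, g • E ≠ E) (hx : ∀ (E : ι) (i : ℕ), |P E x - P E (g ^ i * x)| ≤ T E - 2 * Θ)
    {K : ℕ} (ht0 : t ≠ 0) (hK : |t| + Δ + 130 * c ≤ K * |t|) :
    Lox (dq (dh c d Q) (KK r)) K (g : G ⧸ KK r) := by
  have F := V.fl.fam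
  have hgeo := dq_geo (K := KK r) V.geoh V.lefth
  have hleft := loxq_left (K := KK r) V.lefth
  set e := dq (dh c d Q) (KK r) with he
  set A : ℝ := |t| + Δ + 130 * c with hAdef
  have hc : (1000 : ℝ) ≤ c := by exact_mod_cast F.hc
  have hΔ : (c : ℝ) ≤ Δ := by exact_mod_cast F.hΔ
  have htp : 0 < |t| := abs_pos.2 ht0
  have hApos : 0 < A := by rw [hAdef]; linarith
  -- lower bound along the orbit of `x`
  have key : ∀ j : ℕ, (j : ℝ) * |t| - c ≤ A * e (x : G ⧸ KK r) ((g : G ⧸ KK r) ^ j * x) := by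
    intro j
    have h1 := lbg F hA ht hne x (g ^ j * x)
    have h2 := loxq_sh ht j x
    have h3 : e (x : G ⧸ KK r) ((g : G ⧸ KK r) ^ j * x) = dh c d Q x (g ^ j * x) := by
      have := dq_iso V (x := x) (y := g ^ j * x) (fun s hs => iso_le V (fun E => hx E j) hs)
      rw [← this]
      rfl
    rw [h3]
    exact h2.trans h1
  intro i y
  set m := e (x : G ⧸ KK r) y with hm
  set D := e y ((g : G ⧸ KK r) ^ i * y) with hD
  have hN : ∀ N : ℕ, (N : ℝ) * ((i : ℝ) * |t| - A * D) ≤ c + 2 * A * m := by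
    intro N
    have h1 := key (i * N)
    have h2 : e (x : G ⧸ KK r) ((g : G ⧸ KK r) ^ (i * N) * x) ≤ 2 * m + N * D := by
      have a1 := hgeo.tri (x : G ⧸ KK r) y ((g : G ⧸ KK r) ^ (i * N) * x)
      have a2 := hgeo.tri y ((g : G ⧸ KK r) ^ (i * N) * y) ((g : G ⧸ KK r) ^ (i * N) * x)
      have a3 := hleft ((g : G ⧸ KK r) ^ (i * N)) y (x : G ⧸ KK r)
      have a4 := hgeo.symm y (x : G ⧸ KK r)
      have a5 := loxq_pow hgeo hleft ((g : G ⧸ KK r) ^ i) y N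
      rw [← pow_mul, ← hD] at a5
      omega
    have h3 : (e (x : G ⧸ KK r) ((g : G ⧸ KK r) ^ (i * N) * x) : ℝ) ≤ 2 * m + N * D := by
      exact_mod_cast h2
    have h4 : A * (e (x : G ⧸ KK r) ((g : G ⧸ KK r) ^ (i * N) * x) : ℝ) ≤
        A * (2 * m + N * D) := mul_le_mul_of_nonneg_left h3 hApos.le
    push_cast at h1
    nlinarith
  have hle : (i : ℝ) * |t| - A * D ≤ 0 := by
    by_contra hcon
    push Not at hcon
    obtain ⟨N, hN'⟩ := exists_nat_gt ((c + 2 * A * m) / ((i : ℝ) * |t| - A * D))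
    rw [div_lt_iff₀ hcon] at hN'
    exact absurd (hN N) (not_le.2 hN')
  have h5 : (i : ℝ) * |t| ≤ K * |t| * D := by
    have : A * (D : ℝ) ≤ K * |t| * D := mul_le_mul_of_nonneg_right hK (Nat.cast_nonneg _)
    linarith
  have h6 : (i : ℝ) ≤ K * D := by
    have : (i : ℝ) * |t| ≤ (K * D) * |t| := by nlinarith
    exact le_of_mul_le_mul_right this htp
  exact_mod_cast h6

end Burn
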