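import Pool.Agent.Burn.Hyp
import Pool.Agent.Burn.Grow

set_option autoImplicit false

/-!
# MDISP : elements with large minimal displacement
-/

namespace Burn

section MDISP
variable {G : Type} [Group G] {d : G → G → ℕ} {z : G}

/-- an element with large minimal displacement. -/
theorem mdisp (hB : Base 3 z d) {g x : G} (hmin : ∀ y, d x (g * x) ≤ d y (g * y))
    (h : 20 < d x (g * x)) : NearAx d 12 g x ∧ ∀ i : ℕ, 10 * i ≤ d x (g ^ i * x) := by
  have hg := hB.geo
  have hh := hB.hyp
  have hl := hB.left
  obtain ⟨m, hm1, hm2⟩ := hg.mid x (g * x) (d x (g * x) / 2) (d x (g * x) - d x (g * x) / 2)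
    (by omega)
  have e1 : d (g * x) (g * m) = d x m := hl g x m
  have e2 : d (g * m) (g ^ 2 * x) = d m (g * x) := by
    rw [pow_two, mul_assoc]
    exact hl g m (g * x)
  have e3 : d (g * x) (g ^ 2 * x) = d x (g * x) := by
    rw [pow_two, mul_assoc]
    exact hl g x (g * x)
  have e4 := hmin m
  have e5 : d m (g * m) ≤ d x (g * x) := by
    have := hg.tri m (g * x) (g * m)
    omega
  -- first application of the four point condition
  have e6 : d x (g * x) + d x m ≤ d x (g * m) + 3 := by
    have h1 := hh x (g * x) m (g * m)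
    have h2 := hg.symm (g * x) m
    rcases h1 with h1 | h1
    · omega
    · omega
  have e7 : 2 * d x (g * x) ≤ d x (g ^ 2 * x) + 6 := by
    have h1 := hh x (g * m) (g * x) (g ^ 2 * x)
    have h2 := hg.symm (g * x) (g * m)
    rcases h1 with h1 | h1
    · omega
    · omega
  obtain ⟨h1, h2⟩ := grow hg hh hl e7 (by omega)
  refine ⟨fun i => ?_, fun i => ?_⟩
  · have h3 := h2 i i
    rw [two_mul i]
    omega
  · induction i with
    | zero => simp
    | succ i ih =>
      have h3 := h1 i
      omega

end MDISP

end Burn
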