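import Pool.Agent.Burn.Hyp
import Pool.Agent.Burn.Axl
import Pool.Agent.Burn.Elec1

set_option autoImplicit false

/-!
# BURN : module TRANS

Elements which move the ends of a segment without large angles a little in the electric metric move
the points in the middle a bounded amount.
-/

namespace Burn

section transaux
variable {X : Type} {d : X → X → ℕ}

theorem trans_zero (hg : Geo d) {a b x : X} (h : d a b = 0) : d x a = d x b ∧ d a x = d b x := by
  have h1 := hg.tri x a b
  have h2 := hg.tri x b a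
  have h3 := hg.symm a b
  have h4 := hg.symm x a
  have h5 := hg.symm x b
  constructor <;> omega

/-- Length of a chain all steps of which are short. -/
theorem trans_chain (hg : Geo d) {p : ℕ → X} {b : ℤ} (m : ℕ)
    (h : ∀ j, j < m → (d (p j) (p (j + 1)) : ℤ) ≤ b) : (d (p 0) (p m) : ℤ) ≤ m * b := by
  induction m with
  | zero => simp [hg.refl]
  | succ m ih =>
    have h1 := ih fun j hj => h j (by omega)
    have h2 := h m (by omega)
    have h3 := hg.tri (p 0) (p m) (p (m + 1))
    push_cast
    have h4 : (d (p 0) (p (m + 1)) : ℤ) ≤ d (p 0) (p m) + d (p m) (p (m + 1)) := by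
      exact_mod_cast h3
    linarith

end transaux

section C
variable {G : Type} [Group G] {ι : Type} [MulAction G ι] {n κ L k : ℕ} {c Δ T0 Θ : ℤ} {z : G}
  {d : G → G → ℕ} {P Q : ι → G → ℤ} {r : ι → G} {T : ι → ℤ} {γ : ι → G}

theorem trans_elec_zero (F : Fam c Δ T0 z d P Q r T) {x y : G} (h : dh c d Q x y = 0) :
    d x y = 0 := by
  have hne : {m | Chn c d Q x y m}.Nonempty := by
    obtain ⟨p, hp, h0, hm⟩ := exists_path F.base.geo x y
    refine ⟨d x y, p, ?_, hm, fun i hi => Or.inl ?_⟩
    · rw [h0]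
      exact F.base.geo.refl x
    · have := hp i (i + 1) (by omega) (by omega)
      omega
  have hmem := Nat.sInf_mem hne
  change Chn c d Q x y (dh c d Q x y) at hmem
  rw [h] at hmem
  obtain ⟨p, h0, hm, -⟩ := hmem
  have := F.base.geo.tri x (p 0) y
  omega

/-- `Fellow` with arbitrary ends. -/
theorem trans_fellow (V : Env n κ L k c Δ T0 Θ z d P Q r T γ) {x y u : G} (hb : Btw d x u y) :
    ∃ q, Btw (dh c d Q) x q y ∧ dh c d Q u q ≤ k := by
  obtain ⟨p, hp, h0, hm⟩ := exists_path V.geoh x y
  have hz := trans_elec_zero V.fl.fam hm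
  have hb' : Btw d (p 0) u (p (dh c d Q x y)) := by
    unfold Btw at hb ⊢
    rw [h0, (trans_zero V.fl.fam.base.geo hz (x := u)).1,
      (trans_zero V.fl.fam.base.geo hz (x := x)).1]
    exact hb
  obtain ⟨i, hi, hk⟩ := V.fellow p _ u hp hb'
  refine ⟨p i, ?_, hk⟩
  have h1 := IsPath.btw V.geoh hp hi
  unfold Btw at h1 ⊢
  rw [h0, (trans_zero V.geoh hm (x := p i)).1, (trans_zero V.geoh hm (x := x)).1] at h1
  exact h1

theorem trans_near (V : Env n κ L k c Δ T0 Θ z d P Q r T γ) {x y u : G} {R : ℕ}
    (hb : Btw d x u y) (h : dh c d Q x y ≤ R) :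
    dh c d Q x u ≤ R + k ∧ dh c d Q u y ≤ R + k := by
  obtain ⟨q, hq, hk⟩ := trans_fellow V hb
  unfold Btw at hq
  have h1 := V.geoh.tri x q u
  have h2 := V.geoh.tri u q y
  have h3 := V.geoh.symm u q
  constructor <;> omega

theorem trans_d (V : Env n κ L k c Δ T0 Θ z d P Q r T γ) {u v g w : G} {R : ℕ}
    (hE : ∀ E, |P E u - P E v| ≤ 100 * Θ) (h1 : dh c d Q u (g * u) ≤ R)
    (h2 : dh c d Q v (g * v) ≤ R) (hb : Btw d u w v) (h3 : R + k + 20 < dh c d Q u w)
    (h4 : R + k + 20 < dh c d Q w v) :
    (d w (g * w) : ℤ) ≤ (R + 10 * k + 20) * (110 * Θ) := by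
  have F := V.fl.fam
  have hB := F.base
  have hg := hB.geo
  have hgh := V.geoh
  have hslim : Slim d (2 * 3) := hyp_slim hg hB.hyp
  -- the point `w''`
  obtain ⟨w', hw', hd⟩ : ∃ w', Btw d u w' v ∧ d w (g * w') ≤ 12 := by
    obtain ⟨q1, hq1, hd1⟩ := hslim u v (g * u) w hb
    rcases hq1 with hq1 | hq1
    · exfalso
      have a1 := (trans_near V hq1 h1).1
      have a2 := hgh.tri u q1 w
      have a3 := V.le w q1
      have a4 := hgh.symm q1 w
      omega
    · obtain ⟨q2, hq2, hd2⟩ := hslim (g * u) v (g * v) q1 hq1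
      rcases hq2 with hq2 | hq2
      · refine ⟨g⁻¹ * q2, ?_, ?_⟩
        · unfold Btw at hq2 ⊢
          have b1 := hB.left g u (g⁻¹ * q2)
          have b2 := hB.left g (g⁻¹ * q2) v
          have b3 := hB.left g u v
          rw [mul_inv_cancel_left] at b1 b2
          omega
        · rw [mul_inv_cancel_left]
          have a1 := hg.tri w q1 q2
          omega
      · exfalso
        have h2' : dh c d Q (g * v) v ≤ R := by
          rw [hgh.symm]
          exact h2
        have a1 := (trans_near V hq2 h2').2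
        have a2 := hgh.tri w q1 v
        have a3 := hgh.tri q1 q2 v
        have a4 := V.le w q1
        have a5 := V.le q1 q2
        omega
  -- `g` moves `w` a little in the electric metric
  have hgw : dh c d Q w (g * w) ≤ R + 10 * k + 4 := by
    obtain ⟨q, hq, hk⟩ := trans_fellow V hb
    have a1 : dh c d Q q (g * q) ≤ R + 2 * (4 * k + 2) :=
      conv hgh (slim_hyp hgh V.slimh) V.lefth hq ⟨h1, h2⟩
    have a2 := hgh.tri w q (g * w)
    have a3 := hgh.tri q (g * q) (g * w)
    have a4 := V.lefth g q w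
    have a5 := hgh.symm q w
    omega
  have hww : dh c d Q w w' ≤ R + 10 * k + 16 := by
    rw [← V.lefth g w w']
    have a1 := hgh.tri (g * w) w (g * w')
    have a2 := V.le w (g * w')
    have a3 := hgh.symm (g * w) w
    omega
  -- projections
  have hP : ∀ E, |P E w - P E w'| ≤ 200 * Θ + 6 * c := by
    intro E
    have a1 := (F.axis E).axm hg hb
    have a2 := (F.axis E).axm hg hw'
    have a3 := hE E
    have a4 := abs_sub_comm (P E u) (P E w)
    have a5 := abs_sub_le (P E w) (P E u) (P E w')
    have a6 := abs_nonneg (P E w - P E v)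
    have a7 := abs_nonneg (P E w' - P E v)
    linarith
  have hc := F.hc
  have hΔ := F.hΔ
  have hΘ := V.hΘ
  obtain ⟨p, hp, h0, hm⟩ := exists_path hgh w w'
  have hz := trans_elec_zero F hm
  have hstep : ∀ j, j < dh c d Q w w' → (d (p j) (p (j + 1)) : ℤ) ≤ 102 * Θ := by
    intro j hj
    have a1 : dh c d Q (p j) (p (j + 1)) = 1 := by
      have := hp j (j + 1) (by omega) (by omega)
      omega
    rcases elec_step F a1.le with a2 | ⟨E, a2, a3⟩
    · have : (d (p j) (p (j + 1)) : ℤ) ≤ 1 := by exact_mod_cast a2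
      linarith
    · obtain ⟨a4, a5⟩ := V.jump E p _ j hp hj a2 a3
      have a6 := (F.axis E).up (p j) (p (j + 1))
      have a7 := (F.P_zero E hz).1
      rw [h0] at a4
      rw [a7] at a5
      have a8 := hP E
      have a9 := abs_sub_comm (P E w) (P E (p j))
      have a10 := abs_sub_comm (P E (p (j + 1))) (P E w')
      have a11 := abs_sub_le (P E (p j)) (P E w) (P E (p (j + 1)))
      have a12 := abs_sub_le (P E w) (P E w') (P E (p (j + 1)))
      linarith
  have hlen := trans_chain hg (dh c d Q w w') hstep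
  rw [h0, (trans_zero hg hz (x := w)).1] at hlen
  have b1 := hg.tri w (g * w') (g * w)
  have b2 := hB.left g w' w
  have b3 := hg.symm w' w
  have b4 : (d w (g * w) : ℤ) ≤ 12 + d w w' := by
    have : d w (g * w) ≤ 12 + d w w' := by omega
    exact_mod_cast this
  have hΘ0 : 0 ≤ Θ := by linarith
  have b5 : (dh c d Q w w' : ℤ) * (102 * Θ) ≤ (R + 10 * k + 16) * (102 * Θ) := by
    apply mul_le_mul_of_nonneg_right _ (by linarith)
    exact_mod_cast hww
  have b6 : ((R : ℤ) + 10 * k + 16) * (102 * Θ) ≤ (R + 10 * k + 16) * (110 * Θ) := by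
    apply mul_le_mul_of_nonneg_left (by linarith) (by positivity)
  nlinarith

end C

end Burn
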