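import Pool.Agent.Burn.Hyp
import Pool.Agent.Burn.Axl
import Pool.Agent.Burn.Elec1
import Pool.Agent.Burn.Trans
import Pool.Agent.Burn.Poly
import Pool.Agent.Burn.Dq

set_option autoImplicit false

/-!
# BURN : module NEARQ

Points near the axis of an element of the stabiliser of a line are near the line, and points near
the axis of an element stay near the axis in the quotient.
-/

namespace Burn

section C
variable {G : Type} [Group G] {ι : Type} [MulAction G ι] {n κ L k : ℕ} {c Δ T0 Θ : ℤ} {z : G}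
  {d : G → G → ℕ} {P Q : ι → G → ℤ} {r : ι → G} {T : ι → ℤ} {γ : ι → G}

/-- points near the axis of an element of the stabiliser of `E` are near `E`. -/
theorem near_stab (V : Env n κ L k c Δ T0 Θ z d P Q r T γ) {E : ι} {g w : G} (hg : g • E = E)
    (hL : Lox d κ g) (hN : NearAx d 5 g w) : Q E w ≤ 2 * c + 5 := by
  have F := V.fl.fam
  have hc := F.hc
  have hpow : ∀ i : ℕ, g ^ i • E = E := fun i =>
    pow_mem (show g ∈ MulAction.stabilizer G E from hg) i
  have hQ : ∀ i : ℕ, Q E (g ^ i * w) = Q E w := fun i => F.Q_stab (hpow i) w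
  have hQ0 := (F.axis E).nonneg w
  -- a large power
  obtain ⟨N, hN1⟩ : ∃ N : ℕ, Q E w + c ≤ N := ⟨(Q E w + c).toNat, Int.self_le_toNat _⟩
  obtain ⟨i, hi⟩ : ∃ i : ℕ, N < d w (g ^ i * w) := by
    refine ⟨κ * N + 1, ?_⟩
    have h1 := hL (κ * N + 1) w
    by_contra hcon
    push Not at hcon
    have h2 := Nat.mul_le_mul_left κ hcon
    omega
  have hi' : (N : ℤ) + 1 ≤ d w (g ^ i * w) := by exact_mod_cast hi
  have h1 := (F.axis E).up w (g ^ i * w)
  rw [hQ, abs_sub_comm] at h1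
  have h2 : c ≤ |P E w - P E (g ^ i * w)| := by
    rw [abs_sub_comm]
    linarith
  have h3 := (F.axis E).low w (g ^ i * w) h2
  rw [hQ, abs_sub_comm] at h3
  have h4 := (F.axis E).up w (g ^ (2 * i) * w)
  rw [hQ, abs_sub_comm] at h4
  have h5 := F.P_stab (hpow i) (g ^ i * w) w
  rw [← mul_assoc, ← pow_add, ← two_mul] at h5
  have h6 : (2 * d w (g ^ i * w) : ℤ) ≤ d w (g ^ (2 * i) * w) + 5 := by exact_mod_cast hN i
  have h7 : |P E (g ^ (2 * i) * w) - P E w| ≤ 2 * |P E (g ^ i * w) - P E w| + c := by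
    have e : P E (g ^ (2 * i) * w) - P E w =
        ((P E (g ^ (2 * i) * w) - P E (g ^ i * w)) - (P E (g ^ i * w) - P E w)) +
        2 * (P E (g ^ i * w) - P E w) := by ring
    rw [e]
    refine (abs_add_le _ _).trans ?_
    rw [abs_mul]
    norm_num
    linarith
  linarith

/-- points near the axis stay near the axis in the quotient. -/
theorem near_quot (V : Env n κ L k c Δ T0 Θ z d P Q r T γ) [(KK r).Normal] {g w : G}
    (hN : NearAx d 5 g w) (hx : ∀ (E : ι) (i : ℕ), |P E w - P E (g ^ i * w)| ≤ T E - 2 * Θ) :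
    NearAx (dq (dh c d Q) (KK r)) (2 * k + 16) (g : G ⧸ KK r) (w : G ⧸ KK r) := by
  have F := V.fl.fam
  have hB := F.base
  have hg := hB.geo
  have hgh := V.geoh
  have hiso : ∀ i : ℕ, dq (dh c d Q) (KK r) (w : G ⧸ KK r) ((g : G ⧸ KK r) ^ i * (w : G ⧸ KK r)) =
      dh c d Q w (g ^ i * w) := by
    intro i
    have h1 := dq_iso V (x := w) (y := g ^ i * w) fun s hs => iso_le V (fun E => hx E i) hs
    rw [← h1]
    rfl
  intro i
  rw [hiso, hiso]
  have hi := hN i
  -- the point `g ^ i * w` is close to the interval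
  have e1 : g ^ (2 * i) * w = g ^ i * (g ^ i * w) := by
    rw [← mul_assoc, ← pow_add, ← two_mul]
  have h1 : d (g ^ i * w) (g ^ (2 * i) * w) = d w (g ^ i * w) := by
    rw [e1]
    exact hB.left _ _ _
  have h1' : dh c d Q (g ^ i * w) (g ^ (2 * i) * w) = dh c d Q w (g ^ i * w) := by
    rw [e1]
    exact V.lefth _ _ _
  obtain ⟨u, hu, hud⟩ : ∃ u, Btw d w u (g ^ (2 * i) * w) ∧ d (g ^ i * w) u ≤ 8 := by
    rcases le_or_gt (d w (g ^ i * w)) (d w (g ^ (2 * i) * w)) with h2 | h2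
    · obtain ⟨u, hu1, hu2⟩ := hg.mid w (g ^ (2 * i) * w) (d w (g ^ i * w))
        (d w (g ^ (2 * i) * w) - d w (g ^ i * w)) (by omega)
      refine ⟨u, ?_, ?_⟩
      · unfold Btw
        omega
      · have h3 := hB.hyp (g ^ i * w) u w (g ^ (2 * i) * w)
        have h4 := hg.symm (g ^ i * w) w
        have h5 := hg.symm u w
        rcases h3 with h3 | h3 <;> omega
    · refine ⟨g ^ (2 * i) * w, ?_, ?_⟩
      · unfold Btw
        rw [hg.refl, add_zero]
      · omega
  -- Fellow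
  obtain ⟨p, hp, h0, hm⟩ := exists_path hgh w (g ^ (2 * i) * w)
  have hz := trans_elec_zero F hm
  have hz' : ∀ x, d x (p (dh c d Q w (g ^ (2 * i) * w))) = d x (g ^ (2 * i) * w) := by
    intro x
    have a1 := hg.tri x (p (dh c d Q w (g ^ (2 * i) * w))) (g ^ (2 * i) * w)
    have a2 := hg.tri x (g ^ (2 * i) * w) (p (dh c d Q w (g ^ (2 * i) * w)))
    have a3 := hg.symm (p (dh c d Q w (g ^ (2 * i) * w))) (g ^ (2 * i) * w)
    omega
  have hb' : Btw d (p 0) u (p (dh c d Q w (g ^ (2 * i) * w))) := by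
    unfold Btw at hu ⊢
    rw [h0, hz', hz']
    exact hu
  obtain ⟨j, hj, hk⟩ := V.fellow p _ u hp hb'
  have a1 := hp 0 j (by omega) hj
  have a2 := hp j _ hj le_rfl
  rw [h0] at a1
  have a3 := hgh.tri w (p j) (g ^ i * w)
  have a4 := hgh.tri (p j) u (g ^ i * w)
  have a5 := V.le (g ^ i * w) u
  have a6 := hgh.symm (g ^ i * w) u
  have a7 := hgh.symm (p j) u
  have a8 := hgh.tri (g ^ i * w) u (g ^ (2 * i) * w)
  have a9 := hgh.tri u (p j) (g ^ (2 * i) * w)
  have a10 := hgh.tri (p j) (p (dh c d Q w (g ^ (2 * i) * w))) (g ^ (2 * i) * w)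
  omega

end C

end Burn
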