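import Pool.Agent.Burn.Elec1
import Pool.Agent.Burn.Exn
import Pool.Agent.Burn.Dq
import Pool.Agent.Burn.Grow
import Pool.Agent.Burn.Axis
import Pool.Agent.Burn.Tau
import Pool.Agent.Burn.Fo
import Pool.Agent.Burn.Mdisp
import Pool.Agent.Burn.Loxq
import Pool.Agent.Burn.Liftb
import Pool.Agent.Burn.Trans
import Pool.Agent.Burn.Nearq

set_option autoImplicit false

/-!
# Segments without large angles
-/

namespace Burn

theorem bcase_ivt {f : ℕ → ℕ} {a b v : ℕ} (hab : a ≤ b)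
    (hf : ∀ i, a ≤ i → i < b → f (i + 1) ≤ f i + 1) (h0 : f a ≤ v) (h1 : v ≤ f b) :
    ∃ i, a ≤ i ∧ i ≤ b ∧ f i = v := by
  induction b, hab using Nat.le_induction with
  | base => exact ⟨a, le_rfl, le_rfl, le_antisymm h0 h1⟩
  | succ b hb ih =>
    by_cases h2 : v ≤ f b
    · obtain ⟨i, hi, hi', hi''⟩ := ih (fun i hi hi' => hf i hi (by omega)) h2
      exact ⟨i, hi, by omega, hi''⟩
    · have := hf b hb (by omega)
      exact ⟨b + 1, by omega, le_rfl, by omega⟩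

theorem bcase_ivt' {f : ℕ → ℕ} {a b v : ℕ} (hab : a ≤ b)
    (hf : ∀ i, a ≤ i → i < b → f i ≤ f (i + 1) + 1) (h0 : v ≤ f a) (h1 : f b ≤ v) :
    ∃ i, a ≤ i ∧ i ≤ b ∧ f i = v := by
  induction b, hab using Nat.le_induction with
  | base => exact ⟨a, le_rfl, le_rfl, le_antisymm h1 h0⟩
  | succ b hb ih =>
    by_cases h2 : f b ≤ v
    · obtain ⟨i, hi, hi', hi''⟩ := ih (fun i hi hi' => hf i hi (by omega)) h2
      exact ⟨i, hi, by omega, hi''⟩
    · have := hf b hb (by omega)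
      exact ⟨b + 1, by omega, le_rfl, by omega⟩

section C
variable {G : Type} [Group G] {ι : Type} [MulAction G ι] {n κ L k D : ℕ} {c Δ T0 Θ : ℤ} {z : G}
  {d : G → G → ℕ} {P Q : ι → G → ℤ} {r : ι → G} {T : ι → ℤ} {γ : ι → G}

theorem bcase_lift (V : Env n κ L k c Δ T0 Θ z d P Q r T γ) [(KK r).Normal] {u v : G} {R : ℕ}
    (hE : ∀ E, |P E u - P E v| ≤ 100 * Θ) {g : G ⧸ KK r}
    (hg : Moves R (dq (dh c d Q) (KK r)) (u : G ⧸ KK r) (v : G ⧸ KK r) g) :
    ∃ g' : G, (g' : G ⧸ KK r) = g ∧ dh c d Q u (g' * u) ≤ R ∧ dh c d Q v (g' * v) ≤ R := by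
  obtain ⟨x, rfl⟩ := QuotientGroup.mk_surjective g
  obtain ⟨h1, h2⟩ := hg
  obtain ⟨s, hs, hs'⟩ := dq_lift V u (x * u)
  obtain ⟨t, ht, ht'⟩ := dq_lift V v (x * v)
  have h1' : dh c d Q u (s * x * u) ≤ R := by
    rw [mul_assoc, ← hs']; exact h1
  have h2' : dh c d Q v (t * s⁻¹ * (s * x) * v) ≤ R := by
    have : t * s⁻¹ * (s * x) * v = t * (x * v) := by group
    rw [this, ← ht']; exact h2
  obtain ⟨s', hs1, h3, h4⟩ := liftb V ((KK r).mul_mem ht ((KK r).inv_mem hs)) hE h1' h2'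
  exact ⟨s' * (s * x), by rw [dq_mk hs1, dq_mk hs], h3, h4⟩

theorem bcase_pts (V : Env n κ L k c Δ T0 Θ z d P Q r T γ) {u v : G} {R1 M S : ℕ}
    (h : 2 * R1 + 2 * M + S ≤ dh c d Q u v) :
    ∃ w1 w3 w4 w2 : G, Btw d u w1 v ∧ Btw d u w2 v ∧ Btw d u w3 v ∧ Btw d w1 w3 w2 ∧
      Btw d w1 w4 w2 ∧ dh c d Q u w1 = R1 ∧ dh c d Q w2 v = R1 ∧ dh c d Q w1 w3 = M ∧
      dh c d Q w4 w2 = M ∧ M + S ≤ dh c d Q w3 w2 ∧ M + S ≤ dh c d Q w1 w4 ∧
      S ≤ dh c d Q w3 w4 := by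
  have hg := V.fl.fam.base.geo
  have hgh := V.geoh
  obtain ⟨p, hp, h0, hm⟩ := exists_path hg u v
  set m := d u v with hmdef
  have hstep : ∀ i, i < m → dh c d Q (p i) (p (i + 1)) ≤ 1 := by
    intro i hi
    have h1 := hp i (i + 1) (by omega) hi
    have h2 := V.le (p i) (p (i + 1))
    omega
  have hmh : dh c d Q (p m) v = 0 := by
    have := V.le (p m) v
    omega
  have hbt : ∀ i, i ≤ m → Btw d u (p i) v := by
    intro i hi
    have h1 := hp 0 i (Nat.zero_le _) hi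
    have h2 := hp i m hi le_rfl
    have h3 := hg.tri (p i) (p m) v
    have h4 := hg.tri u (p i) v
    rw [h0] at h1
    unfold Btw
    omega
  have hbt' : ∀ i j l, i ≤ j → j ≤ l → l ≤ m → Btw d (p i) (p j) (p l) := by
    intro i j l hij hjl hl
    have h1 := hp i j hij (by omega)
    have h2 := hp j l hjl hl
    have h3 := hp i l (by omega) hl
    unfold Btw
    omega
  -- the first point
  obtain ⟨i1, -, hi1, e1⟩ := bcase_ivt (f := fun i => dh c d Q u (p i)) (a := 0) (b := m)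
    (v := R1) (Nat.zero_le _)
    (by
      intro i _ hi
      have := hgh.tri u (p i) (p (i + 1))
      have := hstep i hi
      change dh c d Q u (p (i + 1)) ≤ dh c d Q u (p i) + 1
      omega)
    (by rw [h0, hgh.refl]; exact Nat.zero_le _)
    (by
      have := hgh.tri u (p m) v
      omega)
  change dh c d Q u (p i1) = R1 at e1
  have t1 := hgh.tri u (p i1) v
  obtain ⟨i2, hi12, hi2, e2⟩ := bcase_ivt' (f := fun i => dh c d Q (p i) v) (a := i1) (b := m)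
    (v := R1) hi1
    (by
      intro i _ hi
      have := hgh.tri (p i) (p (i + 1)) v
      have := hstep i hi
      change dh c d Q (p i) v ≤ dh c d Q (p (i + 1)) v + 1
      omega)
    (by omega)
    (by omega)
  change dh c d Q (p i2) v = R1 at e2
  have t2 := hgh.tri (p i1) (p i2) v
  obtain ⟨i3, hi13, hi32, e3⟩ := bcase_ivt (f := fun i => dh c d Q (p i1) (p i)) (a := i1)
    (b := i2) (v := M) hi12
    (by
      intro i _ hi
      have := hgh.tri (p i1) (p i) (p (i + 1))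
      have := hstep i (by omega)
      change dh c d Q (p i1) (p (i + 1)) ≤ dh c d Q (p i1) (p i) + 1
      omega)
    (by rw [hgh.refl]; exact Nat.zero_le _)
    (by omega)
  change dh c d Q (p i1) (p i3) = M at e3
  have t3 := hgh.tri (p i1) (p i3) (p i2)
  obtain ⟨i4, hi34, hi42, e4⟩ := bcase_ivt' (f := fun i => dh c d Q (p i) (p i2)) (a := i3)
    (b := i2) (v := M) hi32
    (by
      intro i _ hi
      have := hgh.tri (p i) (p (i + 1)) (p i2)
      have := hstep i (by omega)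
      change dh c d Q (p i) (p i2) ≤ dh c d Q (p (i + 1)) (p i2) + 1
      omega)
    (by omega)
    (by rw [hgh.refl]; exact Nat.zero_le _)
  change dh c d Q (p i4) (p i2) = M at e4
  have t4 := hgh.tri (p i3) (p i4) (p i2)
  have t5 := hgh.tri (p i1) (p i4) (p i2)
  exact ⟨p i1, p i3, p i4, p i2, hbt _ (by omega), hbt _ (by omega), hbt _ (by omega),
    hbt' _ _ _ hi13 hi32 (by omega), hbt' _ _ _ (by omega) hi42 (by omega), e1, e2, e3, e4,
    by omega, by omega, by omega⟩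

/-- elements of the stabiliser of a line are excluded. -/
theorem bcase_nofix (V : Env n κ L k c Δ T0 Θ z d P Q r T γ) {E : ι} {g w w' : G}
    (hg : g • E = E) (hL : Lox d κ g) (hN : NearAx d 5 g w) (hN' : NearAx d 5 g w') :
    (dh c d Q w w' : ℤ) ≤ 5 * c + 6 := by
  have hgeo := V.fl.fam.base.geo
  have h1 := near_stab V hg hL hN
  have h2 := near_stab V hg hL hN'
  have hc := V.fl.fam.hc
  obtain ⟨a, ha1, -, ha3⟩ := (V.fl.fam.axis E).axn hgeo w
  obtain ⟨b, hb1, -, hb3⟩ := (V.fl.fam.axis E).axn hgeo w'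
  have h3 := V.jmp E a b (by linarith) (by linarith)
  have h4 := V.geoh.tri w a w'
  have h5 := V.geoh.tri a b w'
  have h6 := V.le w a
  have h7 := V.le b w'
  rw [hgeo.symm b w'] at h7
  have h8 : dh c d Q w w' ≤ d w a + (1 + d w' b) := by omega
  have h9 : (dh c d Q w w' : ℤ) ≤ d w a + (1 + d w' b) := by exact_mod_cast h8
  linarith

theorem bcase_shift {g : G} (hB : Base 3 z d) (hL : Lox d κ g) (h20 : ∀ x, 20 < d x (g * x)) :
    ∃ (Pg Qg : G → ℤ) (t : ℝ), AxisOf d 150 g Pg Qg ∧ Sh Pg 150 g t ∧ 2 ≤ |t| := by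
  obtain ⟨Pg, Qg, hA⟩ := exists_axis hB (by norm_num) hL
  have hA : AxisOf d 150 g Pg Qg := hA.mono (by norm_num)
  obtain ⟨t, ht⟩ := hA.sh g (exn_bdd hB g)
  refine ⟨Pg, Qg, t, hA, ht, ?_⟩
  obtain ⟨x, -, hx⟩ := WellFounded.has_min (measure fun x => d x (g * x)).wf Set.univ
    ⟨(1 : G), trivial⟩
  have hmin : ∀ y, d x (g * x) ≤ d y (g * y) := fun y => not_lt.1 (hx y trivial)
  have h10 := (mdisp hB hmin (h20 x)).2
  have h1 : (20 : ℝ) - |t| ≤ 0 := by
    apply tau_arch (c := 2 * (Qg x : ℝ) + 3 * (150 : ℤ))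
    intro i
    have u := tau_up hB hA (exn_bdd hB g) ht i x
    have l : 10 * (i : ℝ) ≤ (d x (g ^ i * x) : ℝ) := by exact_mod_cast h10 i
    nlinarith
  linarith

theorem bcase (V : Env n κ L k c Δ T0 Θ z d P Q r T γ) [(KK r).Normal]
    (hlev : Level n κ D 50 z d) (hn : n.Prime) (hn2 : n ≠ 2) (hL : 20 ≤ L) {K R R3 : ℕ}
    (hK : Δ + 200 * c ≤ K) (hR3 : ((R : ℤ) + 10 * k + 20) * (110 * Θ) ≤ R3)
    (hT : 4 * (R3 : ℤ) ≤ T0) {u v : G}
    (huv : 2 * ((R : ℤ) + k + 30) + 2 * (D + 50 * R3) + 10 * c ≤ dh c d Q u v)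
    (hmin : ∀ s ∈ KK r, dh c d Q u v ≤ dh c d Q u (s * v))
    (hE : ∀ E, |P E u - P E v| ≤ 100 * Θ) {g h : G ⧸ KK r}
    (hg : Moves R (dq (dh c d Q) (KK r)) (u : G ⧸ KK r) (v : G ⧸ KK r) g)
    (hh : Moves R (dq (dh c d Q) (KK r)) (u : G ⧸ KK r) (v : G ⧸ KK r) h) :
    GoodE K (8 * k + 20) (z : G ⧸ KK r) (dq (dh c d Q) (KK r)) (u : G ⧸ KK r) (v : G ⧸ KK r) g h := by
  have F := V.fl.fam
  have hc := F.hc
  have hΔ := F.hΔ
  have hΘ := V.hΘ
  have hbig := V.big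
  have hB := F.base
  have hgeo := hB.geo
  have hgh := V.geoh
  obtain ⟨g', rfl, g1, g2⟩ := bcase_lift V hE hg
  obtain ⟨h', rfl, h1, h2⟩ := bcase_lift V hE hh
  obtain ⟨w1, w3, w4, w2, b1, b2, b3, b13, b14, e1, e2, e3, e4, f1, f2, f3⟩ :=
    bcase_pts V (u := u) (v := v) (R1 := R + k + 21) (M := D + 50 * R3) (S := (5 * c + 7).toNat)
    (by
      have : ((5 * c + 7).toNat : ℤ) = 5 * c + 7 := Int.toNat_of_nonneg (by linarith)
      zify
      rw [this]
      push_cast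
      linarith)
  have hS : ((5 * c + 7).toNat : ℤ) = 5 * c + 7 := Int.toNat_of_nonneg (by linarith)
  have big1 : 2 * (R + k + 21) < dh c d Q u v := by
    zify; push_cast
    have : (0 : ℤ) ≤ D := by positivity
    have : (0 : ℤ) ≤ R3 := by positivity
    linarith
  have t1 := hgh.tri u w1 v
  have t2 := hgh.tri u w2 v
  have tr : ∀ {x : G} {w : G}, dh c d Q u (x * u) ≤ R → dh c d Q v (x * v) ≤ R → Btw d u w v →
      R + k + 20 < dh c d Q u w → R + k + 20 < dh c d Q w v → d w (x * w) ≤ R3 := by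
    intro x w x1 x2 hb x3 x4
    have := (trans_d V hE x1 x2 hb x3 x4).trans hR3
    exact_mod_cast this
  have a1 := tr g1 g2 b1 (by omega) (by omega)
  have a2 := tr g1 g2 b2 (by omega) (by omega)
  have a3 := tr h1 h2 b1 (by omega) (by omega)
  have a4 := tr h1 h2 b2 (by omega) (by omega)
  have l13 := V.le w1 w3
  have l32 := V.le w3 w2
  have l14 := V.le w1 w4
  have l42 := V.le w4 w2
  have dw : D + 50 * R3 ≤ d w1 w2 := by
    unfold Btw at b13
    omega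
  obtain ⟨hcomm, hor⟩ := hlev.acyl R3 w1 w2 g' h' dw ⟨a1, a2⟩ ⟨a3, a4⟩
  refine ⟨congrArg (fun x : G => (x : G ⧸ KK r)) hcomm, ?_⟩
  rcases hor with hz | ⟨hLox, hnear⟩
  · left
    obtain ⟨j, rfl⟩ := Subgroup.mem_zpowers_iff.1 hz
    exact Subgroup.mem_zpowers_iff.2 ⟨j, rfl⟩
  right
  have n3 := hnear w3 b13 (by omega) (by omega)
  have n4 := hnear w4 b14 (by omega) (by omega)
  have hne : ∀ E : ι, g' • E ≠ E := by
    intro E hfix
    have := bcase_nofix V hfix hLox n3 n4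
    have f3' : ((5 * c + 7).toNat : ℤ) ≤ dh c d Q w3 w4 := by exact_mod_cast f3
    linarith
  have h20 : ∀ x, 20 < d x (g' * x) := by
    intro x
    by_contra hle
    obtain ⟨E, hE'⟩ := V.fl.small g' x hLox (by omega)
    exact hne E hE'
  obtain ⟨Pg, Qg, t, hA, ht, ht2⟩ := bcase_shift hB hLox h20
  have hbd := exn_bdd hB g'
  have ht0 : t ≠ 0 := by
    rintro rfl
    rw [abs_zero] at ht2
    linarith
  have hQ3 := near_Q hB hA hbd ht ht0 n3
  push_cast at hQ3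
  have htR : |t| ≤ 2 * (R3 : ℝ) + 150 := by
    have l := (tau_lo hA ht 1 w1).2
    rw [pow_one] at l
    have a1' : (d w1 (g' * w1) : ℝ) ≤ R3 := by exact_mod_cast a1
    push_cast at l
    linarith
  have hA' : AxisOf d c g' Pg Qg := hA.mono (by linarith)
  have hcR : (1000 : ℝ) ≤ c := by exact_mod_cast hc
  have ht' : Sh Pg c g' t := by
    intro m x
    have := ht m x
    push_cast at this
    linarith
  have hx : ∀ (E : ι) (i : ℕ), |P E w3 - P E (g' ^ i * w3)| ≤ T E - 2 * Θ := by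
    intro E i
    have o1 := ovg F hA' ht' (hne E) (x := w3) (by linarith) i
    have o2 : (|P E w3 - P E (g' ^ i * w3)| : ℝ) ≤ ((2 * R3 + 150 + Δ + 120 * c : ℤ) : ℝ) := by
      push_cast
      push_cast at o1
      linarith
    have o3 : |P E w3 - P E (g' ^ i * w3)| ≤ 2 * R3 + 150 + Δ + 120 * c := by exact_mod_cast o2
    have o4 := F.hT E
    linarith
  have hKR : (Δ : ℝ) + 200 * c ≤ K := by exact_mod_cast hK
  have hΔR : (c : ℝ) ≤ Δ := by exact_mod_cast hΔ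
  refine ⟨lox_quot V hA' ht' hne hx ht0 (by nlinarith), ?_⟩
  have nq := near_quot V n3 hx
  -- a point of a geodesic which is close to `w3`
  obtain ⟨q, hq, q0, qm⟩ := exists_path hgh u v
  set m := dh c d Q u v with hm
  have qm' : d (q m) v = 0 := elec1_zero_of F qm
  obtain ⟨i, him, hi⟩ := V.fellow q m w3 hq (by
    have s1 := hgeo.tri u v (q m)
    have s2 := hgeo.tri w3 v (q m)
    have s3 := hgeo.tri w3 (q m) v
    have s4 := hgeo.tri u (q m) v
    have s5 := hgeo.symm v (q m)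
    rw [q0]
    unfold Btw at b3 ⊢
    omega)
  have hbq := hq.btw hgh him
  have hbq' : Btw (dh c d Q) u (q i) v := by
    have s2 := hgh.tri (q i) v (q m)
    have s3 := hgh.tri (q i) (q m) v
    have s1 := hgh.tri u v (q m)
    have s4 := hgh.tri u (q m) v
    have s5 := hgh.symm v (q m)
    rw [q0] at hbq
    unfold Btw at hbq ⊢
    omega
  refine ⟨(q i : G ⧸ KK r), (dq_btw V hmin hbq').1, ?_⟩
  have hq' := dq_base V
  have c1 : dq (dh c d Q) (KK r) (w3 : G ⧸ KK r) (q i : G ⧸ KK r) ≤ k :=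
    (dq_le w3 (q i)).trans hi
  intro j
  have c2 := nq j
  have c3 : ∀ j : ℕ, dq (dh c d Q) (KK r) ((g' : G ⧸ KK r) ^ j * (w3 : G ⧸ KK r))
      ((g' : G ⧸ KK r) ^ j * (q i : G ⧸ KK r)) ≤ k := by
    intro j
    rw [hq'.left]
    exact c1
  have c4 := c3 j
  have c5 := c3 (2 * j)
  have hqg := hq'.geo
  have y1 := hqg.tri (q i : G ⧸ KK r) (w3 : G ⧸ KK r) ((g' : G ⧸ KK r) ^ j * (q i : G ⧸ KK r))
  have y2 := hqg.tri (w3 : G ⧸ KK r) ((g' : G ⧸ KK r) ^ j * (w3 : G ⧸ KK r))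
    ((g' : G ⧸ KK r) ^ j * (q i : G ⧸ KK r))
  have y3 := hqg.tri (w3 : G ⧸ KK r) (q i : G ⧸ KK r)
    ((g' : G ⧸ KK r) ^ (2 * j) * (w3 : G ⧸ KK r))
  have y4 := hqg.tri (q i : G ⧸ KK r) ((g' : G ⧸ KK r) ^ (2 * j) * (q i : G ⧸ KK r))
    ((g' : G ⧸ KK r) ^ (2 * j) * (w3 : G ⧸ KK r))
  rw [hqg.symm (q i : G ⧸ KK r) (w3 : G ⧸ KK r)] at y1
  rw [hqg.symm ((g' : G ⧸ KK r) ^ (2 * j) * (q i : G ⧸ KK r))] at y4
  omega

end C

end Burn
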