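import Pool.Agent.Burn.Defs
import Pool.Agent.Burn.Grow
import Pool.Agent.Burn.Axis
import Pool.Agent.Burn.Tau

set_option autoImplicit false

/-!
# Elements which commute with a loxodromic element up to `z`
-/

namespace Burn

section CEN1
variable {G : Type} [Group G] {d : G → G → ℕ} {z : G} {δ κ n : ℕ}

theorem cen1_zc (hB : Base δ z d) (i : ℤ) (g : G) : z ^ i * g = g * z ^ i :=
  ((show Commute z g from hB.cen g).zpow_left i).eq

/-- powers of an element which commutes with `g` up to `z`. -/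
theorem cen1_pow (hB : Base δ z d) {g h : G} {j : ℤ} (e : h * g = g * h * z ^ j) (m : ℕ) :
    h ^ m * g = g * h ^ m * z ^ ((m : ℤ) * j) := by
  induction m with
  | zero => simp
  | succ m ih =>
    calc h ^ (m + 1) * g = h ^ m * (h * g) := by rw [pow_succ, mul_assoc]
      _ = h ^ m * g * h * z ^ j := by rw [e]; simp only [mul_assoc]
      _ = g * h ^ m * (z ^ ((m : ℤ) * j) * h) * z ^ j := by rw [ih]; simp only [mul_assoc]
      _ = g * h ^ m * h * (z ^ ((m : ℤ) * j) * z ^ j) := by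
        rw [cen1_zc hB]; simp only [mul_assoc]
      _ = g * h ^ (m + 1) * z ^ (((m + 1 : ℕ) : ℤ) * j) := by
        rw [← zpow_add, pow_succ]
        have : ((m : ℤ) * j + j) = ((m + 1 : ℕ) : ℤ) * j := by push_cast; ring
        rw [this]
        simp only [mul_assoc]

theorem cen1_swap (hB : Base δ z d) {g h : G} {j : ℤ} (e : h * g = g * h * z ^ j) :
    g * h = h * g * z ^ (-j) := by
  rw [e, mul_assoc, ← zpow_add]
  simp

theorem cen1_zpow (hB : Base δ z d) {g h : G} {j : ℤ} (e : h * g = g * h * z ^ j) (a : ℤ) :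
    h * g ^ a = g ^ a * h * z ^ (a * j) := by
  have e1 : h * g * h⁻¹ = g * z ^ j := by
    rw [e, mul_assoc g h, ← cen1_zc hB j h]
    group
  have e2 : h * g ^ a * h⁻¹ = g ^ a * z ^ (a * j) := by
    rw [← conj_zpow, e1, (show Commute g (z ^ j) from (cen1_zc hB j g).symm).mul_zpow,
      ← zpow_mul, mul_comm j a]
  calc h * g ^ a = (h * g ^ a * h⁻¹) * h := by group
    _ = g ^ a * (z ^ (a * j) * h) := by rw [e2, mul_assoc]
    _ = g ^ a * h * z ^ (a * j) := by rw [cen1_zc hB, mul_assoc]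

/-- if a power of `f` is a power of `z` and `f` commutes with `g` up to `z ^ i`, then `i = 0`. -/
theorem cen1_fin (hB : Base δ z d) {f g : G} {i c : ℤ} {m : ℕ} (hm : 0 < m)
    (e : f * g = g * f * z ^ i) (hf : f ^ m = z ^ c) : i = 0 := by
  have h1 := cen1_pow hB e m
  rw [hf, cen1_zc hB c g] at h1
  have h2 : z ^ ((m : ℤ) * i) = 1 := by
    have h3 : g * z ^ c * 1 = g * z ^ c * z ^ ((m : ℤ) * i) := by rw [mul_one]; exact h1
    exact (mul_left_cancel h3).symm
  have h4 := hB.inf _ h2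
  rcases mul_eq_zero.1 h4 with h5 | h5
  · exfalso
    have : m = 0 := by exact_mod_cast h5
    omega
  · exact h5

theorem cen1 (hB : Base δ z d) (hδ : 1 ≤ δ) (hT : Tri n κ z d) (hn : 0 < n) {g h : G} {j : ℤ}
    (hL : Lox d κ g) (e : h * g * h⁻¹ = g * z ^ j) : j = 0 := by
  have e1 : h * g = g * h * z ^ j := by
    calc h * g = (h * g * h⁻¹) * h := by group
      _ = g * (z ^ j * h) := by rw [e, mul_assoc]
      _ = g * h * z ^ j := by rw [cen1_zc hB, mul_assoc]
  rcases hT h with hz | hF | hLh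
  · obtain ⟨i, hi⟩ := Subgroup.mem_zpowers_iff.1 hz
    exact cen1_fin hB (m := 1) one_pos e1 (c := i) (by rw [pow_one, hi])
  · obtain ⟨c, hc, -⟩ := hF
    exact cen1_fin hB hn e1 hc
  · obtain ⟨P, Q, hA⟩ := exists_axis hB hδ hL
    have hgeo := hB.geo
    have hl := hB.left
    have hbh : Bdd d g h := bdd_of_comm hB (m := 1) (j := j) one_pos (by simpa using e1)
    have hbg : Bdd d g g := bdd_of_comm hB (m := 1) (j := 0) one_pos (by simp)
    obtain ⟨tg, htg⟩ := hA.sh g hbg
    obtain ⟨th, hth⟩ := hA.sh h hbh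
    have hg2 := sh_lox hB hA hL hbg htg
    have hκ : 0 < (κ : ℝ) := by
      rcases (Nat.cast_nonneg κ : (0 : ℝ) ≤ κ).lt_or_eq with h0 | h0
      · exact h0
      · exfalso
        rw [← h0, zero_mul] at hg2
        linarith
    have htg0 : tg ≠ 0 := by
      rintro rfl
      rw [abs_zero, mul_zero] at hg2
      linarith
    have htgp : 0 < |tg| := abs_pos.2 htg0
    obtain ⟨N, hN⟩ := exists_nat_gt (κ * |tg|)
    have hNpos : 0 < N := by
      have : (0 : ℝ) < N := lt_trans (mul_pos hκ htgp) hN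
      exact_mod_cast this
    obtain ⟨a, b, hb0, -, hab⟩ := Real.exists_int_int_abs_mul_sub_le (th / tg) hNpos
    obtain ⟨k, rfl⟩ := Int.eq_ofNat_of_zero_le hb0.le
    have hk : 0 < k := by exact_mod_cast hb0
    -- the small shift
    have hsmall : (κ : ℝ) * |((-a : ℤ) : ℝ) * tg + ((k : ℤ) : ℝ) * th| < 2 := by
      have h1 : ((-a : ℤ) : ℝ) * tg + ((k : ℤ) : ℝ) * th =
          (((k : ℤ) : ℝ) * (th / tg) - a) * tg := by
        push_cast
        field_simp
        ring
      rw [h1, abs_mul]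
      have h2 : |((k : ℤ) : ℝ) * (th / tg) - a| * |tg| ≤ 1 / ((N : ℝ) + 1) * |tg| :=
        mul_le_mul_of_nonneg_right hab htgp.le
      calc (κ : ℝ) * (|((k : ℤ) : ℝ) * (th / tg) - a| * |tg|)
          ≤ κ * (1 / ((N : ℝ) + 1) * |tg|) := mul_le_mul_of_nonneg_left h2 hκ.le
        _ = (κ * |tg|) / ((N : ℝ) + 1) := by ring
        _ < 2 := by
          rw [div_lt_iff₀ (by positivity)]
          have : (0 : ℝ) ≤ N := Nat.cast_nonneg N
          linarith
    -- the element f
    have hcomm : g ^ (-a) * h ^ (k : ℤ) = h ^ (k : ℤ) * g ^ (-a) * z ^ (-(-a * ((k : ℤ) * j))) := by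
      have h1 : h ^ k * g = g * h ^ k * z ^ ((k : ℤ) * j) := cen1_pow hB e1 k
      have h2 := cen1_zpow hB h1 (-a)
      rw [zpow_natCast]
      exact cen1_swap hB h2
    have hbf : Bdd d g (g ^ (-a) * h ^ (k : ℤ)) :=
      Bdd.mul hgeo hl (Bdd.zpow hgeo hl hbg _) (Bdd.zpow hgeo hl hbh _)
    have hshf := sh_mul hB hA hcomm (Sh.zpow htg (-a)) (Sh.zpow hth (k : ℤ))
    have hA2 : AxisOf d (2 * (50 * (δ : ℤ))) g P Q := hA.mono (by linarith [Int.natCast_nonneg δ])
    have hnL : ¬ Lox d κ (g ^ (-a) * h ^ (k : ℤ)) := by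
      intro hLf
      have := sh_lox hB hA2 hLf hbf hshf
      linarith
    have hfg : (g ^ (-a) * h ^ (k : ℤ)) * g =
        g * (g ^ (-a) * h ^ (k : ℤ)) * z ^ ((k : ℤ) * j) := by
      have h1 : h ^ k * g = g * h ^ k * z ^ ((k : ℤ) * j) := cen1_pow hB e1 k
      rw [zpow_natCast, mul_assoc, h1]
      calc g ^ (-a) * (g * h ^ k * z ^ ((k : ℤ) * j))
          = (g ^ (-a) * g) * h ^ k * z ^ ((k : ℤ) * j) := by simp only [mul_assoc]
        _ = (g * g ^ (-a)) * h ^ k * z ^ ((k : ℤ) * j) := by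
          rw [(Commute.zpow_self g (-a)).eq]
        _ = g * (g ^ (-a) * h ^ k) * z ^ ((k : ℤ) * j) := by simp only [mul_assoc]
    have hkj : (k : ℤ) * j = 0 := by
      rcases hT (g ^ (-a) * h ^ (k : ℤ)) with hz | hF | hLf
      · obtain ⟨i, hi⟩ := Subgroup.mem_zpowers_iff.1 hz
        exact cen1_fin hB (m := 1) one_pos hfg (c := i) (by rw [pow_one, hi])
      · obtain ⟨c, hc, -⟩ := hF
        exact cen1_fin hB hn hfg hc
      · exact absurd hLf hnL
    rcases mul_eq_zero.1 hkj with h5 | h5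
    · exfalso
      have : k = 0 := by exact_mod_cast h5
      omega
    · exact h5

end CEN1

end Burn
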