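import Mathlib

set_option autoImplicit false

/-!
# Groups with integer valued hyperbolic length functions : definitions

All metrics are pseudo-metrics with values in `ℕ` in which distances can be split.
-/

namespace Burn

section metric

variable {X : Type}

/-- Integer valued pseudo-metric in which distances can be split. -/
structure Geo (d : X → X → ℕ) : Prop where
  refl : ∀ x, d x x = 0
  symm : ∀ x y, d x y = d y x
  tri : ∀ x y z, d x z ≤ d x y + d y z
  mid : ∀ x y s t, d x y = s + t → ∃ w, d x w = s ∧ d w y = t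

/-- `u` lies between `x` and `y`. -/
def Btw (d : X → X → ℕ) (x u y : X) : Prop := d x u + d u y = d x y

/-- Four point condition. -/
def Hyp (d : X → X → ℕ) (δ : ℕ) : Prop :=
  ∀ x y z w, d x y + d z w ≤ d x z + d y w + δ ∨ d x y + d z w ≤ d x w + d y z + δ

/-- Slimness of intervals. -/
def Slim (d : X → X → ℕ) (k : ℕ) : Prop :=
  ∀ x y z p, Btw d x p y → ∃ q, (Btw d x q z ∨ Btw d z q y) ∧ d p q ≤ k

/-- Geodesic path of length `m`. -/
def IsPath (d : X → X → ℕ) (p : ℕ → X) (m : ℕ) : Prop :=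
  ∀ i j, i ≤ j → j ≤ m → d (p i) (p j) = j - i

/-- `D`-geodesic paths stay close to the `d`-intervals with the same ends. -/
def Fellow (d D : X → X → ℕ) (k : ℕ) : Prop :=
  ∀ (p : ℕ → X) (m : ℕ) (u : X), IsPath D p m → Btw d (p 0) u (p m) → ∃ i, i ≤ m ∧ D u (p i) ≤ k

/-- Position `P` and height `Q` with respect to a line (all values are doubled). -/
structure Axis (d : X → X → ℕ) (c : ℤ) (P Q : X → ℤ) : Prop where
  nonneg : ∀ x, 0 ≤ Q x
  up : ∀ x y, 2 * (d x y : ℤ) ≤ Q x + Q y + |P x - P y| + c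
  low : ∀ x y, c ≤ |P x - P y| → Q x + Q y + |P x - P y| ≤ 2 * (d x y : ℤ) + c
  lipP : ∀ x y, |P x - P y| ≤ 2 * (d x y : ℤ)
  lipQ : ∀ x y, |Q x - Q y| ≤ 2 * (d x y : ℤ)
  proj : ∀ x, ∃ a, Q a ≤ c ∧ |P a - P x| ≤ c

end metric

section group

variable {G : Type} [Group G]

/-- Left invariance. -/
def LeftInv (d : G → G → ℕ) : Prop := ∀ g x y, d (g * x) (g * y) = d x y

/-- Loxodromic elements, `1/κ` is a lower bound for the stable translation length. -/
def Lox (d : G → G → ℕ) (κ : ℕ) (g : G) : Prop := ∀ (i : ℕ) (x : G), i ≤ κ * d x (g ^ i * x)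

/-- `h` moves the points `g ^ N` by a bounded amount. -/
def Bdd (d : G → G → ℕ) (g h : G) : Prop := ∃ B : ℕ, ∀ N : ℤ, d (h * g ^ N) (g ^ N) ≤ B

/-- The point `u` is close to the axis of `g`. -/
def NearAx (d : G → G → ℕ) (C : ℕ) (g u : G) : Prop :=
  ∀ i : ℕ, 2 * d u (g ^ i * u) ≤ d u (g ^ (2 * i) * u) + C

/-- `h` translates by `t` with respect to the position `P`. -/
def Sh (P : G → ℤ) (c : ℤ) (h : G) (t : ℝ) : Prop :=
  ∀ (m : ℤ) (x : G), |(P (h ^ m * x) : ℝ) - P x - m * t| ≤ c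

/-- Position and height with respect to the axis of `g`. -/
structure AxisOf (d : G → G → ℕ) (c : ℤ) (g : G) (P Q : G → ℤ) : Prop where
  axis : Axis d c P Q
  sh : ∀ h, Bdd d g h → ∃ t : ℝ, Sh P c h t
  ht : ∀ h, Bdd d g h → ∀ x, |Q (h * x) - Q x| ≤ c

/-- The point `w` is almost between `x` and `y`, up to `e`, at distance at least `m` from both. -/
def Ins (d : G → G → ℕ) (e m : ℕ) (x y w : G) : Prop :=
  m ≤ d x w ∧ m ≤ d w y ∧ d x w + d w y ≤ d x y + e

/-- How far `g` moves `w` in the direction from `x` to `y` (doubled). -/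
def sg (d : G → G → ℕ) (x y g w : G) : ℤ :=
  ((d x (g * w) : ℤ) - d (g * w) y) - ((d x w : ℤ) - d w y)

/-- Basic data: a left invariant hyperbolic metric and a central element of infinite order which
moves nothing. -/
structure Base (δ : ℕ) (z : G) (d : G → G → ℕ) : Prop where
  geo : Geo d
  hyp : Hyp d δ
  left : LeftInv d
  cen : ∀ g : G, z * g = g * z
  inf : ∀ i : ℤ, z ^ i = 1 → i = 0
  zd : d 1 z = 0

/-- `g ^ n` is a power of `z` but `g` is not one (in a torsion-free way). -/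
def Fin1 (n : ℕ) (z g : G) : Prop := ∃ c : ℤ, g ^ n = z ^ c ∧ ¬ (n : ℤ) ∣ c

/-- Trichotomy: power of `z`, root of a power of `z`, or loxodromic. -/
def Tri (n κ : ℕ) (z : G) (d : G → G → ℕ) : Prop :=
  ∀ g : G, g ∈ Subgroup.zpowers z ∨ Fin1 n z g ∨ Lox d κ g

/-- Conclusion of acylindricity for two elements moving `x` and `y` a little. -/
def Good (κ m C : ℕ) (z : G) (d : G → G → ℕ) (x y g h : G) : Prop :=
  g * h = h * g ∧ (g ∈ Subgroup.zpowers z ∨ (Lox d κ g ∧
    ∀ u, Btw d x u y → m ≤ d x u → m ≤ d u y → NearAx d C g u))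

/-- Weak form of `Good`. -/
def GoodE (κ C : ℕ) (z : G) (d : G → G → ℕ) (x y g h : G) : Prop :=
  g * h = h * g ∧ (g ∈ Subgroup.zpowers z ∨ (Lox d κ g ∧ ∃ u, Btw d x u y ∧ NearAx d C g u))

/-- `g` moves `x` and `y` by at most `R`. -/
def Moves (R : ℕ) (d : G → G → ℕ) (x y g : G) : Prop := d x (g * x) ≤ R ∧ d y (g * y) ≤ R

/-- Acylindricity at all scales. -/
def Acyl (κ D A C : ℕ) (z : G) (d : G → G → ℕ) : Prop :=
  ∀ (R : ℕ) (x y g h : G), D + A * R ≤ d x y → Moves R d x y g → Moves R d x y h →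
    Good κ (D + A * R) C z d x y g h

/-- Acylindricity at one scale. -/
def Acyl0 (κ D R m C : ℕ) (z : G) (d : G → G → ℕ) : Prop :=
  ∀ (x y g h : G), D ≤ d x y → Moves R d x y g → Moves R d x y h → Good κ m C z d x y g h

/-- Weak acylindricity at one scale. -/
def AcylE (κ D R C : ℕ) (z : G) (d : G → G → ℕ) : Prop :=
  ∀ (x y g h : G), D ≤ d x y → Moves R d x y g → Moves R d x y h → GoodE κ C z d x y g h

/-- The induction hypothesis. -/
structure Level (n κ D A : ℕ) (z : G) (d : G → G → ℕ) : Prop where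
  base : Base 3 z d
  tri : Tri n κ z d
  acyl : Acyl κ D A 5 z d

/-- At most `N R` elements, different modulo powers of `z`, move `u` and `v` by at most `R`. -/
def Count (N : ℕ → ℕ) (B : ℕ) (z : G) (d : G → G → ℕ) (u v : G) : Prop :=
  ∀ (R m : ℕ) (f : ℕ → G), R ≤ B → (∀ i, i < m → Moves R d u v (f i)) →
    (∀ i j, i < j → j < m → (f i)⁻¹ * f j ∉ Subgroup.zpowers z) → m ≤ N R

end group

section family

variable {G : Type} [Group G] {ι : Type} [MulAction G ι]

/-- A family of lines with large rotations.  `P E`, `Q E` are position and height with respect to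
the line `E`, `r E` is a translation of length `T E` along `E`. -/
structure Fam (c Δ T0 : ℤ) (z : G) (d : G → G → ℕ) (P Q : ι → G → ℤ) (r : ι → G) (T : ι → ℤ) :
    Prop where
  base : Base 3 z d
  hc : 1000 ≤ c
  hΔ : c ≤ Δ
  hT : ∀ E : ι, T0 ≤ T E
  axis : ∀ E : ι, Axis d c (P E) (Q E)
  eqQ : ∀ (g : G) (E : ι) (x : G), Q (g • E) (g * x) = Q E x
  eqP : ∀ (g : G) (E : ι) (x y : G),
    |(P (g • E) (g * x) - P (g • E) (g * y)) - (P E x - P E y)| ≤ c
  ov : ∀ (E F : ι) (x y : G), E ≠ F → Q F x ≤ 100 * c → Q F y ≤ 100 * c → |P E x - P E y| ≤ Δ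
  rfix : ∀ E : ι, r E • E = E
  rconj : ∀ (g : G) (E : ι), r (g • E) = g * r E * g⁻¹
  sh : ∀ (E : ι) (k : ℕ) (x : G), 1 ≤ k → T E - c ≤ P E (r E ^ k * x) - P E x
  sh1 : ∀ (E : ι) (x : G), P E (r E * x) - P E x ≤ T E + c
  two : ∀ (E F : ι) (g : G), E ≠ F → g • E = E → g • F = F → g ∈ Subgroup.zpowers z

/-- Additional data: the lines are the axes of all loxodromic elements with displacement at most
`L`, and `r E = γ E ^ n * z⁻¹` for a generator `γ E` of the stabiliser modulo `z`. -/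
structure FamL (n κ L : ℕ) (c Δ T0 : ℤ) (z : G) (d : G → G → ℕ) (P Q : ι → G → ℤ) (r : ι → G)
    (T : ι → ℤ) (γ : ι → G) : Prop where
  fam : Fam c Δ T0 z d P Q r T
  gam : ∀ E : ι, r E = γ E ^ n * z⁻¹
  gfix : ∀ E : ι, γ E • E = E
  stab : ∀ (E : ι) (g : G), g • E = E → ∃ a b : ℤ, g = γ E ^ a * z ^ b
  small : ∀ (g x : G), Lox d κ g → d x (g * x) ≤ L → ∃ E : ι, g • E = E

/-- The group generated by all rotations. -/
def KK (r : ι → G) : Subgroup G := Subgroup.closure (Set.range r)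

/-- Steps of length one in the electric metric. -/
def Step (c : ℤ) (d : G → G → ℕ) (Q : ι → G → ℤ) (x y : G) : Prop :=
  d x y ≤ 1 ∨ ∃ E, Q E x ≤ 2 * c ∧ Q E y ≤ 2 * c

/-- There is a chain with `m` steps from `x` to `y`. -/
def Chn (c : ℤ) (d : G → G → ℕ) (Q : ι → G → ℤ) (x y : G) (m : ℕ) : Prop :=
  ∃ p : ℕ → G, d x (p 0) = 0 ∧ d (p m) y = 0 ∧ ∀ i, i < m → Step c d Q (p i) (p (i + 1))

/-- The electric metric. -/
noncomputable def dh (c : ℤ) (d : G → G → ℕ) (Q : ι → G → ℤ) (x y : G) : ℕ :=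
  sInf {m | Chn c d Q x y m}

/-- Electric distance of a point to a line. -/
noncomputable def dE (c : ℤ) (d : G → G → ℕ) (Q : ι → G → ℤ) (E : ι) (x : G) : ℕ :=
  sInf {m | ∃ a, Q E a ≤ 2 * c ∧ dh c d Q x a = m}

/-- Quotient metric. -/
noncomputable def dq (D : G → G → ℕ) (K : Subgroup G) (a b : G ⧸ K) : ℕ :=
  sInf {m | ∃ x y : G, (x : G ⧸ K) = a ∧ (y : G ⧸ K) = b ∧ D x y = m}

/-- Every nontrivial element of the group generated by the rotations has a large rotation. -/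
def Green (Θ : ℤ) (P : ι → G → ℤ) (r : ι → G) (T : ι → ℤ) : Prop :=
  ∀ k ∈ KK r, k ≠ 1 → ∀ x, ∃ E, T E - Θ ≤ |P E x - P E (k * x)|

/-- Large jumps: geodesics of the electric metric between points with far projections on `E`
contain a jump along `E`. -/
def Pass (Θ : ℤ) (c : ℤ) (d : G → G → ℕ) (P Q : ι → G → ℤ) : Prop :=
  ∀ (E : ι) (p : ℕ → G) (m : ℕ), IsPath (dh c d Q) p m → Θ ≤ |P E (p 0) - P E (p m)| →
    ∃ j, j < m ∧ Q E (p j) ≤ 2 * c ∧ Q E (p (j + 1)) ≤ 2 * c

/-- Positions of jumps are close to the positions of the ends. -/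
def Jump (Θ : ℤ) (c : ℤ) (d : G → G → ℕ) (P Q : ι → G → ℤ) : Prop :=
  ∀ (E : ι) (p : ℕ → G) (m j : ℕ), IsPath (dh c d Q) p m → j < m → Q E (p j) ≤ 2 * c →
    Q E (p (j + 1)) ≤ 2 * c → |P E (p 0) - P E (p j)| ≤ Θ ∧ |P E (p (j + 1)) - P E (p m)| ≤ Θ

/-- Points which are close in the electric metric compared to their distance to `E` have close
projections to `E`. -/
def Farc (k : ℕ) (c : ℤ) (d : G → G → ℕ) (P Q : ι → G → ℤ) : Prop :=
  ∀ (E : ι) (x y : G), k + dh c d Q x y < dE c d Q E x → |P E x - P E y| ≤ 6 * c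

/-- Everything that is known about the family and the electric metric. -/
structure Env (n κ L k : ℕ) (c Δ T0 Θ : ℤ) (z : G) (d : G → G → ℕ) (P Q : ι → G → ℤ)
    (r : ι → G) (T : ι → ℤ) (γ : ι → G) : Prop where
  fl : FamL n κ L c Δ T0 z d P Q r T γ
  geoh : Geo (dh c d Q)
  lefth : LeftInv (dh c d Q)
  le : ∀ x y, dh c d Q x y ≤ d x y
  jmp : ∀ (E : ι) (x y : G), Q E x ≤ 2 * c → Q E y ≤ 2 * c → dh c d Q x y ≤ 1
  fellow : Fellow d (dh c d Q) k
  slimh : Slim (dh c d Q) k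
  green : Green Θ P r T
  pass : Pass Θ c d P Q
  jump : Jump Θ c d P Q
  farc : Farc k c d P Q
  hΘ : 100 * Δ ≤ Θ
  big : 1000 * Θ ≤ T0

end family

end Burn
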