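import Mathlib
import Pool.Agent.Burn.Defs
import Pool.Agent.Burn.Grow
import Pool.Agent.Burn.Axis
import Pool.Agent.Burn.Tau
import Pool.Agent.Burn.Cen1

set_option autoImplicit false

namespace Burn

section CEN
variable {G : Type} [Group G] {d : G → G → ℕ} {z : G} {δ κ n : ℕ}

variable {D A C : ℕ}

theorem cen_zcomm (hB : Base δ z d) (j : ℤ) (g : G) : z ^ j * g = g * z ^ j :=
  (Commute.zpow_left (show Commute z g from hB.cen g) j).eq

/-- the length of a conjugate point: `h` commutes with `g` -/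
theorem cen_move (hB : Base δ z d) {g h : G} (e : g * h = h * g) (N : ℕ) :
    d (g ^ N) (h * g ^ N) = d 1 h := by
  have e1 : h * g ^ N = g ^ N * h := ((show Commute g h from e).pow_left N).eq.symm
  rw [e1]
  have := hB.left (g ^ N) 1 h
  rw [mul_one] at this
  exact this

/-- a long segment almost fixed by the centraliser -/
theorem cen_far {g : G} (hL : Lox d κ g) (L : ℕ) : ∃ N : ℕ, L ≤ d 1 (g ^ N) := by
  refine ⟨κ * L + 1, ?_⟩
  have h := hL (κ * L + 1) 1
  rw [mul_one] at h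
  by_contra hcon
  push Not at hcon
  have h2 : κ * d 1 (g ^ (κ * L + 1)) ≤ κ * L := Nat.mul_le_mul_left κ hcon.le
  omega

theorem cen_good (hB : Base δ z d) (hA : Acyl κ D A C z d) {g h h' : G} (hL : Lox d κ g)
    (e : g * h = h * g) (e' : g * h' = h' * g) :
    h * h' = h' * h ∧ (h ∈ Subgroup.zpowers z ∨ Lox d κ h) := by
  obtain ⟨N, hN⟩ := cen_far hL (D + A * max (d 1 h) (d 1 h'))
  have h1 : Moves (max (d 1 h) (d 1 h')) d 1 (g ^ N) h := by
    refine ⟨?_, ?_⟩
    · rw [mul_one]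
      exact le_max_left _ _
    · rw [cen_move hB e N]
      exact le_max_left _ _
  have h2 : Moves (max (d 1 h) (d 1 h')) d 1 (g ^ N) h' := by
    refine ⟨?_, ?_⟩
    · rw [mul_one]
      exact le_max_right _ _
    · rw [cen_move hB e' N]
      exact le_max_right _ _
  obtain ⟨h3, h4⟩ := hA _ 1 (g ^ N) h h' hN h1 h2
  exact ⟨h3, h4.imp id fun h => h.1⟩

theorem cen_or (hB : Base δ z d) (hA : Acyl κ D A C z d) {g h : G} (hL : Lox d κ g)
    (e : g * h = h * g) : h ∈ Subgroup.zpowers z ∨ Lox d κ h :=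
  (cen_good hB hA hL e e).2

theorem cen_comm (hB : Base δ z d) (hA : Acyl κ D A C z d) {g h h' : G} (hL : Lox d κ g)
    (e : g * h = h * g) (e' : g * h' = h' * g) : h * h' = h' * h :=
  (cen_good hB hA hL e e').1

theorem cen_inv (hB : Base δ z d) (hδ : 1 ≤ δ) (hT : Tri n κ z d) (hn : n.Prime) (hn2 : n ≠ 2)
    (hA : Acyl κ D A C z d) {g h : G} (j : ℤ) (hL : Lox d κ g) : h * g * h⁻¹ ≠ g⁻¹ * z ^ j := by
  intro e
  have hn0 : 0 < n := hn.pos
  -- `g ^ 2` is not a power of `z`
  have hsq : g ^ (2 : ℤ) ∉ Subgroup.zpowers z := (hL.pow hB hT hn0 (by norm_num)).not_z hB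
  have hnc : h * g ≠ g * h := by
    intro hc
    have h1 : h * g * h⁻¹ = g := by rw [hc]; group
    rw [h1] at e
    apply hsq
    refine ⟨j, ?_⟩
    show z ^ j = g ^ (2 : ℤ)
    have h2 : g * g = z ^ j := by
      calc g * g = g * (g⁻¹ * z ^ j) := by rw [← e]
        _ = z ^ j := by group
    rw [← h2, zpow_two]
  -- `h ^ 2` commutes with `g`
  have e1 : h * g = g⁻¹ * z ^ j * h := by
    rw [← e]
    group
  have e2 : h * g⁻¹ * h⁻¹ = g * z ^ (-j) := by
    have : h * g⁻¹ * h⁻¹ = (h * g * h⁻¹)⁻¹ := by group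
    rw [this, e, mul_inv_rev, inv_inv, ← zpow_neg, cen_zcomm hB]
  have e3 : g * h ^ 2 = h ^ 2 * g := by
    have h4 : h ^ 2 * g * (h ^ 2)⁻¹ = g := by
      have : h ^ 2 * g * (h ^ 2)⁻¹ = h * (h * g * h⁻¹) * h⁻¹ := by
        rw [pow_two]
        group
      rw [this, e]
      have h5 : h * (g⁻¹ * z ^ j) * h⁻¹ = (h * g⁻¹ * h⁻¹) * (h * z ^ j * h⁻¹) := by group
      rw [h5, e2, ← cen_zcomm hB j h]
      have h6 : z ^ j * h * h⁻¹ = z ^ j := by group
      rw [h6, mul_assoc, ← zpow_add]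
      simp
    calc g * h ^ 2 = (h ^ 2 * g * (h ^ 2)⁻¹) * h ^ 2 := by rw [h4]
      _ = h ^ 2 * g := by group
  have hodd : Odd n := hn.odd_of_ne_two hn2
  rcases hT h with hz | hf | hl
  · obtain ⟨i, hi⟩ := hz
    have hi' : z ^ i = h := hi
    apply hnc
    rw [← hi']
    exact cen_zcomm hB i g
  · obtain ⟨c, hc, hnd⟩ := hf
    have hcast : ¬ (n : ℤ) ∣ 2 * c := by
      intro hdvd
      have hcop : IsCoprime (n : ℤ) 2 := by
        rw [Int.isCoprime_iff_gcd_eq_one]
        have : Nat.Coprime n 2 := hodd.coprime_two_right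
        simpa [Int.gcd] using this
      exact hnd (hcop.dvd_of_dvd_mul_left hdvd)
    have hpow : (h ^ 2) ^ n = z ^ (2 * c) := by
      rw [← pow_mul, mul_comm, pow_mul, hc, ← zpow_natCast, ← zpow_mul]
      congr 1
      push_cast
      ring
    rcases cen_or hB hA hL e3 with hz | hl
    · obtain ⟨i, hi⟩ := hz
      have hi' : z ^ i = h ^ 2 := hi
      rw [← hi', ← zpow_natCast, ← zpow_mul] at hpow
      have h7 : z ^ (i * (n : ℤ) - 2 * c) = 1 := by
        rw [zpow_sub, hpow]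
        group
      have h8 := hB.inf _ h7
      apply hcast
      exact ⟨i, by linarith⟩
    · exact hl.not_fin hB hn0 ⟨2 * c, hpow, hcast⟩
  · have hl2 : Lox d κ (h ^ 2) := by
      have := hl.pow hB hT hn0 (i := 2) (by norm_num)
      rw [show h ^ (2 : ℤ) = h ^ 2 from by norm_cast] at this
      exact this
    have h9 := cen_comm hB hA hl2 (h := h) (h' := g) (by rw [← pow_succ, ← pow_succ'])
      e3.symm
    exact hnc h9

/-- elements commuting with `g` are bounded with respect to `g` -/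
theorem cen_bdd (hB : Base δ z d) {g h : G} (e : g * h = h * g) : Bdd d g h := by
  refine bdd_of_comm hB (m := 1) (j := 0) one_pos ?_
  rw [pow_one, zpow_zero, mul_one, e]

theorem cen_norm (hB : Base δ z d) (hδ : 1 ≤ δ) (hT : Tri n κ z d) (hn : n.Prime) (hn2 : n ≠ 2)
    (hA : Acyl κ D A C z d) {g h : G} (hL : Lox d κ g)
    (e : (h * g * h⁻¹) * g = g * (h * g * h⁻¹)) : h * g = g * h := by
  obtain ⟨P, Q, hX⟩ := exists_axis hB hδ hL
  have hb : Bdd d g g := cen_bdd hB rfl
  have hb' : Bdd d g (h * g * h⁻¹) := cen_bdd hB e.symm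
  have hbi : Bdd d g g⁻¹ := Bdd.inv hB.geo hB.left hb
  obtain ⟨t, ht⟩ := hX.sh g hb
  obtain ⟨t', ht'⟩ := hX.sh _ hb'
  have habs := sh_abs hB hX hb hb' ht ht'
  have hX2 : AxisOf d (2 * (50 * (δ : ℤ))) g P Q := hX.mono (by omega)
  rcases abs_eq_abs.1 habs with h1 | h1
  · -- equal shifts
    have hti : Sh P (50 * (δ : ℤ)) g⁻¹ (-t) := by
      have := ht.zpow (-1)
      simpa using this
    have ec : (h * g * h⁻¹) * g⁻¹ = g⁻¹ * (h * g * h⁻¹) := by
      have : Commute (h * g * h⁻¹) g := e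
      exact (this.inv_right).eq
    have hs := sh_mul hB hX (j := 0) (by rw [zpow_zero, mul_one, ec]) ht' hti
    rw [← h1, add_neg_cancel] at hs
    have hnl := not_lox_of_sh (κ := κ) hB hX2 (Bdd.mul hB.geo hB.left hb' hbi) hs
    have hcw : g * ((h * g * h⁻¹) * g⁻¹) = ((h * g * h⁻¹) * g⁻¹) * g := by
      rw [← mul_assoc, ← e]
      group
    rcases cen_or hB hA hL hcw with hz | hl
    · obtain ⟨j, hj⟩ := hz
      have hj' : z ^ j = (h * g * h⁻¹) * g⁻¹ := hj
      have e5 : h * g * h⁻¹ = g * z ^ j := by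
        rw [← cen_zcomm hB, hj']
        group
      have h0 := cen1 hB hδ hT hn.pos hL e5
      rw [h0, zpow_zero, mul_one] at e5
      calc h * g = h * g * h⁻¹ * h := by group
        _ = g * h := by rw [e5]
    · exact absurd hl hnl
  · -- opposite shifts
    have hs := sh_mul hB hX (j := 0) (by rw [zpow_zero, mul_one]; exact e) ht' ht
    rw [h1, add_neg_cancel] at hs
    have hnl := not_lox_of_sh (κ := κ) hB hX2 (Bdd.mul hB.geo hB.left hb' hb) hs
    have hcw : g * ((h * g * h⁻¹) * g) = ((h * g * h⁻¹) * g) * g := by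
      rw [← mul_assoc, ← e]
    rcases cen_or hB hA hL hcw with hz | hl
    · obtain ⟨j, hj⟩ := hz
      have hj' : z ^ j = (h * g * h⁻¹) * g := hj
      have e5 : h * g * h⁻¹ = g⁻¹ * z ^ j := by
        rw [← cen_zcomm hB, hj']
        group
      exact absurd e5 (cen_inv hB hδ hT hn hn2 hA j hL)
    · exact absurd hl hnl

theorem cen_root (hB : Base δ z d) (hδ : 1 ≤ δ) (hT : Tri n κ z d) (hn : n.Prime)
    (hA : Acyl κ D A C z d) {g : G} (hL : Lox d κ g) :
    ∃ γ : G, Lox d κ γ ∧ g * γ = γ * g ∧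
      ∀ h, g * h = h * g → ∃ a b : ℤ, h = γ ^ a * z ^ b := by
  obtain ⟨P, Q, hX⟩ := exists_axis hB hδ hL
  set c : ℤ := 50 * (δ : ℤ) with hc
  have hκ : 0 < κ := by
    have := hL 1 1
    rcases Nat.eq_zero_or_pos κ with h | h
    · rw [h, zero_mul] at this
      omega
    · exact h
  -- the group of shifts
  have hadd : ∀ {a b : G} {s t : ℝ}, g * a = a * g → g * b = b * g → Sh P c a s → Sh P c b t →
      Sh P c (a * b) (s + t) := by
    intro a b s t ha hb hs ht
    have hab : a * b = b * a := cen_comm hB hA hL ha hb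
    have hgab : g * (a * b) = (a * b) * g := by
      rw [← mul_assoc, ha, mul_assoc, hb, ← mul_assoc]
    obtain ⟨r, hr⟩ := hX.sh _ (cen_bdd hB hgab)
    have h2 := sh_mul hB hX (j := 0) (by rw [zpow_zero, mul_one]; exact hab) hs ht
    rw [← sh_unique hr h2]
    exact hr
  have hneg : ∀ {a : G} {s : ℝ}, Sh P c a s → Sh P c a⁻¹ (-s) := by
    intro a s hs
    have := hs.zpow (-1)
    simpa using this
  have hone : Sh P c (1 : G) 0 := by
    intro m x
    rw [one_zpow, one_mul]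
    simp only [sub_self, mul_zero, abs_zero]
    exact_mod_cast (by omega : (0 : ℤ) ≤ c)
  have hinv : ∀ {a : G}, g * a = a * g → g * a⁻¹ = a⁻¹ * g := by
    intro a ha
    exact ((show Commute g a from ha).inv_right).eq
  let H : AddSubgroup ℝ :=
    { carrier := {r | ∃ h, g * h = h * g ∧ Sh P c h r}
      add_mem' := by
        rintro s t ⟨a, ha, hs⟩ ⟨b, hb, ht⟩
        refine ⟨a * b, ?_, hadd ha hb hs ht⟩
        rw [← mul_assoc, ha, mul_assoc, hb, ← mul_assoc]
      zero_mem' := ⟨1, by simp, hone⟩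
      neg_mem' := by
        rintro s ⟨a, ha, hs⟩
        exact ⟨a⁻¹, hinv ha, hneg hs⟩ }
  have hHmem : ∀ r, r ∈ H ↔ ∃ h, g * h = h * g ∧ Sh P c h r := fun r => Iff.rfl
  -- elements with shift zero
  have hker : ∀ {a : G}, g * a = a * g → Sh P c a 0 → a ∈ Subgroup.zpowers z := by
    intro a ha hs
    rcases cen_or hB hA hL ha with h | h
    · exact h
    · exact absurd h (not_lox_of_sh hB hX (cen_bdd hB ha) hs)
  have hbig : ∀ r ∈ H, r ≠ 0 → 2 / (κ : ℝ) ≤ |r| := by
    rintro r ⟨a, ha, hs⟩ hr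
    have hκ' : (0 : ℝ) < κ := by exact_mod_cast hκ
    rcases cen_or hB hA hL ha with h | h
    · exfalso
      obtain ⟨i, hi⟩ := h
      have hi' : z ^ i = a := hi
      have h0 : Sh P c a 0 := by
        intro m x
        rw [← hi', ← zpow_mul]
        have hz := (z_move hB (i * m) x x).1
        rw [hB.geo.refl] at hz
        have hl := hX.axis.lipP (z ^ (i * m) * x) x
        rw [hz] at hl
        have h0 : P (z ^ (i * m) * x) = P x := by
          have : |P (z ^ (i * m) * x) - P x| ≤ 0 := by simpa using hl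
          have := abs_nonpos_iff.1 this
          omega
        rw [h0]
        simp only [sub_self, mul_zero, abs_zero]
        exact_mod_cast (by omega : (0 : ℤ) ≤ c)
      exact hr (sh_unique hs h0)
    · have := sh_lox hB hX h (cen_bdd hB ha) hs
      rw [div_le_iff₀ hκ']
      linarith
  have hκ' : (0 : ℝ) < κ := by exact_mod_cast hκ
  have h2κ : (0 : ℝ) < 2 / (κ : ℝ) := by positivity
  obtain ⟨b, hb⟩ := AddSubgroup.cyclic_of_isolated_zero (H := H) h2κ (by
    rw [Set.disjoint_left]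
    rintro r hr ⟨hr0, hr1⟩
    have := hbig r hr hr0.ne'
    rw [abs_of_pos hr0] at this
    linarith)
  have hbH : b ∈ H := by
    rw [hb]
    exact AddSubgroup.subset_closure rfl
  obtain ⟨γ, hγ, hsγ⟩ := hbH
  -- b is not zero
  obtain ⟨t, ht⟩ := hX.sh g (cen_bdd hB rfl)
  have ht0 : t ≠ 0 := by
    rintro rfl
    exact not_lox_of_sh hB hX (cen_bdd hB rfl) ht hL
  have hspan : ∀ r ∈ H, ∃ a : ℤ, r = a * b := by
    intro r hr
    rw [hb, AddSubgroup.mem_closure_singleton] at hr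
    obtain ⟨a, ha⟩ := hr
    exact ⟨a, by rw [← ha, zsmul_eq_mul]⟩
  have hb0 : b ≠ 0 := by
    intro h0
    obtain ⟨a, ha⟩ := hspan t ⟨g, rfl, ht⟩
    rw [h0, mul_zero] at ha
    exact ht0 ha
  have hγL : Lox d κ γ := by
    rcases cen_or hB hA hL hγ with h | h
    · exfalso
      obtain ⟨i, hi⟩ := h
      have hi' : z ^ i = γ := hi
      have h0 : Sh P c γ 0 := by
        intro m x
        rw [← hi', ← zpow_mul]
        have hz := (z_move hB (i * m) x x).1
        rw [hB.geo.refl] at hz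
        have hl := hX.axis.lipP (z ^ (i * m) * x) x
        rw [hz] at hl
        have h0 : P (z ^ (i * m) * x) = P x := by
          have : |P (z ^ (i * m) * x) - P x| ≤ 0 := by simpa using hl
          have := abs_nonpos_iff.1 this
          omega
        rw [h0]
        simp only [sub_self, mul_zero, abs_zero]
        exact_mod_cast (by omega : (0 : ℤ) ≤ c)
      exact hb0 (sh_unique hsγ h0)
    · exact h
  refine ⟨γ, hγL, hγ, fun h hh => ?_⟩
  obtain ⟨s, hs⟩ := hX.sh h (cen_bdd hB hh)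
  obtain ⟨a, ha⟩ := hspan s ⟨h, hh, hs⟩
  have hγa : g * γ ^ (-a) = γ ^ (-a) * g := ((show Commute g γ from hγ).zpow_right (-a)).eq
  have h1 : Sh P c (γ ^ (-a)) (((-a : ℤ) : ℝ) * b) := hsγ.zpow (-a)
  have h2 := hadd hγa hh h1 hs
  have h3 : ((-a : ℤ) : ℝ) * b + s = 0 := by
    rw [ha]
    push_cast
    ring
  rw [h3] at h2
  have hcom : g * (γ ^ (-a) * h) = (γ ^ (-a) * h) * g := by
    rw [← mul_assoc, hγa, mul_assoc, hh, ← mul_assoc]
  obtain ⟨k, hk⟩ := hker hcom h2
  have hk' : z ^ k = γ ^ (-a) * h := hk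
  refine ⟨a, k, ?_⟩
  rw [hk', ← mul_assoc, ← zpow_add]
  simp

end CEN

end Burn
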