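import Pool.Agent.Burn.Grow

set_option autoImplicit false

/-!
# Dividing the metric by a constant
-/

namespace Burn

section COARSE
variable {G : Type} [Group G] {d : G → G → ℕ} {z : G} {δ κ n : ℕ}

lemma coarse_ceil (M a : ℕ) (hM : 1 ≤ M) : a ≤ M * ((a + M - 1) / M) ∧
    M * ((a + M - 1) / M) + 1 ≤ a + M := by
  have h1 := Nat.div_add_mod (a + M - 1) M
  have h2 := Nat.mod_lt (a + M - 1) (by omega : 0 < M)
  omega

lemma coarse_le {M a b : ℕ} (hM : 1 ≤ M) (h : a ≤ M * b) : (a + M - 1) / M ≤ b := by
  obtain ⟨-, h2⟩ := coarse_ceil M a hM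
  by_contra hc
  push Not at hc
  have : M * (b + 1) ≤ M * ((a + M - 1) / M) := Nat.mul_le_mul_left _ hc
  rw [mul_add, mul_one] at this
  omega

lemma coarse_eq {M a b : ℕ} (hM : 1 ≤ M) (h : a ≤ M * b) (h' : M * b + 1 ≤ a + M) :
    (a + M - 1) / M = b := by
  apply le_antisymm (coarse_le hM h)
  obtain ⟨h2, -⟩ := coarse_ceil M a hM
  by_contra hc
  push Not at hc
  have : M * ((a + M - 1) / M + 1) ≤ M * b := Nat.mul_le_mul_left _ hc
  rw [mul_add, mul_one] at this
  omega

/-- a multiple of `M` smaller than another one plus `M`. -/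
lemma coarse_mul {M a b : ℕ} (h : M * a + 1 ≤ M * b + M) : a ≤ b := by
  by_contra hc
  push Not at hc
  have : M * (b + 1) ≤ M * a := Nat.mul_le_mul_left _ hc
  rw [mul_add, mul_one] at this
  omega

theorem coarse (hB : Base δ z d) (hT : Tri n κ z d) {D1 C D M : ℕ}
    (hA : ∀ (R : ℕ) (x y g h : G), D1 + 40 * R ≤ d x y → Moves R d x y g → Moves R d x y h →
      Good κ (D1 + 40 * R) C z d x y g h)
    (hC : 6 * δ + C ≤ M) (hM : 1 ≤ M) (hD : D1 + 2 * M ≤ M * D) :
    Level n (κ * M) D 50 z (fun x y => (d x y + M - 1) / M) := by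
  have hg := hB.geo
  have c : ∀ x y, d x y ≤ M * ((d x y + M - 1) / M) ∧
      M * ((d x y + M - 1) / M) + 1 ≤ d x y + M := fun x y => coarse_ceil M (d x y) hM
  have lox : ∀ g, Lox d κ g → Lox (fun x y => (d x y + M - 1) / M) (κ * M) g := by
    intro g h i x
    refine (h i x).trans ?_
    show κ * d x (g ^ i * x) ≤ κ * M * ((d x (g ^ i * x) + M - 1) / M)
    rw [mul_assoc]
    exact Nat.mul_le_mul_left _ (c x (g ^ i * x)).1
  refine ⟨⟨⟨?_, ?_, ?_, ?_⟩, ?_, ?_, hB.cen, hB.inf, ?_⟩, ?_, ?_⟩
  · intro x
    show (d x x + M - 1) / M = 0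
    rw [hg.refl]
    exact coarse_eq hM (by omega) (by omega)
  · intro x y
    show (d x y + M - 1) / M = (d y x + M - 1) / M
    rw [hg.symm]
  · intro x y w
    show (d x w + M - 1) / M ≤ (d x y + M - 1) / M + (d y w + M - 1) / M
    apply coarse_le hM
    have h1 := c x y
    have h2 := c y w
    have h3 := hg.tri x y w
    rw [mul_add]
    omega
  · intro x y s t h
    change (d x y + M - 1) / M = s + t at h
    have h1 := c x y
    rw [h, mul_add] at h1
    rcases t with _ | t
    · refine ⟨y, ?_, ?_⟩
      · show (d x y + M - 1) / M = s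
        rw [h]; rfl
      · show (d y y + M - 1) / M = 0
        rw [hg.refl]
        exact coarse_eq hM (by omega) (by omega)
    · rw [mul_add, mul_one] at h1
      obtain ⟨w, hw1, hw2⟩ := hg.mid x y (M * s) (d x y - M * s) (by omega)
      refine ⟨w, ?_, ?_⟩
      · show (d x w + M - 1) / M = s
        exact coarse_eq hM (by omega) (by omega)
      · show (d w y + M - 1) / M = t + 1
        apply coarse_eq hM
        · rw [mul_add, mul_one]; omega
        · rw [mul_add, mul_one]; omega
  · intro x y u w
    show (d x y + M - 1) / M + (d u w + M - 1) / M ≤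
      (d x u + M - 1) / M + (d y w + M - 1) / M + 3 ∨
      (d x y + M - 1) / M + (d u w + M - 1) / M ≤
      (d x w + M - 1) / M + (d y u + M - 1) / M + 3
    have h := hB.hyp x y u w
    have c1 := c x y
    have c2 := c u w
    have c3 := c x u
    have c4 := c y w
    have c5 := c x w
    have c6 := c y u
    rcases h with h | h
    · left
      apply coarse_mul (M := M)
      rw [mul_add, mul_add, mul_add]
      omega
    · right
      apply coarse_mul (M := M)
      rw [mul_add, mul_add, mul_add]
      omega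
  · intro g x y
    show (d (g * x) (g * y) + M - 1) / M = (d x y + M - 1) / M
    rw [hB.left]
  · show (d 1 z + M - 1) / M = 0
    rw [hB.zd]
    exact coarse_eq hM (by omega) (by omega)
  · intro g
    rcases hT g with h | h | h
    · exact Or.inl h
    · exact Or.inr (Or.inl h)
    · exact Or.inr (Or.inr (lox g h))
  · intro R x y g h hxy hmg hmh
    change D + 50 * R ≤ (d x y + M - 1) / M at hxy
    have mv : ∀ k : G, Moves R (fun x y => (d x y + M - 1) / M) x y k → Moves (M * R) d x y k := by
      intro k hk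
      constructor
      · have h1 : (d x (k * x) + M - 1) / M ≤ R := hk.1
        exact (c x (k * x)).1.trans (Nat.mul_le_mul_left _ h1)
      · have h1 : (d y (k * y) + M - 1) / M ≤ R := hk.2
        exact (c y (k * y)).1.trans (Nat.mul_le_mul_left _ h1)
    have big : ∀ a b : G, D + 50 * R ≤ (d a b + M - 1) / M →
        D1 + 40 * (M * R) + M + 1 ≤ d a b := by
      intro a b hab
      have h1 := c a b
      have h2 : M * (D + 50 * R) ≤ M * ((d a b + M - 1) / M) := Nat.mul_le_mul_left _ hab
      have h3 : M * (D + 50 * R) = M * D + 50 * (M * R) := by ring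
      omega
    obtain ⟨hcom, hgd⟩ := hA (M * R) x y g h (by have := big x y hxy; omega) (mv g hmg) (mv h hmh)
    refine ⟨hcom, ?_⟩
    rcases hgd with hgd | ⟨hL, hN⟩
    · exact Or.inl hgd
    · refine Or.inr ⟨lox g hL, ?_⟩
      intro u hu hxu huy
      change (d x u + M - 1) / M + (d u y + M - 1) / M = (d x y + M - 1) / M at hu
      change D + 50 * R ≤ (d x u + M - 1) / M at hxu
      change D + 50 * R ≤ (d u y + M - 1) / M at huy
      have b1 := big x u hxu
      have b2 := big u y huy
      have t1 := hg.tri x u y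
      have c1 := c x u
      have c2 := c u y
      have c3 := c x y
      have c4 : M * ((d x u + M - 1) / M) + M * ((d u y + M - 1) / M) =
          M * ((d x y + M - 1) / M) := by rw [← mul_add, hu]
      -- the excess
      obtain ⟨E, hE⟩ : ∃ E, E = d x u + d u y - d x y := ⟨_, rfl⟩
      have hEM : E + 1 ≤ M := by omega
      obtain ⟨v, hv1, hv2⟩ := hg.mid x y (d x u - E / 2) (d u y - (E - E / 2)) (by omega)
      have h4 := hB.hyp x y u v
      have huv : 2 * d u v ≤ M + 2 * δ := by
        have e1 : d y v = d v y := hg.symm _ _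
        have e2 : d y u = d u y := hg.symm _ _
        rw [e1, e2] at h4
        omega
      have hNv := hN v (by unfold Btw; omega) (by omega) (by omega)
      intro i
      show 2 * ((d u (g ^ i * u) + M - 1) / M) ≤ (d u (g ^ (2 * i) * u) + M - 1) / M + 5
      have h5 := hNv i
      have q1 : d u (g ^ i * u) ≤ d v (g ^ i * v) + 2 * d u v := by
        have r1 := hg.tri u v (g ^ i * u)
        have r2 := hg.tri v (g ^ i * v) (g ^ i * u)
        rw [hB.left, hg.symm v u] at r2
        omega
      have q2 : d v (g ^ (2 * i) * v) ≤ d u (g ^ (2 * i) * u) + 2 * d u v := by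
        have r1 := hg.tri v u (g ^ (2 * i) * v)
        have r2 := hg.tri u (g ^ (2 * i) * u) (g ^ (2 * i) * v)
        rw [hB.left] at r2
        rw [hg.symm v u] at r1
        omega
      have c5 := c u (g ^ i * u)
      have c6 := c u (g ^ (2 * i) * u)
      apply coarse_mul (M := M)
      rw [mul_add]
      have e3 : M * (2 * ((d u (g ^ i * u) + M - 1) / M)) =
          2 * (M * ((d u (g ^ i * u) + M - 1) / M)) := by ring
      rw [e3]
      omega

theorem Level.mono {κ' D D' : ℕ} (h : Level n κ D 50 z d) (hκ : κ ≤ κ') (hD : D ≤ D') :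
    Level n κ' D' 50 z d := by
  refine ⟨h.base, ?_, ?_⟩
  · intro g
    rcases h.tri g with h1 | h1 | h1
    · exact Or.inl h1
    · exact Or.inr (Or.inl h1)
    · exact Or.inr (Or.inr (h1.mono hκ))
  · intro R x y g k hxy hmg hmk
    obtain ⟨h1, h2⟩ := h.acyl R x y g k (by omega) hmg hmk
    refine ⟨h1, ?_⟩
    rcases h2 with h2 | ⟨h2, h3⟩
    · exact Or.inl h2
    · exact Or.inr ⟨h2.mono hκ, fun u hu h4 h5 => h3 u hu (by omega) (by omega)⟩

end COARSE

end Burn
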