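import Pool.Agent.Burn.Elec1

set_option autoImplicit false

/-!
# ELEC2 : geodesics of the electric metric and lines
-/

namespace Burn

section ELEC
variable {G : Type} [Group G] {ι : Type} [MulAction G ι] {c Δ T0 : ℤ} {z : G} {d : G → G → ℕ}
  {P Q : ι → G → ℤ} {r : ι → G} {T : ι → ℤ}

/-- if the electric geodesic with indices `a..b` stays far from the line then its ends have close
positions. -/
theorem elec2_far (F : Fam c Δ T0 z d P Q r T) {k : ℕ} (h : Fellow d (dh c d Q) k) {E : ι}
    {p : ℕ → G} {a b : ℕ} (hab : a ≤ b) (hp : IsPath (dh c d Q) (fun i => p (a + i)) (b - a))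
    (hfar : ∀ i, a ≤ i → i ≤ b → k < dE c d Q E (p i)) : |P E (p a) - P E (p b)| ≤ 6 * c := by
  have hg := F.base.geo
  have hc := F.hc
  by_contra hlt
  rw [not_le] at hlt
  obtain ⟨u, hu1, hu2, _⟩ := (F.axis E).axu hg (by linarith) hlt.le
  obtain ⟨i, hi, hi2⟩ := h (fun i => p (a + i)) (b - a) u hp (by
    simp only [add_zero]
    rw [Nat.add_sub_cancel' hab]
    exact hu1)
  have h1 := hfar (a + i) (by omega) (by omega)
  have h2 := (elec_dE F E (p (a + i))).2.1 u hu2
  rw [(elec_geo F).symm] at hi2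
  omega

theorem elec2_steps {f : ℕ → ℤ} {Δ : ℤ} {a b : ℕ} (hab : a ≤ b)
    (h : ∀ i, a ≤ i → i < b → |f i - f (i + 1)| ≤ Δ) : |f a - f b| ≤ ((b - a : ℕ) : ℤ) * Δ := by
  induction b with
  | zero =>
    have : a = 0 := by omega
    subst this
    simp
  | succ b ih =>
    rcases Nat.lt_or_ge b a with h1 | h1
    · have : a = b + 1 := by omega
      subst this
      simp
    · have h2 := ih h1 fun i hi hi' => h i hi (by omega)
      have h3 := h b h1 (by omega)
      have h4 : |f a - f (b + 1)| ≤ |f a - f b| + |f b - f (b + 1)| := by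
        have : f a - f (b + 1) = (f a - f b) + (f b - f (b + 1)) := by ring
        rw [this]
        exact abs_add_le _ _
      have h5 : ((b + 1 - a : ℕ) : ℤ) = ((b - a : ℕ) : ℤ) + 1 := by omega
      rw [h5]
      linarith

omit [Group G] in
theorem elec2_sub {D : G → G → ℕ} {p : ℕ → G} {m a b : ℕ} (hp : IsPath D p m) (_hab : a ≤ b)
    (hb : b ≤ m) : IsPath D (fun i => p (a + i)) (b - a) := by
  intro i j hij hj
  have := hp (a + i) (a + j) (by omega) (by omega)
  simp only
  omega

/-- a step which is not a jump along `E` does not change the position much. -/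
theorem elec2_step (F : Fam c Δ T0 z d P Q r T) {E : ι} {x y : G} (h : dh c d Q x y ≤ 1)
    (hn : ¬ (Q E x ≤ 2 * c ∧ Q E y ≤ 2 * c)) : |P E x - P E y| ≤ Δ := by
  have hc := F.hc
  have hΔ := F.hΔ
  rcases elec_step F h with h1 | ⟨E', h1, h2⟩
  · have h2 := (F.axis E).lipP x y
    have h3 : (d x y : ℤ) ≤ 1 := by exact_mod_cast h1
    linarith
  · refine F.ov E E' x y ?_ (by linarith) (by linarith)
    rintro rfl
    exact hn ⟨h1, h2⟩

theorem elec_farc (F : Fam c Δ T0 z d P Q r T) {k : ℕ} (h : Fellow d (dh c d Q) k) :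
    Farc k c d P Q := by
  intro E x y hxy
  have hg := F.base.geo
  have hgh := elec_geo F
  obtain ⟨p, hp, h0, h1⟩ := exists_path hgh x y
  have h2 : d (p (dh c d Q x y)) y = 0 := elec1_zero_of F h1
  have h3 := elec2_far F h (E := E) (p := p) (a := 0) (b := dh c d Q x y) (Nat.zero_le _)
    (by simpa using hp) (fun i _ hi => by
      have h4 := (elec_dE F E x).2.2 (p i)
      have h5 := hp 0 i (Nat.zero_le _) hi
      rw [h0] at h5
      omega)
  rw [h0, (F.P_zero E h2).1] at h3
  exact h3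

theorem elec2_jump (F : Fam c Δ T0 z d P Q r T) {k : ℕ} (h : Fellow d (dh c d Q) k) {E : ι}
    {p : ℕ → G} {m j : ℕ} (hp : IsPath (dh c d Q) p m) (hj : j < m) (h1 : Q E (p j) ≤ 2 * c)
    (h2 : Q E (p (j + 1)) ≤ 2 * c) : |P E (p 0) - P E (p j)| ≤ (2 * k + 4) * Δ + 12 * c := by
  have hg := F.base.geo
  have hc := F.hc
  have hΔ := F.hΔ
  have hgh := elec_geo F
  have hnot : ∀ i, i < j → ¬ Q E (p i) ≤ 2 * c := by
    intro i hi h3
    have h4 := elec_jmp F E (p i) (p (j + 1)) h3 h2
    have h5 := hp i (j + 1) (by omega) (by omega)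
    omega
  have hstep : ∀ i, i < j → |P E (p i) - P E (p (i + 1))| ≤ Δ := by
    intro i hi
    refine elec2_step F ?_ fun h3 => hnot i hi h3.1
    have := hp i (i + 1) (by omega) (by omega)
    omega
  -- first index close to the line
  have hex : ∃ i, dE c d Q E (p i) ≤ k := by
    refine ⟨j, ?_⟩
    have h3 := (elec_dE F E (p j)).2.1 (p j) h1
    rw [hgh.refl] at h3
    omega
  classical
  set i0 := Nat.find hex with hi0
  have hi0s : dE c d Q E (p i0) ≤ k := Nat.find_spec hex
  have hi0m : ∀ i, i < i0 → k < dE c d Q E (p i) := fun i hi => not_le.1 (Nat.find_min hex hi)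
  have hi0j : i0 ≤ j := Nat.find_min' hex (by
    have h3 := (elec_dE F E (p j)).2.1 (p j) h1
    rw [hgh.refl] at h3
    omega)
  have hlen : j ≤ i0 + k + 1 := by
    obtain ⟨⟨a, ha, ha'⟩, _, _⟩ := elec_dE F E (p i0)
    have h3 := elec_jmp F E a (p j) ha h1
    have h4 := hgh.tri (p i0) a (p j)
    have h5 := hp i0 j hi0j (by omega)
    omega
  have hk0 : (0 : ℤ) ≤ k := Int.natCast_nonneg k
  rcases Nat.eq_zero_or_pos i0 with h0 | h0
  · have h3 := elec2_steps (f := fun i => P E (p i)) (Δ := Δ) (a := 0) (b := j) (Nat.zero_le _)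
      (fun i _ hi => hstep i hi)
    have h4 : ((j - 0 : ℕ) : ℤ) ≤ k + 1 := by omega
    have h5 : ((j - 0 : ℕ) : ℤ) * Δ ≤ (k + 1) * Δ := mul_le_mul_of_nonneg_right h4 (by linarith)
    nlinarith
  · have h3 := elec2_steps (f := fun i => P E (p i)) (Δ := Δ) (a := i0 - 1) (b := j) (by omega)
      (fun i _ hi => hstep i hi)
    have h4 : ((j - (i0 - 1) : ℕ) : ℤ) ≤ k + 2 := by omega
    have h5 : ((j - (i0 - 1) : ℕ) : ℤ) * Δ ≤ (k + 2) * Δ :=
      mul_le_mul_of_nonneg_right h4 (by linarith)
    have h6 := elec2_far F h (E := E) (p := p) (a := 0) (b := i0 - 1) (Nat.zero_le _)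
      (elec2_sub hp (Nat.zero_le _) (by omega)) (fun i _ hi => hi0m i (by omega))
    have h7 : |P E (p 0) - P E (p j)| ≤ |P E (p 0) - P E (p (i0 - 1))| +
        |P E (p (i0 - 1)) - P E (p j)| := by
      have : P E (p 0) - P E (p j) = (P E (p 0) - P E (p (i0 - 1))) +
        (P E (p (i0 - 1)) - P E (p j)) := by ring
      rw [this]
      exact abs_add_le _ _
    nlinarith

omit [Group G] in
theorem elec2_rev {D : G → G → ℕ} (hD : Geo D) {p : ℕ → G} {m : ℕ} (hp : IsPath D p m) :
    IsPath D (fun i => p (m - i)) m := by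
  intro i j hij hj
  have := hp (m - j) (m - i) (by omega) (by omega)
  simp only
  rw [hD.symm]
  omega

theorem elec_jump (F : Fam c Δ T0 z d P Q r T) {k : ℕ} (h : Fellow d (dh c d Q) k) :
    Jump ((2 * k + 4) * Δ + 12 * c) c d P Q := by
  intro E p m j hp hj h1 h2
  refine ⟨elec2_jump F h hp hj h1 h2, ?_⟩
  have e1 : m - (m - (j + 1)) = j + 1 := by omega
  have e2 : m - (m - (j + 1) + 1) = j := by omega
  have h3 := elec2_jump F h (E := E) (p := fun i => p (m - i)) (m := m) (j := m - (j + 1))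
    (elec2_rev (elec_geo F) hp) (by omega) (by simp only [e1]; exact h2)
    (by simp only [e2]; exact h1)
  simp only [e1, Nat.sub_zero] at h3
  rw [abs_sub_comm]
  exact h3

theorem elec_pass (F : Fam c Δ T0 z d P Q r T) {k : ℕ} (h : Fellow d (dh c d Q) k) :
    Pass ((2 * k + 4) * Δ + 12 * c) c d P Q := by
  intro E p m hp hm
  have hg := F.base.geo
  have hc := F.hc
  have hΔ := F.hΔ
  have hgh := elec_geo F
  have hk0 : (0 : ℤ) ≤ k := Int.natCast_nonneg k
  by_contra hno
  push Not at hno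
  have hstep : ∀ i, i < m → |P E (p i) - P E (p (i + 1))| ≤ Δ := by
    intro i hi
    refine elec2_step F ?_ fun h3 => absurd (hno i hi h3.1) (not_lt.2 h3.2)
    have := hp i (i + 1) (by omega) (by omega)
    omega
  -- some index is close to the line
  have hex : ∃ i, i ≤ m ∧ dE c d Q E (p i) ≤ k := by
    by_contra hne
    push Not at hne
    have h6 := elec2_far F h (E := E) (p := p) (a := 0) (b := m) (Nat.zero_le _)
      (elec2_sub hp (Nat.zero_le _) le_rfl) (fun i _ hi => hne i hi)
    nlinarith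
  classical
  obtain ⟨i1, hi1m, hi1⟩ := hex
  have hex1 : ∃ i, dE c d Q E (p i) ≤ k := ⟨i1, hi1⟩
  have hex2 : ∃ i, dE c d Q E (p (m - i)) ≤ k := ⟨m - i1, by
    rw [show m - (m - i1) = i1 by omega]
    exact hi1⟩
  set i0 := Nat.find hex1 with hi0
  set j0 := Nat.find hex2 with hj0
  have hi0s : dE c d Q E (p i0) ≤ k := Nat.find_spec hex1
  have hj0s : dE c d Q E (p (m - j0)) ≤ k := Nat.find_spec hex2
  have hi0m : ∀ i, i < i0 → k < dE c d Q E (p i) := fun i hi => not_le.1 (Nat.find_min hex1 hi)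
  have hj0m : ∀ i, i < j0 → k < dE c d Q E (p (m - i)) :=
    fun i hi => not_le.1 (Nat.find_min hex2 hi)
  have hi0i : i0 ≤ i1 := Nat.find_min' hex1 hi1
  have hj0i : j0 ≤ m - i1 := Nat.find_min' hex2 (by
    rw [show m - (m - i1) = i1 by omega]
    exact hi1)
  set j1 := m - j0 with hj1
  have hij : i0 ≤ j1 := by omega
  have hlen : j1 ≤ i0 + (2 * k + 1) := by
    obtain ⟨⟨a, ha, ha'⟩, _, _⟩ := elec_dE F E (p i0)
    obtain ⟨⟨b, hb, hb'⟩, _, _⟩ := elec_dE F E (p j1)
    have h3 := elec_jmp F E a b ha hb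
    have h4 := hgh.tri (p i0) a (p j1)
    have h5 := hgh.tri a b (p j1)
    have h6 := hgh.symm b (p j1)
    have h7 := hp i0 j1 hij (by omega)
    omega
  -- the three parts
  have hA : |P E (p 0) - P E (p i0)| ≤ 6 * c + Δ := by
    rcases Nat.eq_zero_or_pos i0 with h0 | h0
    · rw [h0, sub_self, abs_zero]
      linarith
    · have h6 := elec2_far F h (E := E) (p := p) (a := 0) (b := i0 - 1) (Nat.zero_le _)
        (elec2_sub hp (Nat.zero_le _) (by omega)) (fun i _ hi => hi0m i (by omega))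
      have h7 := hstep (i0 - 1) (by omega)
      rw [show i0 - 1 + 1 = i0 by omega] at h7
      have h8 : |P E (p 0) - P E (p i0)| ≤ |P E (p 0) - P E (p (i0 - 1))| +
          |P E (p (i0 - 1)) - P E (p i0)| := by
        have : P E (p 0) - P E (p i0) = (P E (p 0) - P E (p (i0 - 1))) +
          (P E (p (i0 - 1)) - P E (p i0)) := by ring
        rw [this]
        exact abs_add_le _ _
      linarith
  have hC : |P E (p j1) - P E (p m)| ≤ 6 * c + Δ := by
    rcases Nat.eq_zero_or_pos j0 with h0 | h0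
    · rw [hj1, h0, Nat.sub_zero, sub_self, abs_zero]
      linarith
    · have h6 := elec2_far F h (E := E) (p := p) (a := j1 + 1) (b := m) (by omega)
        (elec2_sub hp (by omega) le_rfl) (fun i hi hi' => by
          have := hj0m (m - i) (by omega)
          rwa [show m - (m - i) = i by omega] at this)
      have h7 := hstep j1 (by omega)
      have h8 : |P E (p j1) - P E (p m)| ≤ |P E (p j1) - P E (p (j1 + 1))| +
          |P E (p (j1 + 1)) - P E (p m)| := by
        have : P E (p j1) - P E (p m) = (P E (p j1) - P E (p (j1 + 1))) +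
          (P E (p (j1 + 1)) - P E (p m)) := by ring
        rw [this]
        exact abs_add_le _ _
      linarith
  have hB : |P E (p i0) - P E (p j1)| ≤ (2 * k + 1) * Δ := by
    have h3 := elec2_steps (f := fun i => P E (p i)) (Δ := Δ) (a := i0) (b := j1) hij
      (fun i _ hi => hstep i (by omega))
    have h4 : ((j1 - i0 : ℕ) : ℤ) ≤ 2 * k + 1 := by omega
    exact h3.trans (mul_le_mul_of_nonneg_right h4 (by linarith))
  have h9 : |P E (p 0) - P E (p m)| ≤ |P E (p 0) - P E (p i0)| +
      |P E (p i0) - P E (p j1)| + |P E (p j1) - P E (p m)| := by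
    have : P E (p 0) - P E (p m) = (P E (p 0) - P E (p i0)) + (P E (p i0) - P E (p j1)) +
      (P E (p j1) - P E (p m)) := by ring
    rw [this]
    exact (abs_add_le _ _).trans (add_le_add_left (abs_add_le _ _) _)
  nlinarith

end ELEC

end Burn
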