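import Pool.Agent.Burn.Axl

set_option autoImplicit false

/-!
# Windmill argument: estimates at the first line
-/

namespace Burn

section WINDB
variable {G : Type} [Group G] {ι : Type} [MulAction G ι] {c Δ T0 : ℤ} {z : G} {d : G → G → ℕ}
  {P Q : ι → G → ℤ} {r : ι → G} {T : ι → ℤ} {x0 : G} {W : Set G} {H : Subgroup G} {Y : Set ι}

/-- A point of the line close to a point of `W`. -/
theorem windb_foot (F : Fam c Δ T0 z d P Q r T) {E : ι} {w : G} (hw : Q E w ≤ 3 * c) :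
    ∃ v, Q E v ≤ c ∧ ∀ E', |P E' w - P E' v| ≤ 6 * c := by
  obtain ⟨v, h1, _, h3⟩ := (F.axis E).axn F.base.geo w
  refine ⟨v, h1, fun E' => ?_⟩
  have h4 := (F.axis E').lipP w v
  linarith

/-- Points of `W` and close to the line `E'` have close projections to another line `E`. -/
theorem windb_line (F : Fam c Δ T0 z d P Q r T) (M : WM c Δ d P r T x0 W H Y) {E E' : ι} {x w : G}
    (hE : E ∈ SS c Q W Y) (hE' : E' ∈ SS c Q W Y) (hne : E' ≠ E) (hx : Q E' x ≤ 2 * c)
    (hw : w ∈ W) : |P E x - P E w| ≤ 5 * Δ + 66 * c := by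
  obtain ⟨hEY, _⟩ := hE
  obtain ⟨_, w', hw', hq'⟩ := hE'
  obtain ⟨v', hv', hp'⟩ := windb_foot F hq'
  have hc := F.hc
  have h1 := F.ov E E' x v' hne.symm (by linarith) (by linarith)
  have h2 := hp' E
  have h3 := M.prj E hEY w' hw' w hw
  rw [abs_le] at *
  constructor <;> linarith [h1.1, h1.2, h2.1, h2.2, h3.1, h3.2]

/-- Key step: a point which is rotated about the line `E'` is seen from `E` as `W`. -/
theorem windb_key (F : Fam c Δ T0 z d P Q r T) (hT : 100 * Δ + 2000 * c ≤ T0)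
    (M : WM c Δ d P r T x0 W H Y) {E E' : ι} {y : G} {k : ℤ} (hk : k ≠ 0)
    (hE : E ∈ SS c Q W Y) (hE' : E' ∈ SS c Q W Y) (hne : E' ≠ E)
    (hy : ∀ w ∈ W, |P E' y - P E' w| ≤ 5 * Δ + 75 * c) {w : G} (hw : w ∈ W) :
    |P E (r E' ^ k * y) - P E w| ≤ 5 * Δ + 75 * c := by
  obtain ⟨hEY, u, hu, hqu⟩ := hE
  obtain ⟨_, u', hu', hqu'⟩ := hE'
  obtain ⟨v, hv, hpv⟩ := windb_foot F hqu
  obtain ⟨v', hv', hpv'⟩ := windb_foot F hqu'
  have hc := F.hc
  have hΔ := F.hΔ
  rcases F.beh hne (x := r E' ^ k * y) (u := v) (v := v') (by linarith) (by linarith) with h | h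
  · exfalso
    have h1 := F.shz E' hk y
    have h2 := hpv E'
    have h3 := hy u hu
    have h4 := F.hT E'
    have h5 : |P E' (r E' ^ k * y) - P E' y| ≤ |P E' (r E' ^ k * y) - P E' v| +
        |P E' u - P E' v| + |P E' y - P E' u| := by
      have e : P E' (r E' ^ k * y) - P E' y = (P E' (r E' ^ k * y) - P E' v) -
        (P E' u - P E' v) - (P E' y - P E' u) := by ring
      rw [e]
      exact (abs_sub _ _).trans (add_le_add (abs_sub _ _) le_rfl)
    linarith
  · have h2 := hpv' E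
    have h3 := M.prj E hEY u' hu' w hw
    rw [abs_le] at *
    constructor <;> linarith [h.1, h.2, h2.1, h2.2, h3.1, h3.2]

/-- Points behind other lines have projections close to those of `W`. -/
theorem windb_pt (F : Fam c Δ T0 z d P Q r T) (hT : 100 * Δ + 2000 * c ≤ T0)
    (M : WM c Δ d P r T x0 W H Y) {E' : ι} {y : G} (hy : Pt (SS c Q W Y) r W (LL c Q) E' y) :
    ∀ E ∈ SS c Q W Y, E' ≠ E → ∀ w ∈ W, |P E y - P E w| ≤ 5 * Δ + 75 * c := by
  have hc := F.hc
  have hΔ := F.hΔ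
  induction hy with
  | on hE' hy =>
    intro E hE hne w hw
    have := windb_line F M hE hE' hne hy hw
    linarith
  | @rot E' k w0 hE' hk hw0 =>
    intro E hE hne w hw
    refine windb_key F hT M hk hE hE' hne (fun u hu => ?_) hw
    have := M.prj E' hE'.1 w0 hw0 u hu
    linarith
  | @step E' E'' k y hE' hk hne' _ ih =>
    intro E hE hne w hw
    exact windb_key F hT M hk hE hE' hne (fun u hu => ih E' hE' hne' u hu) hw

theorem wb_off (F : Fam c Δ T0 z d P Q r T) (hT : 100 * Δ + 2000 * c ≤ T0)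
    (M : WM c Δ d P r T x0 W H Y) {E : ι} {y w : G} (hE : E ∈ SS c Q W Y)
    (hy : y ∈ W ∨ ∃ E', E' ≠ E ∧ Pt (SS c Q W Y) r W (LL c Q) E' y) (hw : w ∈ W) :
    |P E y - P E w| ≤ 5 * Δ + 75 * c := by
  rcases hy with hy | ⟨E', hne, hy⟩
  · have := M.prj E hE.1 y hy w hw
    have hc := F.hc
    have hΔ := F.hΔ
    linarith
  · exact windb_pt F hT M hy E hE hne w hw

theorem wb_str (F : Fam c Δ T0 z d P Q r T) (hT : 100 * Δ + 2000 * c ≤ T0)
    (M : WM c Δ d P r T x0 W H Y) {E : ι} {y w : G} {k : ℤ} (hk : k ≠ 0)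
    (hE : E ∈ SS c Q W Y)
    (hy : y ∈ W ∨ ∃ E', E' ≠ E ∧ Pt (SS c Q W Y) r W (LL c Q) E' y) (hw : w ∈ W) :
    T E - (5 * Δ + 80 * c) ≤ |P E (r E ^ k * y) - P E w| := by
  have h1 := wb_off F hT M hE hy hw
  have h2 := F.shz E hk y
  have hc := F.hc
  have h3 : |P E (r E ^ k * y) - P E y| ≤ |P E (r E ^ k * y) - P E w| + |P E y - P E w| := by
    have e : P E (r E ^ k * y) - P E y = (P E (r E ^ k * y) - P E w) - (P E y - P E w) := by ring
    rw [e]
    exact abs_sub _ _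
  linarith

/-- points of `W` and of other lines. -/
theorem wb_bb (F : Fam c Δ T0 z d P Q r T) (M : WM c Δ d P r T x0 W H Y) {E : ι} {x w : G}
    (hE : E ∈ SS c Q W Y) (hx : x ∈ W ∨ ∃ E' ∈ SS c Q W Y, E' ≠ E ∧ Q E' x ≤ 2 * c) (hw : w ∈ W) :
    |P E x - P E w| ≤ 5 * Δ + 75 * c := by
  have hc := F.hc
  have hΔ := F.hΔ
  rcases hx with hx | ⟨E', hE', hne, hx⟩
  · have := M.prj E hE.1 x hx w hw
    linarith
  · have := windb_line F M hE hE' hne hx hw
    linarith

end WINDB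

end Burn
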