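import Pool.Agent.Burn.WindA
import Pool.Agent.Burn.WindB

set_option autoImplicit false

/-!
# Windmill argument: projections to the other lines
-/

namespace Burn

section WINDD
variable {G : Type} [Group G] {ι : Type} [MulAction G ι] {c Δ T0 : ℤ} {z : G} {d : G → G → ℕ}
  {P Q : ι → G → ℤ} {r : ι → G} {T : ι → ℤ} {x0 : G} {W : Set G} {H : Subgroup G} {Y : Set ι}

theorem windd_RB (F : Fam c Δ T0 z d P Q r T) {E : ι} {x y : G} {l l' : ℤ}
    (h : |P E x - P E y| ≤ l) (hl : l + c ≤ l') : RB P l' E x y := by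
  intro a
  have h1 := abs_le.1 (F.eqP a E x y)
  have h2 := abs_le.1 h
  rw [abs_le]
  constructor <;> linarith [h1.1, h1.2, h2.1, h2.2]

theorem windd_inv {l : ℤ} {g : G} {E : ι} {x y : G} (h : RB P l (g • E) (g * x) (g * y)) :
    RB P l E x y := by
  intro a
  have h1 := h (a * g⁻¹)
  have e : ∀ w : G, a * g⁻¹ * (g * w) = a * w := fun w => by group
  rw [smul_smul, inv_mul_cancel_right, e, e] at h1
  exact h1

theorem windd_mono {l l' : ℤ} (hl : l ≤ l') {E : ι} {x y : G} (h : RB P l E x y) :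
    RB P l' E x y := fun a => (h a).trans hl

theorem windd_near (F : Fam c Δ T0 z d P Q r T) {F' : ι} (h2 : F' ∉ SS c Q W Y) {y : G}
    (hy : y ∈ BB c Q W (SS c Q W Y)) : ∃ w ∈ W, |P F' y - P F' w| ≤ Δ + 6 * c := by
  have hc := F.hc
  have hΔ := F.hΔ
  rcases hy with hy | ⟨E, hE, hy⟩
  · refine ⟨y, hy, ?_⟩
    rw [sub_self, abs_zero]
    linarith
  · have hne : F' ≠ E := fun h => h2 (h ▸ hE)
    obtain ⟨-, w, hw, hq⟩ := hE
    obtain ⟨v, hv, hp⟩ := windb_foot F hq
    refine ⟨w, hw, ?_⟩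
    have h3 := abs_le.1 (F.ov F' E y v hne (by linarith) (by linarith))
    have h4 := abs_le.1 (hp F')
    rw [abs_le]
    constructor <;> linarith [h3.1, h3.2, h4.1, h4.2]

theorem wd_base (F : Fam c Δ T0 z d P Q r T) (M : WM c Δ d P r T x0 W H Y) {F' : ι}
    (h1 : F' ∉ Y) (h2 : F' ∉ SS c Q W Y) {x y : G}
    (hx : x ∈ BB c Q W (SS c Q W Y)) (hy : y ∈ BB c Q W (SS c Q W Y)) :
    |P F' x - P F' y| ≤ 2 * Δ + 18 * c := by
  have hc := F.hc
  have hΔ := F.hΔ
  have key : ∀ x ∈ W, ∀ y ∈ W, |P F' x - P F' y| ≤ 6 * c := by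
    intro x hx y hy
    by_contra hcon
    push Not at hcon
    obtain ⟨p, m, hp, e1, e2, hm⟩ := M.wq x hx y hy
    have e3 := (F.axis F').axl_P_zero e1
    have e4 := (F.axis F').axl_P_zero e2
    rw [e3, ← e4] at hcon
    obtain ⟨i, hi, h3, -⟩ := (F.axis F').axu_path F.base.geo (by linarith) hp hcon.le
    obtain ⟨w, hw, h4⟩ := hm i hi
    apply h2
    refine ⟨h1, w, hw, ?_⟩
    have h5 := abs_le.1 ((F.axis F').lipQ (p i) w)
    have h6 : (d (p i) w : ℤ) ≤ 12 := by exact_mod_cast h4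
    linarith [h5.1]
  obtain ⟨w, hw, h3⟩ := windd_near F h2 hx
  obtain ⟨w', hw', h4⟩ := windd_near F h2 hy
  have h5 := key w hw w' hw'
  rw [abs_le] at *
  constructor <;> linarith [h3.1, h3.2, h4.1, h4.2, h5.1, h5.2]

theorem windd_dich (F : Fam c Δ T0 z d P Q r T) (hT : 100 * Δ + 2000 * c ≤ T0)
    (M : WM c Δ d P r T x0 W H Y) {E F' : ι} (hne : E ≠ F') {x y : G}
    (hx : ∀ w ∈ W, |P E x - P E w| ≤ 5 * Δ + 75 * c)
    (hy : ∀ w ∈ W, T E - (5 * Δ + 80 * c) ≤ |P E y - P E w|) :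
    (∀ v, Q E v ≤ 2 * c → |P F' y - P F' v| ≤ Δ + 6 * c) ∨
      (∀ v, Q E v ≤ 2 * c → |P F' x - P F' v| ≤ Δ + 6 * c) := by
  have hc := F.hc
  have hΔ := F.hΔ
  have hTE := F.hT E
  obtain ⟨u, hu, -⟩ := (F.axis F').proj x0
  by_cases h : |P E y - P E u| ≤ Δ + 6 * c
  · right
    intro v hv
    rcases F.beh hne (x := x) (u := u) (v := v) (by linarith) hv with h1 | h1
    · exfalso
      have h2 := hy x0 M.base
      have h3 := abs_le.1 (hx x0 M.base)
      have h4 := abs_le.1 h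
      have h5 := abs_le.1 h1
      have h6 : |P E y - P E x0| ≤ 7 * Δ + 87 * c := by
        rw [abs_le]
        constructor <;> linarith [h3.1, h3.2, h4.1, h4.2, h5.1, h5.2]
      linarith
    · exact h1
  · left
    intro v hv
    rcases F.beh hne (x := y) (u := u) (v := v) (by linarith) hv with h1 | h1
    · exact absurd h1 h
    · exact h1

/-- the lines which are far from all translates of `W` and of the new lines -/
def WGood (c : ℤ) (Q : ι → G → ℤ) (r : ι → G) (W : Set G) (H : Subgroup G) (Y : Set ι)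
    (F' : ι) : Prop :=
  ∀ h ∈ HH r H (SS c Q W Y), h • F' ∉ Y ∧ h • F' ∉ SS c Q W Y

theorem WGood.smul {F' : ι} (h : WGood c Q r W H Y F') {g : G} (hg : g ∈ HH r H (SS c Q W Y)) :
    WGood c Q r W H Y (g • F') := by
  intro h' hh'
  rw [smul_smul]
  exact h _ (Subgroup.mul_mem _ hh' hg)

theorem WGood.self {F' : ι} (h : WGood c Q r W H Y F') : F' ∉ Y ∧ F' ∉ SS c Q W Y := by
  have := h 1 (Subgroup.one_mem _)
  rwa [one_smul] at this

theorem WGood.ne {F' E : ι} (h : WGood c Q r W H Y F') (hE : E ∈ SS c Q W Y) : E ≠ F' :=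
  fun he => h.self.2 (he ▸ hE)

theorem windd_rbk {k : ℤ} {g y : G} : g ^ k * (g ^ (-k) * y) = y := by
  rw [zpow_neg, mul_inv_cancel_left]

/-- comparison of the projections to `F'` and to its translate. -/
theorem windd_tr (F : Fam c Δ T0 z d P Q r T) {E F' : ι} {k : ℤ} {x y : G} {l l' : ℤ}
    (h : |P (r E ^ (-k) • F') x - P (r E ^ (-k) • F') y| ≤ l) (hl : l + c ≤ l') :
    |P F' (r E ^ k * x) - P F' (r E ^ k * y)| ≤ l' := by
  have h1 := windd_RB F h hl (r E ^ k)
  rwa [smul_smul, ← zpow_add, add_neg_cancel, zpow_zero, one_smul] at h1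

/-- claim D -/
theorem windd_claim (F : Fam c Δ T0 z d P Q r T) (hT : 100 * Δ + 2000 * c ≤ T0)
    (M : WM c Δ d P r T x0 W H Y) {E : ι} {y : G} (hy : Pt (SS c Q W Y) r W (LL c Q) E y) :
    ∀ x : G, (∀ w ∈ W, |P E x - P E w| ≤ 5 * Δ + 75 * c) → ∀ F' : ι, WGood c Q r W H Y F' →
      (∀ v, Q E v ≤ 2 * c → |P F' y - P F' v| ≤ Δ + 6 * c) ∨ RB P (4 * Δ + 33 * c) F' x y := by
  have hc := F.hc
  have hΔ := F.hΔ
  induction hy with
  | @on E y hE hyE =>
    intro x _ F' hF'
    left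
    intro v hv
    have h1 : Q E y ≤ 2 * c := hyE
    have := F.ov F' E y v (hF'.ne hE).symm (by linarith) (by linarith)
    linarith
  | @rot E k w0 hE hk hw0 =>
    intro x hx F' hF'
    rcases windd_dich F hT M (hF'.ne hE) hx
      (fun w hw => wb_str F hT M hk hE (Or.inl hw0) hw) with h1 | h1
    · exact Or.inl h1
    · right
      obtain ⟨v, hv, -⟩ := (F.axis E).proj x0
      have hvk : Q E (r E ^ (-k) * v) ≤ 2 * c := by
        rw [windA_Qr F]; linarith
      have hG := (hF'.smul (windA_rot_mem hE (-k))).self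
      have h2 := wd_base F M hG.1 hG.2 (x := w0) (y := r E ^ (-k) * v) (Or.inl hw0)
        (Or.inr ⟨E, hE, hvk⟩)
      have h3 := abs_le.1 (windd_tr F h2 (l' := 2 * Δ + 19 * c) (by linarith))
      rw [windd_rbk] at h3
      have h4 := abs_le.1 (h1 v (by linarith))
      refine windd_RB F (l := 3 * Δ + 25 * c) ?_ (by linarith)
      rw [abs_le]
      constructor <;> linarith [h3.1, h3.2, h4.1, h4.2]
  | @step E E2 k y' hE hk hne hy' ih =>
    intro x hx F' hF'
    have hE2 : E2 ∈ SS c Q W Y := by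
      cases hy' with
      | on h _ => exact h
      | rot h _ _ => exact h
      | step h _ _ _ => exact h
    rcases windd_dich F hT M (hF'.ne hE) hx
      (fun w hw => wb_str F hT M hk hE (Or.inr ⟨E2, hne, hy'⟩) hw) with h1 | h1
    · exact Or.inl h1
    · right
      have hG := hF'.smul (windA_rot_mem hE (-k))
      have hx' : ∀ w ∈ W, |P E2 (r E ^ (-k) * x) - P E2 w| ≤ 5 * Δ + 75 * c := fun w hw =>
        windb_key F hT M (by omega) hE2 hE hne.symm hx hw
      rcases ih (r E ^ (-k) * x) hx' (r E ^ (-k) • F') hG with h2 | h2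
      · obtain ⟨v, hv, -⟩ := (F.axis E).proj x0
        obtain ⟨v2, hv2, -⟩ := (F.axis E2).proj x0
        have hvk : Q E (r E ^ (-k) * v) ≤ 2 * c := by
          rw [windA_Qr F]; linarith
        have h3 := wd_base F M hG.self.1 hG.self.2 (x := r E ^ (-k) * v) (y := v2)
          (Or.inr ⟨E, hE, hvk⟩) (Or.inr ⟨E2, hE2, by linarith⟩)
        have h4 := abs_le.1 (windd_tr F h3 (l' := 2 * Δ + 19 * c) (by linarith))
        rw [windd_rbk] at h4
        have h5 := abs_le.1 (windd_tr F (h2 v2 (by linarith)) (l' := Δ + 7 * c) (by linarith))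
        have h6 := abs_le.1 (h1 v (by linarith))
        refine windd_RB F (l := 4 * Δ + 32 * c) ?_ (by linarith)
        rw [abs_le]
        constructor <;> linarith [h4.1, h4.2, h5.1, h5.2, h6.1, h6.2]
      · apply windd_inv (g := r E ^ (-k))
        have e : r E ^ (-k) * (r E ^ k * y') = y' := by
          rw [zpow_neg, inv_mul_cancel_left]
        rwa [e]

theorem windd_pt (F : Fam c Δ T0 z d P Q r T) (hT : 100 * Δ + 2000 * c ≤ T0)
    (M : WM c Δ d P r T x0 W H Y) {E : ι} {y : G} (hy : Pt (SS c Q W Y) r W (LL c Q) E y) :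
    ∀ x ∈ BB c Q W (SS c Q W Y), ∀ F' : ι, WGood c Q r W H Y F' →
      RB P (4 * Δ + 36 * c) F' x y := by
  have hc := F.hc
  have hΔ := F.hΔ
  -- the common part
  have main : ∀ {E : ι} {y : G}, Pt (SS c Q W Y) r W (LL c Q) E y → E ∈ SS c Q W Y →
      ∀ x ∈ BB c Q W (SS c Q W Y), ∀ F' : ι, WGood c Q r W H Y F' → ¬ Q E x ≤ 2 * c →
        RB P (4 * Δ + 36 * c) F' x y := by
    intro E y hy hE x hx F' hF' hq
    have hx1 : x ∈ W ∨ ∃ E' ∈ SS c Q W Y, E' ≠ E ∧ Q E' x ≤ 2 * c := by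
      rcases hx with hx | ⟨E', hE', hx⟩
      · exact Or.inl hx
      · refine Or.inr ⟨E', hE', ?_, hx⟩
        rintro rfl
        exact hq hx
    rcases windd_claim F hT M hy x (fun w hw => wb_bb F M hE hx1 hw) F' hF' with h1 | h1
    · obtain ⟨v, hv, -⟩ := (F.axis E).proj x0
      have h2 := abs_le.1 (wd_base F M hF'.self.1 hF'.self.2 hx
        (Or.inr ⟨E, hE, show Q E v ≤ 2 * c by linarith⟩))
      have h3 := abs_le.1 (h1 v (by linarith))
      refine windd_RB F (l := 3 * Δ + 24 * c) ?_ (by linarith)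
      rw [abs_le]
      constructor <;> linarith [h2.1, h2.2, h3.1, h3.2]
    · exact windd_mono (by linarith) h1
  induction hy with
  | @on E y hE hyE =>
    intro x hx F' hF'
    exact windd_RB F (wd_base F M hF'.self.1 hF'.self.2 hx (Or.inr ⟨E, hE, hyE⟩)) (by linarith)
  | @rot E k w0 hE hk hw0 =>
    intro x hx F' hF'
    by_cases hq : Q E x ≤ 2 * c
    · have hG := hF'.smul (windA_rot_mem hE (-k))
      apply windd_inv (g := r E ^ (-k))
      have e : r E ^ (-k) * (r E ^ k * w0) = w0 := by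
        rw [zpow_neg, inv_mul_cancel_left]
      rw [e]
      refine windd_RB F (wd_base F M hG.self.1 hG.self.2 (Or.inr ⟨E, hE, ?_⟩) (Or.inl hw0))
        (by linarith)
      rw [windA_Qr F]
      exact hq
    · exact main (Pt.rot hE hk hw0) hE x hx F' hF' hq
  | @step E E2 k y' hE hk hne hy' ih =>
    intro x hx F' hF'
    by_cases hq : Q E x ≤ 2 * c
    · have hG := hF'.smul (windA_rot_mem hE (-k))
      apply windd_inv (g := r E ^ (-k))
      have e : r E ^ (-k) * (r E ^ k * y') = y' := by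
        rw [zpow_neg, inv_mul_cancel_left]
      rw [e]
      refine ih _ (Or.inr ⟨E, hE, ?_⟩) _ hG
      rw [windA_Qr F]
      exact hq
    · exact main (Pt.step hE hk hne hy') hE x hx F' hF' hq

theorem wd_zz (F : Fam c Δ T0 z d P Q r T) (hT : 100 * Δ + 2000 * c ≤ T0)
    (M : WM c Δ d P r T x0 W H Y) {F' : ι}
    (h1 : ∀ h ∈ HH r H (SS c Q W Y), h • F' ∉ Y ∧ h • F' ∉ SS c Q W Y) {x y : G}
    (hx : x ∈ ZZ c Q r W (SS c Q W Y)) (hy : y ∈ ZZ c Q r W (SS c Q W Y)) :
    RB P (4 * Δ + 36 * c) F' x y := by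
  have hc := F.hc
  have hΔ := F.hΔ
  have hG : WGood c Q r W H Y F' := h1
  obtain ⟨h, hh, hx'⟩ := zz_red F M hx
  have hy' := zz_inv F M hh hy
  apply windd_inv (g := h)
  have hG' := hG.smul hh
  rcases hy' with hy' | ⟨E, hy'⟩
  · exact windd_RB F (wd_base F M hG'.self.1 hG'.self.2 hx' (Or.inl hy')) (by linarith)
  · exact windd_pt F hT M hy' _ hx' _ hG'

end WINDD

end Burn
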