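import Pool.Agent.Burn.WindC
import Pool.Agent.Burn.WindD

set_option autoImplicit false

/-!
# Windmill argument: the step and the theorem
-/

namespace Burn

section WINDE
variable {G : Type} [Group G] {ι : Type} [MulAction G ι] {c Δ T0 : ℤ} {z : G} {d : G → G → ℕ}
  {P Q : ι → G → ℤ} {r : ι → G} {T : ι → ℤ} {x0 : G} {W : Set G} {H : Subgroup G} {Y : Set ι}

theorem winde_gr (F : Fam c Δ T0 z d P Q r T) (hT : 100 * Δ + 2000 * c ≤ T0)
    (M : WM c Δ d P r T x0 W H Y) {E : ι} {y : G}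
    (hy : Pt (SS c Q W Y) r W (fun _ => (∅ : Set G)) E y) :
    T E - (5 * Δ + 80 * c) ≤ |P E y - P E x0| := by
  cases hy with
  | on _ h => exact h.elim
  | rot h1 h2 h3 => exact wb_str F hT M h2 h1 (Or.inl h3) M.base
  | @step _ E' k y' h1 h2 h3 h4 =>
    exact wb_str F hT M h2 h1 (Or.inr ⟨E', h3, h4.mono (fun _ => Set.empty_subset _)⟩) M.base

theorem wm_step (F : Fam c Δ T0 z d P Q r T) (hT : 100 * Δ + 2000 * c ≤ T0)
    (M : WM c Δ d P r T x0 W H Y) :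
    ∃ (W' : Set G) (H' : Subgroup G) (Y' : Set ι), WM c Δ d P r T x0 W' H' Y' ∧
      (∀ w ∈ W, ∀ x, d x w ≤ 1 → x ∈ W') ∧ (∀ E, (∃ w ∈ W, Q E w ≤ 3 * c) → E ∈ Y') ∧
      Y ⊆ Y' := by
  have hc := F.hc
  have hΔ := F.hΔ
  have hW : ∀ w ∈ W, w ∈ ZZ c Q r W (SS c Q W Y) := fun w hw => Or.inl hw
  refine ⟨{v | ∃ w ∈ ZZ c Q r W (SS c Q W Y), (d v w : ℤ) ≤ 5 * c + 30}, HH r H (SS c Q W Y),
    {E | ∃ h ∈ HH r H (SS c Q W Y), h • E ∈ Y ∨ h • E ∈ SS c Q W Y}, ?_, ?_, ?_, ?_⟩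
  · constructor
    · refine ⟨x0, hW _ M.base, ?_⟩
      rw [F.base.geo.refl]
      push_cast
      linarith
    · rintro h hh v ⟨w, hw, h1⟩
      refine ⟨h * w, zz_inv F M hh hw, ?_⟩
      rwa [F.base.left]
    · rintro h hh E ⟨h', hh', h1⟩
      refine ⟨h' * h⁻¹, Subgroup.mul_mem _ hh' (Subgroup.inv_mem _ hh), ?_⟩
      rwa [smul_smul, inv_mul_cancel_right]
    · rintro E ⟨h, hh, h1⟩
      have h2 : r (h • E) ∈ HH r H (SS c Q W Y) := by
        rcases h1 with h1 | h1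
        · exact (le_sup_left : H ≤ HH r H (SS c Q W Y)) (M.rot _ h1)
        · have := windA_rot_mem (r := r) (H := H) h1 1
          rwa [zpow_one] at this
      rw [F.rconj] at h2
      have h3 := Subgroup.mul_mem _ (Subgroup.mul_mem _ (Subgroup.inv_mem _ hh) h2) hh
      have e : h⁻¹ * (h * r E * h⁻¹) * h = r E := by group
      rwa [e] at h3
    · rintro x hx y hy
      obtain ⟨p, m, hp, e1, e2, h1⟩ := wc_nbhd F.base (l := 5 * c) (m := 5 * c + 30) (by linarith)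
        le_rfl (fun x hx y hy => wc_zz F hT M hx hy) hx hy
      refine ⟨p, m, hp, e1, e2, fun i hi => ?_⟩
      obtain ⟨w, hw, h2⟩ := h1 i hi
      exact ⟨w, hw, by exact_mod_cast h2⟩
    · rintro E hE x ⟨w, hw, h1⟩ y ⟨w', hw', h2⟩
      have h3 := wd_zz F hT M (F' := E) (fun h hh => by
        constructor
        · exact fun h4 => hE ⟨h, hh, Or.inl h4⟩
        · exact fun h4 => hE ⟨h, hh, Or.inr h4⟩) hw hw' 1
      rw [one_smul, one_mul, one_mul] at h3
      have h4 := abs_le.1 h3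
      have h5 := abs_le.1 ((F.axis E).lipP x w)
      have h6 := abs_le.1 ((F.axis E).lipP y w')
      rw [abs_le]
      constructor <;> linarith [h4.1, h4.2, h5.1, h5.2, h6.1, h6.2]
    · intro k hk hk1
      rcases hh_form F M hk with h1 | ⟨E, h1⟩
      · exact M.gr k h1 hk1
      · refine ⟨E, ?_⟩
        have h2 := winde_gr F hT M (pt_orbit M h1 M.base)
        rw [abs_sub_comm]
        linarith
  · intro w hw x hx
    refine ⟨w, hW w hw, ?_⟩
    have : (d x w : ℤ) ≤ 1 := by exact_mod_cast hx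
    linarith
  · rintro E ⟨w, hw, h1⟩
    refine ⟨1, Subgroup.one_mem _, ?_⟩
    rw [one_smul]
    by_cases hE : E ∈ Y
    · exact Or.inl hE
    · exact Or.inr ⟨hE, w, hw, h1⟩
  · intro E hE
    exact ⟨1, Subgroup.one_mem _, by rw [one_smul]; exact Or.inl hE⟩

theorem winde_start (F : Fam c Δ T0 z d P Q r T) (x0 : G) :
    WM c Δ d P r T x0 {x | d x0 x = 0} ⊥ ∅ := by
  have hc := F.hc
  have hΔ := F.hΔ
  constructor
  · exact F.base.geo.refl x0
  · intro h hh w hw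
    rw [Subgroup.mem_bot] at hh
    rw [hh, one_mul]
    exact hw
  · rintro h _ E ⟨⟩
  · rintro E ⟨⟩
  · intro x hx y hy
    refine ⟨fun _ => x0, 0, ?_, ?_, hy, fun i _ => ⟨x0, F.base.geo.refl x0, ?_⟩⟩
    · intro i j hij hj
      have := F.base.geo.refl x0
      change d x0 x0 = j - i
      omega
    · rw [F.base.geo.symm]
      exact hx
    · rw [F.base.geo.refl]
      omega
  · intro E _ x hx y hy
    have h1 := (F.axis E).axl_P_zero hx
    have h2 := (F.axis E).axl_P_zero hy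
    rw [← h1, ← h2, sub_self, abs_zero]
    linarith
  · intro k hk hk1
    exact absurd (Subgroup.mem_bot.1 hk) hk1

theorem winde_ball (F : Fam c Δ T0 z d P Q r T) (hT : 100 * Δ + 2000 * c ≤ T0) (x0 : G) (m : ℕ) :
    ∃ (W : Set G) (H : Subgroup G) (Y : Set ι), WM c Δ d P r T x0 W H Y ∧
      ∀ x, d x0 x ≤ m → x ∈ W := by
  induction m with
  | zero =>
    exact ⟨_, _, _, winde_start F x0, fun x hx => Nat.le_zero.1 hx⟩
  | succ m ih =>
    obtain ⟨W, H, Y, M, h1⟩ := ih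
    obtain ⟨W', H', Y', M', h2, -, -⟩ := wm_step F hT M
    refine ⟨W', H', Y', M', fun x hx => ?_⟩
    by_cases h3 : d x0 x ≤ m
    · exact h2 x (h1 x h3) x (by rw [F.base.geo.refl]; omega)
    · obtain ⟨w, h4, h5⟩ := F.base.geo.mid x0 x m 1 (by omega)
      refine h2 w (h1 w (by omega)) x ?_
      rw [F.base.geo.symm]
      omega

theorem wind (F : Fam c Δ T0 z d P Q r T) (hT : 100 * Δ + 2000 * c ≤ T0) :
    Green (12 * Δ + 200 * c) P r T := by
  intro k hk hk1 x0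
  have hc := F.hc
  have claimA : ∀ m : ℕ, ∃ (W : Set G) (H : Subgroup G) (Y : Set ι), WM c Δ d P r T x0 W H Y ∧
      ∀ E, (∃ a, d x0 a ≤ m ∧ Q E a ≤ 3 * c) → E ∈ Y := by
    intro m
    obtain ⟨W, H, Y, M, h1⟩ := winde_ball F hT x0 m
    obtain ⟨W', H', Y', M', -, h2, -⟩ := wm_step F hT M
    exact ⟨W', H', Y', M', fun E ⟨a, ha, hq⟩ => h2 E ⟨a, h1 a ha, hq⟩⟩
  have claimB : ∀ k ∈ Subgroup.closure (Set.range r), ∃ m : ℕ, ∀ (W : Set G) (H : Subgroup G)
      (Y : Set ι), WM c Δ d P r T x0 W H Y → (∀ E, (∃ a, d x0 a ≤ m ∧ Q E a ≤ 3 * c) → E ∈ Y) →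
        k ∈ H := by
    intro k hk
    induction hk using Subgroup.closure_induction with
    | mem k hk =>
      obtain ⟨E, rfl⟩ := hk
      obtain ⟨a, ha, -⟩ := (F.axis E).proj x0
      exact ⟨d x0 a, fun W H Y M h1 => M.rot E (h1 E ⟨a, le_rfl, by linarith⟩)⟩
    | one => exact ⟨0, fun W H Y _ _ => H.one_mem⟩
    | mul a b ha hb iha ihb =>
      obtain ⟨m1, h1⟩ := iha
      obtain ⟨m2, h2⟩ := ihb
      refine ⟨max m1 m2, fun W H Y M h3 => H.mul_mem (h1 W H Y M fun E ⟨a, h4, h5⟩ => ?_)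
        (h2 W H Y M fun E ⟨a, h4, h5⟩ => ?_)⟩
      · exact h3 E ⟨a, h4.trans (le_max_left _ _), h5⟩
      · exact h3 E ⟨a, h4.trans (le_max_right _ _), h5⟩
    | inv a ha iha =>
      obtain ⟨m1, h1⟩ := iha
      exact ⟨m1, fun W H Y M h3 => H.inv_mem (h1 W H Y M h3)⟩
  obtain ⟨m, h1⟩ := claimB k hk
  obtain ⟨W, H, Y, M, h2⟩ := claimA m
  exact M.gr k (h1 W H Y M h2) hk1

end WINDE

end Burn
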