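import Pool.Agent.Burn.Guess
import Pool.Agent.Burn.WindE
import Pool.Agent.Burn.Elec2

set_option autoImplicit false

/-!
# The environment of the main step
-/

namespace Burn

theorem env_exists : ∃ k : ℕ, ∀ (G : Type) [Group G] (ι : Type) [MulAction G ι] (n κ L : ℕ)
    (Δ T0 : ℤ) (z : G) (d : G → G → ℕ) (P Q : ι → G → ℤ) (r : ι → G) (T : ι → ℤ) (γ : ι → G),
    FamL n κ L 1000 Δ T0 z d P Q r T γ → 1000 * ((2 * k + 300) * Δ) ≤ T0 →
    Env n κ L k 1000 Δ T0 ((2 * k + 300) * Δ) z d P Q r T γ := by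
  obtain ⟨k, hk⟩ := guess 6 5001
  refine ⟨k, ?_⟩
  intro G _ ι _ n κ L Δ T0 z d P Q r T γ FL hT
  have F := FL.fam
  have hΔ := F.hΔ
  have hg := F.base.geo
  have h1 : 0 ≤ (k : ℤ) * Δ := by positivity
  have hkΔ : (2 * (k : ℤ) + 300) * Δ = 2 * (k * Δ) + 300 * Δ := by ring
  obtain ⟨hfel, hsl⟩ := hk G d (dh 1000 d Q) hg (elec_geo F) (hyp_slim hg F.base.hyp)
    (elec_le F) (by
      intro x y u hxy hb
      have := elec_guess F hxy hb
      norm_num at this
      exact_mod_cast this)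
  have hk4 : (2 * (k : ℤ) + 4) * Δ + 12 * 1000 ≤ (2 * (k : ℤ) + 300) * Δ := by nlinarith
  refine ⟨FL, elec_geo F, elec_left F, elec_le F, elec_jmp F, hfel, hsl, ?_, ?_, ?_,
    elec_farc F hfel, by nlinarith, hT⟩
  · intro κ' hκ hne x
    obtain ⟨E, hE⟩ := wind F (by nlinarith) κ' hκ hne x
    exact ⟨E, by nlinarith⟩
  · intro E p m hp hm
    exact elec_pass F hfel E p m hp (by linarith)
  · intro E p m j hp hj h1 h2
    obtain ⟨h3, h4⟩ := elec_jump F hfel E p m j hp hj h1 h2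
    exact ⟨by linarith, by linarith⟩

end Burn
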