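import Pool.Agent.Burn.Defs

set_option autoImplicit false

/-!
# The base group
-/

namespace Burn

/-- the group of the start: a free group of rank two times an infinite cyclic group. -/
abbrev FZ : Type := FreeGroup (Fin 2) × Multiplicative ℤ

/-- the central element. -/
def z0 : FZ := (1, Multiplicative.ofAdd (1 : ℤ))

/-- the pseudo-metric which forgets the second factor. -/
def d0 (x y : FZ) : ℕ := (x.1⁻¹ * y.1).norm

/-- a commutator in the base group. -/
def w0 : FZ := ((FreeGroup.of 0) * (FreeGroup.of 1) * (FreeGroup.of 0)⁻¹ * (FreeGroup.of 1)⁻¹, 1)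

end Burn
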