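import Pool.Agent.Burn.WDefs
import Pool.Agent.Burn.Tau
import Pool.Agent.Burn.Axis

set_option autoImplicit false

/-!
# Local data for the centraliser of a loxodromic element
-/

namespace Burn

section
variable {G : Type} [Group G] {d : G → G → ℕ} {z : G}

/-- position in the other direction. -/
lemma loc_neg {c : ℤ} {g : G} {P Q : G → ℤ} (h : AxisOf d c g P Q) :
    AxisOf d c g (fun x => - P x) Q where
  axis :=
    { nonneg := h.axis.nonneg
      up := fun x y => by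
        have h1 := h.axis.up x y
        have e : |(-P x) - (-P y)| = |P x - P y| := by
          rw [show (-P x) - (-P y) = -(P x - P y) by ring, abs_neg]
        rw [e]
        exact h1
      low := fun x y h0 => by
        have e : |(-P x) - (-P y)| = |P x - P y| := by
          rw [show (-P x) - (-P y) = -(P x - P y) by ring, abs_neg]
        rw [e] at h0 ⊢
        exact h.axis.low x y h0
      lipP := fun x y => by
        have e : |(-P x) - (-P y)| = |P x - P y| := by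
          rw [show (-P x) - (-P y) = -(P x - P y) by ring, abs_neg]
        rw [e]
        exact h.axis.lipP x y
      lipQ := h.axis.lipQ
      proj := fun x => by
        obtain ⟨a, h1, h2⟩ := h.axis.proj x
        refine ⟨a, h1, ?_⟩
        have e : |(-P a) - (-P x)| = |P a - P x| := by
          rw [show (-P a) - (-P x) = -(P a - P x) by ring, abs_neg]
        rw [e]
        exact h2 }
  sh := fun k hk => by
    obtain ⟨t, ht⟩ := h.sh k hk
    refine ⟨-t, fun m x => ?_⟩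
    have h1 := ht m x
    have e : |((-P (k ^ m * x) : ℤ) : ℝ) - ((-P x : ℤ) : ℝ) - m * (-t)| =
        |(P (k ^ m * x) : ℝ) - P x - m * t| := by
      push_cast
      rw [show -(P (k ^ m * x) : ℝ) - -(P x : ℝ) - m * (-t) =
        -((P (k ^ m * x) : ℝ) - P x - m * t) by ring, abs_neg]
    rw [e]
    exact h1
  ht := h.ht

/-- the axis of a loxodromic element, oriented such that the element has positive shift. -/
lemma loc_pos {n κ D : ℕ} (hlev : Level n κ D 50 z d) {γ : G} (hγ : Lox d κ γ) :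
    ∃ (P Q : G → ℤ) (t : ℝ), AxisOf d 150 γ P Q ∧ Sh P 150 γ t ∧ 0 < t ∧ 2 ≤ κ * t := by
  have hB := hlev.base
  obtain ⟨P, Q, hA⟩ := exists_axis hB (by norm_num) hγ
  have hA' : AxisOf d 150 γ P Q := by
    have e : (50 * ((3 : ℕ) : ℤ)) = 150 := by norm_num
    rwa [e] at hA
  have hb : Bdd d γ γ := bdd_of_comm hB (m := 1) (j := 0) one_pos (by simp)
  obtain ⟨t, ht⟩ := hA'.sh γ hb
  have h2 := sh_lox hB hA' hγ hb ht
  have ht0 : t ≠ 0 := by
    rintro rfl
    rw [abs_zero, mul_zero] at h2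
    linarith
  rcases lt_or_gt_of_ne ht0 with h0 | h0
  · have hN := loc_neg hA'
    refine ⟨_, Q, -t, hN, ?_, by linarith, ?_⟩
    · intro m x
      have h1 := ht m x
      have e : |((-P (γ ^ m * x) : ℤ) : ℝ) - ((-P x : ℤ) : ℝ) - m * (-t)| =
          |(P (γ ^ m * x) : ℝ) - P x - m * t| := by
        push_cast
        rw [show -(P (γ ^ m * x) : ℝ) - -(P x : ℝ) - m * (-t) =
          -((P (γ ^ m * x) : ℝ) - P x - m * t) by ring, abs_neg]
      rw [e]
      exact h1
    · rwa [abs_of_neg h0] at h2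
  · refine ⟨P, Q, t, hA', ht, h0, ?_⟩
    rwa [abs_of_pos h0] at h2

/-- heights of the translates by the centraliser. -/
def locS (γ : G) (Q : G → ℤ) (x : G) : Set ℤ := {v | ∃ e, γ * e = e * γ ∧ Q (e * x) = v}

lemma locS_mem {γ : G} {Q : G → ℤ} (h0 : ∀ x, 0 ≤ Q x) (x : G) :
    sInf (locS γ Q x) ∈ locS γ Q x := by
  refine Int.csInf_mem ⟨Q (1 * x), 1, by simp, rfl⟩ ⟨0, ?_⟩
  rintro v ⟨e, _, rfl⟩
  exact h0 _

lemma locS_le {γ : G} {Q : G → ℤ} (h0 : ∀ x, 0 ≤ Q x) {x e : G} (he : γ * e = e * γ) :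
    sInf (locS γ Q x) ≤ Q (e * x) := by
  refine csInf_le ⟨0, ?_⟩ ⟨e, he, rfl⟩
  rintro v ⟨e, _, rfl⟩
  exact h0 _

lemma locS_inv {γ : G} {Q : G → ℤ} {e : G} (he : γ * e = e * γ) (x : G) :
    locS γ Q (e * x) = locS γ Q x := by
  ext v
  constructor
  · rintro ⟨a, ha, rfl⟩
    refine ⟨a * e, ?_, by rw [mul_assoc]⟩
    rw [← mul_assoc, ha, mul_assoc, he, mul_assoc]
  · rintro ⟨a, ha, rfl⟩
    refine ⟨a * e⁻¹, ?_, by rw [mul_assoc, inv_mul_cancel_left]⟩
    have he' : γ * e⁻¹ = e⁻¹ * γ := by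
      rw [eq_inv_mul_iff_mul_eq, ← mul_assoc, ← he, mul_inv_cancel_right]
    rw [← mul_assoc, ha, mul_assoc, he', mul_assoc]

variable {n κ D L : ℕ} {T0 : ℤ}

theorem loc_exists (hlev : Level n κ D 50 z d) {γ : G} (hγ : Lox d κ γ)
    (hnT : (κ : ℤ) * (T0 + 2) ≤ n) (hs : ∃ (a b : ℤ) (x : G), a ≠ 0 ∧
      d x (γ ^ a * z ^ b * x) ≤ L) :
    ∃ (P Q : G → ℤ) (T : ℤ), Loc n L T0 z d γ P Q T := by
  have hB := hlev.base
  obtain ⟨P, Q, t, hA, hSh, ht, hκ⟩ := loc_pos hlev hγ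
  have hbdd : ∀ e, γ * e = e * γ → Bdd d γ e := by
    intro e he
    exact bdd_of_comm hB (m := 1) (j := 0) one_pos (by simp [he])
  have hQ0 := hA.axis.nonneg
  have hQle : ∀ x, sInf (locS γ Q x) ≤ Q x := by
    intro x
    have := locS_le hQ0 (x := x) (e := 1) (γ := γ) (by simp)
    rwa [one_mul] at this
  have hQge : ∀ x, Q x ≤ sInf (locS γ Q x) + 150 := by
    intro x
    obtain ⟨e, he, h1⟩ := locS_mem hQ0 (γ := γ) x
    rw [← h1]
    have h2 := abs_le.1 (hA.ht e (hbdd e he) x)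
    linarith [h2.1]
  have hPz : ∀ (k : ℤ) (x : G), P (z ^ k * x) = P x := fun k x => tau_Pz hB hA k x
  have hpow : ∀ k : ℕ, ((γ ^ n * z⁻¹) ^ k : G) = z ^ (-(k : ℤ)) * γ ^ ((n * k : ℕ) : ℤ) := by
    intro k
    have hc : Commute (γ ^ n) z⁻¹ := by
      have : Commute γ z := (hB.cen γ).symm
      exact (this.pow_left n).inv_right
    rw [hc.mul_pow, ← pow_mul, inv_pow, zpow_neg, zpow_natCast, zpow_natCast,
      ((Commute.pow_pow (hB.cen γ : Commute z γ) k (n * k)).inv_left).eq]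
  have hPk : ∀ (k : ℕ) (x : G), P ((γ ^ n * z⁻¹) ^ k * x) = P (γ ^ ((n * k : ℕ) : ℤ) * x) := by
    intro k x
    rw [hpow, mul_assoc, hPz]
  have hnt : (0 : ℝ) ≤ n * t := by positivity
  refine ⟨P, fun x => sInf (locS γ Q x), ⌊(n : ℝ) * t⌋, ?_, ?_, ?_, ?_, ?_, ?_, ?_⟩
  · refine ⟨?_, ?_, ?_, hA.axis.lipP, ?_, ?_⟩
    · intro x
      obtain ⟨e, he, h1⟩ := locS_mem hQ0 (γ := γ) x
      show 0 ≤ sInf (locS γ Q x)
      rw [← h1]
      exact hQ0 _
    · intro x y
      have h1 := hA.axis.up x y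
      have h2 := hQge x
      have h3 := hQge y
      show _ ≤ sInf (locS γ Q x) + sInf (locS γ Q y) + |P x - P y| + 450
      linarith
    · intro x y h0
      have h1 := hA.axis.low x y (by linarith)
      have h2 := hQle x
      have h3 := hQle y
      show sInf (locS γ Q x) + sInf (locS γ Q y) + |P x - P y| ≤ _
      linarith
    · intro x y
      have key : ∀ x y, sInf (locS γ Q y) ≤ sInf (locS γ Q x) + 2 * (d x y : ℤ) := by
        intro x y
        obtain ⟨e, he, h1⟩ := locS_mem hQ0 (γ := γ) x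
        have h2 := locS_le hQ0 (x := y) he
        have h3 := abs_le.1 (hA.axis.lipQ (e * x) (e * y))
        rw [hB.left e x y] at h3
        linarith [h3.1]
      rw [abs_le]
      constructor
      · have := key x y
        linarith
      · have := key y x
        rw [hB.geo.symm y x] at this
        linarith
    · intro x
      obtain ⟨a, h1, h2⟩ := hA.axis.proj x
      refine ⟨a, ?_, by linarith⟩
      show sInf (locS γ Q a) ≤ 450
      linarith [hQle a]
  · intro e x he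
    show sInf (locS γ Q (e * x)) = sInf (locS γ Q x)
    rw [locS_inv he]
  · intro e x y he
    obtain ⟨s, hs⟩ := hA.sh e (hbdd e he)
    have h1 := abs_le.1 (hs 1 x)
    have h2 := abs_le.1 (hs 1 y)
    rw [zpow_one] at h1 h2
    have h3 : (((P (e * x) - P (e * y)) - (P x - P y) : ℤ) : ℝ) ≤ (450 : ℤ) := by
      push_cast at h1 h2 ⊢
      linarith [h1.2, h2.1]
    have h4 : ((-450 : ℤ) : ℝ) ≤ (((P (e * x) - P (e * y)) - (P x - P y) : ℤ) : ℝ) := by
      push_cast at h1 h2 ⊢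
      linarith [h1.1, h2.2]
    rw [abs_le]
    exact ⟨by exact_mod_cast h4, by exact_mod_cast h3⟩
  · rw [Int.le_floor]
    by_cases h0 : T0 + 2 ≤ 0
    · have : (T0 : ℝ) + 2 ≤ 0 := by exact_mod_cast h0
      linarith
    · have h1 : (0 : ℝ) < (T0 : ℝ) + 2 := by
        have : 0 < T0 + 2 := by omega
        exact_mod_cast this
      have h2 : (κ : ℝ) * ((T0 : ℝ) + 2) ≤ n := by exact_mod_cast hnT
      have h3 : (κ : ℝ) * ((T0 : ℝ) + 2) * t ≤ n * t := mul_le_mul_of_nonneg_right h2 ht.le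
      have h4 : 2 * ((T0 : ℝ) + 2) ≤ (κ * t) * ((T0 : ℝ) + 2) :=
        mul_le_mul_of_nonneg_right hκ h1.le
      nlinarith
  · intro k x hk
    have h1 := abs_le.1 (hSh ((n * k : ℕ) : ℤ) x)
    have h2 := Int.floor_le ((n : ℝ) * t)
    have hk' : (1 : ℝ) ≤ k := by exact_mod_cast hk
    have h3 : (n : ℝ) * t ≤ (n * t) * k := le_mul_of_one_le_right hnt hk'
    have h4 : ((⌊(n : ℝ) * t⌋ - 450 : ℤ) : ℝ) ≤
        ((P (γ ^ ((n * k : ℕ) : ℤ) * x) - P x : ℤ) : ℝ) := by
      push_cast at h1 ⊢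
      nlinarith [h1.1]
    rw [hPk]
    exact_mod_cast h4
  · intro x
    have h1 := abs_le.1 (hSh (n : ℤ) x)
    have h2 := Int.lt_floor_add_one ((n : ℝ) * t)
    have h4 : ((P (γ ^ (n : ℤ) * x) - P x : ℤ) : ℝ) ≤ ((⌊(n : ℝ) * t⌋ + 450 : ℤ) : ℝ) := by
      push_cast at h1 ⊢
      linarith [h1.2]
    have h5 := hPk 1 x
    rw [pow_one, mul_one] at h5
    rw [h5]
    exact_mod_cast h4
  · intro x
    obtain ⟨a, b, y, ha, hy⟩ := hs
    have h1 := abs_le.1 (hSh a y)
    have h2 := abs_le.1 (hA.axis.lipP y (γ ^ a * z ^ b * y))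
    have e1 : P (γ ^ a * z ^ b * y) = P (γ ^ a * y) := by
      rw [← tau_zcen hB, mul_assoc, hPz]
    rw [e1] at h2
    have hy' : ((d y (γ ^ a * z ^ b * y) : ℕ) : ℤ) ≤ L := by exact_mod_cast hy
    have h3 : (P (γ ^ a * y) : ℤ) - P y ≤ 2 * L := by linarith [h2.1]
    have h4 : -(2 * (L : ℤ)) ≤ P (γ ^ a * y) - P y := by linarith [h2.2]
    have h3' : (P (γ ^ a * y) : ℝ) - P y ≤ 2 * L := by exact_mod_cast h3
    have h4' : -(2 * (L : ℝ)) ≤ (P (γ ^ a * y) : ℝ) - P y := by exact_mod_cast h4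
    have h5 : |(a : ℝ) * t| ≤ 2 * L + 150 := by
      rw [abs_le]
      push_cast at h1
      constructor <;> linarith [h1.1, h1.2]
    have h6 : t ≤ |(a : ℝ) * t| := by
      rw [abs_mul, abs_of_pos ht]
      have : (1 : ℝ) ≤ |(a : ℝ)| := by
        have : (1 : ℤ) ≤ |a| := Int.one_le_abs ha
        exact_mod_cast this
      nlinarith
    have h7 := abs_le.1 (hSh 1 x)
    rw [zpow_one] at h7
    have h8 : ((P (γ * x) - P x : ℤ) : ℝ) ≤ ((2 * L + 450 : ℤ) : ℝ) := by
      push_cast at h7 ⊢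
      linarith [h7.2]
    have h9 : ((-(2 * L + 450) : ℤ) : ℝ) ≤ ((P (γ * x) - P x : ℤ) : ℝ) := by
      push_cast at h7 ⊢
      linarith [h7.1]
    rw [abs_le]
    exact ⟨by exact_mod_cast h9, by exact_mod_cast h8⟩

end

end Burn
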