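import Pool.Agent.Burn.WDefs
import Pool.Agent.Burn.Hyp
import Pool.Agent.Burn.Grow
import Pool.Agent.Burn.Cen
import Pool.Agent.Burn.Axl
import Pool.Agent.Burn.Loc

set_option autoImplicit false

/-!
# The family of lines
-/

namespace Burn

section
variable {G : Type} [Group G] {z : G} {d : G → G → ℕ} {n κ D L : ℕ} {T0 : ℤ}

/-- Loxodromic elements which generate their centraliser modulo `z`, with a power which moves a
point by at most `L`. -/
def FamGood (κ L : ℕ) (z : G) (d : G → G → ℕ) (γ : G) : Prop :=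
  Lox d κ γ ∧ (∀ h, γ * h = h * γ → ∃ a b : ℤ, h = γ ^ a * z ^ b) ∧
    ∃ (a b : ℤ) (x : G), a ≠ 0 ∧ d x (γ ^ a * z ^ b * x) ≤ L

/-- The lines are the centralisers of the good elements. -/
def FamIdx (κ L : ℕ) (z : G) (d : G → G → ℕ) : Type :=
  {H : Set G // ∃ γ, FamGood κ L z d γ ∧ H = {h | γ * h = h * γ}}

theorem fam_conj (γ g x : G) :
    γ * (g⁻¹ * x * g) = g⁻¹ * x * g * γ ↔ g * γ * g⁻¹ * x = x * (g * γ * g⁻¹) := by
  constructor
  · intro h
    have h1 := congrArg (fun t => g * t * g⁻¹) h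
    simpa [mul_assoc] using h1
  · intro h
    have h1 := congrArg (fun t => g⁻¹ * t * g) h
    simpa [mul_assoc] using h1

theorem fam_zcomm {δ : ℕ} (hB : Base δ z d) (b : ℤ) (g : G) : z ^ b * g = g * z ^ b :=
  (show Commute z g from hB.cen g).zpow_left b

theorem famGood_conj {δ : ℕ} (hB : Base δ z d) {γ : G} (h : FamGood κ L z d γ) (g : G) :
    FamGood κ L z d (g * γ * g⁻¹) := by
  obtain ⟨h1, h2, a, b, x, ha, hx⟩ := h
  refine ⟨h1.conj hB.left g, ?_, a, b, g * x, ha, ?_⟩
  · intro h hh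
    obtain ⟨a, b, hab⟩ := h2 _ ((fam_conj γ g h).2 hh)
    refine ⟨a, b, ?_⟩
    rw [conj_zpow]
    have e1 : h = g * (γ ^ a * z ^ b) * g⁻¹ := by rw [← hab]; group
    rw [e1]
    have hz := fam_zcomm hB b g⁻¹
    simp only [mul_assoc, hz]
  · rw [conj_zpow]
    have e1 : g * γ ^ a * g⁻¹ * z ^ b * (g * x) = g * (γ ^ a * z ^ b * x) := by
      have hz := fam_zcomm hB b g
      calc g * γ ^ a * g⁻¹ * z ^ b * (g * x) = g * γ ^ a * g⁻¹ * (z ^ b * g) * x := by group
        _ = _ := by rw [hz]; group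
    rw [e1, hB.left]
    exact hx

/-- The action by conjugation. -/
@[reducible] def famAct {δ : ℕ} (hB : Base δ z d) : MulAction G (FamIdx κ L z d) where
  smul g E := ⟨{x | g⁻¹ * x * g ∈ E.1}, by
    obtain ⟨H, γ, hγ, rfl⟩ := E
    refine ⟨g * γ * g⁻¹, famGood_conj hB hγ g, ?_⟩
    ext x
    exact fam_conj γ g x⟩
  one_smul E := Subtype.ext (by
    ext x
    change (1 : G)⁻¹ * x * 1 ∈ E.1 ↔ x ∈ E.1
    simp)
  mul_smul g h E := Subtype.ext (by
    ext x
    change (g * h)⁻¹ * x * (g * h) ∈ E.1 ↔ h⁻¹ * (g⁻¹ * x * g) * h ∈ E.1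
    simp [mul_assoc])

theorem fam_rep (G : Type) [Group G] (ι : Type) [MulAction G ι] :
    ∃ (rep : ι → ι) (a : ι → G), (∀ (g : G) E, rep (g • E) = rep E) ∧ ∀ E, a E • rep E = E := by
  classical
  let s := MulAction.orbitRel G ι
  have h : ∀ E : ι, ∃ a : G, a • (Quotient.out (Quotient.mk s E) : ι) = E := by
    intro E
    have h1 : s.r (Quotient.out (Quotient.mk s E)) E :=
      Quotient.exact (Quotient.out_eq (Quotient.mk s E))
    have h2 : (Quotient.out (Quotient.mk s E)) ∈ MulAction.orbit G E := h1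
    obtain ⟨g, hg⟩ := h2
    refine ⟨g⁻¹, ?_⟩
    rw [← hg]
    simp
  choose a ha using h
  refine ⟨fun E => Quotient.out (Quotient.mk s E), a, ?_, ha⟩
  intro g E
  have h1 : Quotient.mk s (g • E) = Quotient.mk s E := Quotient.sound ⟨g, rfl⟩
  simp only [h1]

theorem fam_axis {δ : ℕ} {c : ℤ} {P Q : G → ℤ} (hB : Base δ z d) (h : Axis d c P Q) (a : G) :
    Axis d c (fun x => P (a * x)) (fun x => Q (a * x)) where
  nonneg x := h.nonneg _
  up x y := by
    have := h.up (a * x) (a * y)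
    rwa [hB.left] at this
  low x y := by
    have := h.low (a * x) (a * y)
    rwa [hB.left] at this
  lipP x y := by
    have := h.lipP (a * x) (a * y)
    rwa [hB.left] at this
  lipQ x y := by
    have := h.lipQ (a * x) (a * y)
    rwa [hB.left] at this
  proj x := by
    obtain ⟨b, h1, h2⟩ := h.proj (a * x)
    refine ⟨a⁻¹ * b, ?_, ?_⟩
    · simpa using h1
    · simpa using h2

theorem fam_exists (hlev : Level n κ D 50 z d) (hn : n.Prime) (hn2 : n ≠ 2)
    (hnT : (κ : ℤ) * (T0 + 2) ≤ n) :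
    ∃ (ι : Type) (_ : MulAction G ι) (P Q : ι → G → ℤ) (r : ι → G) (T : ι → ℤ) (γ : ι → G),
      FamL n κ L 1000 (2 * D + 100 * L + 22000000) T0 z d P Q r T γ := by
  have hB := hlev.base
  have hA := hlev.acyl
  let _inst : MulAction G (FamIdx κ L z d) := famAct hB
  -- the centralisers of the translates
  have hact : ∀ (g : G) (E : FamIdx κ L z d) (γ : G), E.1 = {h | γ * h = h * γ} →
      (g • E).1 = {h | g * γ * g⁻¹ * h = h * (g * γ * g⁻¹)} := by
    intro g E γ h
    ext x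
    change g⁻¹ * x * g ∈ E.1 ↔ _
    rw [h]
    exact fam_conj γ g x
  have hstab : ∀ (g : G) (E : FamIdx κ L z d) (γ : G), Lox d κ γ →
      E.1 = {h | γ * h = h * γ} → (g • E = E ↔ g * γ = γ * g) := by
    intro g E γ hL h
    constructor
    · intro he
      have h1 := hact g E γ h
      rw [he, h] at h1
      have h2 : (g * γ * g⁻¹) ∈ {h | γ * h = h * γ} := by
        rw [h1]
        simp
      exact cen_norm hB (by norm_num) hlev.tri hn hn2 hA hL (Eq.symm h2)
    · intro he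
      apply Subtype.ext
      rw [hact g E γ h, h, he]
      simp
  have h0 : ∀ E : FamIdx κ L z d, ∃ (γ : G) (P Q : G → ℤ) (T : ℤ), FamGood κ L z d γ ∧
      E.1 = {h | γ * h = h * γ} ∧ Loc n L T0 z d γ P Q T := by
    intro E
    obtain ⟨γ, h1, h2⟩ := E.2
    obtain ⟨P, Q, T, h3⟩ := loc_exists hlev h1.1 hnT h1.2.2
    exact ⟨γ, P, Q, T, h1, h2, h3⟩
  choose γ0 P0 Q0 TT hgood hcent hloc using h0
  obtain ⟨rep, a, hrep, ha⟩ := fam_rep G (FamIdx κ L z d)
  -- the elements `γ E`
  let γ : FamIdx κ L z d → G := fun E => a E * γ0 (rep E) * (a E)⁻¹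
  have hγgood : ∀ E, FamGood κ L z d (γ E) := fun E => famGood_conj hB (hgood (rep E)) (a E)
  have hγcent : ∀ E : FamIdx κ L z d, E.1 = {h | γ E * h = h * γ E} := by
    intro E
    have := hact (a E) (rep E) (γ0 (rep E)) (hcent (rep E))
    rw [ha] at this
    exact this
  have hfix : ∀ (g : G) (E : FamIdx κ L z d), g • E = E ↔ g * γ E = γ E * g :=
    fun g E => hstab g E (γ E) (hγgood E).1 (hγcent E)
  -- the transition elements
  have htr : ∀ (g : G) (E : FamIdx κ L z d),
      γ0 (rep E) * ((a (g • E))⁻¹ * g * a E) = ((a (g • E))⁻¹ * g * a E) * γ0 (rep E) := by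
    intro g E
    have h1 : ((a (g • E))⁻¹ * g * a E) • rep E = rep E := by
      rw [mul_smul, mul_smul, ha]
      have h2 := ha (g • E)
      rw [hrep] at h2
      rw [inv_smul_eq_iff]
      exact h2.symm
    exact ((hstab _ (rep E) (γ0 (rep E)) (hgood _).1 (hcent _)).1 h1).symm
  have hγact : ∀ (g : G) (E : FamIdx κ L z d), γ (g • E) = g * γ E * g⁻¹ := by
    intro g E
    have h1 := htr g E
    change a (g • E) * γ0 (rep (g • E)) * (a (g • E))⁻¹ = g * (a E * γ0 (rep E) * (a E)⁻¹) * g⁻¹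
    rw [hrep]
    have h2 := congrArg (fun t => a (g • E) * t * ((a E)⁻¹ * g⁻¹)) h1
    simpa [mul_assoc] using h2
  have hsame : ∀ E F : FamIdx κ L z d, γ E * γ F = γ F * γ E → E = F := by
    intro E F h
    apply Subtype.ext
    rw [hγcent E, hγcent F]
    ext x
    constructor
    · intro hx
      exact cen_comm hB hA (hγgood E).1 h hx
    · intro hx
      exact cen_comm hB hA (hγgood F).1 h.symm hx
  let P : FamIdx κ L z d → G → ℤ := fun E x => P0 (rep E) ((a E)⁻¹ * x)
  let Q : FamIdx κ L z d → G → ℤ := fun E x => Q0 (rep E) ((a E)⁻¹ * x)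
  let r : FamIdx κ L z d → G := fun E => γ E ^ n * z⁻¹
  let T : FamIdx κ L z d → ℤ := fun E => TT (rep E)
  have haxis : ∀ E, Axis d 1000 (P E) (Q E) := by
    intro E
    exact (fam_axis hB (hloc (rep E)).axis (a E)⁻¹).mono (by norm_num)
  have hrpow : ∀ (E : FamIdx κ L z d) (k : ℕ) (x : G),
      (a E)⁻¹ * (r E ^ k * x) = (γ0 (rep E) ^ n * z⁻¹) ^ k * ((a E)⁻¹ * x) := by
    intro E k x
    have h1 : r E = a E * (γ0 (rep E) ^ n * z⁻¹) * (a E)⁻¹ := by
      change (a E * γ0 (rep E) * (a E)⁻¹) ^ n * z⁻¹ = _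
      rw [conj_pow]
      have h2 : z⁻¹ * (a E)⁻¹ = (a E)⁻¹ * z⁻¹ := by
        have := fam_zcomm hB (-1) (a E)⁻¹
        simpa using this
      simp only [mul_assoc, h2]
    rw [h1, conj_pow]
    group
  -- displacement of `γ E`
  have hmv : ∀ (E : FamIdx κ L z d) (x : G), |P E (γ E * x) - P E x| ≤ 2 * L + 450 := by
    intro E x
    have h1 := (hloc (rep E)).gm ((a E)⁻¹ * x)
    have h2 : (a E)⁻¹ * (γ E * x) = γ0 (rep E) * ((a E)⁻¹ * x) := by
      change (a E)⁻¹ * (a E * γ0 (rep E) * (a E)⁻¹ * x) = _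
      group
    change |P0 (rep E) ((a E)⁻¹ * (γ E * x)) - P0 (rep E) ((a E)⁻¹ * x)| ≤ _
    rw [h2]
    exact h1
  have heqQ : ∀ (g : G) (E : FamIdx κ L z d) (x : G), Q (g • E) (g * x) = Q E x := by
    intro g E x
    have h1 := (hloc (rep E)).inv _ ((a E)⁻¹ * x) (htr g E)
    change Q0 (rep (g • E)) ((a (g • E))⁻¹ * (g * x)) = Q0 (rep E) ((a E)⁻¹ * x)
    rw [hrep, ← h1]
    congr 1
    group
  have hmvd : ∀ (E : FamIdx κ L z d) (x : G),
      2 * (d x (γ E * x) : ℤ) ≤ 2 * Q E x + 2 * L + 1450 := by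
    intro E x
    have h1 := (haxis E).up x (γ E * x)
    have h2 := hmv E x
    have h3 : Q E (γ E * x) = Q E x := by
      have h4 := heqQ (γ E) E x
      rwa [(hfix (γ E) E).2 rfl] at h4
    rw [h3, abs_sub_comm] at h1
    linarith
  refine ⟨FamIdx κ L z d, famAct hB, P, Q, r, T, γ, ⟨⟨hB, by norm_num, by
    have : (0 : ℤ) ≤ D := by positivity
    have : (0 : ℤ) ≤ L := by positivity
    linarith, fun E => (hloc (rep E)).hT, haxis, heqQ, ?_, ?_, ?_, ?_, ?_, ?_, ?_⟩, fun _ => rfl,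
    fun E => (hfix (γ E) E).2 rfl, ?_, ?_⟩⟩
  · -- eqP
    intro g E x y
    have h1 := (hloc (rep E)).shP _ ((a E)⁻¹ * x) ((a E)⁻¹ * y) (htr g E)
    change |(P0 (rep (g • E)) ((a (g • E))⁻¹ * (g * x)) -
      P0 (rep (g • E)) ((a (g • E))⁻¹ * (g * y))) -
      (P0 (rep E) ((a E)⁻¹ * x) - P0 (rep E) ((a E)⁻¹ * y))| ≤ 1000
    rw [hrep]
    have e : ∀ x : G, (a (g • E))⁻¹ * (g * x) = (a (g • E))⁻¹ * g * a E * ((a E)⁻¹ * x) := by
      intro x
      group
    rw [e x, e y]
    linarith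
  · -- ov
    intro E F x y hEF hx hy
    by_contra hcon
    push Not at hcon
    apply hEF
    apply hsame
    have hD : (0 : ℤ) ≤ D := by positivity
    have hL : (0 : ℤ) ≤ L := by positivity
    obtain ⟨u, hu1, hu2, hu3⟩ := (haxis E).axu hB.geo (by norm_num) (a := x) (b := y)
      (by linarith)
    obtain ⟨v, hv1, hv2, hv3⟩ := (haxis E).axu hB.geo (by norm_num) (a := y) (b := x)
      (by rw [abs_sub_comm]; linarith)
    have hqu := (haxis F).axq hB.geo hu1
    have hqv := (haxis F).axq hB.geo hv1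
    have hdist : D + 50 * (L + 203000) ≤ d u v := by
      have h1 := (haxis E).lipP u v
      have h2 : |P E x - P E y| ≤ |P E u - P E x| + |P E u - P E v| + |P E v - P E y| := by
        have e : P E x - P E y = -(P E u - P E x) + (P E u - P E v) + (P E v - P E y) := by ring
        rw [e]
        have h3 := abs_add_le (-(P E u - P E x) + (P E u - P E v)) (P E v - P E y)
        have h4 := abs_add_le (-(P E u - P E x)) (P E u - P E v)
        rw [abs_neg] at h4
        linarith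
      have h3 : ((D + 50 * (L + 203000) : ℕ) : ℤ) ≤ (d u v : ℤ) := by
        push_cast
        linarith
      exact_mod_cast h3
    have hmE : ∀ w, Q E w ≤ 2 * 1000 → d w (γ E * w) ≤ L + 203000 := by
      intro w hw
      have h1 := hmvd E w
      have h3 : ((d w (γ E * w) : ℕ) : ℤ) ≤ ((L + 203000 : ℕ) : ℤ) := by
        push_cast
        linarith
      exact_mod_cast h3
    have hmF : ∀ w, Q F w ≤ 202 * 1000 → d w (γ F * w) ≤ L + 203000 := by
      intro w hw
      have h1 := hmvd F w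
      have h3 : ((d w (γ F * w) : ℕ) : ℤ) ≤ ((L + 203000 : ℕ) : ℤ) := by
        push_cast
        linarith
      exact_mod_cast h3
    exact (hA (L + 203000) u v (γ E) (γ F) hdist ⟨hmE u hu2, hmE v hv2⟩
      ⟨hmF u (by linarith), hmF v (by linarith)⟩).1
  · -- rfix
    intro E
    refine (hfix _ E).2 ?_
    have h1 : Commute (γ E) (γ E ^ n * z⁻¹) := by
      apply Commute.mul_right
      · exact (Commute.refl _).pow_right n
      · exact (show Commute z (γ E) from hB.cen _).symm.inv_right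
    exact h1.eq.symm
  · -- rconj
    intro g E
    change γ (g • E) ^ n * z⁻¹ = g * (γ E ^ n * z⁻¹) * g⁻¹
    rw [hγact, conj_pow]
    have h2 : z⁻¹ * g⁻¹ = g⁻¹ * z⁻¹ := by
      have := fam_zcomm hB (-1) g⁻¹
      simpa using this
    simp only [mul_assoc, h2]
  · -- sh
    intro E k x hk
    have h1 := (hloc (rep E)).sh k ((a E)⁻¹ * x) hk
    change TT (rep E) - 1000 ≤ P0 (rep E) ((a E)⁻¹ * (r E ^ k * x)) - P0 (rep E) ((a E)⁻¹ * x)
    rw [hrpow]
    linarith
  · -- sh1
    intro E x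
    have h1 := (hloc (rep E)).sh1 ((a E)⁻¹ * x)
    have h2 := hrpow E 1 x
    rw [pow_one, pow_one] at h2
    change P0 (rep E) ((a E)⁻¹ * (r E * x)) - P0 (rep E) ((a E)⁻¹ * x) ≤ TT (rep E) + 1000
    rw [h2]
    linarith
  · -- two
    intro E F g hEF hE hF
    have h1 := (hfix g E).1 hE
    have h2 := (hfix g F).1 hF
    rcases cen_or hB hA (hγgood E).1 h1.symm with h | h
    · exact h
    · exact absurd (hsame E F (cen_comm hB hA h h1 h2)) hEF
  · -- stab
    intro E g hg
    exact (hγgood E).2.1 g ((hfix g E).1 hg).symm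
  · -- small
    intro g x hg hx
    obtain ⟨g1, h1, h2, h3⟩ := cen_root hB (by norm_num) hlev.tri hn hA hg
    obtain ⟨i, j, hij⟩ := h3 g rfl
    have hi : i ≠ 0 := by
      rintro rfl
      apply hg.not_z hB
      rw [hij]
      simp
    have hgd : FamGood κ L z d g1 := by
      refine ⟨h1, ?_, i, j, x, hi, ?_⟩
      · intro h hh
        apply h3
        rw [hij]
        have hc1 : Commute g1 h := hh
        exact (Commute.mul_left (hc1.zpow_left i) ((show Commute z h from hB.cen h).zpow_left j)).eq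
      · rw [← hij]
        exact hx
    refine ⟨⟨{h | g1 * h = h * g1}, g1, hgd, rfl⟩, ?_⟩
    exact (hstab g _ g1 h1 rfl).2 h2

end

end Burn
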