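import Pool.Agent.Burn.FDefs

set_option autoImplicit false

/-!
# The word metric of the free group
-/

namespace Burn

/-! ## longest common prefixes -/

section lcp

variable {β : Type} [DecidableEq β]

/-- length of the longest common beginning -/
def lcp : List β → List β → ℕ
  | a :: l, b :: m => if a = b then lcp l m + 1 else 0
  | _, _ => 0

theorem lcp_nil (l : List β) : lcp [] l = 0 := by
  cases l <;> simp [lcp]

theorem lcp_nil' (l : List β) : lcp l [] = 0 := by
  cases l <;> simp [lcp]

theorem lcp_comm (l m : List β) : lcp l m = lcp m l := by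
  induction l generalizing m with
  | nil => rw [lcp_nil, lcp_nil']
  | cons a l ih =>
    cases m with
    | nil => rw [lcp_nil, lcp_nil']
    | cons b m =>
      simp only [lcp]
      rw [ih m]
      by_cases h : a = b
      · rw [if_pos h, if_pos h.symm]
      · rw [if_neg h, if_neg (Ne.symm h)]

theorem lcp_ultra (l m k : List β) : lcp l m ≤ lcp l k ∨ lcp m k ≤ lcp l k := by
  induction l generalizing m k with
  | nil => left; rw [lcp_nil]; exact Nat.zero_le _
  | cons a l ih =>
    cases m with
    | nil => left; rw [lcp_nil']; exact Nat.zero_le _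
    | cons b m =>
      cases k with
      | nil => right; rw [lcp_nil']; exact Nat.zero_le _
      | cons c k =>
        simp only [lcp]
        by_cases h1 : a = b
        · subst h1
          by_cases h2 : a = c
          · subst h2
            simp only [if_true]
            rcases ih m k with h | h
            · left; omega
            · right; omega
          · right
            rw [if_neg h2]
            exact Nat.zero_le _
        · left
          rw [if_neg h1]
          exact Nat.zero_le _

end lcp

/-! ## the norm -/

theorem fa_length (L M : List (Fin 2 × Bool)) (hL : FreeGroup.IsReduced L)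
    (hM : FreeGroup.IsReduced M) :
    (FreeGroup.reduce (FreeGroup.invRev L ++ M)).length + 2 * lcp L M = L.length + M.length := by
  induction L generalizing M with
  | nil =>
    rw [lcp_nil]
    simp [FreeGroup.invRev, hM.reduce_eq]
  | cons a l ih =>
    cases M with
    | nil =>
      rw [lcp_nil', List.append_nil, FreeGroup.reduce_invRev, hL.reduce_eq]
      simp [FreeGroup.invRev]
    | cons b m =>
      have hl : FreeGroup.IsReduced l := List.IsChain.tail hL
      have hm : FreeGroup.IsReduced m := List.IsChain.tail hM
      by_cases h : a = b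
      · subst h
        have h1 : FreeGroup.reduce (FreeGroup.invRev (a :: l) ++ a :: m) =
            FreeGroup.reduce (FreeGroup.invRev l ++ m) := by
          apply FreeGroup.reduce.sound
          rw [← FreeGroup.mul_mk, ← FreeGroup.mul_mk, ← FreeGroup.inv_mk, ← FreeGroup.inv_mk]
          rw [show a :: l = [a] ++ l from rfl, show a :: m = [a] ++ m from rfl,
            ← FreeGroup.mul_mk, ← FreeGroup.mul_mk]
          group
        have h2 := ih m hl hm
        rw [h1]
        simp only [lcp, if_true, List.length_cons]
        omega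
      · have h1 : FreeGroup.IsReduced (FreeGroup.invRev (a :: l) ++ b :: m) := by
          have h3 : FreeGroup.IsReduced (FreeGroup.invRev (a :: l)) := by
            rw [FreeGroup.isReduced_iff_reduce_eq, FreeGroup.reduce_invRev, hL.reduce_eq]
          unfold FreeGroup.IsReduced at h3 hM ⊢
          rw [List.isChain_append]
          refine ⟨h3, hM, ?_⟩
          intro x hx y hy
          simp only [List.head?_cons, Option.mem_def, Option.some.injEq] at hy
          subst hy
          simp only [FreeGroup.invRev, List.map_cons, List.reverse_cons, List.getLast?_append,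
            List.getLast?_singleton, Option.mem_def, Option.some_or, Option.some.injEq] at hx
          subst hx
          simp only
          intro h4
          by_contra h5
          apply h
          ext
          · rw [h4]
          · revert h5
            cases a.2 <;> cases b.2 <;> simp
        rw [h1.reduce_eq]
        simp only [lcp, if_neg h]
        simp [FreeGroup.invRev]
        omega

theorem fa_norm (x y : FreeGroup (Fin 2)) :
    (x⁻¹ * y).norm + 2 * lcp x.toWord y.toWord = x.norm + y.norm := by
  have h := fa_length x.toWord y.toWord FreeGroup.isReduced_toWord FreeGroup.isReduced_toWord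
  unfold FreeGroup.norm
  rw [FreeGroup.toWord_mul, FreeGroup.toWord_inv]
  exact h

theorem fa_mk {L : List (Fin 2 × Bool)} (h : FreeGroup.IsReduced L) :
    (FreeGroup.mk L).norm = L.length := by
  unfold FreeGroup.norm
  rw [FreeGroup.toWord_mk, h.reduce_eq]

theorem fa_left : LeftInv d0 := by
  intro g x y
  unfold d0
  congr 1
  simp only [Prod.fst_mul]
  group

theorem fa_geo : Geo d0 := by
  refine ⟨?_, ?_, ?_, ?_⟩
  · intro x
    unfold d0
    simp
  · intro x y
    unfold d0
    rw [← FreeGroup.norm_inv_eq]
    congr 1
    group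
  · intro x y z
    unfold d0
    have h := FreeGroup.norm_mul_le (x.1⁻¹ * y.1) (y.1⁻¹ * z.1)
    rw [show x.1⁻¹ * y.1 * (y.1⁻¹ * z.1) = x.1⁻¹ * z.1 by group] at h
    exact h
  · intro x y s t h
    unfold d0 at h
    have hr : FreeGroup.IsReduced (x.1⁻¹ * y.1).toWord := FreeGroup.isReduced_toWord
    have hlen : (x.1⁻¹ * y.1).toWord.length = s + t := h
    set L := (x.1⁻¹ * y.1).toWord with hL
    have h1 : FreeGroup.IsReduced (L.take s) := List.IsChain.take hr s
    have h2 : FreeGroup.IsReduced (L.drop s) := List.IsChain.drop hr s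
    have h3 : FreeGroup.mk (L.take s) * FreeGroup.mk (L.drop s) = x.1⁻¹ * y.1 := by
      rw [FreeGroup.mul_mk, List.take_append_drop, hL, FreeGroup.mk_toWord]
    refine ⟨(x.1 * FreeGroup.mk (L.take s), 1), ?_, ?_⟩
    · unfold d0
      simp only
      rw [show x.1⁻¹ * (x.1 * FreeGroup.mk (L.take s)) = FreeGroup.mk (L.take s) by group,
        fa_mk h1, List.length_take, hlen]
      omega
    · unfold d0
      simp only
      rw [show (x.1 * FreeGroup.mk (L.take s))⁻¹ * y.1 =
        (FreeGroup.mk (L.take s))⁻¹ * (x.1⁻¹ * y.1) by group, ← h3,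
        show (FreeGroup.mk (L.take s))⁻¹ * (FreeGroup.mk (L.take s) * FreeGroup.mk (L.drop s)) =
        FreeGroup.mk (L.drop s) by group, fa_mk h2, List.length_drop, hlen]
      omega

theorem fa_hyp : Hyp d0 1 := by
  intro x y z w
  have h1 : ∀ u v : FZ, d0 u v = ((w.1⁻¹ * u.1)⁻¹ * (w.1⁻¹ * v.1)).norm := by
    intro u v
    unfold d0
    congr 1
    group
  have h2 : ∀ u : FZ, d0 u w = (w.1⁻¹ * u.1).norm := by
    intro u
    unfold d0
    rw [← FreeGroup.norm_inv_eq]
    congr 1
    group
  have e1 := fa_norm (w.1⁻¹ * x.1) (w.1⁻¹ * y.1)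
  have e2 := fa_norm (w.1⁻¹ * x.1) (w.1⁻¹ * z.1)
  have e3 := fa_norm (w.1⁻¹ * y.1) (w.1⁻¹ * z.1)
  rw [h1 x y, h2 z, h1 x z, h2 y, h2 x, h1 y z]
  rcases lcp_ultra (w.1⁻¹ * x.1).toWord (w.1⁻¹ * z.1).toWord (w.1⁻¹ * y.1).toWord with h | h
  · left; omega
  · right
    rw [lcp_comm (w.1⁻¹ * z.1).toWord] at h
    omega

theorem fa_pow (i : ℤ) : z0 ^ i = (1, Multiplicative.ofAdd i) := by
  unfold z0
  rw [Prod.pow_mk, one_zpow]
  congr 1
  rw [← ofAdd_zsmul]
  simp

theorem free_base : Base 1 z0 d0 where
  geo := fa_geo
  hyp := fa_hyp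
  left := fa_left
  cen := by
    intro g
    unfold z0
    ext
    · simp
    · simp [mul_comm]
  inf := by
    intro i h
    rw [fa_pow] at h
    have h2 := congrArg Prod.snd h
    simpa using h2
  zd := by
    unfold d0 z0
    simp

theorem free_w : w0 ≠ 1 ∧ d0 1 w0 = 4 ∧
    ∃ a b : FZ, w0 = a * b * a⁻¹ * b⁻¹ := by
  have h : d0 1 w0 = 4 := by
    unfold d0 w0
    rw [Prod.fst_one, inv_one, one_mul]
    decide
  refine ⟨?_, h, ⟨(FreeGroup.of 0, 1), (FreeGroup.of 1, 1), ?_⟩⟩
  · intro h2
    rw [h2] at h
    simp [d0] at h
  · unfold w0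
    ext
    · rfl
    · simp

end Burn
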