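import Pool.Agent.Burn.Freea

set_option autoImplicit false

/-!
# Powers in the free group
-/

namespace Burn

theorem fb_norm_pow {u : FreeGroup (Fin 2)} (hu : u ≠ 1) (i : ℕ) : i ≤ (u ^ i).norm := by
  rcases Nat.eq_zero_or_pos i with h | h
  · subst h
    exact Nat.zero_le _
  unfold FreeGroup.norm
  rw [FreeGroup.toWord_pow, FreeGroup.reduceCyclically.reduce_flatten_replicate
    FreeGroup.isReduced_toWord, if_neg h.ne']
  have h1 : 1 ≤ (FreeGroup.reduceCyclically u.toWord).length := by
    rw [Nat.one_le_iff_ne_zero]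
    intro h2
    rw [List.length_eq_zero_iff] at h2
    have h3 := FreeGroup.reduceCyclically.conj_conjugator_reduceCyclically u.toWord
    rw [h2, List.append_nil] at h3
    apply hu
    have h4 := congrArg FreeGroup.mk h3
    rw [FreeGroup.mk_toWord, ← FreeGroup.mul_mk, ← FreeGroup.inv_mk, mul_inv_cancel] at h4
    exact h4.symm
  have h2 : i * 1 ≤ i * (FreeGroup.reduceCyclically u.toWord).length := Nat.mul_le_mul_left i h1
  simp only [List.length_append, List.length_flatten, List.map_replicate, List.sum_replicate,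
    smul_eq_mul]
  omega

theorem free_tri (n : ℕ) : Tri n 1 z0 d0 := by
  intro g
  by_cases hg : g.1 = 1
  · left
    rw [Subgroup.mem_zpowers_iff]
    refine ⟨Multiplicative.toAdd g.2, ?_⟩
    rw [fa_pow]
    ext
    · simp [hg]
    · simp
  · right; right
    intro i x
    unfold d0
    rw [one_mul]
    have h1 : x.1⁻¹ * (g ^ i * x).1 = (x.1⁻¹ * g.1 * x.1) ^ i := by
      rw [Prod.fst_mul, Prod.pow_fst]
      have := conj_pow (i := i) (a := x.1⁻¹) (b := g.1)
      rw [inv_inv] at this
      rw [this]
      group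
    rw [h1]
    apply fb_norm_pow
    intro h2
    apply hg
    have h3 : g.1 = x.1 * (x.1⁻¹ * g.1 * x.1) * x.1⁻¹ := by group
    rw [h3, h2]
    group

end Burn
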