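import Pool.Agent.Burn.Freea

set_option autoImplicit false

/-!
# Finitely many elements of bounded displacement
-/

namespace Burn

theorem fc_finite (R : ℕ) : {w : FreeGroup (Fin 2) | w.norm ≤ R}.Finite := by
  have h := (List.finite_length_le (Fin 2 × Bool) R).preimage
    (f := FreeGroup.toWord) (FreeGroup.toWord_injective.injOn)
  exact h

theorem free_count : ∃ N : ℕ → ℕ, ∀ (B : ℕ) (u v : FZ), Count N B z0 d0 u v := by
  refine ⟨fun R => (fc_finite R).toFinset.card, ?_⟩
  intro B u v R m f _ hM hd
  have h1 : ∀ i ∈ Finset.range m, u.1⁻¹ * (f i).1 * u.1 ∈ (fc_finite R).toFinset := by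
    intro i hi
    rw [Set.Finite.mem_toFinset]
    have h2 := (hM i (Finset.mem_range.mp hi)).1
    unfold d0 at h2
    rw [Prod.fst_mul, ← mul_assoc] at h2
    exact h2
  have h2 : Set.InjOn (fun i => u.1⁻¹ * (f i).1 * u.1) (Finset.range m : Set ℕ) := by
    have key : ∀ i j, i < j → j < m → u.1⁻¹ * (f i).1 * u.1 ≠ u.1⁻¹ * (f j).1 * u.1 := by
      intro i j hij hj h
      apply hd i j hij hj
      have h3 : (f i).1 = (f j).1 := by
        have := mul_right_cancel h
        exact mul_left_cancel this
      rw [Subgroup.mem_zpowers_iff]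
      refine ⟨Multiplicative.toAdd ((f i)⁻¹ * f j).2, ?_⟩
      rw [fa_pow]
      ext
      · simp [h3]
      · simp
    intro i hi j hj h
    rcases lt_trichotomy i j with h3 | h3 | h3
    · exact absurd h (key i j h3 (Finset.mem_range.mp hj))
    · exact h3
    · exact absurd h.symm (key j i h3 (Finset.mem_range.mp hi))
  have h3 := Finset.card_le_card_of_injOn _ h1 h2
  rw [Finset.card_range] at h3
  exact h3

end Burn
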