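import Mathlib

set_option autoImplicit false

/-!
# The limit group
-/

namespace Burn

theorem limit_small {e : ℕ → ℕ} (he : ∀ k, 2 * e (k + 1) ≤ e k + 1) : ∃ k, e k ≤ 20 := by
  by_contra hc
  push Not at hc
  have h1 : ∀ k, e k + k ≤ e 0 := by
    intro k
    induction k with
    | zero => omega
    | succ k ih =>
      have h2 := he k
      have h3 := hc k
      omega
  have := h1 (e 0 + 1)
  omega

theorem limit {Γ : Type} [Group Γ] (z a b : Γ) (n : ℕ) (hn : n.Prime) (N : ℕ → Subgroup Γ)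
    (hN : ∀ k, (N k).Normal) (e : ℕ → Γ → ℕ) (hmono : ∀ k, N k ≤ N (k + 1))
    (hcen : ∀ g, z * g = g * z) (hz : ∀ (k : ℕ) (i : ℤ), z ^ i ∈ N k → i = 0)
    (he : ∀ k g, 2 * e (k + 1) g ≤ e k g + 1)
    (hsmall : ∀ k g, e k g ≤ 20 → (∃ j : ℤ, g * z ^ j ∈ N (k + 1)) ∨
      ∃ c : ℤ, g ^ n * z ^ (-c) ∈ N (k + 1) ∧ ¬ (n : ℤ) ∣ c)
    (hbig : ∀ k g, g ∈ N (k + 1) → g ∉ N k → 100 ≤ e k g)
    (hab : a * b * a⁻¹ * b⁻¹ ∉ N 0) (hab' : e 0 (a * b * a⁻¹ * b⁻¹) ≤ 50) :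
    ∃ (A : Type) (_ : Group A) (d : A), d ∈ Subgroup.center A ∧
      (∀ (x : A) (m : ℕ), m ≠ 0 → x ^ m = 1 → x = 1) ∧ (∀ x : A, x ^ n ∈ Subgroup.zpowers d) ∧
      (∃ x y : A, x * y ≠ y * x) ∧ ¬ (Subgroup.zpowers d).FiniteIndex := by
  have hm : Monotone N := monotone_nat_of_le_succ hmono
  have hmem : ∀ g, g ∈ (⨆ k, N k) ↔ ∃ k, g ∈ N k := fun g =>
    Subgroup.mem_iSup_of_directed hm.directed_le
  obtain ⟨M, hM⟩ : ∃ M : Subgroup Γ, M = ⨆ k, N k := ⟨_, rfl⟩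
  rw [← hM] at hmem
  have hnorm : M.Normal := by
    constructor
    intro g hg h
    obtain ⟨k, hk⟩ := (hmem g).1 hg
    exact (hmem _).2 ⟨k, (hN k).conj_mem g hk h⟩
  have key : ∀ g : Γ, (∃ j : ℤ, (g : Γ ⧸ M) = (z : Γ ⧸ M) ^ j) ∨
      ∃ c : ℤ, (g : Γ ⧸ M) ^ n = (z : Γ ⧸ M) ^ c ∧ ¬ (n : ℤ) ∣ c := by
    intro g
    obtain ⟨k, hk⟩ := limit_small (e := fun k => e k g) (fun k => he k g)
    rcases hsmall k g hk with ⟨j, hj⟩ | ⟨c, hc, hd⟩
    · left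
      refine ⟨-j, ?_⟩
      have h1 : ((g * z ^ j : Γ) : Γ ⧸ M) = 1 := (QuotientGroup.eq_one_iff _).2 ((hmem _).2 ⟨_, hj⟩)
      rw [QuotientGroup.mk_mul, QuotientGroup.mk_zpow] at h1
      rw [zpow_neg]
      exact eq_inv_of_mul_eq_one_left h1
    · right
      refine ⟨c, ?_, hd⟩
      have h1 : ((g ^ n * z ^ (-c) : Γ) : Γ ⧸ M) = 1 :=
        (QuotientGroup.eq_one_iff _).2 ((hmem _).2 ⟨_, hc⟩)
      rw [QuotientGroup.mk_mul, QuotientGroup.mk_zpow, QuotientGroup.mk_pow] at h1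
      rw [eq_inv_of_mul_eq_one_left h1, zpow_neg, inv_inv]
  have hz' : ∀ i : ℤ, (z : Γ ⧸ M) ^ i = 1 → i = 0 := by
    intro i hi
    rw [← QuotientGroup.mk_zpow] at hi
    obtain ⟨k, hk⟩ := (hmem _).1 ((QuotientGroup.eq_one_iff _).1 hi)
    exact hz k i hk
  have tf : ∀ (x : Γ ⧸ M) (m : ℕ), m ≠ 0 → x ^ m = 1 → x = 1 := by
    intro x m hm0 hx
    obtain ⟨g, rfl⟩ := QuotientGroup.mk_surjective x
    change ((g : Γ ⧸ M)) ^ m = 1 at hx
    change ((g : Γ ⧸ M)) = 1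
    rcases key g with ⟨j, hj⟩ | ⟨c, hc, hd⟩
    · rw [hj, ← zpow_natCast, ← zpow_mul] at hx
      have h1 := hz' _ hx
      have h2 : j = 0 := by
        rcases mul_eq_zero.1 h1 with h | h
        · exact h
        · exact absurd (by exact_mod_cast h) hm0
      rw [hj, h2, zpow_zero]
    · exfalso
      have h1 : ((z : Γ ⧸ M)) ^ (c * m) = 1 := by
        rw [zpow_mul, ← hc, zpow_natCast, ← pow_mul, mul_comm n m, pow_mul, hx, one_pow]
      have h2 := hz' _ h1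
      have h3 : c = 0 := by
        rcases mul_eq_zero.1 h2 with h | h
        · exact h
        · exact absurd (by exact_mod_cast h) hm0
      exact hd (h3 ▸ dvd_zero _)
  have hcz : (z : Γ ⧸ M) ∈ Subgroup.center (Γ ⧸ M) := by
    rw [Subgroup.mem_center_iff]
    intro x
    obtain ⟨g, rfl⟩ := QuotientGroup.mk_surjective x
    change (g : Γ ⧸ M) * (z : Γ ⧸ M) = (z : Γ ⧸ M) * (g : Γ ⧸ M)
    rw [← QuotientGroup.mk_mul, ← QuotientGroup.mk_mul, hcen]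
  have nab : (a : Γ ⧸ M) * (b : Γ ⧸ M) ≠ (b : Γ ⧸ M) * (a : Γ ⧸ M) := by
    intro h
    have h1 : ((a * b * a⁻¹ * b⁻¹ : Γ) : Γ ⧸ M) = 1 := by
      rw [QuotientGroup.mk_mul, QuotientGroup.mk_mul, QuotientGroup.mk_mul, QuotientGroup.mk_inv,
        QuotientGroup.mk_inv, h, mul_inv_cancel_right, mul_inv_cancel]
    have h2 : ∃ k, a * b * a⁻¹ * b⁻¹ ∈ N k := (hmem _).1 ((QuotientGroup.eq_one_iff _).1 h1)
    have h50 : ∀ k, e k (a * b * a⁻¹ * b⁻¹) ≤ 50 := by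
      intro k
      induction k with
      | zero => exact hab'
      | succ k ih =>
        have := he k (a * b * a⁻¹ * b⁻¹)
        omega
    have h3 : ∀ k, a * b * a⁻¹ * b⁻¹ ∉ N k := by
      intro k
      induction k with
      | zero => exact hab
      | succ k ih =>
        intro h4
        have h5 := hbig k _ h4 ih
        have h6 := h50 k
        omega
    obtain ⟨k, hk⟩ := h2
    exact h3 k hk
  refine ⟨Γ ⧸ M, inferInstance, (z : Γ ⧸ M), hcz, tf, ?_, ⟨_, _, nab⟩, ?_⟩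
  · intro x
    obtain ⟨g, rfl⟩ := QuotientGroup.mk_surjective x
    change ((g : Γ ⧸ M)) ^ n ∈ _
    rcases key g with ⟨j, hj⟩ | ⟨c, hc, -⟩
    · rw [hj]
      exact Subgroup.pow_mem _ (Subgroup.zpow_mem _ (Subgroup.mem_zpowers _) _) _
    · rw [hc]
      exact Subgroup.zpow_mem _ (Subgroup.mem_zpowers _) _
  · intro hfi
    have hle : Subgroup.zpowers (z : Γ ⧸ M) ≤ Subgroup.center (Γ ⧸ M) := by
      rw [Subgroup.zpowers_le]
      exact hcz
    have hfc : (Subgroup.center (Γ ⧸ M)).FiniteIndex := Subgroup.finiteIndex_of_le hle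
    apply nab
    have h1 : ((a : Γ ⧸ M) * (b : Γ ⧸ M) * (a : Γ ⧸ M)⁻¹ * (b : Γ ⧸ M)⁻¹) ^
        (Subgroup.center (Γ ⧸ M)).index = 1 := by
      have hcomm : ∀ u v : Subgroup.center (Γ ⧸ M), u * v = v * u := fun u v =>
        Subtype.ext (Subgroup.mem_center_iff.1 v.2 u)
      rw [← MonoidHom.transferCenterPow_apply, map_mul, map_mul, map_mul, map_inv, map_inv,
        hcomm (MonoidHom.transferCenterPow (Γ ⧸ M) (a : Γ ⧸ M)), mul_inv_cancel_right,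
        mul_inv_cancel, Subgroup.coe_one]
    have h2 := tf _ _ hfc.index_ne_zero h1
    rw [mul_inv_eq_one, mul_inv_eq_iff_eq_mul] at h2
    exact h2

end Burn
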