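import Pool.Agent.Burn.One
import Pool.Agent.Burn.Freea
import Pool.Agent.Burn.Freeb
import Pool.Agent.Burn.Freec
import Pool.Agent.Burn.Limit


set_option autoImplicit false

/-!
# The limit group
-/

namespace Burn

theorem free_level : ∃ D1 κ1 n1 M : ℕ, 1 ≤ M ∧ ∀ n D κ : ℕ, n.Prime → n1 ≤ n → D1 ≤ D →
    κ1 ≤ κ → Level n κ D 50 z0 (fun x y => (d0 x y + M - 1) / M) := by
  obtain ⟨N, hN⟩ := free_count
  obtain ⟨B, hB⟩ := pl 1 (102 * 1) le_rfl N
  refine ⟨6 * B + 1000 + 2 * 5400, 1 * 5400, B + 1, 5400, by norm_num, ?_⟩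
  intro n D κ hn hn1 hD hκ
  have hT := free_tri n
  have hac : AcylE 1 (2 * B) (102 * 1) (900 * 1) z0 d0 := by
    intro x y g h hxy hg hh
    obtain ⟨u, hu1, hu2⟩ := free_base.geo.mid x y B (d0 x y - B) (by omega)
    refine hB n 1 hn (by omega) FZ z0 d0 free_base hT x u u y ?_ (by omega) (by omega) (hN B u u)
      g h hg hh
    rw [free_base.geo.refl]
    omega
  have := pipe free_base le_rfl hT hn.pos hac (M := 5400) (D := D) (by norm_num) (by norm_num)
    (by omega)
  exact this.mono hκ le_rfl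

/-- A stage of the construction. -/
structure Stage (n κ D : ℕ) where
  G : Type
  grp : Group G
  π : FZ →* G
  surj : Function.Surjective π
  d : G → G → ℕ
  lev : Level n κ D 50 (π z0) d

attribute [instance] Stage.grp

/-- The relation between consecutive stages. -/
structure Rel {n κ D : ℕ} (S S' : Stage n κ D) : Prop where
  mono : S.π.ker ≤ S'.π.ker
  he : ∀ g, 2 * S'.d 1 (S'.π g) ≤ S.d 1 (S.π g) + 1
  small : ∀ g, S.d 1 (S.π g) ≤ 20 → (∃ j : ℤ, g * z0 ^ j ∈ S'.π.ker) ∨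
    ∃ c : ℤ, g ^ n * z0 ^ (-c) ∈ S'.π.ker ∧ ¬ (n : ℤ) ∣ c
  big : ∀ g, g ∈ S'.π.ker → g ∉ S.π.ker → 100 ≤ S.d 1 (S.π g)

theorem limit_group : ∃ (A : Type) (_ : Group A) (p : ℕ) (_ : Fact p.Prime) (d : A),
    d ∈ Subgroup.center A ∧ (∀ (x : A) (m : ℕ), m ≠ 0 → x ^ m = 1 → x = 1) ∧
      (∀ x : A, x ^ p ∈ Subgroup.zpowers d) ∧ (∃ x y : A, x * y ≠ y * x) ∧
      ¬ (Subgroup.zpowers d).FiniteIndex := by
  obtain ⟨D1, κ1, n1, M, hM, hfree⟩ := free_level
  obtain ⟨D, κ, n0, hD, hκ, hstep⟩ := one_step D1 κ1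
  obtain ⟨n, hn0, hn⟩ := Nat.exists_infinite_primes (max n0 n1)
  have hn0' : n0 ≤ n := (le_max_left _ _).trans hn0
  have hn1 : n1 ≤ n := (le_max_right _ _).trans hn0
  -- the first stage
  let S0 : Stage n κ D :=
    { G := FZ, grp := inferInstance, π := MonoidHom.id FZ, surj := fun x => ⟨x, rfl⟩,
      d := fun x y => (d0 x y + M - 1) / M, lev := hfree n D κ hn hn1 hD hκ }
  have hnext : ∀ S : Stage n κ D, ∃ S' : Stage n κ D, Rel S S' := by
    intro S
    obtain ⟨K, hK, d', hlev, h2, h100, h20⟩ := hstep n hn hn0' S.G (S.π z0) S.d S.lev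
    have hk : ∀ g : FZ, g ∈ ((QuotientGroup.mk' K).comp S.π).ker ↔ S.π g ∈ K := by
      intro g
      rw [MonoidHom.mem_ker, MonoidHom.comp_apply, QuotientGroup.mk'_apply,
        QuotientGroup.eq_one_iff]
    refine ⟨{ G := S.G ⧸ K, grp := inferInstance, π := (QuotientGroup.mk' K).comp S.π,
              surj := (QuotientGroup.mk'_surjective K).comp S.surj, d := d', lev := hlev }, ?_⟩
    refine ⟨?_, ?_, ?_, ?_⟩
    · intro g hg
      rw [hk, MonoidHom.mem_ker.1 hg]
      exact K.one_mem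
    · intro g
      exact h2 1 (S.π g)
    · intro g hg
      rcases h20 (S.π g) 1 (by simpa using hg) with h | ⟨c, hc, hnc⟩
      · left
        obtain ⟨j, hj⟩ := Subgroup.mem_zpowers_iff.1 h
        refine ⟨-j, ?_⟩
        rw [hk, map_mul, map_zpow, ← QuotientGroup.eq_one_iff, QuotientGroup.mk_mul,
          QuotientGroup.mk_zpow, ← hj]
        group
      · right
        refine ⟨c, ?_, hnc⟩
        rw [hk, map_mul, map_pow, map_zpow, ← QuotientGroup.eq_one_iff, QuotientGroup.mk_mul,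
          QuotientGroup.mk_pow, QuotientGroup.mk_zpow, hc]
        group
    · intro g hg hg'
      rw [hk] at hg
      have := h100 (S.π g) hg (fun h => hg' (MonoidHom.mem_ker.2 h)) 1
      simpa using this
  choose nx hnx using hnext
  let f : ℕ → Stage n κ D := fun k => nx^[k] S0
  have hf : ∀ k, Rel (f k) (f (k + 1)) := by
    intro k
    have : f (k + 1) = nx (f k) := Function.iterate_succ_apply' nx k S0
    rw [this]
    exact hnx _
  obtain ⟨hw1, hw4, a, b, hab⟩ := free_w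
  have hcen : ∀ g : FZ, z0 * g = g * z0 := free_base.cen
  obtain ⟨A, hA, d, h1, h2, h3, h4, h5⟩ := limit z0 a b n hn (fun k => (f k).π.ker)
    (fun k => inferInstance) (fun k g => (f k).d 1 ((f k).π g)) (fun k => (hf k).mono) hcen
    (fun k i hi => (f k).lev.base.inf i (by
      have := MonoidHom.mem_ker.1 hi
      rwa [map_zpow] at this))
    (fun k => (hf k).he) (fun k => (hf k).small) (fun k => (hf k).big)
    (by
      rw [← hab]
      intro h
      exact hw1 (MonoidHom.mem_ker.1 h))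
    (by
      rw [← hab]
      show (d0 1 w0 + M - 1) / M ≤ 50
      rw [hw4]
      have := coarse_le (M := M) (a := 4) (b := 4) hM (by nlinarith)
      omega)
  exact ⟨A, hA, n, ⟨hn⟩, d, h1, h2, h3, h4, h5⟩

end Burn
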