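import Pool.Agent.Burn.Hyp

set_option autoImplicit false

/-!
# A criterion for hyperbolicity of a smaller metric
-/

namespace Burn

section GUESS
variable {X : Type} {d D : X → X → ℕ}

theorem guess_chain {s h : ℕ} (hd : Geo d) (hD : Geo D) (hs : Slim d s)
    (hle : ∀ x y, D x y ≤ d x y) (hh : ∀ x y u, D x y ≤ 1 → Btw d x u y → D x u ≤ h) (m : ℕ) :
    ∀ (N : ℕ) (v : ℕ → X) (u : X), N ≤ 2 ^ m → (∀ i, i < N → D (v i) (v (i + 1)) ≤ 1) →
      Btw d (v 0) u (v N) → ∃ i, i ≤ N ∧ D u (v i) ≤ s * m + h := by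
  induction m with
  | zero =>
    intro N v u hN hv hu
    rw [pow_zero] at hN
    have hN' : N = 0 ∨ N = 1 := by omega
    rcases hN' with rfl | rfl
    · refine ⟨0, le_rfl, ?_⟩
      have h1 := hle u (v 0)
      have h2 := hd.refl (v 0)
      unfold Btw at hu
      omega
    · refine ⟨0, by omega, ?_⟩
      have h1 := hh (v 0) (v 1) u (hv 0 (by omega)) hu
      have := hD.symm u (v 0)
      omega
  | succ m ih =>
    intro N v u hN hv hu
    rw [pow_succ] at hN
    have e : s * (m + 1) = s * m + s := by ring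
    by_cases h1 : N ≤ 2 ^ m
    · obtain ⟨i, hi, h2⟩ := ih N v u h1 hv hu
      exact ⟨i, hi, by omega⟩
    · obtain ⟨q, hq | hq, hq2⟩ := hs (v 0) (v N) (v (N / 2)) u hu
      · obtain ⟨i, hi, h2⟩ := ih (N / 2) v q (by omega) (fun i hi => hv i (by omega)) hq
        refine ⟨i, by omega, ?_⟩
        have h3 := hD.tri u q (v i)
        have h4 := hle u q
        omega
      · obtain ⟨i, hi, h2⟩ := ih (N - N / 2) (fun i => v (N / 2 + i)) q (by omega)
          (fun i hi => hv (N / 2 + i) (by omega)) (by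
            have e1 : N / 2 + (N - N / 2) = N := by omega
            simp only [add_zero, e1]
            exact hq)
        refine ⟨N / 2 + i, by omega, ?_⟩
        have h3 := hD.tri u q (v (N / 2 + i))
        have h4 := hle u q
        omega

/-- chains with all vertices in `S` -/
def GC (D : X → X → ℕ) (S : X → Prop) (a b : X) (N : ℕ) : Prop :=
  ∃ v : ℕ → X, v 0 = a ∧ v N = b ∧ (∀ i, i < N → D (v i) (v (i + 1)) ≤ 1) ∧ ∀ i, i ≤ N → S (v i)

theorem GC.trans {S : X → Prop} {a b c : X} {N M : ℕ} (h : GC D S a b N) (h' : GC D S b c M) :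
    GC D S a c (N + M) := by
  obtain ⟨v, v1, v2, v3, v4⟩ := h
  obtain ⟨w, w1, w2, w3, w4⟩ := h'
  refine ⟨fun i => if i ≤ N then v i else w (i - N), by simp [v1], ?_, fun i hi => ?_,
    fun i hi => ?_⟩
  · simp only
    split_ifs with h1
    · have hM : M = 0 := by omega
      subst hM
      rw [add_zero, v2, ← w1, w2]
    · rw [Nat.add_sub_cancel_left]
      exact w2
  · simp only
    split_ifs with h1 h2 h2
    · exact v3 i (by omega)
    · have hi' : i = N := by omega
      subst hi'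
      rw [v2, ← w1, Nat.add_sub_cancel_left]
      exact w3 0 (by omega)
    · omega
    · have e : i + 1 - N = i - N + 1 := by omega
      rw [e]
      exact w3 (i - N) (by omega)
  · simp only
    split_ifs with h1
    · exact v4 i h1
    · exact w4 (i - N) (by omega)

theorem GC.symm (hD : Geo D) {S : X → Prop} {a b : X} {N : ℕ} (h : GC D S a b N) :
    GC D S b a N := by
  obtain ⟨v, v1, v2, v3, v4⟩ := h
  refine ⟨fun i => v (N - i), by simpa using v2, by simpa using v1, fun i hi => ?_,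
    fun i hi => v4 _ (by omega)⟩
  simp only
  have e : N - i = N - (i + 1) + 1 := by omega
  rw [e, hD.symm]
  exact v3 _ (by omega)

theorem GC.path {S : X → Prop} {p : ℕ → X} {m : ℕ} (hp : IsPath D p m) {i j : ℕ} (hij : i ≤ j)
    (hj : j ≤ m) (hS : ∀ i, i ≤ m → S (p i)) : GC D S (p i) (p j) (j - i) := by
  refine ⟨fun l => p (i + l), by simp, ?_, fun l hl => ?_, fun l hl => hS _ (by omega)⟩
  · simp only
    congr 1
    omega
  · simp only
    have := hp (i + l) (i + (l + 1)) (by omega) (by omega)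
    omega

theorem GC.path' (hD : Geo D) {S : X → Prop} {p : ℕ → X} {m : ℕ} (hp : IsPath D p m) {i j : ℕ}
    (hi : i ≤ m) (hj : j ≤ m) (hS : ∀ i, i ≤ m → S (p i)) :
    GC D S (p i) (p j) (D (p i) (p j)) := by
  rcases le_total i j with h | h
  · have := GC.path hp h hj hS
    rwa [← hp i j h hj] at this
  · have := (GC.path hp h hi hS).symm hD
    rwa [← hp j i h hi, hD.symm] at this

theorem GC.geod (hD : Geo D) {S : X → Prop} (a c : X) (hS : ∀ w, D a w ≤ D a c → S w) :
    GC D S a c (D a c + 1) := by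
  obtain ⟨p, h1, h2, h3⟩ := exists_path hD a c
  set n := D a c with hn
  refine ⟨fun i => if i ≤ n then p i else c, by simp [h2], by simp, fun i hi => ?_, fun i hi => ?_⟩
  · simp only
    split_ifs with h4 h5 h5
    · have := h1 i (i + 1) (by omega) (by omega)
      omega
    · have hi' : i = n := by omega
      rw [hi', h3]
      omega
    · omega
    · omega
  · simp only
    split_ifs with h4
    · apply hS
      have := h1 0 i (by omega) h4
      rw [h2] at this
      omega
    · exact hS c le_rfl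

/-- a point of the interval at distance about `T` -/
theorem guess_pt (hd : Geo d) (hD : Geo D) (hle : ∀ x y, D x y ≤ d x y) (x u : X) (T : ℕ) :
    ∃ a, Btw d x a u ∧ D u a ≤ T + 1 ∧ (a = x ∨ T ≤ D u a) := by
  by_cases h1 : D u x ≤ T + 1
  · refine ⟨x, ?_, h1, Or.inl rfl⟩
    unfold Btw
    have := hd.refl x
    omega
  · obtain ⟨p, p1, p2, p3⟩ := exists_path hd u x
    set m := d u x with hm
    have hend : D u (p m) = D u x := by
      have e1 := hD.tri u (p m) x
      have e2 := hD.tri u x (p m)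
      have e3 := hle (p m) x
      have e4 := hle x (p m)
      have e5 := hd.symm (p m) x
      omega
    obtain ⟨i, hi, h2, h3⟩ := ivt (m := m) (f := fun i => (D u (p i) : ℤ)) (s := 1) (a := T + 1)
      (by norm_num) (fun i hi => by
        have e1 := hD.tri u (p i) (p (i + 1))
        have e2 := hD.tri u (p (i + 1)) (p i)
        have e3 := hle (p i) (p (i + 1))
        have e4 := hle (p (i + 1)) (p i)
        have e5 := hd.symm (p i) (p (i + 1))
        have e6 := p1 i (i + 1) (by omega) (by omega)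
        rw [abs_le]
        constructor <;> omega)
      (by
        have := hD.refl u
        simp only [p2]
        omega)
      (by simp only [hend]; omega)
    refine ⟨p i, ?_, by omega, Or.inr (by omega)⟩
    have e1 := p1 0 i (by omega) hi
    have e2 := p1 i m hi le_rfl
    have e3 := hd.tri (p i) (p m) x
    have e4 := hd.tri u (p i) x
    have e5 := hd.symm x (p i)
    have e6 := hd.symm (p i) u
    have e7 := hd.symm x u
    rw [p2] at e1
    unfold Btw
    omega

theorem guess_main {s h t : ℕ} (hd : Geo d) (hD : Geo D) (hs : Slim d s)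
    (hle : ∀ x y, D x y ≤ d x y) (hh : ∀ x y u, D x y ≤ 1 → Btw d x u y → D x u ≤ h)
    {p : ℕ → X} {m : ℕ} (hp : IsPath D p m) {u0 : X} (hu0 : Btw d (p 0) u0 (p m))
    (h1 : ∀ i, i ≤ m → t ≤ D u0 (p i))
    (h2 : ∀ u, Btw d (p 0) u (p m) → ∃ i, i ≤ m ∧ D u (p i) ≤ t) {M : ℕ}
    (hM : 8 * t + 4 ≤ 2 ^ M) : t ≤ s * M + h := by
  have key : ∀ a, Btw d (p 0) a (p m) → ((∃ i, i ≤ m ∧ a = p i) ∨ 2 * t ≤ D u0 a) →
      ∃ i N, i ≤ m ∧ N ≤ t + 1 ∧ D a (p i) ≤ t ∧ GC D (fun w => t ≤ D u0 w) a (p i) N := by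
    rintro a ha (⟨i, hi, rfl⟩ | h3)
    · refine ⟨i, 0, hi, by omega, by have := hD.refl (p i); omega, fun _ => p i, rfl, rfl,
        fun _ h => by omega, fun _ _ => h1 i hi⟩
    · obtain ⟨i, hi, h4⟩ := h2 a ha
      refine ⟨i, D a (p i) + 1, hi, by omega, h4, GC.geod hD a (p i) (fun w hw => ?_)⟩
      have e1 := hD.tri u0 w a
      have e2 := hD.symm w a
      omega
  obtain ⟨a, a1, a2, a3⟩ := guess_pt hd hD hle (p 0) u0 (2 * t)
  obtain ⟨b, b1, b2, b3⟩ := guess_pt hd hD hle (p m) u0 (2 * t)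
  obtain ⟨ha, hau⟩ := Btw.trans hd hu0 a1
  obtain ⟨hb, hbu⟩ := Btw.trans hd (Btw.symm hd hu0) b1
  have hab : Btw d a u0 b := by
    have := (Btw.trans hd (Btw.symm hd hau) b1).2
    exact Btw.symm hd this
  obtain ⟨i, N1, hi, hN1, hai, hc1⟩ := key a ha (by
    rcases a3 with rfl | a3
    · exact Or.inl ⟨0, by omega, rfl⟩
    · exact Or.inr a3)
  obtain ⟨j, N2, hj, hN2, hbj, hc2⟩ := key b (Btw.symm hd hb) (by
    rcases b3 with rfl | b3
    · exact Or.inl ⟨m, le_rfl, rfl⟩
    · exact Or.inr b3)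
  have hc := (hc1.trans (GC.path' hD hp hi hj h1)).trans (hc2.symm hD)
  obtain ⟨v, v1, v2, v3, v4⟩ := hc
  have e1 := hD.tri (p i) a (p j)
  have e2 := hD.tri a u0 (p j)
  have e3 := hD.tri u0 b (p j)
  have e4 := hD.symm (p i) a
  have e5 := hD.symm a u0
  obtain ⟨l, hl, h5⟩ := guess_chain hd hD hs hle hh M _ v u0 (by omega) v3 (by
    rw [v1, v2]; exact hab)
  exact (v4 l hl).trans h5

theorem guess_exp (A B : ℕ) (hB : 1 ≤ B) : ∃ K : ℕ, ∀ M, K ≤ M → A * M + B ≤ 2 ^ M := by
  refine ⟨2 * (2 * A + B), fun M hM => ?_⟩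
  induction M, hM using Nat.le_induction with
  | base =>
    have h1 : 2 * A + B + 1 ≤ 2 ^ (2 * A + B) := Nat.lt_two_pow_self
    have h2 : 2 ^ (2 * (2 * A + B)) = 2 ^ (2 * A + B) * 2 ^ (2 * A + B) := by
      rw [← pow_add]; congr 1; ring
    rw [h2]
    calc A * (2 * (2 * A + B)) + B ≤ (2 * A + B + 1) * (2 * A + B + 1) := by nlinarith
      _ ≤ _ := Nat.mul_le_mul h1 h1
  | succ M hM ih =>
    rw [pow_succ]
    have h1 : 1 ≤ M := by omega
    have h2 : A * 1 ≤ A * M := Nat.mul_le_mul_left A h1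
    rw [mul_add]
    omega

theorem guess_bound (s h : ℕ) : ∃ k : ℕ, ∀ t : ℕ, (∀ M, 8 * t + 4 ≤ 2 ^ M → t ≤ s * M + h) →
    t ≤ k := by
  obtain ⟨K, hK⟩ := guess_exp (8 * s) (8 * (s + h) + 4) (by omega)
  refine ⟨2 ^ K, fun t ht => ?_⟩
  have hex : ∃ M, 8 * t + 4 ≤ 2 ^ M := ⟨8 * t + 4, Nat.lt_two_pow_self.le⟩
  have hM := Nat.find_spec hex
  set M := Nat.find hex with hMdef
  have h1 := ht M hM
  have hM1 : 1 ≤ M := by
    by_contra hc
    have : M = 0 := by omega
    rw [this, pow_zero] at hM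
    omega
  have h2 : 2 ^ (M - 1) < 8 * t + 4 := by
    have := Nat.find_min hex (m := M - 1) (by omega)
    omega
  have h3 : M - 1 < K := by
    by_contra hc
    have h4 := hK (M - 1) (by omega)
    have h5 : 8 * s * (M - 1) + 8 * s = 8 * (s * M) := by
      obtain ⟨M', hM'⟩ : ∃ M', M = M' + 1 := ⟨M - 1, by omega⟩
      rw [hM', Nat.add_sub_cancel]
      ring
    have h6 : 8 * (s + h) = 8 * s + 8 * h := by ring
    omega
  have h4 : 2 ^ M ≤ 2 ^ K := Nat.pow_le_pow_right (by omega) (by omega)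
  omega

/-- a geodesic with the prescribed end -/
theorem guess_path (hD : Geo D) {x v y : X} (h : Btw D x v y) (h0 : 0 < D x y) :
    ∃ p : ℕ → X, IsPath D p (D x y) ∧ p 0 = x ∧ p (D x y) = y ∧ D (p (D x v)) v = 0 := by
  obtain ⟨p, p1, p2, p3, p4⟩ := exists_path_through hD h
  set m := D x y with hm
  have hsub : ∀ i w, D (if i = m then y else p i) w = D (p i) w := by
    intro i w
    split_ifs with h1
    · subst h1
      have e1 := hD.tri y (p m) w
      have e2 := hD.tri (p m) y w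
      have e3 := hD.symm y (p m)
      omega
    · rfl
  refine ⟨fun i => if i = m then y else p i, fun i j hij hj => ?_, ?_, by simp, ?_⟩
  · simp only
    rw [hsub, hD.symm, hsub, hD.symm]
    exact p1 i j hij hj
  · simp only
    rw [if_neg (by omega), p2]
  · simp only
    rw [hsub]
    exact p3

/-- the `d`-interval comes close to every point of the `D`-geodesic -/
theorem guess_back {k : ℕ} (hd : Geo d) (hD : Geo D) (hle : ∀ x y, D x y ≤ d x y)
    (hf : Fellow d D k) {p : ℕ → X} {m j : ℕ} (hp : IsPath D p m) (hj : j ≤ m) :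
    ∃ u, Btw d (p 0) u (p m) ∧ D (p j) u ≤ 3 * k + 1 := by
  obtain ⟨q, q1, q2, q3⟩ := exists_path hd (p 0) (p m)
  set N := d (p 0) (p m) with hN
  have hq : ∀ l, l ≤ N → Btw d (p 0) (q l) (p m) := by
    intro l hl
    have e1 := q1 0 l (by omega) hl
    have e2 := q1 l N hl le_rfl
    have e3 := hd.tri (q l) (q N) (p m)
    have e4 := hd.tri (p 0) (q l) (p m)
    rw [q2] at e1
    unfold Btw
    omega
  have hNm : D (q N) (p m) = 0 := by
    have := hle (q N) (p m)
    omega
  rcases hyp_switch (A := fun l => ∃ i, i ≤ j ∧ D (q l) (p i) ≤ k)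
    (B := fun l => ∃ i, j ≤ i ∧ i ≤ m ∧ D (q l) (p i) ≤ k) N
    ⟨0, by omega, by rw [q2, hD.refl]; omega⟩ (fun l hl => by
      obtain ⟨i, hi, h1⟩ := hf p m (q l) hp (hq l hl)
      rcases le_total i j with h2 | h2
      · exact Or.inl ⟨i, h2, h1⟩
      · exact Or.inr ⟨i, h2, hi, h1⟩) with ⟨i, hi, h1⟩ | ⟨l, hl, ⟨i, hi, h1⟩, i', hi1, hi2, h2⟩
  · refine ⟨q N, hq N le_rfl, ?_⟩
    have e1 := hp i m (by omega) le_rfl
    have e2 := hp j m hj le_rfl
    have e3 := hD.tri (p i) (q N) (p m)
    have e4 := hD.symm (p i) (q N)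
    have e5 := hD.tri (p j) (p m) (q N)
    have e6 := hD.symm (p m) (q N)
    omega
  · refine ⟨q (l + 1), hq _ (by omega), ?_⟩
    have e1 := hp i i' (by omega) hi2
    have e2 := hp j i' hi1 hi2
    have e3 := hD.tri (p i) (q l) (p i')
    have e4 := hD.tri (q l) (q (l + 1)) (p i')
    have e5 := hD.symm (p i) (q l)
    have e6 := hle (q l) (q (l + 1))
    have e7 := q1 l (l + 1) (by omega) (by omega)
    have e8 := hD.tri (p j) (p i') (q (l + 1))
    have e9 := hD.symm (p i') (q (l + 1))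
    omega

theorem guess_near {k h : ℕ} (hD : Geo D)
    (hh : ∀ x y u, D x y ≤ 1 → Btw d x u y → D x u ≤ h) (hf : Fellow d D k) {x y u : X}
    (hu : Btw d x u y) : ∃ q, Btw D x q y ∧ D u q ≤ k + h := by
  rcases Nat.eq_zero_or_pos (D x y) with h0 | h0
  · refine ⟨x, ?_, ?_⟩
    · unfold Btw
      have := hD.refl x
      omega
    · have h1 := hh x y u (by omega) hu
      have := hD.symm u x
      omega
  · obtain ⟨p, p1, p2, p3, -⟩ := guess_path hD (v := x) (by
      unfold Btw
      have := hD.refl x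
      omega) h0
    obtain ⟨i, hi, h1⟩ := hf p (D x y) u p1 (by rw [p2, p3]; exact hu)
    refine ⟨p i, ?_, by omega⟩
    have := p1.btw hD hi
    rwa [p2, p3] at this

end GUESS

theorem guess (s h : ℕ) : ∃ k : ℕ, ∀ (X : Type) (d D : X → X → ℕ), Geo d → Geo D → Slim d s →
    (∀ x y, D x y ≤ d x y) → (∀ x y u, D x y ≤ 1 → Btw d x u y → D x u ≤ h) →
    Fellow d D k ∧ Slim D k := by
  obtain ⟨k1, hk1⟩ := guess_bound s h
  refine ⟨4 * k1 + s + h + 1, fun X d D hd hD hs hle hh => ?_⟩
  have hf : Fellow d D k1 := by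
    intro p m u hp hu
    have hex : ∃ t, ∀ u, Btw d (p 0) u (p m) → ∃ i, i ≤ m ∧ D u (p i) ≤ t := by
      refine ⟨d (p 0) (p m), fun u hu => ⟨0, by omega, ?_⟩⟩
      unfold Btw at hu
      have e1 := hle u (p 0)
      have e2 := hd.symm u (p 0)
      omega
    classical
    have h2 := Nat.find_spec hex
    set t := Nat.find hex with ht
    have ht1 : t ≤ k1 := by
      apply hk1
      intro M hM
      rcases Nat.eq_zero_or_pos t with h0 | h0
      · omega
      · have h3 := Nat.find_min hex (m := t - 1) (by omega)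
        push Not at h3
        obtain ⟨u0, hu0, h4⟩ := h3
        exact guess_main hd hD hs hle hh hp hu0 (fun i hi => by
          have := h4 i hi
          omega) h2 hM
    obtain ⟨i, hi, h3⟩ := h2 u hu
    exact ⟨i, hi, h3.trans ht1⟩
  refine ⟨fun p m u hp hu => ?_, fun x y w v hv => ?_⟩
  · obtain ⟨i, hi, h3⟩ := hf p m u hp hu
    exact ⟨i, hi, by omega⟩
  · obtain ⟨u, hu, h1⟩ : ∃ u, Btw d x u y ∧ D v u ≤ 3 * k1 + 1 := by
      rcases Nat.eq_zero_or_pos (D x y) with h0 | h0
      · refine ⟨x, ?_, ?_⟩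
        · unfold Btw
          have := hd.refl x
          omega
        · unfold Btw at hv
          have := hD.symm v x
          omega
      · obtain ⟨p, p1, p2, p3, p4⟩ := guess_path hD hv h0
        obtain ⟨u, hu, h1⟩ := guess_back hd hD hle hf p1 (j := D x v) (by
          unfold Btw at hv
          omega)
        rw [p2, p3] at hu
        refine ⟨u, hu, ?_⟩
        have e1 := hD.tri v (p (D x v)) u
        have e2 := hD.symm v (p (D x v))
        omega
    obtain ⟨u', hu' | hu', h2⟩ := hs x y w u hu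
    · obtain ⟨q, hq, h3⟩ := guess_near hD hh hf hu'
      refine ⟨q, Or.inl hq, ?_⟩
      have e1 := hD.tri v u q
      have e2 := hD.tri u u' q
      have e3 := hle u u'
      omega
    · obtain ⟨q, hq, h3⟩ := guess_near hD hh hf hu'
      refine ⟨q, Or.inr hq, ?_⟩
      have e1 := hD.tri v u q
      have e2 := hD.tri u u' q
      have e3 := hle u u'
      omega

end Burn
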