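import Pool.Agent.Burn.Grow

set_option autoImplicit false

/-!
# Near translations of a long segment
-/

namespace Burn

section NT
variable {G : Type} [Group G] {d : G → G → ℕ} {z : G} {δ R : ℕ}

omit [Group G] in
theorem Ins.symm (hg : Geo d) {e m : ℕ} {x y w : G} (h : Ins d e m x y w) : Ins d e m y x w := by
  unfold Ins at *
  have := hg.symm x w
  have := hg.symm w y
  have := hg.symm x y
  omega

omit [Group G] in
theorem Ins.mono {e e' m m' : ℕ} {x y w : G} (h : Ins d e m x y w) (he : e ≤ e') (hm : m' ≤ m) :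
    Ins d e' m' x y w := by
  unfold Ins at *
  omega

theorem nt_inv (hl : LeftInv d) (hg : Geo d) {x y g : G} (hm : Moves R d x y g) :
    Moves R d x y g⁻¹ := by
  obtain ⟨h1, h2⟩ := hm
  have e1 := hl g x (g⁻¹ * x)
  have e2 := hl g y (g⁻¹ * y)
  rw [mul_inv_cancel_left] at e1 e2
  have s1 := hg.symm x (g * x)
  have s2 := hg.symm y (g * y)
  exact ⟨by omega, by omega⟩

theorem nt_aux (hB : Base δ z d) (hδ : 1 ≤ δ) {x y g w w' : G} (hm : d x (g * x) ≤ R)
    (h : Ins d (8 * δ) (R + 10 * δ) x y w) (h' : Ins d (8 * δ) (R + 10 * δ) x y w') :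
    d x (g * w) + d x w' ≤ d x (g * w') + d x w + δ := by
  have hg := hB.geo
  have hh := hB.hyp
  have hl := hB.left
  obtain ⟨a1, a2, a3⟩ := h
  obtain ⟨b1, b2, b3⟩ := h'
  -- `d w w'`
  have s1 := hg.symm w x
  have s2 := hg.symm w' x
  have s3 := hg.symm w y
  have s4 := hg.symm w' y
  have k1 : d w w' + 2 * R + 11 * δ ≤ d x w + d x w' := by
    rcases hh w w' x y with h1 | h1 <;> omega
  -- the four points `x`, `g⁻¹ x`, `w`, `w'`
  have e1 := hl g (g⁻¹ * x) w
  have e2 := hl g (g⁻¹ * x) w'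
  have e3 := hl g x (g⁻¹ * x)
  rw [mul_inv_cancel_left] at e1 e2 e3
  have s5 := hg.symm x (g * x)
  have s6 := hg.symm x (g⁻¹ * x)
  have t1 := hg.tri x (g⁻¹ * x) w
  have t2 := hg.tri x (g⁻¹ * x) w'
  have s7 := hg.symm w' w
  have s8 := hg.symm (g⁻¹ * x) w
  have s9 := hg.symm (g⁻¹ * x) w'
  rcases hh x w' (g⁻¹ * x) w with h1 | h1 <;> rcases hh (g⁻¹ * x) w x w' with h2 | h2 <;> omega

theorem nt_sg (hB : Base δ z d) (hδ : 1 ≤ δ) {x y g w w' : G} (hm : Moves R d x y g)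
    (h : Ins d (8 * δ) (R + 10 * δ) x y w) (h' : Ins d (8 * δ) (R + 10 * δ) x y w') :
    |sg d x y g w - sg d x y g w'| ≤ 2 * δ := by
  have hg := hB.geo
  have h1 := nt_aux hB hδ hm.1 h h'
  have h2 := nt_aux hB hδ hm.1 h' h
  have h3 := nt_aux hB hδ hm.2 (h.symm hg) (h'.symm hg)
  have h4 := nt_aux hB hδ hm.2 (h'.symm hg) (h.symm hg)
  have s1 := hg.symm y (g * w)
  have s2 := hg.symm y (g * w')
  have s3 := hg.symm y w
  have s4 := hg.symm y w'
  unfold sg
  rw [abs_le]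
  constructor <;> omega

theorem nt_ins (hB : Base δ z d) (hδ : 1 ≤ δ) {x y g w : G} {e m : ℕ} (hm : Moves R d x y g)
    (he : e ≤ 8 * δ) (h : Ins d e (m + 2 * R + 20 * δ) x y w) :
    Ins d (e + 2 * δ) (m + R) x y (g * w) := by
  have hg := hB.geo
  have hh := hB.hyp
  have hl := hB.left
  obtain ⟨a1, a2, a3⟩ := h
  obtain ⟨m1, m2⟩ := hm
  have l1 := hl g x w
  have l2 := hl g w y
  have l3 := hl g x y
  have t1 := hg.tri (g * x) x (g * w)
  have t2 := hg.tri (g * w) y (g * y)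
  have s1 := hg.symm (g * x) x
  have s2 := hg.symm (g * w) (g * x)
  have s3 := hg.symm (g * w) x
  have s4 := hg.symm y (g * y)
  have s5 := hg.symm (g * y) (g * w)
  have s6 := hg.symm y x
  refine ⟨by omega, by omega, ?_⟩
  rcases hh x (g * w) (g * x) (g * y) with h1 | h1
  · omega
  · rcases hh (g * w) y x (g * y) with h2 | h2 <;> omega

/-- basic inequality -/
theorem nt_basic (hB : Base δ z d) {x y w w' : G} {q q' r : ℕ}
    (h1 : d x w + d w y ≤ d x y + q) (h2 : d x w' + d w' y ≤ d x y + q')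
    (h3 : |((d x w' : ℤ) - d w' y) - ((d x w : ℤ) - d w y)| ≤ r) :
    2 * d w w' ≤ q + q' + r + 2 * δ := by
  have hg := hB.geo
  have s1 := hg.symm w x
  have s2 := hg.symm w' x
  have h4 := abs_le.1 h3
  rcases hB.hyp w w' x y with h5 | h5 <;> omega

theorem nt_small (hB : Base δ z d) (hδ : 1 ≤ δ) {x y g w : G} (hm : Moves R d x y g)
    (hb : Btw d x w y) (h1 : 2 * R + 20 * δ ≤ d x w) (h2 : 2 * R + 20 * δ ≤ d w y)
    (hs : |sg d x y g w| ≤ 30 * δ) : d w (g * w) ≤ 19 * δ := by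
  unfold Btw at hb
  have h3 : Ins d 0 (0 + 2 * R + 20 * δ) x y w := ⟨by omega, by omega, by omega⟩
  obtain ⟨-, -, h4⟩ := nt_ins hB hδ hm (by omega) h3
  have h5 := nt_basic hB (x := x) (y := y) (q := 0) (q' := 2 * δ) (r := 30 * δ) (w := w) (w' := g * w) (by omega)
    (by omega) (by unfold sg at hs; push_cast; exact hs)
  omega

theorem nt_lox (hB : Base δ z d) (hδ : 1 ≤ δ) {x y g w : G} (hm : Moves R d x y g)
    (hb : Btw d x w y) (h1 : 4 * R + 40 * δ ≤ d x w) (h2 : 4 * R + 40 * δ ≤ d w y)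
    (hs : 20 * δ ≤ |sg d x y g w|) : NearAx d (7 * δ) g w ∧ ∀ i : ℕ, i ≤ d w (g ^ i * w) := by
  have hg := hB.geo
  unfold Btw at hb
  have h3 : Ins d 0 ((2 * R + 20 * δ) + 2 * R + 20 * δ) x y w := ⟨by omega, by omega, by omega⟩
  have h4 := nt_ins hB hδ hm (by omega) h3
  have h5 : Ins d (8 * δ) (R + 10 * δ) x y w := h3.mono (by omega) (by omega)
  have h6 : Ins d (8 * δ) (R + 10 * δ) x y (g * w) := h4.mono (by omega) (by omega)
  have h7 := abs_le.1 (nt_sg hB hδ hm h6 h5)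
  obtain ⟨-, -, h8⟩ := h4
  obtain ⟨S, hS⟩ : ∃ S : ℕ, |sg d x y g w| = S := ⟨_, (Int.natCast_natAbs _).symm⟩
  have h9 := nt_basic hB (x := x) (y := y) (q := 0) (q' := 2 * δ) (r := S) (w := w) (w' := g * w) (by omega)
    (by omega) (by unfold sg at hS; rw [hS])
  have e2 : g ^ 2 * w = g * (g * w) := by rw [pow_two, mul_assoc]
  have t1 := hg.tri x w (g * (g * w))
  have t2 := hg.tri x (g * (g * w)) w
  have t3 := hg.tri w (g * (g * w)) y
  have t4 := hg.tri (g * (g * w)) w y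
  have s1 := hg.symm w (g * (g * w))
  have t5 := hg.tri x w (g * w)
  have t6 := hg.tri x (g * w) w
  have t7 := hg.tri w (g * w) y
  have t8 := hg.tri (g * w) w y
  have s2 := hg.symm w (g * w)
  unfold sg at hS h7 hs
  have h10 : S ≤ 2 * d w (g * w) := by
    rcases abs_cases ((d x (g * w) : ℤ) - d (g * w) y - ((d x w : ℤ) - d w y)) with h | h <;> omega
  have h11 : 2 * S ≤ 2 * d w (g * (g * w)) + 2 * δ := by
    rcases abs_cases ((d x (g * w) : ℤ) - d (g * w) y - ((d x w : ℤ) - d w y)) with h | h <;> omega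
  rw [hS] at hs
  have h12 := grow' hg hB.hyp hB.left (a := 5 * δ) (g := g) (x := w) (by rw [e2]; omega) (by omega)
  have e3 : 5 * δ + 2 * δ = 7 * δ := by ring
  rw [e3] at h12
  exact h12

/-- commutators and their conjugates move the points in the middle very little. -/
theorem nt_comm (hB : Base δ z d) (hδ : 1 ≤ δ) {x y a g h w : G} (ha : Moves R d x y a)
    (hg : Moves R d x y g) (hh : Moves R d x y h)
    (hb : Btw d x w y) (h1 : 10 * R + 100 * δ ≤ d x w) (h2 : 10 * R + 100 * δ ≤ d w y) :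
    d w (a * (g * h * g⁻¹ * h⁻¹) * a⁻¹ * w) ≤ 15 * δ := by
  have hgeo := hB.geo
  have hl := hB.left
  unfold Btw at hb
  have i0 : Ins d 0 ((8 * R + 80 * δ) + 2 * R + 20 * δ) x y w := ⟨by omega, by omega, by omega⟩
  have i1 := nt_ins hB hδ (nt_inv hl hgeo ha) (by omega) i0
  set v := a⁻¹ * w with hv
  have i2 := nt_ins hB hδ (nt_inv hl hgeo hh) (by omega)
    (i1.mono (m' := (7 * R + 60 * δ) + 2 * R + 20 * δ) le_rfl (by omega))
  have i3 := nt_ins hB hδ (nt_inv hl hgeo hg) (by omega)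
    (i2.mono (m' := (6 * R + 40 * δ) + 2 * R + 20 * δ) le_rfl (by omega))
  set u := g⁻¹ * (h⁻¹ * v) with hu
  have i4 := nt_ins hB hδ hh (by omega)
    (i3.mono (m' := (5 * R + 20 * δ) + 2 * R + 20 * δ) le_rfl (by omega))
  have i5 := nt_ins hB hδ hg (by omega)
    (i3.mono (m' := (5 * R + 20 * δ) + 2 * R + 20 * δ) le_rfl (by omega))
  have i6 := nt_ins hB hδ hg (by omega)
    (i4.mono (m' := (4 * R) + 2 * R + 20 * δ) le_rfl (by omega))
  have e1 : h * (g * u) = v := by rw [hu]; group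
  have e2 : d w (a * (g * h * g⁻¹ * h⁻¹) * a⁻¹ * w) = d v (g * (h * u)) := by
    rw [← hl a v, hv, hu, hv]
    congr 1 <;> group
  rw [e2]
  have k1 := abs_le.1 (nt_sg hB hδ hg (i4.mono (e' := 8 * δ) (m' := R + 10 * δ) (by omega)
    (by omega)) (i3.mono (e' := 8 * δ) (m' := R + 10 * δ) (by omega) (by omega)))
  have k2 := abs_le.1 (nt_sg hB hδ hh (i5.mono (e' := 8 * δ) (m' := R + 10 * δ) (by omega)
    (by omega)) (i3.mono (e' := 8 * δ) (m' := R + 10 * δ) (by omega) (by omega)))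
  unfold sg at k1 k2
  rw [e1] at k2
  obtain ⟨-, -, j1⟩ := i1
  obtain ⟨-, -, j6⟩ := i6
  have h9 := nt_basic hB (x := x) (y := y) (q := 2 * δ) (q' := 10 * δ) (r := 4 * δ) (w := v) (w' := g * (h * u))
    (by omega) (by omega) (by rw [abs_le]; push_cast; constructor <;> omega)
  omega

theorem moves_pow (hB : Base δ z d) {x y g : G} (hm : Moves R d x y g) (i : ℕ) :
    Moves (i * R) d x y (g ^ i) := by
  have hg := hB.geo
  have hl := hB.left
  obtain ⟨h1, h2⟩ := hm
  induction i with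
  | zero =>
    have a1 := hg.refl x
    have a2 := hg.refl y
    refine ⟨?_, ?_⟩ <;> simp only [pow_zero, one_mul] <;> omega
  | succ i ih =>
    obtain ⟨ih1, ih2⟩ := ih
    have e1 : ∀ p : G, d (g ^ i * p) (g ^ (i + 1) * p) = d p (g * p) := by
      intro p
      rw [pow_succ, mul_assoc, hl]
    have t1 := hg.tri x (g ^ i * x) (g ^ (i + 1) * x)
    have t2 := hg.tri y (g ^ i * y) (g ^ (i + 1) * y)
    rw [e1] at t1 t2
    have e3 : (i + 1) * R = i * R + R := by ring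
    rw [e3]
    exact ⟨by omega, by omega⟩

end NT

end Burn
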