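import Pool.Agent.Burn.Rot
import Pool.Agent.Burn.Fo
import Pool.Agent.Burn.Axis

set_option autoImplicit false

/-!
# Projections of orbits of elements with minimal displacement
-/

namespace Burn

theorem omega_bdd {G : Type} [Group G] {d : G → G → ℕ} (hl : LeftInv d) (g : G) : Bdd d g g := by
  refine ⟨d g 1, fun N => ?_⟩
  have h : g * g ^ N = g ^ N * g := by rw [← zpow_one_add, ← zpow_add_one, add_comm]
  rw [h]
  have h2 : d (g ^ N * g) (g ^ N) = d (g ^ N * g) (g ^ N * 1) := by rw [mul_one]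
  rw [h2, hl]

theorem omega_abs {a b : ℤ} (h : |a| ≤ b) : -b ≤ a ∧ a ≤ b := abs_le.1 h

theorem omega_pos {G : Type} [Group G] {ι : Type} [MulAction G ι] {n κ L k : ℕ} {c Δ T0 Θ : ℤ}
    {z : G} {d : G → G → ℕ} {P Q : ι → G → ℤ} {r : ι → G} {T : ι → ℤ} {γ : ι → G}
    (V : Env n κ L k c Δ T0 Θ z d P Q r T γ) {g x : G} {Pg Qg : G → ℤ}
    (hA : AxisOf d c g Pg Qg) {t : ℝ} (ht : Sh Pg c g t) (ht0 : 0 ≤ t)
    (hmin : ∀ s ∈ KK r, ∀ y, d x (g * x) ≤ d y (s * g * y)) (hx : Qg x ≤ c) {E : ι}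
    (hne : g • E ≠ E) (i : ℕ) : 2 * |P E x - P E (g ^ i * x)| ≤ T E + 2 * Δ + 800 * c := by
  have F := V.fl.fam
  have hB := F.base
  have hg := hB.geo
  have hl := hB.left
  have hc := F.hc
  have hΔ := F.hΔ
  have hTE := F.hT E
  have hΘ := V.hΘ
  have hbig := V.big
  have hE := F.axis E
  have hG := hA.axis
  have hbg := omega_bdd hl g
  by_contra hcon
  push Not at hcon
  set y := g ^ i * x with hy
  set w := |P E x - P E y| with hw
  have hT403 : 403 * c ≤ T0 := by omega
  have hw6 : 6 * c ≤ w := by omega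
  -- the two points
  obtain ⟨u1, hb1, hq1, hp1⟩ := hE.axu hg (by omega) (a := x) (b := y) hw6
  obtain ⟨u2, hb2', hq2, hp2⟩ := hE.axu hg (by omega) (a := y) (b := x)
    (by rw [abs_sub_comm]; exact hw6)
  have hb2 := Btw.symm hg hb2'
  -- heights
  have hQy : Qg y ≤ 2 * c := by
    have hz : Bdd d g (g ^ i) := by
      have := Bdd.zpow hg hl hbg (i : ℤ)
      rwa [zpow_natCast] at this
    have := omega_abs (hA.ht (g ^ i) hz x)
    rw [← hy] at this
    omega
  have hQ1 : Qg u1 ≤ 5 * c := by have := hG.axq hg hb1; omega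
  have hQ2 : Qg u2 ≤ 5 * c := by have := hG.axq hg hb2; omega
  have hQg1 : Qg (g * u1) ≤ 6 * c := by have := omega_abs (hA.ht g hbg u1); omega
  -- shifts
  have hsh : ∀ v : G, |(Pg (g * v) : ℝ) - Pg v - t| ≤ c := by
    intro v
    have := ht 1 v
    rw [zpow_one] at this
    simpa using this
  have hτ : |(Pg (g * u1) - Pg u1) - (Pg (g * x) - Pg x)| ≤ 2 * c := by
    have h1 := abs_le.1 (hsh u1)
    have h2 := abs_le.1 (hsh x)
    have : |((Pg (g * u1) : ℝ) - Pg u1) - (Pg (g * x) - Pg x)| ≤ 2 * c := by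
      rw [abs_le]; constructor <;> linarith
    exact_mod_cast this
  have hτ0 : -c ≤ Pg (g * u1) - Pg u1 := by
    have h1 := abs_le.1 (hsh u1)
    have : -(c : ℝ) ≤ Pg (g * u1) - Pg u1 := by linarith
    exact_mod_cast this
  have hPy : -c ≤ Pg y - Pg x := by
    have h1 := ht i x
    rw [zpow_natCast, ← hy] at h1
    have h2 := abs_le.1 h1
    have h3 : (0 : ℝ) ≤ ((i : ℤ) : ℝ) * t := by positivity
    have : -(c : ℝ) ≤ Pg y - Pg x := by linarith
    exact_mod_cast this
  have hov : w ≤ Pg (g * u1) - Pg u1 + Δ + 121 * c := by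
    have h1 := ovg F hA ht hne (x := x) (by omega) i
    rw [abs_of_nonneg ht0, ← hy] at h1
    have h2 := abs_le.1 (hsh u1)
    have h3 : ((w : ℤ) : ℝ) ≤ Pg (g * u1) - Pg u1 + Δ + 121 * c := by
      rw [hw]
      push_cast
      linarith
    exact_mod_cast h3
  -- distances from `x`
  have hwx2 : w - 2 * c ≤ |P E x - P E u2| := by
    have h1 := abs_sub_le (P E x) (P E u2) (P E y)
    omega
  have hlow2 := hE.low x u2 (by omega)
  have hup1 := hE.up x u1
  have hp1' : |P E x - P E u1| ≤ 2 * c := by rw [abs_sub_comm]; exact hp1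
  have hupg2 := hG.up x u2
  have hlip1 := hG.lipP x u1
  have haxm2 := hG.axm hg hb2
  have hQnn := hE.nonneg x
  have hQnn2 := hE.nonneg u2
  have hord : 2 * (d x u2 : ℤ) - 7 * c ≤ Pg u2 - Pg x := by
    rcases abs_cases (Pg x - Pg u2) with h | h <;> rcases abs_cases (Pg u2 - Pg y) with h' | h' <;>
      rcases abs_cases (Pg x - Pg y) with h'' | h'' <;> omega
  have hdiff : w - 15 * c ≤ Pg u2 - Pg u1 := by
    have := omega_abs hlip1
    omega
  have hup12 := hE.up u1 u2
  have hlipg12 := omega_abs (hG.lipP u1 u2)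
  have h12 : |P E u1 - P E u2| ≤ w + 4 * c := by
    have h1 := abs_sub_le (P E u1) (P E x) (P E u2)
    have h2 := abs_sub_le (P E x) (P E y) (P E u2)
    rw [abs_sub_comm (P E y)] at h2
    omega
  have h12' : w - 4 * c ≤ |P E u1 - P E u2| := by
    have h1 := abs_sub_le (P E x) (P E u1) (P E u2)
    omega
  have hdiff' : Pg u2 - Pg u1 ≤ w + 9 * c := by omega
  -- displacement of `x`
  have hxx := omega_abs (hG.lipP x (g * x))
  have hτ' := omega_abs hτ
  have hup1g := hG.up u1 (g * u1)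
  -- the rotation
  have hrot : T E + 403 * c ≤ 2 * |P E u1 - P E (g * u1)| → 0 ≤ Pg (g * u1) - Pg u1 → False := by
    intro h1 h2
    obtain ⟨s, hs, -, hs2⟩ := rot_q V (l := 400 * c) (by omega) (by omega) (E := E) (a := u1)
      (b := g * u1) (by omega)
    have h3 := hmin s hs u1
    rw [mul_assoc] at h3
    rw [abs_sub_comm, abs_of_nonneg h2] at hup1g
    omega
  by_cases hcase : w - 60 * c ≤ Pg (g * u1) - Pg u1
  · -- large translation
    obtain ⟨u2', hb', hv1, hv2⟩ := hG.axs hg (a := u1) (b := g * u1)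
      (v := min (Pg u2) (Pg (g * u1))) (le_min (by omega) (by omega)) (min_le_right _ _)
    have hQ2' : Qg u2' ≤ 13 * c := by have := hG.axq hg hb'; omega
    have hup22 := hG.up u2 u2'
    have hP22 : |Pg u2 - Pg u2'| ≤ 69 * c + 2 := by
      rcases min_cases (Pg u2) (Pg (g * u1)) with h | h <;> rw [abs_le] <;> constructor <;> omega
    have haxm := hE.axm hg hb'
    have hlip22 := hE.lipP u2 u2'
    have h1 := abs_sub_le (P E u1) (P E u2') (P E u2)
    rw [abs_sub_comm (P E u2') (P E u2)] at h1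
    have h2 := abs_nonneg (P E u2' - P E (g * u1))
    exact hrot (by omega) (by omega)
  · -- small translation
    obtain ⟨u3, hb', hv1, hv2⟩ := hG.axs hg (a := u1) (b := u2)
      (v := max (Pg u1) (Pg (g * u1))) (le_max_left _ _) (max_le (by omega) (by omega))
    have hQ3 : Qg u3 ≤ 12 * c := by have := hG.axq hg hb'; omega
    have hQE3 : Q E u3 ≤ 6 * c := by have := hE.axq hg hb'; omega
    have hup3 := hG.up u3 (g * u1)
    have hP3 : |Pg u3 - Pg (g * u1)| ≤ c + 2 := by
      rcases max_cases (Pg u1) (Pg (g * u1)) with h | h <;> rw [abs_le] <;> constructor <;> omega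
    have hupE := hE.up u1 u3
    have hlip3 := omega_abs (hG.lipP u1 u3)
    have hlip3' := hE.lipP u3 (g * u1)
    have h1 := abs_sub_le (P E u1) (P E (g * u1)) (P E u3)
    rw [abs_sub_comm (P E (g * u1)) (P E u3)] at h1
    have hP3' := omega_abs hP3
    by_cases h2 : T E + 500 * c < 2 * (Pg (g * u1) - Pg u1)
    · exact hrot (by omega) (by omega)
    · omega

theorem omega_le {G : Type} [Group G] {ι : Type} [MulAction G ι] {n κ L k : ℕ} {c Δ T0 Θ : ℤ}
    {z : G} {d : G → G → ℕ} {P Q : ι → G → ℤ} {r : ι → G} {T : ι → ℤ} {γ : ι → G}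
    (V : Env n κ L k c Δ T0 Θ z d P Q r T γ) {g x : G} {Pg Qg : G → ℤ}
    (hA : AxisOf d c g Pg Qg) {t : ℝ} (ht : Sh Pg c g t)
    (hmin : ∀ s ∈ KK r, ∀ y, d x (g * x) ≤ d y (s * g * y)) (hx : Qg x ≤ c) {E : ι}
    (hne : g • E ≠ E) (i : ℕ) : 2 * |P E x - P E (g ^ i * x)| ≤ T E + 2 * Δ + 800 * c := by
  rcases le_total 0 t with h | h
  · exact omega_pos V hA ht h hmin hx hne i
  · refine omega_pos V hA.neg (t := -t) (fun m v => ?_) (by linarith) hmin hx hne i
    have := ht m v
    rw [← abs_neg] at this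
    push_cast
    convert this using 2
    ring

end Burn
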