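import Pool.Agent.Burn.Hyp
import Pool.Agent.Burn.Grow
import Pool.Agent.Burn.Axis
import Pool.Agent.Burn.Tau
import Pool.Agent.Burn.Cen1
import Pool.Agent.Burn.Nt

set_option autoImplicit false

/-!
# Acylindricity at one scale implies acylindricity at all scales
-/

namespace Burn

section ACYL
variable {G : Type} [Group G] {d : G → G → ℕ} {z : G} {δ κ n : ℕ}

theorem upg_near_mono {C C' : ℕ} {g u : G} (h : NearAx d C g u) (hle : C ≤ C') :
    NearAx d C' g u := by
  intro i
  have := h i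
  omega

/-- statement U1 -/
theorem upg_one (hB : Base δ z d) (hδ : 1 ≤ δ) (hT : Tri n κ z d) (hn : 0 < n) {D0 m0 C R : ℕ}
    (h0 : Acyl0 κ D0 (100 * δ) m0 C z d) {x y g u : G}
    (hxy : D0 + 2 * m0 + 40 * R + 1000 * δ ≤ d x y) (hg : Moves R d x y g)
    (hgz : g ∉ Subgroup.zpowers z) (hu : Btw d x u y) (h1 : m0 + 20 * R + 500 * δ ≤ d x u)
    (h2 : m0 + 20 * R + 500 * δ ≤ d u y) : Lox d κ g ∧ NearAx d (C + 7 * δ) g u := by
  by_cases hs : (20 * δ : ℤ) ≤ |sg d x y g u|
  · obtain ⟨h3, h4⟩ := nt_lox hB hδ hg hu (by omega) (by omega) hs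
    refine ⟨lox_of_unbdd hB hT hn (x := u) (fun B => ⟨B + 1, ?_⟩), upg_near_mono h3 (by omega)⟩
    have := h4 (B + 1)
    omega
  · obtain ⟨x', hx1, hx2⟩ := hB.geo.mid x u (10 * R + 100 * δ) (d x u - (10 * R + 100 * δ))
      (by omega)
    obtain ⟨y', hy1, hy2⟩ := hB.geo.mid u y (d u y - (10 * R + 100 * δ)) (10 * R + 100 * δ)
      (by omega)
    have hxu : Btw d x x' u := by unfold Btw; omega
    have hyu : Btw d y y' u := by
      unfold Btw
      have e1 := hB.geo.symm y y'
      have e2 := hB.geo.symm y' u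
      have e3 := hB.geo.symm y u
      omega
    obtain ⟨bx, bxu⟩ := Btw.trans hB.geo hu hxu
    obtain ⟨by', byu⟩ := Btw.trans hB.geo (Btw.symm hB.geo hu) hyu
    have hb : Btw d x' u y' := Btw.symm hB.geo (Btw.trans hB.geo (Btw.symm hB.geo bxu) hyu).2
    have by2 := Btw.symm hB.geo by'
    have ex : d x' y = d x y - (10 * R + 100 * δ) := by
      unfold Btw at bx
      omega
    have ey : d x y' = d x y - (10 * R + 100 * δ) := by
      unfold Btw at by2
      omega
    have e4 := hB.geo.symm u x'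
    have e5 := hB.geo.symm y' y
    have hIu : Ins d (8 * δ) (R + 10 * δ) x y u := ⟨by omega, by omega, by unfold Btw at hu; omega⟩
    have hIx : Ins d (8 * δ) (R + 10 * δ) x y x' := ⟨by omega, by omega, by unfold Btw at bx; omega⟩
    have hIy : Ins d (8 * δ) (R + 10 * δ) x y y' := ⟨by omega, by omega, by unfold Btw at by2; omega⟩
    have s1 := abs_le.1 (nt_sg hB hδ hg hIx hIu)
    have s2 := abs_le.1 (nt_sg hB hδ hg hIy hIu)
    push Not at hs
    have s3 := abs_lt.1 hs
    have m1 := nt_small hB hδ hg bx (by omega) (by omega) (by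
      rw [abs_le]; constructor <;> linarith [s1.1, s1.2, s3.1, s3.2])
    have m2 := nt_small hB hδ hg by2 (by omega) (by omega) (by
      rw [abs_le]; constructor <;> linarith [s2.1, s2.2, s3.1, s3.2])
    have hxy' : D0 ≤ d x' y' := by
      unfold Btw at hb hu
      omega
    have hm : Moves (100 * δ) d x' y' g := ⟨by omega, by omega⟩
    obtain ⟨-, h3 | ⟨h3, h4⟩⟩ := h0 x' y' g g hxy' hm hm
    · exact absurd h3 hgz
    · exact ⟨h3, upg_near_mono (h4 u hb (by omega) (by omega)) (by omega)⟩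

/-- the shift of a product with a power of `z` -/
theorem upg_sh_z (hB : Base δ z d) {c : ℤ} {g : G} {P Q : G → ℤ} (hA : AxisOf d c g P Q)
    {w : G} {t : ℝ} {j : ℤ} (h : Sh P c w t) : Sh P c (w * z ^ j) t := by
  intro m x
  have e : (w * z ^ j) ^ m * x = w ^ m * (z ^ (j * m) * x) := by
    rw [Commute.mul_zpow (tau_zcen hB j w).symm, ← zpow_mul, mul_assoc]
  rw [e]
  have := h m (z ^ (j * m) * x)
  rwa [tau_Pz hB hA] at this

theorem upg_sh_inv {P : G → ℤ} {c : ℤ} {h : G} {t : ℝ} (h1 : Sh P c h t) :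
    Sh P c h⁻¹ (-t) := by
  have := h1.zpow (-1)
  rw [zpow_neg_one] at this
  simpa using this

theorem upg_comm_bdd (hB : Base δ z d) {g h : G} (e : h * g = g * h) : Bdd d g h :=
  bdd_of_comm hB (m := 1) (j := 0) one_pos (by simpa using e)

theorem upg_lox_bdd (hB : Base δ z d) (g : G) : Bdd d g g := upg_comm_bdd hB rfl

/-- a loxodromic element which conjugates `w` to its inverse up to `z` does not exist. -/
theorem upg_no_inv (hB : Base δ z d) (hδ : 1 ≤ δ) {a w : G} {j : ℤ} (ha : Lox d κ a)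
    (hw : Lox d κ w) (e : a * w * a⁻¹ = w⁻¹ * z ^ j) : False := by
  obtain ⟨P, Q, hA⟩ := exists_axis hB hδ ha
  have e2 : w * a ^ 2 = a ^ 2 * w := by
    have h1 : a ^ 2 * w * (a ^ 2)⁻¹ = w := by
      calc a ^ 2 * w * (a ^ 2)⁻¹ = a * (a * w * a⁻¹) * a⁻¹ := by
            rw [pow_two]; group
        _ = a * (w⁻¹ * z ^ j) * a⁻¹ := by rw [e]
        _ = (a * w * a⁻¹)⁻¹ * z ^ j := by
            rw [← mul_assoc a, mul_assoc (a * w⁻¹), tau_zcen hB j a⁻¹]
            group
        _ = w := by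
            rw [e, mul_inv_rev, inv_inv, ← zpow_neg, mul_assoc, tau_zcen hB, mul_assoc, ← zpow_add]
            simp
    have h2 : a ^ 2 * w = w * a ^ 2 := by
      calc a ^ 2 * w = (a ^ 2 * w * (a ^ 2)⁻¹) * a ^ 2 := by group
        _ = w * a ^ 2 := by rw [h1]
    exact h2.symm
  have hbw : Bdd d a w := bdd_of_comm hB (m := 2) (j := 0) two_pos (by simpa using e2)
  obtain ⟨s, hs⟩ := hA.sh w hbw
  have h1 := sh_conj hA (upg_lox_bdd hB a) hs
  have h2 : Sh P (50 * (δ : ℤ)) (w⁻¹ * z ^ j) (-s) := upg_sh_z hB hA (upg_sh_inv hs)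
  rw [e] at h1
  have h3 := sh_unique h1 h2
  have h4 : s = 0 := by linarith
  rw [h4] at hs
  exact not_lox_of_sh hB hA hbw hs hw

/-- `a` commutes with the commutator `w`. -/
theorem upg_comm (hB : Base δ z d) (hδ : 1 ≤ δ) (hT : Tri n κ z d) (hn : 0 < n) {D0 m0 C : ℕ}
    (h0 : Acyl0 κ D0 (100 * δ) m0 C z d) {x' y' a w : G} (hxy : D0 ≤ d x' y')
    (ha : Lox d κ a) (hw : Lox d κ w) (hm1 : Moves (15 * δ) d x' y' w)
    (hm2 : Moves (15 * δ) d x' y' (a * w * a⁻¹)) : a * w = w * a := by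
  obtain ⟨hc, -⟩ := h0 x' y' w (a * w * a⁻¹) hxy ⟨by have := hm1.1; omega, by have := hm1.2; omega⟩
    ⟨by have := hm2.1; omega, by have := hm2.2; omega⟩
  set w' := a * w * a⁻¹ with hw'
  obtain ⟨P, Q, hA⟩ := exists_axis hB hδ hw
  have hbw := upg_lox_bdd hB w
  have hbw' : Bdd d w w' := upg_comm_bdd hB hc.symm
  obtain ⟨t, ht⟩ := hA.sh w hbw
  obtain ⟨t', ht'⟩ := hA.sh w' hbw'
  have habs := sh_abs hB hA (a := a) hbw hbw' ht ht'
  have key : ∀ f : G, w' * f = f * w' → Bdd d w f → ∀ s : ℝ, Sh P (50 * (δ : ℤ)) f s → t' + s = 0 →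
      Moves (15 * δ) d x' y' f → ∃ j : ℤ, w' * f = z ^ j := by
    intro f hf hbf s hs hts hmf
    have hb : Bdd d w (w' * f) := hbw'.mul hB.geo hB.left hbf
    obtain ⟨v, hv⟩ := hA.sh _ hb
    have h1 := sh_mul hB hA (j := 0) (by simpa using hf) ht' hs
    have h2 := sh_unique hv h1
    rw [h2, hts] at hv
    have hnl := not_lox_of_sh (κ := κ) hB hA hb hv
    have hmv : Moves (100 * δ) d x' y' (w' * f) := by
      constructor
      · have e1 := hB.geo.tri x' (w' * x') (w' * f * x')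
        rw [mul_assoc, hB.left] at e1
        have e2 := hm2.1
        have e3 := hmf.1
        rw [mul_assoc]
        omega
      · have e1 := hB.geo.tri y' (w' * y') (w' * f * y')
        rw [mul_assoc, hB.left] at e1
        have e2 := hm2.2
        have e3 := hmf.2
        rw [mul_assoc]
        omega
    obtain ⟨-, h3 | ⟨h3, -⟩⟩ := h0 x' y' (w' * f) (w' * f) hxy hmv hmv
    · obtain ⟨j, hj⟩ := Subgroup.mem_zpowers_iff.1 h3
      exact ⟨j, hj.symm⟩
    · exact absurd h3 hnl
  have hinvm : Moves (15 * δ) d x' y' w⁻¹ := by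
    constructor
    · have e1 := hB.left w x' (w⁻¹ * x')
      rw [mul_inv_cancel_left] at e1
      have := hB.geo.symm (w * x') x'
      have := hm1.1
      omega
    · have e1 := hB.left w y' (w⁻¹ * y')
      rw [mul_inv_cancel_left] at e1
      have := hB.geo.symm (w * y') y'
      have := hm1.2
      omega
  rcases abs_eq_abs.1 habs with h1 | h1
  · -- plus
    obtain ⟨j, hj⟩ := key w⁻¹ (by
      have : w' * w = w * w' := hc.symm
      calc w' * w⁻¹ = w⁻¹ * (w * w') * w⁻¹ := by group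
        _ = w⁻¹ * (w' * w) * w⁻¹ := by rw [this]
        _ = w⁻¹ * w' := by group) (hbw.inv hB.geo hB.left) (-t) (upg_sh_inv ht) (by
        rw [h1]; ring) hinvm
    have e1 : a * w * a⁻¹ = w * z ^ j := by
      rw [← tau_zcen hB, ← hj, hw']
      group
    have h2 := cen1 hB hδ hT hn hw e1
    rw [h2, zpow_zero, mul_one] at e1
    calc a * w = (a * w * a⁻¹) * a := by group
      _ = w * a := by rw [e1]
  · -- minus
    obtain ⟨j, hj⟩ := key w hc.symm hbw t ht (by rw [h1]; ring) hm1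
    have e1 : a * w * a⁻¹ = w⁻¹ * z ^ j := by
      rw [← tau_zcen hB, ← hj, hw']
      group
    exact (upg_no_inv hB hδ ha hw e1).elim

theorem upg (hB : Base δ z d) (hδ : 1 ≤ δ) (hT : Tri n κ z d) (hn : 0 < n) {D0 m0 C : ℕ}
    (h0 : Acyl0 κ D0 (100 * δ) m0 C z d) (R : ℕ) (x y g h : G)
    (hxy : D0 + 2 * m0 + 40 * R + 1000 * δ ≤ d x y) (hg : Moves R d x y g)
    (hh : Moves R d x y h) : Good κ (m0 + 20 * R + 500 * δ) (C + 7 * δ) z d x y g h := by
  obtain ⟨u0, hu1, hu2⟩ := hB.geo.mid x y (m0 + 20 * R + 500 * δ)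
    (d x y - (m0 + 20 * R + 500 * δ)) (by omega)
  have hu0 : Btw d x u0 y := by unfold Btw; omega
  have lox : ∀ f, Moves R d x y f → f ∉ Subgroup.zpowers z → Lox d κ f := fun f hf hfz =>
    (upg_one hB hδ hT hn h0 hxy hf hfz hu0 (by omega) (by omega)).1
  refine ⟨?_, ?_⟩
  · by_cases hgz : g ∈ Subgroup.zpowers z
    · obtain ⟨j, rfl⟩ := Subgroup.mem_zpowers_iff.1 hgz
      exact tau_zcen hB j h
    by_cases hhz : h ∈ Subgroup.zpowers z
    · obtain ⟨j, rfl⟩ := Subgroup.mem_zpowers_iff.1 hhz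
      exact (tau_zcen hB j g).symm
    have Lg := lox g hg hgz
    have Lh := lox h hh hhz
    -- the points x', y'
    obtain ⟨x', hx1, hx2⟩ := hB.geo.mid x y (10 * R + 100 * δ) (d x y - (10 * R + 100 * δ))
      (by omega)
    obtain ⟨y', hy1, hy2⟩ := hB.geo.mid x' y (d x' y - (10 * R + 100 * δ)) (10 * R + 100 * δ)
      (by omega)
    have bx : Btw d x x' y := by unfold Btw; omega
    have byy : Btw d x' y' y := by unfold Btw; omega
    have by2 : Btw d x y' y := Btw.symm hB.geo (Btw.trans hB.geo (Btw.symm hB.geo bx)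
      (Btw.symm hB.geo byy)).1
    have exy' : d x y' = d x y - (10 * R + 100 * δ) := by
      unfold Btw at by2
      omega
    have hxy' : D0 ≤ d x' y' := by omega
    set w := g * h * g⁻¹ * h⁻¹ with hw
    have hm1 : Moves (15 * δ) d x' y' w := by
      have h1 : Moves R d x y 1 := ⟨by rw [one_mul, hB.geo.refl]; omega,
        by rw [one_mul, hB.geo.refl]; omega⟩
      constructor
      · have := nt_comm hB hδ (a := 1) h1 hg hh bx (by omega) (by omega)
        rwa [inv_one, mul_one, one_mul] at this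
      · have := nt_comm hB hδ (a := 1) h1 hg hh by2 (by omega) (by omega)
        rwa [inv_one, mul_one, one_mul] at this
    have hm2 : ∀ a, Moves R d x y a → Moves (15 * δ) d x' y' (a * w * a⁻¹) := fun a ha =>
      ⟨nt_comm hB hδ ha hg hh bx (by omega) (by omega),
        nt_comm hB hδ ha hg hh by2 (by omega) (by omega)⟩
    have hm1' : Moves (100 * δ) d x' y' w := ⟨by have := hm1.1; omega, by have := hm1.2; omega⟩
    obtain ⟨-, h1 | ⟨hwL, -⟩⟩ := h0 x' y' w w hxy' hm1' hm1'
    · obtain ⟨j, hj⟩ := Subgroup.mem_zpowers_iff.1 h1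
      have e1 : g * h * g⁻¹ = h * z ^ j := by
        rw [← tau_zcen hB, hj, hw]
        group
      have h2 := cen1 hB hδ hT hn Lh e1
      rw [h2, zpow_zero, mul_one] at e1
      calc g * h = (g * h * g⁻¹) * g := by group
        _ = h * g := by rw [e1]
    · exfalso
      have cg := upg_comm hB hδ hT hn h0 hxy' Lg hwL hm1 (hm2 g hg)
      have ch := upg_comm hB hδ hT hn h0 hxy' Lh hwL hm1 (hm2 h hh)
      have hpow : ∀ i : ℕ, g ^ i * h * (g ^ i)⁻¹ = w ^ i * h := by
        intro i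
        induction i with
        | zero => simp
        | succ i ih =>
          have c1 : g * w ^ i = w ^ i * g := (show Commute g w from cg).pow_right i
          calc g ^ (i + 1) * h * (g ^ (i + 1))⁻¹ = g * (g ^ i * h * (g ^ i)⁻¹) * g⁻¹ := by
                rw [pow_succ']; group
            _ = g * w ^ i * (h * g⁻¹) := by rw [ih]; group
            _ = w ^ i * (g * h * g⁻¹ * h⁻¹) * h := by rw [c1]; group
            _ = w ^ (i + 1) * h := by rw [← hw, pow_succ]
      obtain ⟨P, Q, hA⟩ := exists_axis hB hδ hwL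
      have bg : Bdd d w g := upg_comm_bdd hB cg
      have bh : Bdd d w h := upg_comm_bdd hB ch
      obtain ⟨tg, htg⟩ := hA.sh g bg
      obtain ⟨th, hth⟩ := hA.sh h bh
      obtain ⟨t, ht⟩ := hA.sh w (upg_lox_bdd hB w)
      have hk := sh_lox hB hA hwL (upg_lox_bdd hB w) ht
      have ht0 : 0 < |t| := by
        rcases (abs_nonneg t).lt_or_eq with h3 | h3
        · exact h3
        · rw [← h3] at hk
          linarith
      have hle : |t| ≤ 0 := by
        apply tau_arch (c := 5 * (50 * (δ : ℝ)))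
        intro i
        have a1 := abs_le.1 (htg i (h * ((g ^ i)⁻¹ * (h⁻¹ * 1))))
        have a2 := abs_le.1 (hth 1 ((g ^ i)⁻¹ * (h⁻¹ * 1)))
        have a3 := abs_le.1 (htg (-(i : ℤ)) (h⁻¹ * 1))
        have a4 := abs_le.1 (hth (-1) 1)
        have a5 := abs_le.1 (ht i 1)
        have e1 : g ^ i * (h * ((g ^ i)⁻¹ * (h⁻¹ * 1))) = w ^ i * 1 := by
          have := hpow i
          calc g ^ i * (h * ((g ^ i)⁻¹ * (h⁻¹ * 1))) = (g ^ i * h * (g ^ i)⁻¹) * h⁻¹ := by group
            _ = w ^ i * 1 := by rw [this]; group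
        rw [zpow_natCast, e1] at a1
        rw [zpow_one] at a2
        rw [zpow_neg, zpow_natCast] at a3
        rw [zpow_neg_one] at a4
        rw [zpow_natCast] at a5
        push_cast at a1 a2 a3 a4 a5
        have h5 : (i : ℝ) * |t| = |(i : ℝ) * t| := by rw [abs_mul, Nat.abs_cast]
        rw [h5, abs_le]
        constructor <;> linarith [a1.1, a1.2, a2.1, a2.2, a3.1, a3.2, a4.1, a4.2, a5.1, a5.2]
      linarith
  · by_cases hgz : g ∈ Subgroup.zpowers z
    · exact Or.inl hgz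
    · exact Or.inr ⟨lox g hg hgz, fun u hu h1 h2 =>
        (upg_one hB hδ hT hn h0 hxy hg hgz hu h1 h2).2⟩

end ACYL

end Burn
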