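import Pool.Agent.Burn.Exn
import Pool.Agent.Burn.Upg
import Pool.Agent.Burn.Coarse

set_option autoImplicit false

namespace Burn

theorem pipe {G : Type} [Group G] {d : G → G → ℕ} {z : G} {δ κ n D0 C D M : ℕ}
    (hB : Base δ z d) (hδ : 1 ≤ δ) (hT : Tri n κ z d) (hn : 0 < n)
    (h : AcylE κ D0 (102 * δ) C z d) (hM : 1 ≤ M) (hC : 4 * C + 1800 * δ ≤ M)
    (hD : 3 * D0 + 1000 * δ + 2 * M ≤ M * D) :
    Level n (κ * M) D 50 z (fun x y => (d x y + M - 1) / M) := by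
  have h1 : Acyl0 κ D0 (100 * δ) D0 (4 * C + 1700 * δ) z d := by
    apply exn hB hδ
    have : 100 * δ + 2 * δ = 102 * δ := by ring
    rw [this]; exact h
  apply coarse (D1 := 3 * D0 + 1000 * δ) (C := 4 * C + 1700 * δ + 7 * δ) hB hT (by
    intro R x y g h' hxy hg hh
    obtain ⟨h2, h3⟩ := upg hB hδ hT hn h1 R x y g h' (by omega) hg hh
    refine ⟨h2, h3.imp id fun h4 => ⟨h4.1, fun u hu hu1 hu2 => h4.2 u hu (by omega) (by omega)⟩⟩)
  all_goals omega

end Burn
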