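import Pool.Agent.Burn.Defs
import Pool.Agent.Burn.Hyp
import Pool.Agent.Burn.Grow
import Pool.Agent.Burn.Axis
import Pool.Agent.Burn.Tau
import Pool.Agent.Burn.Cen1
import Pool.Agent.Burn.Nt

set_option autoImplicit false

/-!
# BURN : module PL

Few elements move `u` and `v` a little, so elements moving `x` and `y` a little commute.
-/

namespace Burn

section plaux
variable {G : Type} [Group G] {d : G → G → ℕ} {z : G} {δ κ n : ℕ}

theorem pl_zc (hB : Base δ z d) (i : ℤ) (g : G) : z ^ i * g = g * z ^ i :=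
  ((show Commute z g from hB.cen g).zpow_left i).eq

theorem pl_pow_notmem (hB : Base δ z d) (hT : Tri n κ z d) (hn : n.Prime) {g : G}
    (hg : g ∉ Subgroup.zpowers z) {i : ℕ} (h0 : 0 < i) (hi : i < n) :
    g ^ i ∉ Subgroup.zpowers z := by
  intro hmem
  rcases hT g with h | h | h
  · exact hg h
  · obtain ⟨c, hc, -⟩ := h
    apply hg
    have hcop : Nat.gcd i n = 1 :=
      (Nat.Coprime.symm ((Nat.Prime.coprime_iff_not_dvd hn).2 (Nat.not_dvd_of_pos_of_lt h0 hi)))
    have hb := Nat.gcd_eq_gcd_ab i n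
    rw [hcop] at hb
    have he : g = (g ^ i) ^ (Nat.gcdA i n) * (g ^ n) ^ (Nat.gcdB i n) := by
      rw [← zpow_natCast, ← zpow_natCast, ← zpow_mul, ← zpow_mul, ← zpow_add, ← hb]
      simp
    rw [he]
    refine mul_mem (Subgroup.zpow_mem _ hmem _) (Subgroup.zpow_mem _ ?_ _)
    rw [hc]
    exact Subgroup.zpow_mem _ (Subgroup.mem_zpowers z) c
  · have h1 := Lox.pow hB hT hn.pos h (i := (i : ℤ)) (by omega)
    rw [zpow_natCast] at h1
    exact Lox.not_z hB h1 hmem

theorem pl_btw_u (hB : Base δ z d) {x u v y : G} (h : d x y = d x u + d u v + d v y) :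
    Btw d x u y ∧ Btw d x v y := by
  have h1 := hB.geo.tri x u y
  have h2 := hB.geo.tri u v y
  have h3 := hB.geo.tri x v y
  have h4 := hB.geo.tri x u v
  unfold Btw
  constructor <;> omega

omit [Group G] in
theorem pl_ins {x w y : G} {e m : ℕ} (hb : Btw d x w y) (h1 : m ≤ d x w) (h2 : m ≤ d w y) :
    Ins d e m x y w := ⟨h1, h2, by unfold Btw at hb; omega⟩

theorem pl_moves_mono {R R' : ℕ} {x y g : G} (h : Moves R d x y g) (hR : R ≤ R') :
    Moves R' d x y g := ⟨h.1.trans hR, h.2.trans hR⟩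

/-- Step 1. -/
theorem pl_step1 (hB : Base δ z d) (hδ : 1 ≤ δ) (hT : Tri n κ z d) (hn : n.Prime) {R N1 : ℕ}
    {x u v y g : G} (hN1 : N1 < n) (hxy : d x y = d x u + d u v + d v y)
    (h1 : 4 * (N1 * R) + 40 * δ ≤ d x u) (h2 : 4 * (N1 * R) + 40 * δ ≤ d v y)
    (hc : ∀ f : ℕ → G, (∀ i, i < N1 + 1 → Moves (19 * δ) d u v (f i)) →
      ∃ i j, i < j ∧ j < N1 + 1 ∧ (f i)⁻¹ * f j ∈ Subgroup.zpowers z)
    (hm : Moves R d x y g) (hg : g ∉ Subgroup.zpowers z) :
    Lox d κ g ∧ ∃ i : ℕ, 0 < i ∧ NearAx d (7 * δ) (g ^ i) u ∧ NearAx d (7 * δ) (g ^ i) v := by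
  obtain ⟨hbu, hbv⟩ := pl_btw_u hB hxy
  have hux : 4 * (N1 * R) + 40 * δ ≤ d u y := by
    have := hbu
    unfold Btw at this
    omega
  have hvx : 4 * (N1 * R) + 40 * δ ≤ d x v := by
    have := hbv
    unfold Btw at this
    omega
  -- some power moves `u` or `v` far
  have hex : ∃ i, 0 < i ∧ i ≤ N1 ∧ ¬ Moves (19 * δ) d u v (g ^ i) := by
    by_contra hcon
    push Not at hcon
    have hall : ∀ i, i < N1 + 1 → Moves (19 * δ) d u v (g ^ i) := by
      intro i hi
      rcases Nat.eq_zero_or_pos i with h0 | h0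
      · subst h0
        constructor <;> simp [hB.geo.refl]
      · exact hcon i h0 (by omega)
    obtain ⟨i, j, hij, hj, hmem⟩ := hc (fun i => g ^ i) hall
    apply pl_pow_notmem hB hT hn hg (i := j - i) (by omega) (by omega)
    have he : g ^ (j - i) = (g ^ i)⁻¹ * g ^ j := by
      rw [eq_inv_mul_iff_mul_eq, ← pow_add]
      congr 1
      omega
    rw [he]
    exact hmem
  obtain ⟨i, hi0, hi1, hnm⟩ := hex
  have hmi : Moves (N1 * R) d x y (g ^ i) :=
    pl_moves_mono (moves_pow hB hm i) (Nat.mul_le_mul_right R hi1)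
  have hiu : Ins d (8 * δ) (N1 * R + 10 * δ) x y u := pl_ins hbu (by omega) (by omega)
  have hiv : Ins d (8 * δ) (N1 * R + 10 * δ) x y v := pl_ins hbv (by omega) (by omega)
  have hsg : |sg d x y (g ^ i) u - sg d x y (g ^ i) v| ≤ 2 * δ := nt_sg hB hδ hmi hiu hiv
  have hbig : 20 * (δ : ℤ) ≤ |sg d x y (g ^ i) u| ∧ 20 * (δ : ℤ) ≤ |sg d x y (g ^ i) v| := by
    have h30 : 30 * (δ : ℤ) < |sg d x y (g ^ i) u| ∨ 30 * (δ : ℤ) < |sg d x y (g ^ i) v| := by
      by_contra hcon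
      push Not at hcon
      apply hnm
      exact ⟨nt_small hB hδ hmi hbu (by omega) (by omega) hcon.1,
        nt_small hB hδ hmi hbv (by omega) (by omega) hcon.2⟩
    have a1 := abs_sub_abs_le_abs_sub (sg d x y (g ^ i) u) (sg d x y (g ^ i) v)
    have a2 := abs_sub_abs_le_abs_sub (sg d x y (g ^ i) v) (sg d x y (g ^ i) u)
    rw [abs_sub_comm] at a2
    rcases h30 with h30 | h30 <;> constructor <;> omega
  obtain ⟨hnu, hgu⟩ := nt_lox hB hδ hmi hbu (by omega) (by omega) hbig.1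
  obtain ⟨hnv, -⟩ := nt_lox hB hδ hmi hbv (by omega) (by omega) hbig.2
  refine ⟨?_, i, hi0, hnu, hnv⟩
  apply lox_of_unbdd hB hT hn.pos (x := u)
  intro b
  refine ⟨i * (b + 1), ?_⟩
  have := hgu (b + 1)
  rw [← pow_mul] at this
  omega

theorem pl_bdd_self (hB : Base δ z d) (g : G) (i : ℤ) : Bdd d g (g ^ i) := by
  apply bdd_of_comm hB (m := 1) (j := 0) Nat.one_pos
  rw [pow_one, zpow_zero, mul_one, ← zpow_add_one, ← zpow_one_add, add_comm]

/-- The points `u` are close to the axis of `g`. -/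
theorem pl_Q (hB : Base δ z d) (hT : Tri n κ z d) (hn : 0 < n) {g u : G} {c : ℤ}
    {P Q : G → ℤ} (hA : AxisOf d c g P Q) (hL : Lox d κ g) {i : ℕ} (hi : 0 < i) {C : ℕ}
    (hN : NearAx d C (g ^ i) u) : Q u ≤ C + 6 * c := by
  have hb : Bdd d g (g ^ i) := by
    have := pl_bdd_self hB g (i : ℤ)
    rwa [zpow_natCast] at this
  obtain ⟨t, ht⟩ := hA.sh _ hb
  have hLi : Lox d κ (g ^ i) := by
    have := Lox.pow hB hT hn hL (i := (i : ℤ)) (by omega)
    rwa [zpow_natCast] at this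
  have h2 := sh_lox hB hA hLi hb ht
  have ht0 : t ≠ 0 := by
    rintro rfl
    simp at h2
    linarith
  exact near_Q hB hA hb ht ht0 hN

/-- An element of finite order is trivial. -/
theorem pl_tors (hB : Base δ z d) (hT : Tri n κ z d) (hn : 0 < n) {w : G} {i : ℕ} (hi : 0 < i)
    (hw : w ^ i = 1) : w = 1 := by
  rcases hT w with h | h | h
  · obtain ⟨c, rfl⟩ := Subgroup.mem_zpowers_iff.1 h
    have h1 : z ^ (c * (i : ℤ)) = 1 := by
      rw [zpow_mul, zpow_natCast]
      exact hw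
    have h2 := hB.inf _ h1
    have h3 : c = 0 := by
      rcases mul_eq_zero.1 h2 with h4 | h4
      · exact h4
      · omega
    rw [h3, zpow_zero]
  · exfalso
    obtain ⟨c, hc, hnc⟩ := h
    have h1 : z ^ (c * (i : ℤ)) = 1 := by
      rw [zpow_mul, zpow_natCast, ← hc, ← pow_mul, mul_comm, pow_mul, hw, one_pow]
    have h2 := hB.inf _ h1
    have h3 : c = 0 := by
      rcases mul_eq_zero.1 h2 with h4 | h4
      · exact h4
      · omega
    apply hnc
    rw [h3]
    exact dvd_zero _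
  · exfalso
    have h1 := Lox.pow hB hT hn h (i := (i : ℤ)) (by omega)
    rw [zpow_natCast, hw] at h1
    exact Lox.not_z hB h1 (Subgroup.one_mem _)

/-- Step 2. -/
theorem pl_step2 (hB : Base δ z d) (hδ : 1 ≤ δ) (hT : Tri n κ z d) (hn : 0 < n) {R N2 : ℕ}
    {x u v y g h : G} (hxy : d x y = d x u + d u v + d v y)
    (h1 : 10 * ((N2 + 1) * R) + 100 * δ ≤ d x u) (h2 : 10 * ((N2 + 1) * R) + 100 * δ ≤ d v y)
    (hc : ∀ f : ℕ → G, (∀ i, i < N2 + 1 → Moves (15 * δ) d u v (f i)) →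
      ∃ i j, i < j ∧ j < N2 + 1 ∧ (f i)⁻¹ * f j ∈ Subgroup.zpowers z)
    (hm : Moves R d x y g) (hm' : Moves R d x y h) (hL : Lox d κ g) :
    ∃ m : ℕ, 0 < m ∧ m ≤ N2 ∧ h * g ^ m = g ^ m * h := by
  obtain ⟨hbu, hbv⟩ := pl_btw_u hB hxy
  have hux : 10 * ((N2 + 1) * R) + 100 * δ ≤ d u y := by
    have := hbu
    unfold Btw at this
    omega
  have hvx : 10 * ((N2 + 1) * R) + 100 * δ ≤ d x v := by
    have := hbv
    unfold Btw at this
    omega
  have hall : ∀ i, i < N2 + 1 → Moves (15 * δ) d u v (g ^ i * h * (g ^ i)⁻¹ * h⁻¹) := by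
    intro i hi
    have ha : Moves ((N2 + 1) * R) d x y (1 : G) := by
      constructor <;> simp [hB.geo.refl]
    have hgi : Moves ((N2 + 1) * R) d x y (g ^ i) :=
      pl_moves_mono (moves_pow hB hm i) (Nat.mul_le_mul_right R hi.le)
    have hhi : Moves ((N2 + 1) * R) d x y h :=
      pl_moves_mono hm' (Nat.le_mul_of_pos_left R (by omega))
    have k1 := nt_comm hB hδ ha hgi hhi hbu h1 hux
    have k2 := nt_comm hB hδ ha hgi hhi hbv hvx h2
    simp only [one_mul, inv_one, mul_one] at k1 k2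
    exact ⟨k1, k2⟩
  obtain ⟨i, j, hij, hj, hmem⟩ := hc (fun i => g ^ i * h * (g ^ i)⁻¹ * h⁻¹) hall
  obtain ⟨t, ht⟩ := Subgroup.mem_zpowers_iff.1 hmem
  refine ⟨j - i, by omega, by omega, ?_⟩
  have hgj : g ^ j = g ^ (j - i) * g ^ i := by
    rw [← pow_add]
    congr 1
    omega
  -- `h⁻¹ * g ^ m * h = g ^ m * z ^ t`
  have e1 : h⁻¹ * g ^ (j - i) * h⁻¹⁻¹ = g ^ (j - i) * z ^ t := by
    have e2 : z ^ t = h * g ^ i * h⁻¹ * g ^ (j - i) * h * (g ^ j)⁻¹ * h⁻¹ := by
      rw [ht]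
      simp only [mul_inv_rev, inv_inv]
      rw [hgj]
      group
    have e3 : z ^ t = h⁻¹ * z ^ t * h := by
      rw [mul_assoc, pl_zc hB, ← mul_assoc, inv_mul_cancel, one_mul]
    have e4 : z ^ t = g ^ i * h⁻¹ * g ^ (j - i) * h * (g ^ j)⁻¹ := by
      rw [e3, e2]
      group
    have e5 : z ^ t = (g ^ i)⁻¹ * z ^ t * g ^ i := by
      rw [mul_assoc, pl_zc hB, ← mul_assoc, inv_mul_cancel, one_mul]
    have e6 : z ^ t = h⁻¹ * g ^ (j - i) * h * (g ^ (j - i))⁻¹ := by
      rw [e5, e4, hgj]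
      group
    rw [inv_inv, ← pl_zc hB, e6]
    group
  have hLm : Lox d κ (g ^ (j - i)) := by
    have := Lox.pow hB hT hn hL (i := ((j - i : ℕ) : ℤ)) (by omega)
    rwa [zpow_natCast] at this
  have ht0 := cen1 hB hδ hT hn hLm e1
  rw [ht0, zpow_zero, mul_one, inv_inv] at e1
  have e7 : g ^ (j - i) * h = h * g ^ (j - i) := by
    calc g ^ (j - i) * h = h * (h⁻¹ * g ^ (j - i) * h) := by group
      _ = h * g ^ (j - i) := by rw [e1]
  exact e7.symm

/-- Step 3: the centraliser of `g ^ m` has a centre of finite index. -/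
theorem pl_step3 (hB : Base δ z d) (hT : Tri n κ z d) (hn : 0 < n) {R N2 R2 N3 m : ℕ}
    {x u v g h : G} (hL : Lox d κ g) (hm0 : 0 < m) (hm1 : m ≤ N2) (e : h * g ^ m = g ^ m * h)
    {c q : ℤ} {P Q : G → ℤ} (hA : AxisOf d c g P Q) (hg : d x (g * x) ≤ R)
    (hQu : Q u ≤ q) (hQv : Q v ≤ q) (hR2 : 2 * q + 4 * c + N2 * (2 * R + c) ≤ 2 * R2)
    (hc : ∀ f : ℕ → G, (∀ i, i < N3 + 1 → Moves R2 d u v (f i)) →
      ∃ i j, i < j ∧ j < N3 + 1 ∧ (f i)⁻¹ * f j ∈ Subgroup.zpowers z) : g * h = h * g := by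
  classical
  -- the shift of `g`
  have hbg : Bdd d g g := by
    have := pl_bdd_self hB g 1
    rwa [zpow_one] at this
  obtain ⟨t, ht⟩ := hA.sh _ hbg
  have ht0 : t ≠ 0 := by
    have h2 := sh_lox hB hA hL hbg ht
    rintro rfl
    simp at h2
    linarith
  have htR : |t| ≤ 2 * R + c := by
    have h1 := ht 1 x
    have h2 := hA.axis.lipP (g * x) x
    rw [hB.geo.symm] at h2
    have h3 : (|P (g * x) - P x| : ℤ) ≤ 2 * R := h2.trans (by exact_mod_cast Nat.mul_le_mul_left 2 hg)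
    have h4 : (|(P (g * x) : ℝ) - P x|) ≤ 2 * R := by exact_mod_cast h3
    simp only [zpow_one, Int.cast_one, one_mul] at h1
    calc |t| = |((P (g * x) : ℝ) - P x) - ((P (g * x) : ℝ) - P x - t)| := by
            congr 1
            ring
      _ ≤ |(P (g * x) : ℝ) - P x| + |(P (g * x) : ℝ) - P x - t| := abs_sub _ _
      _ ≤ 2 * R + c := add_le_add h4 h1
  have hm0' : (0 : ℝ) < m := by exact_mod_cast hm0
  have hmt0 : (m : ℝ) * t ≠ 0 := mul_ne_zero hm0'.ne' ht0
  have htm : Sh P c (g ^ m) (m * t) := by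
    have := Sh.zpow ht (m : ℤ)
    simpa using this
  let H0 : Subgroup G := Subgroup.centralizer {g ^ m}
  have hmem : ∀ f : G, f ∈ H0 ↔ g ^ m * f = f * g ^ m := by
    intro f
    rw [Subgroup.mem_centralizer_singleton_iff]
    exact eq_comm
  have hgm : g ^ m ∈ H0 := (hmem _).2 rfl
  have hgH : g ∈ H0 := (hmem _).2 (by rw [← pow_succ, ← pow_succ'])
  have hhH : h ∈ H0 := (hmem _).2 e.symm
  have hbdd : ∀ f ∈ H0, Bdd d g f := by
    intro f hf
    apply bdd_of_comm hB (m := m) (j := 0) hm0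
    rw [zpow_zero, mul_one]
    exact ((hmem f).1 hf).symm
  -- representatives which move `u` and `v` a little
  have hrep : ∀ f ∈ H0, ∃ j : ℤ, Moves R2 d u v (f * (g ^ m) ^ j) := by
    intro f hf
    obtain ⟨s, hs⟩ := hA.sh _ (hbdd f hf)
    refine ⟨-⌊s / (m * t)⌋, ?_⟩
    set j : ℤ := -⌊s / (m * t)⌋ with hj
    have hfj : f * (g ^ m) ^ j ∈ H0 := mul_mem hf (Subgroup.zpow_mem _ hgm _)
    have hcomm : f * (g ^ m) ^ j = (g ^ m) ^ j * f * z ^ (0 : ℤ) := by
      rw [zpow_zero, mul_one]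
      exact ((show Commute f (g ^ m) from ((hmem f).1 hf).symm).zpow_right j).eq
    have h1 : Sh P (2 * c) (f * (g ^ m) ^ j) (s + j * (m * t)) :=
      sh_mul hB hA hcomm hs (Sh.zpow htm j)
    have h2 : |s + j * (m * t)| ≤ m * |t| := by
      have h3 : s + j * (m * t) = (m * t) * Int.fract (s / (m * t)) := by
        rw [Int.fract, hj]
        push_cast
        field_simp
        ring
      rw [h3, abs_mul, abs_mul, Nat.abs_cast, abs_of_nonneg (Int.fract_nonneg (s / (m * t)))]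
      have h4 := (Int.fract_lt_one (s / (m * t))).le
      calc (m : ℝ) * |t| * Int.fract (s / (m * t)) ≤ (m : ℝ) * |t| * 1 :=
            mul_le_mul_of_nonneg_left h4 (by positivity)
        _ = m * |t| := mul_one _
    have h5 : (m : ℝ) * |t| ≤ N2 * (2 * R + c) := by
      have : (m : ℝ) ≤ N2 := by exact_mod_cast hm1
      calc (m : ℝ) * |t| ≤ N2 * |t| := mul_le_mul_of_nonneg_right this (abs_nonneg _)
        _ ≤ N2 * (2 * R + c) := mul_le_mul_of_nonneg_left htR (by positivity)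
    have key : ∀ w : G, Q w ≤ q → d w (f * (g ^ m) ^ j * w) ≤ R2 := by
      intro w hw
      have k1 := h1 1 w
      simp only [zpow_one, Int.cast_one, one_mul] at k1
      have k2 := hA.ht _ (hbdd _ hfj) w
      have k3 := hA.axis.up w (f * (g ^ m) ^ j * w)
      have k4 : |(P (f * (g ^ m) ^ j * w) : ℝ) - P w| ≤ 2 * c + N2 * (2 * R + c) := by
        have h7 : |(P (f * (g ^ m) ^ j * w) : ℝ) - P w| ≤
            |(P (f * (g ^ m) ^ j * w) : ℝ) - P w - (s + j * (m * t))| + |s + j * (m * t)| := by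
          have := abs_add_le ((P (f * (g ^ m) ^ j * w) : ℝ) - P w - (s + j * (m * t)))
            (s + j * (m * t))
          rwa [sub_add_cancel] at this
        have k1' : |(P (f * (g ^ m) ^ j * w) : ℝ) - P w - (s + j * (m * t))| ≤ 2 * c := by
          have := k1
          push_cast at this
          exact this
        linarith
      have k5 : |P (f * (g ^ m) ^ j * w) - P w| ≤ 2 * c + N2 * (2 * R + c) := by
        exact_mod_cast k4
      rw [abs_sub_comm] at k5
      have k6 := (abs_le.1 k2).2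
      omega
    exact ⟨key u hQu, key v hQv⟩
  -- the centre of the centraliser
  have hzH : ∀ k : ℤ, z ^ k ∈ H0 := fun k => (hmem _).2 (pl_zc hB k _).symm
  have hfin : (Subgroup.center H0).FiniteIndex := by
    by_contra hcon
    have hinf : Infinite (H0 ⧸ Subgroup.center H0) := by
      rw [← not_finite_iff_infinite]
      intro hf
      exact hcon Subgroup.finiteIndex_of_finite_quotient
    let φ := Infinite.natEmbedding (H0 ⧸ Subgroup.center H0)
    have hr : ∀ i : ℕ, ∃ f : H0, (QuotientGroup.mk f : H0 ⧸ Subgroup.center H0) = φ i ∧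
        Moves R2 d u v (f : G) := by
      intro i
      obtain ⟨f, hf⟩ := QuotientGroup.mk_surjective (φ i)
      obtain ⟨j, hj⟩ := hrep f f.2
      have hcen : (⟨g ^ m, hgm⟩ : H0) ^ j ∈ Subgroup.center H0 := by
        apply Subgroup.zpow_mem
        rw [Subgroup.mem_center_iff]
        intro k
        exact Subtype.ext ((hmem k).1 k.2).symm
      refine ⟨f * (⟨g ^ m, hgm⟩ : H0) ^ j, ?_, ?_⟩
      · rw [← hf]
        rw [QuotientGroup.eq, mul_inv_rev, inv_mul_cancel_right]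
        exact inv_mem hcen
      · simpa using hj
    choose f hf hfm using hr
    obtain ⟨i, j, hij, hj, hz⟩ := hc (fun i => (f i : G)) (fun i _ => hfm i)
    obtain ⟨k, hk⟩ := Subgroup.mem_zpowers_iff.1 hz
    have hne : φ i ≠ φ j := fun h => hij.ne (φ.injective h)
    apply hne
    rw [← hf i, ← hf j, QuotientGroup.eq, Subgroup.mem_center_iff]
    intro a
    apply Subtype.ext
    have hk' : ((f i : G))⁻¹ * (f j : G) = z ^ k := hk.symm
    show (a : G) * (((f i : G))⁻¹ * (f j : G)) = ((f i : G))⁻¹ * (f j : G) * (a : G)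
    rw [hk', pl_zc hB]
  -- transfer
  have := hfin
  have hidx : 0 < (Subgroup.center H0).index :=
    Nat.pos_of_ne_zero (Subgroup.FiniteIndex.index_ne_zero)
  let a : H0 := ⟨g, hgH⟩
  let b : H0 := ⟨h, hhH⟩
  have hw : (a * b * a⁻¹ * b⁻¹) ^ (Subgroup.center H0).index = 1 := by
    rw [← MonoidHom.transferCenterPow_apply]
    have h1 : MonoidHom.transferCenterPow H0 (a * b * a⁻¹ * b⁻¹) = 1 := by
      have h2 : MonoidHom.transferCenterPow H0 a * MonoidHom.transferCenterPow H0 b =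
          MonoidHom.transferCenterPow H0 b * MonoidHom.transferCenterPow H0 a :=
        Subtype.ext (Subgroup.mem_center_iff.1 (MonoidHom.transferCenterPow H0 b).2 _)
      rw [map_mul, map_mul, map_mul, map_inv, map_inv, h2]
      group
    rw [h1]
    rfl
  have hw' : (g * h * g⁻¹ * h⁻¹) ^ (Subgroup.center H0).index = 1 := by
    have := congrArg (fun k : H0 => (k : G)) hw
    simpa [a, b] using this
  have hw1 := pl_tors hB hT hn hidx hw'
  calc g * h = (g * h * g⁻¹ * h⁻¹) * (h * g) := by group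
    _ = h * g := by rw [hw1, one_mul]

end plaux

theorem pl (δ R : ℕ) (hδ : 1 ≤ δ) (N : ℕ → ℕ) : ∃ B : ℕ, ∀ (n κ : ℕ), n.Prime → B < n →
    ∀ (G : Type) [Group G] (z : G) (d : G → G → ℕ), Base δ z d → Tri n κ z d →
    ∀ x u v y : G, d x y = d x u + d u v + d v y → B ≤ d x u → B ≤ d v y → Count N B z d u v →
    ∀ g h : G, Moves R d x y g → Moves R d x y h → GoodE κ (900 * δ) z d x y g h := by
  obtain ⟨N1, hN1⟩ : ∃ N1, N1 = N (19 * δ) := ⟨_, rfl⟩
  obtain ⟨N2, hN2⟩ : ∃ N2, N2 = N (15 * δ) := ⟨_, rfl⟩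
  obtain ⟨R2, hR2⟩ : ∃ R2, R2 = 407 * δ + N2 * (R + 25 * δ) := ⟨_, rfl⟩
  refine ⟨N1 + R2 + 10 * (N1 * R) + 10 * ((N2 + 1) * R) + 100 * δ, ?_⟩
  intro n κ hn hBn G _ z d hB hT x u v y hxy hxu hvy hC g h hmg hmh
  have hcount : ∀ R' : ℕ, R' ≤ N1 + R2 + 10 * (N1 * R) + 10 * ((N2 + 1) * R) + 100 * δ →
      ∀ f : ℕ → G, (∀ i, i < N R' + 1 → Moves R' d u v (f i)) →
      ∃ i j, i < j ∧ j < N R' + 1 ∧ (f i)⁻¹ * f j ∈ Subgroup.zpowers z := by
    intro R' hR' f hf
    by_contra hcon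
    push Not at hcon
    have := hC R' (N R' + 1) f hR' hf (fun i j hij hj => hcon i j hij hj)
    omega
  have hc1 := hcount (19 * δ) (by omega)
  rw [← hN1] at hc1
  have hc2 := hcount (15 * δ) (by omega)
  rw [← hN2] at hc2
  have hc3 := hcount R2 (by omega)
  have hstep1 : ∀ g : G, Moves R d x y g → g ∉ Subgroup.zpowers z → Lox d κ g ∧
      ∃ i : ℕ, 0 < i ∧ NearAx d (7 * δ) (g ^ i) u ∧ NearAx d (7 * δ) (g ^ i) v :=
    fun g hm hg => pl_step1 hB hδ hT hn (by omega) hxy (by omega) (by omega) hc1 hm hg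
  have hbu := (pl_btw_u hB hxy).1
  have hnear : ∀ g : G, Moves R d x y g → g ∉ Subgroup.zpowers z → NearAx d (900 * δ) g u := by
    intro g hm hg
    obtain ⟨hL, i, hi, hu, -⟩ := hstep1 g hm hg
    obtain ⟨P, Q, hA⟩ := exists_axis hB hδ hL
    have hQ := pl_Q hB hT hn.pos hA hL hi hu
    have hbg : Bdd d g g := by
      have := pl_bdd_self hB g 1
      rwa [zpow_one] at this
    obtain ⟨t, ht⟩ := hA.sh _ hbg
    apply Q_near hB hA hbg ht
    push_cast at hQ ⊢
    linarith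
  refine ⟨?_, ?_⟩
  · by_cases hgz : g ∈ Subgroup.zpowers z
    · obtain ⟨c, rfl⟩ := Subgroup.mem_zpowers_iff.1 hgz
      exact pl_zc hB c h
    by_cases hhz : h ∈ Subgroup.zpowers z
    · obtain ⟨c, rfl⟩ := Subgroup.mem_zpowers_iff.1 hhz
      exact (pl_zc hB c g).symm
    obtain ⟨hL, i, hi, hu, hv⟩ := hstep1 g hmg hgz
    obtain ⟨m, hm0, hm1, e⟩ := pl_step2 hB hδ hT hn.pos hxy (by omega) (by omega) hc2 hmg hmh hL
    obtain ⟨P, Q, hA⟩ := exists_axis hB hδ hL
    have hQu := pl_Q hB hT hn.pos hA hL hi hu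
    have hQv := pl_Q hB hT hn.pos hA hL hi hv
    refine pl_step3 hB hT hn.pos (R := R) (N2 := N2) (R2 := R2) hL hm0 hm1 e hA hmg.1
      (q := 307 * δ) ?_ ?_ ?_ hc3
    · push_cast at hQu
      linarith
    · push_cast at hQv
      linarith
    · rw [hR2]
      push_cast
      ring_nf
      linarith
  · by_cases hgz : g ∈ Subgroup.zpowers z
    · exact Or.inl hgz
    · exact Or.inr ⟨(hstep1 g hmg hgz).1, u, hbu, hnear g hmg hgz⟩

end Burn
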