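import Pool.Agent.Burn.Bcase
import Pool.Agent.Burn.Acount

set_option autoImplicit false

/-!
# STEP0 : acylindricity of the quotient at one scale
-/

namespace Burn

section Step0
variable {G : Type} [Group G] {ι : Type} [MulAction G ι] {n κ L k D : ℕ} {c Δ T0 Θ : ℤ} {z : G}
  {d : G → G → ℕ} {P Q : ι → G → ℤ} {r : ι → G} {T : ι → ℤ} {γ : ι → G}

/-- parts of paths. -/
theorem step0_path {X : Type} {e : X → X → ℕ} {p : ℕ → X} {m a b : ℕ} (hp : IsPath e p m)
    (hab : a ≤ b) (hb : b ≤ m) : IsPath e (fun i => p (a + i)) (b - a) := by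
  intro i j hij hj
  show e (p (a + i)) (p (a + j)) = j - i
  rw [hp (a + i) (a + j) (by omega) (by omega)]; omega

/-- parts of minimal paths are minimal. -/
theorem step0_min (V : Env n κ L k c Δ T0 Θ z d P Q r T γ) {p : ℕ → G} {m a b : ℕ}
    (hp : IsPath (dh c d Q) p m) (hmin : ∀ s ∈ KK r, m ≤ dh c d Q (p 0) (s * p m)) (hab : a ≤ b)
    (hb : b ≤ m) : ∀ s ∈ KK r, dh c d Q (p a) (p b) ≤ dh c d Q (p a) (s * p b) := by
  intro s hs
  have h1 := hmin s hs
  have h2 := V.geoh.tri (p 0) (p a) (s * p m)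
  have h3 := V.geoh.tri (p a) (s * p b) (s * p m)
  rw [V.lefth, hp b m hb le_rfl] at h3
  rw [hp 0 a (Nat.zero_le _) (by omega)] at h2
  rw [hp a b hab hb]
  omega

/-- a minimal path stays a path in the quotient. -/
theorem step0_dq (V : Env n κ L k c Δ T0 Θ z d P Q r T γ) [(KK r).Normal] {p : ℕ → G} {m a b : ℕ}
    (hp : IsPath (dh c d Q) p m) (hmin : ∀ s ∈ KK r, m ≤ dh c d Q (p 0) (s * p m)) (hab : a ≤ b)
    (hb : b ≤ m) :
    dq (dh c d Q) (KK r) (p a : G ⧸ KK r) (p b : G ⧸ KK r) = b - a := by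
  rw [dq_iso V (step0_min V hp hmin hab hb), hp a b hab hb]

/-- a minimal lift of a pair of points of the quotient. -/
theorem step0_lift (V : Env n κ L k c Δ T0 Θ z d P Q r T γ) [(KK r).Normal] (X Y : G ⧸ KK r)
    (h0 : 0 < dq (dh c d Q) (KK r) X Y) :
    ∃ (p : ℕ → G) (m : ℕ), IsPath (dh c d Q) p m ∧ (p 0 : G ⧸ KK r) = X ∧
      (p m : G ⧸ KK r) = Y ∧ (∀ s ∈ KK r, m ≤ dh c d Q (p 0) (s * p m)) ∧
      (∀ E, 2 * |P E (p 0) - P E (p m)| < T E + 5 * c) ∧ dq (dh c d Q) (KK r) X Y = m := by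
  obtain ⟨x, rfl⟩ := QuotientGroup.mk_surjective X
  obtain ⟨y0, rfl⟩ := QuotientGroup.mk_surjective Y
  obtain ⟨s, hs, hmin, hred⟩ := red V x y0
  have hy : ((s * y0 : G) : G ⧸ KK r) = (y0 : G ⧸ KK r) := by
    rw [QuotientGroup.mk_mul, (QuotientGroup.eq_one_iff s).mpr hs, one_mul]
  have hmin' : ∀ s' ∈ KK r, dh c d Q x (s * y0) ≤ dh c d Q x (s' * (s * y0)) := by
    intro s' hs'
    rw [← mul_assoc]
    exact hmin _ (mul_mem hs' hs)
  have hdq := dq_iso V hmin'
  rw [hy] at hdq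
  obtain ⟨p, hp, hp0, hpm⟩ := exists_path V.geoh x (s * y0)
  have hm0 : 0 < dh c d Q x (s * y0) := by rw [← hdq]; exact h0
  set m := dh c d Q x (s * y0) with hm
  refine ⟨Function.update p m (s * y0), m, ?_, ?_, ?_, ?_, ?_, hdq⟩
  · intro i j hij hj
    rcases hj.lt_or_eq with h | h
    · rw [Function.update_of_ne (by omega), Function.update_of_ne (by omega)]
      exact hp i j hij hj
    · subst h
      rw [Function.update_self]
      rcases hij.lt_or_eq with h' | h'
      · rw [Function.update_of_ne (by omega)]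
        have h1 := hp i m hij le_rfl
        have h2 := V.geoh.tri (p i) (p m) (s * y0)
        have h3 := V.geoh.tri (p i) (s * y0) (p m)
        have h4 := V.geoh.symm (s * y0) (p m)
        omega
      · rw [h', Function.update_self, V.geoh.refl]
        omega
  · rw [Function.update_of_ne (by omega), hp0]
  · rw [Function.update_self, hy]
  · intro s' hs'
    rw [Function.update_of_ne (by omega), hp0, Function.update_self, hm]
    exact hmin' s' hs'
  · intro E
    rw [Function.update_of_ne (by omega), hp0, Function.update_self]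
    exact hred E

/-- a large difference of positions gives a large jump. -/
theorem step0_jump (V : Env n κ L k c Δ T0 Θ z d P Q r T γ) {p : ℕ → G} {m a b : ℕ} {E : ι}
    {l : ℤ} (hp : IsPath (dh c d Q) p m) (hab : a ≤ b) (hb : b ≤ m) (hl : Θ ≤ l)
    (h : l ≤ |P E (p a) - P E (p b)|) :
    ∃ j, a ≤ j ∧ j < b ∧ Q E (p j) ≤ 2 * c ∧ Q E (p (j + 1)) ≤ 2 * c ∧
      l - 2 * Θ ≤ |P E (p j) - P E (p (j + 1))| ∧ |P E (p a) - P E (p j)| ≤ Θ ∧
      |P E (p (j + 1)) - P E (p b)| ≤ Θ := by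
  have hsub := step0_path hp hab hb
  have e : a + (b - a) = b := by omega
  obtain ⟨j, hj, h1, h2⟩ := V.pass E (fun i => p (a + i)) (b - a) hsub (by
    show Θ ≤ |P E (p (a + 0)) - P E (p (a + (b - a)))|
    rw [e, add_zero]
    exact hl.trans h)
  obtain ⟨h3, h4⟩ := V.jump E (fun i => p (a + i)) (b - a) j hsub hj h1 h2
  simp only [e, add_zero] at h1 h2 h3 h4
  rw [← add_assoc] at h2 h4
  refine ⟨a + j, by omega, by omega, h1, h2, ?_, h3, h4⟩
  have := abs_add_three (P E (p a) - P E (p (a + j))) (P E (p (a + j)) - P E (p (a + j + 1)))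
    (P E (p (a + j + 1)) - P E (p b))
  rw [show P E (p a) - P E (p (a + j)) + (P E (p (a + j)) - P E (p (a + j + 1))) +
    (P E (p (a + j + 1)) - P E (p b)) = P E (p a) - P E (p b) by ring] at this
  linarith

/-- one window without large angles. -/
theorem step0_window (V : Env n κ L k c Δ T0 Θ z d P Q r T γ) [(KK r).Normal]
    (hlev : Level n κ D 50 z d) (hn : n.Prime) (hn2 : n ≠ 2) (hL : 20 ≤ L) {K R' R3 : ℕ}
    (hK : Δ + 200 * c ≤ K) (hR3 : ((R' : ℤ) + 10 * k + 20) * (110 * Θ) ≤ R3)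
    (hT : 4 * (R3 : ℤ) ≤ T0) {p : ℕ → G} {m a b : ℕ} (hp : IsPath (dh c d Q) p m)
    (hmin : ∀ s ∈ KK r, m ≤ dh c d Q (p 0) (s * p m)) (hab : a ≤ b) (hb : b ≤ m)
    (hW : 2 * ((R' : ℤ) + k + 30) + 2 * (D + 50 * R3) + 10 * c ≤ (b : ℤ) - a)
    (hE : ∀ E, |P E (p a) - P E (p b)| ≤ 100 * Θ) {g h : G ⧸ KK r}
    (hg : Moves R' (dq (dh c d Q) (KK r)) (p a : G ⧸ KK r) (p b : G ⧸ KK r) g)
    (hh : Moves R' (dq (dh c d Q) (KK r)) (p a : G ⧸ KK r) (p b : G ⧸ KK r) h) :
    GoodE K (900 * (4 * k + 2)) (z : G ⧸ KK r) (dq (dh c d Q) (KK r)) (p 0 : G ⧸ KK r)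
      (p m : G ⧸ KK r) g h := by
  have hB := dq_base V
  have e1 := hp a b hab hb
  obtain ⟨hc, hc'⟩ := bcase V hlev hn hn2 hL hK hR3 hT (u := p a) (v := p b)
    (by rw [e1, Nat.cast_sub hab]; exact hW) (step0_min V hp hmin hab hb) hE hg hh
  refine ⟨hc, hc'.imp id fun ⟨hlox, w, hw, hN⟩ => ⟨hlox, w, ?_, ?_⟩⟩
  · have f1 := step0_dq V hp hmin (Nat.zero_le a) (hab.trans hb)
    have f2 := step0_dq V hp hmin hab hb
    have f3 := step0_dq V hp hmin hb le_rfl
    have f4 := step0_dq V hp hmin (Nat.zero_le m) le_rfl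
    have f5 := hB.geo.tri (p 0 : G ⧸ KK r) (p a : G ⧸ KK r) w
    have f6 := hB.geo.tri w (p b : G ⧸ KK r) (p m : G ⧸ KK r)
    have f7 := hB.geo.tri (p 0 : G ⧸ KK r) w (p m : G ⧸ KK r)
    unfold Btw at hw ⊢
    omega
  · intro i
    have := hN i
    omega

theorem step0 (V : Env n κ L k c Δ T0 Θ z d P Q r T γ) [(KK r).Normal]
    (hlev : Level n κ D 50 z d) (hn : n.Prime) (hn2 : n ≠ 2) (hL : 20 ≤ L) {K R R3 B W D0 : ℕ}
    (hK : Δ + 200 * c ≤ K)
    (hR3 : (((R + 2 * (4 * k + 2) : ℕ) : ℤ) + 10 * k + 20) * (110 * Θ) ≤ R3)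
    (hT : 4 * (R3 : ℤ) ≤ T0)
    (hpl : ∀ x u v y : G ⧸ KK r, dq (dh c d Q) (KK r) x y = dq (dh c d Q) (KK r) x u +
        dq (dh c d Q) (KK r) u v + dq (dh c d Q) (KK r) v y → B ≤ dq (dh c d Q) (KK r) x u →
      B ≤ dq (dh c d Q) (KK r) v y →
      Count (fun R => (2 * R + 1) ^ 2) B (z : G ⧸ KK r) (dq (dh c d Q) (KK r)) u v →
      ∀ g h : G ⧸ KK r, Moves R (dq (dh c d Q) (KK r)) x y g →
        Moves R (dq (dh c d Q) (KK r)) x y h →
        GoodE K (900 * (4 * k + 2)) (z : G ⧸ KK r) (dq (dh c d Q) (KK r)) x y g h)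
    (hW : 2 * (((R + 2 * (4 * k + 2) : ℕ) : ℤ) + k + 30) + 2 * (D + 50 * R3) + 10 * c ≤ W)
    (hD0 : 2 * (2 * B + k + 10) + 2 * W ≤ D0) :
    AcylE K D0 R (900 * (4 * k + 2)) (z : G ⧸ KK r) (dq (dh c d Q) (KK r)) := by
  classical
  intro X Y g h hXY hg hh
  have F := V.fl.fam
  have hc := F.hc
  have hΔ := F.hΔ
  have hΘ := V.hΘ
  have hbig := V.big
  have hB := dq_base V
  obtain ⟨p, m, hp, rfl, rfl, hmin, hred, hm⟩ := step0_lift V X Y (by omega)
  have hmD : D0 ≤ m := hm ▸ hXY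
  -- `g` and `h` move all points of the path by at most `R + 2 * (4 * k + 2)`
  have hbtw : ∀ i, i ≤ m → Btw (dq (dh c d Q) (KK r)) (p 0 : G ⧸ KK r) (p i : G ⧸ KK r)
      (p m : G ⧸ KK r) := by
    intro i hi
    have f1 := step0_dq V hp hmin (Nat.zero_le i) hi
    have f2 := step0_dq V hp hmin hi le_rfl
    have f3 := step0_dq V hp hmin (Nat.zero_le m) le_rfl
    unfold Btw
    omega
  have hmv : ∀ f : G ⧸ KK r, Moves R (dq (dh c d Q) (KK r)) (p 0 : G ⧸ KK r)
      (p m : G ⧸ KK r) f → ∀ i j, i ≤ m → j ≤ m →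
      Moves (R + 2 * (4 * k + 2)) (dq (dh c d Q) (KK r)) (p i : G ⧸ KK r) (p j : G ⧸ KK r) f := by
    intro f hf i j hi hj
    exact ⟨conv hB.geo hB.hyp hB.left (hbtw i hi) hf, conv hB.geo hB.hyp hB.left (hbtw j hj) hf⟩
  set a0 := 2 * B + k + 10 with ha0
  have hwin : ∀ a b, a ≤ b → b ≤ m → b = a + W → ¬ (∀ E, |P E (p a) - P E (p b)| ≤ 100 * Θ) ∨
      GoodE K (900 * (4 * k + 2)) (z : G ⧸ KK r) (dq (dh c d Q) (KK r)) (p 0 : G ⧸ KK r)
      (p m : G ⧸ KK r) g h := by
    intro a b hab hb hbW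
    by_cases hE : ∀ E, |P E (p a) - P E (p b)| ≤ 100 * Θ
    · right
      exact step0_window V hlev hn hn2 hL hK hR3 hT hp hmin hab hb
        (by rw [hbW]; push_cast; push_cast at hW; linarith) hE
        (hmv g hg a b (by omega) hb) (hmv h hh a b (by omega) hb)
    · left; exact hE
  rcases hwin a0 (a0 + W) (by omega) (by omega) rfl with hw1 | hw1
  swap
  · exact hw1
  rcases hwin (a0 + W) (a0 + W + W) (by omega) (by omega) rfl with hw2 | hw2
  swap
  · exact hw2
  push Not at hw1 hw2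
  obtain ⟨E1, hE1⟩ := hw1
  obtain ⟨F2, hF2⟩ := hw2
  obtain ⟨i1, hi1a, hi1b, ha, ha', hs1, -, -⟩ := step0_jump V hp (by omega) (by omega)
    (by linarith) hE1.le
  obtain ⟨i2', hi2a, hi2b, hb1, hb1', hs2, -, -⟩ := step0_jump V hp (by omega) (by omega)
    (by linarith) hF2.le
  -- the next large index
  have hex : ∃ i, i1 < i ∧ ∃ E, Q E (p i) ≤ 2 * c ∧ Q E (p (i + 1)) ≤ 2 * c ∧
      90 * Θ ≤ |P E (p i) - P E (p (i + 1))| :=
    ⟨i2', by omega, F2, hb1, hb1', by linarith⟩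
  obtain ⟨hi2, E2, hb, hb', hs3⟩ := Nat.find_spec hex
  have hle := Nat.find_min' hex (m := i2') ⟨by omega, F2, hb1, hb1', by linarith⟩
  have hmin2 := fun j (hj : j < Nat.find hex) => Nat.find_min hex hj
  set i2 := Nat.find hex with hi2def
  have hE : ∀ E, |P E (p (i1 + 1)) - P E (p i2)| ≤ 200 * Θ := by
    intro E
    by_contra hcon
    push Not at hcon
    obtain ⟨j, hj1, hj2, u1, u2, u3, -, -⟩ := step0_jump V hp (a := i1 + 1) (b := i2) (by omega)
      (by omega) (by linarith) hcon.le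
    exact hmin2 j hj2 ⟨by omega, E, u1, u2, by linarith⟩
  -- jumps of the shortened path
  have hsub := step0_path hp (a := B) (b := m - B) (by omega) (by omega)
  have hlen : m - B - B = m - 2 * B := by omega
  have e0 : B + (m - 2 * B) = m - B := by omega
  rw [hlen] at hsub
  have hbig70 : ∀ (E : ι) (i : ℕ), B ≤ i → i < m - B → Q E (p i) ≤ 2 * c →
      Q E (p (i + 1)) ≤ 2 * c → 90 * Θ ≤ |P E (p i) - P E (p (i + 1))| →
      70 * Θ ≤ |P E (p B) - P E (p (m - B))| := by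
    intro E i hiB him q1 q2 q3
    obtain ⟨h3, h4⟩ := V.jump E (fun i => p (B + i)) (m - 2 * B) (i - B) hsub (by omega)
      (by simpa [Nat.add_sub_cancel' hiB] using q1)
      (by
        show Q E (p (B + (i - B + 1))) ≤ 2 * c
        rwa [show B + (i - B + 1) = i + 1 by omega])
    simp only [e0, add_zero, Nat.add_sub_cancel' hiB] at h3 h4
    rw [show B + (i - B + 1) = i + 1 by omega] at h4
    have := abs_add_three (P E (p i) - P E (p B)) (P E (p B) - P E (p (m - B)))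
      (P E (p (m - B)) - P E (p (i + 1)))
    rw [show P E (p i) - P E (p B) + (P E (p B) - P E (p (m - B))) +
      (P E (p (m - B)) - P E (p (i + 1))) = P E (p i) - P E (p (i + 1)) by ring,
      abs_sub_comm (P E (p i)) (P E (p B)), abs_sub_comm (P E (p (m - B)))] at this
    linarith
  have hcount := acount V (p := fun i => p (B + i)) (m := m - 2 * B) (i1 := i1 - B)
    (i2 := i2 - B) (B := B) (E1 := E1) (E2 := E2) hsub
    (by
      intro s hs
      show m - 2 * B ≤ dh c d Q (p (B + 0)) (s * p (B + (m - 2 * B)))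
      rw [e0, add_zero]
      have := step0_min V hp hmin (a := B) (b := m - B) (by omega) (by omega) s hs
      rw [hp B (m - B) (by omega) (by omega)] at this
      omega)
    (by
      intro F'
      show 2 * |P F' (p (B + 0)) - P F' (p (B + (m - 2 * B)))| ≤ T F' + 10 * Θ
      rw [e0, add_zero]
      have hTF := F.hT F'
      by_cases hc1 : Θ ≤ |P F' (p B) - P F' (p (m - B))|
      · obtain ⟨j, hj1, hj2, u1, u2, -, u4, u5⟩ := step0_jump V hp (a := B) (b := m - B)
          (by omega) (by omega) le_rfl hc1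
        obtain ⟨u6, u7⟩ := V.jump F' p m j hp (by omega) u1 u2
        have hr := hred F'
        have w1 := abs_le.mp u4
        have w2 := abs_le.mp u5
        have w3 := abs_le.mp u6
        have w4 := abs_le.mp u7
        have w5 : |P F' (p B) - P F' (p (m - B))| ≤ |P F' (p 0) - P F' (p m)| + 4 * Θ := by
          have w6 := neg_abs_le (P F' (p 0) - P F' (p m))
          have w7 := le_abs_self (P F' (p 0) - P F' (p m))
          rw [abs_le]; constructor <;> linarith
        linarith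
      · push Not at hc1
        linarith)
    (by omega)
    (by
      show Q E1 (p (B + (i1 - B))) ≤ 2 * c
      rwa [show B + (i1 - B) = i1 by omega])
    (by
      show Q E1 (p (B + (i1 - B + 1))) ≤ 2 * c
      rwa [show B + (i1 - B + 1) = i1 + 1 by omega])
    (by
      show Q E2 (p (B + (i2 - B))) ≤ 2 * c
      rwa [show B + (i2 - B) = i2 by omega])
    (by
      show Q E2 (p (B + (i2 - B + 1))) ≤ 2 * c
      rwa [show B + (i2 - B + 1) = i2 + 1 by omega])
    (by
      show 70 * Θ ≤ |P E1 (p (B + 0)) - P E1 (p (B + (m - 2 * B)))|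
      rw [e0, add_zero]
      exact hbig70 E1 i1 (by omega) (by omega) ha ha' (by linarith))
    (by
      show 70 * Θ ≤ |P E2 (p (B + 0)) - P E2 (p (B + (m - 2 * B)))|
      rw [e0, add_zero]
      exact hbig70 E2 i2 (by omega) (by omega) hb hb' hs3)
    (by
      intro E
      show |P E (p (B + (i1 - B + 1))) - P E (p (B + (i2 - B)))| ≤ 200 * Θ
      rw [show B + (i1 - B + 1) = i1 + 1 by omega, show B + (i2 - B) = i2 by omega]
      exact hE E)
    (by omega) (by omega)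
  simp only [e0, add_zero] at hcount
  have f1 := step0_dq V hp hmin (Nat.zero_le B) (by omega)
  have f2 := step0_dq V hp hmin (a := B) (b := m - B) (by omega) (by omega)
  have f3 := step0_dq V hp hmin (a := m - B) (b := m) (by omega) le_rfl
  exact hpl _ (p B : G ⧸ KK r) (p (m - B) : G ⧸ KK r) _ (by omega) (by omega) (by omega)
    hcount g h hg hh

end Step0

end Burn
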