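import Pool.Agent.Burn.Axis
import Pool.Agent.Burn.Tau
import Pool.Agent.Burn.Mdisp
import Pool.Agent.Burn.Omega
import Pool.Agent.Burn.Loxq

set_option autoImplicit false

/-!
# Trichotomy for the quotient group
-/

namespace Burn

section TRI
variable {G : Type} [Group G] {ι : Type} [MulAction G ι] {n κ L k D : ℕ} {c Δ T0 Θ : ℤ} {z : G}
  {d : G → G → ℕ} {P Q : ι → G → ℤ} {r : ι → G} {T : ι → ℤ} {γ : ι → G}

/-- elements which fix a line become roots of powers of `z`. -/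
theorem tri_stab (V : Env n κ L k c Δ T0 Θ z d P Q r T γ) [(KK r).Normal] {g : G} {E : ι}
    (hg : g • E = E) : (g : G ⧸ KK r) ∈ Subgroup.zpowers (z : G ⧸ KK r) ∨
      Fin1 n (z : G ⧸ KK r) (g : G ⧸ KK r) := by
  obtain ⟨a, b, rfl⟩ := V.fl.stab E g hg
  have hcen : ∀ w : G ⧸ KK r, Commute (z : G ⧸ KK r) w := by
    intro w
    obtain ⟨w, rfl⟩ := QuotientGroup.mk_surjective w
    change (z : G ⧸ KK r) * (w : G ⧸ KK r) = (w : G ⧸ KK r) * (z : G ⧸ KK r)
    rw [← QuotientGroup.mk_mul, ← QuotientGroup.mk_mul, V.fl.fam.base.cen]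
  have h1 : ((γ E : G) : G ⧸ KK r) ^ n = (z : G ⧸ KK r) := by
    have h2 : r E ∈ KK r := Subgroup.subset_closure ⟨E, rfl⟩
    rw [V.fl.gam] at h2
    have h3 : ((γ E ^ n * z⁻¹ : G) : G ⧸ KK r) = 1 := (QuotientGroup.eq_one_iff _).2 h2
    rw [QuotientGroup.mk_mul, QuotientGroup.mk_pow, QuotientGroup.mk_inv, mul_inv_eq_one] at h3
    exact h3
  have h4 : ∀ j : ℤ, ((γ E : G) : G ⧸ KK r) ^ ((n : ℤ) * j) = (z : G ⧸ KK r) ^ j := by
    intro j
    rw [zpow_mul, zpow_natCast, h1]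
  have h5 : ((γ E ^ a * z ^ b : G) : G ⧸ KK r) =
      ((γ E : G) : G ⧸ KK r) ^ a * (z : G ⧸ KK r) ^ b := by
    rw [QuotientGroup.mk_mul, QuotientGroup.mk_zpow, QuotientGroup.mk_zpow]
  rw [h5]
  by_cases hd : (n : ℤ) ∣ a
  · left
    obtain ⟨a', rfl⟩ := hd
    rw [h4, ← zpow_add]
    exact Subgroup.zpow_mem _ (Subgroup.mem_zpowers _) _
  · right
    refine ⟨a + b * n, ?_, ?_⟩
    · have h6 : Commute (((γ E : G) : G ⧸ KK r) ^ a) ((z : G ⧸ KK r) ^ b) :=
        ((hcen _).zpow_left b).symm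
      rw [h6.mul_pow, ← zpow_natCast (((γ E : G) : G ⧸ KK r) ^ a), ← zpow_mul,
        mul_comm a (n : ℤ), h4, ← zpow_natCast ((z : G ⧸ KK r) ^ b), ← zpow_mul, ← zpow_add]
    · intro h
      apply hd
      have := dvd_sub h (Dvd.intro_left b (rfl : b * (n : ℤ) = b * n))
      rwa [add_sub_cancel_right] at this

/-- all elements with small displacement become roots of powers of `z`. -/
theorem small_quot (V : Env n κ L k c Δ T0 Θ z d P Q r T γ) [(KK r).Normal] (hn : n.Prime)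
    (hT : Tri n κ z d) {g x : G} (hg : d x (g * x) ≤ L) :
    (g : G ⧸ KK r) ∈ Subgroup.zpowers (z : G ⧸ KK r) ∨ Fin1 n (z : G ⧸ KK r) (g : G ⧸ KK r) := by
  rcases hT g with h1 | ⟨c', h1, h2⟩ | h1
  · left
    obtain ⟨j, rfl⟩ := Subgroup.mem_zpowers_iff.1 h1
    rw [QuotientGroup.mk_zpow]
    exact Subgroup.zpow_mem _ (Subgroup.mem_zpowers _) _
  · right
    refine ⟨c', ?_, h2⟩
    rw [← QuotientGroup.mk_pow, h1, QuotientGroup.mk_zpow]
  · obtain ⟨E, hE⟩ := V.fl.small g x h1 hg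
    exact tri_stab V hE

theorem tri_quot (V : Env n κ L k c Δ T0 Θ z d P Q r T γ) [(KK r).Normal] (hn : n.Prime)
    (hT : Tri n κ z d) (hL : 20 ≤ L) {K : ℕ} (hK : Δ + 200 * c ≤ K) :
    Tri n K (z : G ⧸ KK r) (dq (dh c d Q) (KK r)) := by
  intro q
  have F := V.fl.fam
  have hB := F.base
  have hc := F.hc
  have hΔ := F.hΔ
  have hΘ := V.hΘ
  have hbig := V.big
  have hex : ∃ N : ℕ, ∃ g x : G, (g : G ⧸ KK r) = q ∧ d x (g * x) = N := by
    obtain ⟨g, hg⟩ := QuotientGroup.mk_surjective q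
    exact ⟨_, g, 1, hg, rfl⟩
  classical
  obtain ⟨g, x, hgq, hgx⟩ := Nat.find_spec hex
  have hmin : ∀ g' x' : G, (g' : G ⧸ KK r) = q → d x (g * x) ≤ d x' (g' * x') := by
    intro g' x' h'
    rw [hgx]
    exact Nat.find_min' hex ⟨g', x', h', rfl⟩
  clear hgx
  subst hgq
  by_cases h1 : d x (g * x) ≤ L
  · rcases small_quot V hn hT h1 with h2 | h2
    · exact Or.inl h2
    · exact Or.inr (Or.inl h2)
  by_cases h2 : ∃ E : ι, g • E = E
  · obtain ⟨E, hE⟩ := h2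
    rcases tri_stab V hE with h2 | h2
    · exact Or.inl h2
    · exact Or.inr (Or.inl h2)
  push Not at h2
  right; right
  obtain ⟨h3, h4⟩ := mdisp hB (fun y => hmin g y rfl) (by omega : 20 < d x (g * x))
  have hLox : Lox d κ g := lox_of_unbdd hB hT hn.pos (x := x) (fun B => ⟨B + 1, by
    have := h4 (B + 1)
    omega⟩)
  obtain ⟨Pg, Qg, hA0⟩ := exists_axis hB (by norm_num) hLox
  have hbg : Bdd d g g := bdd_of_comm hB (m := 1) (j := 0) one_pos (by simp)
  obtain ⟨t, ht0⟩ := hA0.sh g hbg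
  have ht20 : 20 ≤ |t| := by
    have : 20 - |t| ≤ 0 := by
      apply tau_arch (c := 2 * (Qg x : ℝ) + 3 * ((50 * ((3 : ℕ) : ℤ) : ℤ) : ℝ))
      intro i
      have u := tau_up hB hA0 hbg ht0 i x
      have l : (10 : ℝ) * i ≤ (d x (g ^ i * x) : ℝ) := by exact_mod_cast h4 i
      linarith
    linarith
  have htne : t ≠ 0 := by
    rintro rfl
    rw [abs_zero] at ht20
    linarith
  have hQx : Qg x ≤ c := by
    have := near_Q hB hA0 hbg ht0 htne h3
    push_cast at this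
    linarith
  have hle : 50 * ((3 : ℕ) : ℤ) ≤ c := by push_cast; linarith
  have hA := hA0.mono hle
  have ht : Sh Pg c g t := fun m y => (ht0 m y).trans (by exact_mod_cast hle)
  have hk : ∀ s ∈ KK r, ∀ y, d x (g * x) ≤ d y (s * g * y) := by
    intro s hs y
    apply hmin
    rw [QuotientGroup.mk_mul, (QuotientGroup.eq_one_iff s).2 hs, one_mul]
  refine lox_quot V hA ht h2 (x := x) (fun E i => ?_) htne ?_
  · have h5 := omega_le V hA ht hk hQx (h2 E) i
    have h6 := F.hT E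
    linarith
  · have h7 : (Δ : ℝ) + 200 * c ≤ K := by exact_mod_cast hK
    have h8 : (1000 : ℝ) ≤ c := by exact_mod_cast hc
    have h9 : (c : ℝ) ≤ Δ := by exact_mod_cast hΔ
    nlinarith

end TRI

end Burn
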