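import Pool.Agent.Burn.Env
import Pool.Agent.Burn.Pipe
import Pool.Agent.Burn.Pl
import Pool.Agent.Burn.Fam
import Pool.Agent.Burn.Tri
import Pool.Agent.Burn.Step0

set_option autoImplicit false

/-!
# One step of the construction
-/

namespace Burn

theorem GoodE.mono_C {G : Type} [Group G] {κ C C' : ℕ} {z : G} {d : G → G → ℕ} {x y g h : G}
    (hc : C ≤ C') (H : GoodE κ C z d x y g h) : GoodE κ C' z d x y g h := by
  obtain ⟨h1, h2⟩ := H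
  refine ⟨h1, h2.imp id ?_⟩
  rintro ⟨hL, u, hu, hN⟩
  exact ⟨hL, u, hu, fun i => (hN i).trans (by omega)⟩

theorem one_step (D1 κ1 : ℕ) : ∃ D κ n0 : ℕ, D1 ≤ D ∧ κ1 ≤ κ ∧ ∀ n : ℕ, n.Prime → n0 ≤ n →
    ∀ (G : Type) [Group G] (z : G) (d : G → G → ℕ), Level n κ D 50 z d →
    ∃ (K : Subgroup G) (_ : K.Normal) (d' : G ⧸ K → G ⧸ K → ℕ),
      Level n κ D 50 (z : G ⧸ K) d' ∧
      (∀ x y : G, 2 * d' (x : G ⧸ K) (y : G ⧸ K) ≤ d x y + 1) ∧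
      (∀ s ∈ K, s ≠ 1 → ∀ x, 100 ≤ d x (s * x)) ∧
      (∀ g x : G, d x (g * x) ≤ 20 →
        (g : G ⧸ K) ∈ Subgroup.zpowers (z : G ⧸ K) ∨ Fin1 n (z : G ⧸ K) (g : G ⧸ K)) := by
  obtain ⟨k, hk⟩ := env_exists
  obtain ⟨B, hB⟩ := pl (4 * k + 2) (102 * (4 * k + 2)) (by omega) (fun R => (2 * R + 1) ^ 2)
  obtain ⟨δ, hδ⟩ : ∃ δ : ℕ, δ = 4 * k + 2 := ⟨_, rfl⟩
  rw [← hδ] at hB
  obtain ⟨R, hR⟩ : ∃ R : ℕ, R = 102 * δ := ⟨_, rfl⟩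
  rw [← hR] at hB
  obtain ⟨a1, ha1⟩ : ∃ a1 : ℕ, a1 = (R + 2 * δ + 10 * k + 20) * (110 * (2 * k + 300)) := ⟨_, rfl⟩
  obtain ⟨e, he⟩ : ∃ e : ℕ, e = 22002000 := ⟨_, rfl⟩
  obtain ⟨a, ha⟩ : ∃ a : ℕ, a = 2 * (2 + 200 * a1) := ⟨_, rfl⟩
  obtain ⟨b, hb⟩ : ∃ b : ℕ, b = 2 * (2 * B + k + 10) + 2 * (2 * (R + 2 * δ + k + 30) +
    100 * (a1 * e) + 10000) := ⟨_, rfl⟩
  obtain ⟨M, hM⟩ : ∃ M : ℕ, M = 5400 * δ + 3 * a + 2 := ⟨_, rfl⟩
  obtain ⟨D, hD⟩ : ∃ D : ℕ, D = D1 + 3 * b + 1000 * δ + 2 * M := ⟨_, rfl⟩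
  obtain ⟨Δ, hΔ'⟩ : ∃ Δ : ℕ, Δ = 2 * D + e := ⟨_, rfl⟩
  obtain ⟨W, hW⟩ : ∃ W : ℕ, W = 2 * (R + 2 * δ + k + 30) + 2 * (D + 50 * (a1 * Δ)) + 10000 :=
    ⟨_, rfl⟩
  obtain ⟨D0, hD0'⟩ : ∃ D0 : ℕ, D0 = 2 * (2 * B + k + 10) + 2 * W := ⟨_, rfl⟩
  have hD0 : D0 = a * D + b := by
    rw [hD0', hW, hΔ', ha, hb]
    ring
  obtain ⟨Kh, hKh⟩ : ∃ Kh : ℕ, Kh = Δ + 200 * 1000 := ⟨_, rfl⟩
  obtain ⟨κ, hκ⟩ : ∃ κ : ℕ, κ = Kh * M + κ1 := ⟨_, rfl⟩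
  obtain ⟨T0, hT0⟩ : ∃ T0 : ℕ, T0 = 1000 * ((2 * k + 300) * Δ) + 4 * (a1 * Δ) := ⟨_, rfl⟩
  have key : 3 * D0 + 1000 * δ + 2 * M ≤ M * D := by
    rw [hD0]
    have h1 : M * D = 3 * a * D + (5400 * δ + 2) * D := by rw [hM]; ring
    have h2 : D ≤ (5400 * δ + 2) * D := by nlinarith
    have h3 : 3 * (a * D + b) = 3 * a * D + 3 * b := by ring
    rw [h1, h3]
    omega
  refine ⟨D, κ, κ * (T0 + 2) + B + 3, by omega, by omega, ?_⟩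
  intro n hn hn0 G _ z d hlev
  have hn2 : n ≠ 2 := by
    have : 0 ≤ κ * (T0 + 2) := Nat.zero_le _
    omega
  have hBn : B < n := by
    have : 0 ≤ κ * (T0 + 2) := Nat.zero_le _
    omega
  obtain ⟨ι, _, P, Q, r, T, γ, FL⟩ := fam_exists (L := 20) (T0 := (T0 : ℤ)) hlev hn hn2 (by
    have : κ * (T0 + 2) ≤ n := by omega
    exact_mod_cast this)
  have hΔ : (2 * (D : ℤ) + 100 * (20 : ℕ) + 22000000) = (Δ : ℤ) := by
    rw [hΔ', he]; push_cast; ring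
  rw [hΔ] at FL
  have hΘ : (2 * (k : ℤ) + 300) * (Δ : ℤ) = (((2 * k + 300) * Δ : ℕ) : ℤ) := by
    push_cast; ring
  have V := hk G ι n κ 20 (Δ : ℤ) (T0 : ℤ) z d P Q r T γ FL (by
    rw [hΘ]
    have : 1000 * ((2 * k + 300) * Δ) ≤ T0 := by omega
    exact_mod_cast this)
  have hK := FL.fam.KK_normal
  have hTri := tri_quot V hn hlev.tri (le_refl 20) (K := Kh) (by
    rw [hKh]; push_cast; omega)
  have hbase := dq_base V
  rw [← hδ] at hbase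
  have hac : AcylE Kh D0 R (900 * δ) (z : G ⧸ KK r) (dq (dh 1000 d Q) (KK r)) := by
    rw [hδ]
    apply step0 V hlev hn hn2 (le_refl 20) (K := Kh) (R := R) (R3 := a1 * Δ) (B := B)
      (W := W) (D0 := D0)
    · rw [hKh]; push_cast; omega
    · rw [hΘ]
      have : (R + 2 * (4 * k + 2) + 10 * k + 20) * (110 * ((2 * k + 300) * Δ)) ≤ a1 * Δ := by
        rw [ha1, hδ]
        apply le_of_eq; ring
      exact_mod_cast this
    · have : 4 * (a1 * Δ) ≤ T0 := by omega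
      exact_mod_cast this
    · intro x u v y h1 h2 h3 h4 g h hg hh
      have := hB n Kh hn hBn _ _ _ hbase hTri x u v y h1 h2 h3 h4 g h hg hh
      rw [hδ] at this
      exact this
    · have : 2 * (R + 2 * (4 * k + 2) + k + 30) + 2 * (D + 50 * (a1 * Δ)) + 10 * 1000 ≤ W := by
        omega
      exact_mod_cast this
    · omega
  rw [hR] at hac
  have hpipe := pipe hbase (by omega) hTri hn.pos hac (M := M) (D := D) (by omega) (by omega) key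
  refine ⟨KK r, hK, _, hpipe.mono (by omega) (le_refl _), ?_, ?_, ?_⟩
  · intro x y
    have h1 : dq (dh 1000 d Q) (KK r) (x : G ⧸ KK r) (y : G ⧸ KK r) ≤ d x y :=
      (dq_le x y).trans (V.le x y)
    set t := dq (dh 1000 d Q) (KK r) (x : G ⧸ KK r) (y : G ⧸ KK r)
    have hM2 : 2 ≤ M := by omega
    obtain ⟨-, h3⟩ := coarse_ceil M t (by omega)
    set s := (t + M - 1) / M
    show 2 * s ≤ d x y + 1
    have : 2 * s ≤ t + 1 := by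
      rcases Nat.eq_zero_or_pos s with h0 | h0
      · omega
      · obtain ⟨s', hs'⟩ : ∃ s', s = s' + 1 := ⟨s - 1, by omega⟩
        rw [hs'] at h3 ⊢
        have h4 : M * (s' + 1) = M * s' + M := by ring
        have h5 : 2 * s' ≤ M * s' := Nat.mul_le_mul_right _ hM2
        omega
    omega
  · intro s hs hs1 x
    exact KK_disp V hs hs1 x
  · intro g x hg
    exact small_quot V hn hlev.tri hg

end Burn
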