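import Pool.Agent.Burn.Defs

set_option autoImplicit false

/-!
# Definitions for the windmill argument and for the construction of the family of lines
-/

namespace Burn

section
variable {G : Type} [Group G] {ι : Type} [MulAction G ι]

/-- Windmill centred at `x0`. -/
structure WM (c Δ : ℤ) (d : G → G → ℕ) (P : ι → G → ℤ) (r : ι → G) (T : ι → ℤ)
    (x0 : G) (W : Set G) (H : Subgroup G) (Y : Set ι) : Prop where
  base : x0 ∈ W
  inv : ∀ h ∈ H, ∀ w ∈ W, h * w ∈ W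
  yinv : ∀ h ∈ H, ∀ E ∈ Y, h • E ∈ Y
  rot : ∀ E ∈ Y, r E ∈ H
  wq : ∀ x ∈ W, ∀ y ∈ W, ∃ (p : ℕ → G) (m : ℕ), IsPath d p m ∧ d x (p 0) = 0 ∧ d (p m) y = 0 ∧
    ∀ i, i ≤ m → ∃ w ∈ W, d (p i) w ≤ 12
  prj : ∀ E, E ∉ Y → ∀ x ∈ W, ∀ y ∈ W, |P E x - P E y| ≤ 4 * Δ + 60 * c
  gr : ∀ k ∈ H, k ≠ 1 → ∃ E, T E - (12 * Δ + 200 * c) ≤ |P E x0 - P E (k * x0)|

/-- The new lines which are close to `W`. -/
def SS (c : ℤ) (Q : ι → G → ℤ) (W : Set G) (Y : Set ι) : Set ι :=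
  {E | E ∉ Y ∧ ∃ w ∈ W, Q E w ≤ 3 * c}

/-- The new group. -/
def HH (r : ι → G) (H : Subgroup G) (S : Set ι) : Subgroup G :=
  H ⊔ Subgroup.closure (r '' S)

/-- Points behind the line `E` (seen from `W`). -/
inductive Pt (S : Set ι) (r : ι → G) (W : Set G) (A : ι → Set G) : ι → G → Prop
  | on {E : ι} {y : G} : E ∈ S → y ∈ A E → Pt S r W A E y
  | rot {E : ι} {k : ℤ} {w : G} : E ∈ S → k ≠ 0 → w ∈ W → Pt S r W A E (r E ^ k * w)
  | step {E E' : ι} {k : ℤ} {y : G} : E ∈ S → k ≠ 0 → E' ≠ E → Pt S r W A E' y →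
      Pt S r W A E (r E ^ k * y)

/-- The points close to a line. -/
def LL (c : ℤ) (Q : ι → G → ℤ) (E : ι) : Set G := {y | Q E y ≤ 2 * c}

/-- `W` with all translates of `W` and of the new lines. -/
def ZZ (c : ℤ) (Q : ι → G → ℤ) (r : ι → G) (W : Set G) (S : Set ι) : Set G :=
  W ∪ {y | ∃ E, Pt S r W (LL c Q) E y}

/-- `W` and the new lines. -/
def BB (c : ℤ) (Q : ι → G → ℤ) (W : Set G) (S : Set ι) : Set G :=
  W ∪ {y | ∃ E ∈ S, Q E y ≤ 2 * c}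

/-- Bounded projection, exactly invariant. -/
def RB (P : ι → G → ℤ) (l : ℤ) (F : ι) (x y : G) : Prop :=
  ∀ a : G, |P (a • F) (a * x) - P (a • F) (a * y)| ≤ l

/-- Large projection distance, exactly invariant. -/
def Big (P : ι → G → ℤ) (l : ℤ) (E : ι) (x y : G) : Prop :=
  ∃ a : G, l ≤ |P (a • E) (a * x) - P (a • E) (a * y)|

/-- The points `x` and `y` are joined by a geodesic which stays close to `Z`. -/
def Joined (d : G → G → ℕ) (l : ℤ) (Z : Set G) (x y : G) : Prop :=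
  ∃ (p : ℕ → G) (m : ℕ), IsPath d p m ∧ d x (p 0) = 0 ∧ d (p m) y = 0 ∧
    ∀ i, i ≤ m → ∃ w ∈ Z, (d (p i) w : ℤ) ≤ l

end

section
variable {G : Type} [Group G]

/-- Local data for the centraliser of a loxodromic element. -/
structure Loc (n L : ℕ) (T0 : ℤ) (z : G) (d : G → G → ℕ) (γ : G) (P Q : G → ℤ) (T : ℤ) :
    Prop where
  axis : Axis d 450 P Q
  inv : ∀ e x, γ * e = e * γ → Q (e * x) = Q x
  shP : ∀ e x y, γ * e = e * γ → |(P (e * x) - P (e * y)) - (P x - P y)| ≤ 450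
  hT : T0 ≤ T
  sh : ∀ (k : ℕ) (x : G), 1 ≤ k → T - 450 ≤ P ((γ ^ n * z⁻¹) ^ k * x) - P x
  sh1 : ∀ x, P (γ ^ n * z⁻¹ * x) - P x ≤ T + 450
  gm : ∀ x, |P (γ * x) - P x| ≤ 2 * L + 450

end

end Burn
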