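import Pool.Agent.Burn.WDefs

set_option autoImplicit false

/-!
# The set `ZZ` of the windmill step
-/

namespace Burn

section WINDA

variable {G : Type} [Group G] {ι : Type} [MulAction G ι] {c Δ T0 : ℤ} {z : G} {d : G → G → ℕ}
  {P Q : ι → G → ℤ} {r : ι → G} {T : ι → ℤ} {x0 : G} {W : Set G} {H : Subgroup G} {Y : Set ι}

/-! ### Generalities on `Pt` -/

theorem windA_conj (hr : ∀ (g : G) (E : ι), r (g • E) = g * r E * g⁻¹) (h : G) (E : ι) (k : ℤ)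
    (y : G) : r (h • E) ^ k * (h * y) = h * (r E ^ k * y) := by
  rw [hr, conj_zpow]
  group

theorem windA_smul {S : Set ι} {A : ι → Set G} (hr : ∀ (g : G) (E : ι), r (g • E) = g * r E * g⁻¹)
    {h : G} (hS : ∀ E ∈ S, h • E ∈ S) (hW : ∀ w ∈ W, h * w ∈ W)
    (hA : ∀ E, ∀ y ∈ A E, h * y ∈ A (h • E)) {E : ι} {y : G} (hy : Pt S r W A E y) :
    Pt S r W A (h • E) (h * y) := by
  induction hy with
  | on h1 h2 => exact Pt.on (hS _ h1) (hA _ _ h2)
  | rot h1 h2 h3 =>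
      rw [← windA_conj hr]
      exact Pt.rot (hS _ h1) h2 (hW _ h3)
  | @step E E' k y h1 h2 h3 _ ih =>
      rw [← windA_conj hr]
      refine Pt.step (hS _ h1) h2 ?_ ih
      intro h4
      exact h3 (smul_left_cancel h h4)

theorem windA_rot {S : Set ι} {A : ι → Set G}
    (hA : ∀ E, ∀ (k : ℤ), ∀ y ∈ A E, r E ^ k * y ∈ A E) {F : ι} (hF : F ∈ S) (k : ℤ) {y : G}
    (hy : y ∈ W ∪ {y | ∃ E, Pt S r W A E y}) :
    r F ^ k * y ∈ W ∪ {y | ∃ E, Pt S r W A E y} := by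
  by_cases hk : k = 0
  · subst hk
    simpa using hy
  rcases hy with hy | ⟨E, hy⟩
  · exact Or.inr ⟨F, Pt.rot hF hk hy⟩
  by_cases hEF : E = F
  · subst hEF
    cases hy with
    | on h1 h2 => exact Or.inr ⟨E, Pt.on h1 (hA _ _ _ h2)⟩
    | @rot _ k' w h1 h2 h3 =>
        rw [← mul_assoc, ← zpow_add]
        by_cases h4 : k + k' = 0
        · rw [h4, zpow_zero, one_mul]
          exact Or.inl h3
        · exact Or.inr ⟨E, Pt.rot h1 h4 h3⟩
    | @step _ E' k' y' h1 h2 h3 h5 =>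
        rw [← mul_assoc, ← zpow_add]
        by_cases h4 : k + k' = 0
        · rw [h4, zpow_zero, one_mul]
          exact Or.inr ⟨E', h5⟩
        · exact Or.inr ⟨E, Pt.step h1 h4 h3 h5⟩
  · exact Or.inr ⟨F, Pt.step hF hk hEF hy⟩

theorem windA_inv {S : Set ι} {A : ι → Set G} (hr : ∀ (g : G) (E : ι), r (g • E) = g * r E * g⁻¹)
    (hS : ∀ h ∈ H, ∀ E ∈ S, h • E ∈ S) (hW : ∀ h ∈ H, ∀ w ∈ W, h * w ∈ W)
    (hA : ∀ h ∈ H, ∀ E, ∀ y ∈ A E, h * y ∈ A (h • E))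
    (hA' : ∀ E, ∀ (k : ℤ), ∀ y ∈ A E, r E ^ k * y ∈ A E) {h : G} (hh : h ∈ HH r H S) {y : G}
    (hy : y ∈ W ∪ {y | ∃ E, Pt S r W A E y}) :
    h * y ∈ W ∪ {y | ∃ E, Pt S r W A E y} := by
  obtain ⟨Z, hZ⟩ : ∃ Z : Set G, Z = W ∪ {y | ∃ E, Pt S r W A E y} := ⟨_, rfl⟩
  rw [← hZ] at hy ⊢
  obtain ⟨K, hK⟩ : ∃ K : Subgroup G, ∀ g, g ∈ K ↔ ∀ y, y ∈ Z ↔ g * y ∈ Z :=
    ⟨{ carrier := {g | ∀ y, y ∈ Z ↔ g * y ∈ Z}
       one_mem' := fun y => by rw [one_mul]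
       mul_mem' := fun {a b} ha hb y => by rw [mul_assoc, hb y, ha (b * y)]
       inv_mem' := fun {a} ha y => by rw [ha (a⁻¹ * y), mul_inv_cancel_left] }, fun _ => Iff.rfl⟩
  have h1 : H ≤ K := by
    have key : ∀ a ∈ H, ∀ y ∈ Z, a * y ∈ Z := by
      intro a ha y hy
      rw [hZ] at hy ⊢
      rcases hy with hy | ⟨E, hy⟩
      · exact Or.inl (hW a ha y hy)
      · exact Or.inr ⟨a • E, windA_smul hr (hS a ha) (hW a ha) (hA a ha) hy⟩
    intro a ha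
    rw [hK]
    intro y
    refine ⟨key a ha y, fun h2 => ?_⟩
    have := key a⁻¹ (H.inv_mem ha) _ h2
    rwa [inv_mul_cancel_left] at this
  have h2 : Subgroup.closure (r '' S) ≤ K := by
    rw [Subgroup.closure_le]
    rintro _ ⟨F, hF, rfl⟩
    show r F ∈ K
    rw [hK]
    intro y
    constructor
    · intro hy
      rw [hZ] at hy ⊢
      have := windA_rot hA' hF 1 hy
      rwa [zpow_one] at this
    · intro hy
      rw [hZ] at hy ⊢
      have := windA_rot hA' hF (-1) hy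
      rwa [zpow_neg_one, inv_mul_cancel_left] at this
  have h3 : h ∈ K := (sup_le h1 h2 : HH r H S ≤ K) hh
  rw [hK] at h3
  exact (h3 y).1 hy

/-! ### The statements -/

theorem ss_inv (F : Fam c Δ T0 z d P Q r T) (M : WM c Δ d P r T x0 W H Y) {h : G} (hh : h ∈ H)
    {E : ι} (hE : E ∈ SS c Q W Y) : h • E ∈ SS c Q W Y := by
  obtain ⟨h1, w, hw, h2⟩ := hE
  refine ⟨fun h3 => h1 ?_, h * w, M.inv h hh w hw, ?_⟩
  · have := M.yinv h⁻¹ (H.inv_mem hh) _ h3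
    rwa [inv_smul_smul] at this
  · rwa [F.eqQ]

theorem windA_Qr (F : Fam c Δ T0 z d P Q r T) (E : ι) (k : ℤ) (y : G) :
    Q E (r E ^ k * y) = Q E y := by
  have h1 : r E ^ k • E = E := by
    have h2 : r E ∈ MulAction.stabilizer G E := F.rfix E
    exact Subgroup.zpow_mem _ h2 k
  have h3 := F.eqQ (r E ^ k) E y
  rwa [h1] at h3

theorem zz_inv (F : Fam c Δ T0 z d P Q r T) (M : WM c Δ d P r T x0 W H Y) {h : G}
    (hh : h ∈ HH r H (SS c Q W Y)) {y : G} (hy : y ∈ ZZ c Q r W (SS c Q W Y)) :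
    h * y ∈ ZZ c Q r W (SS c Q W Y) := by
  refine windA_inv F.rconj (fun h hh E hE => ss_inv F M hh hE) M.inv ?_ ?_ hh hy
  · intro h _ E y hy
    show Q (h • E) (h * y) ≤ 2 * c
    rw [F.eqQ]
    exact hy
  · intro E k y hy
    show Q E (r E ^ k * y) ≤ 2 * c
    rw [windA_Qr F]
    exact hy

theorem windA_rot_mem {S : Set ι} {E : ι} (hE : E ∈ S) (k : ℤ) : r E ^ k ∈ HH r H S :=
  Subgroup.zpow_mem _ ((le_sup_right : Subgroup.closure (r '' S) ≤ HH r H S)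
    (Subgroup.subset_closure ⟨E, hE, rfl⟩)) k

theorem windA_red {S : Set ι} {E : ι} {y : G} (hy : Pt S r W (LL c Q) E y) :
    ∃ h ∈ HH r H S, h * y ∈ BB c Q W S := by
  induction hy with
  | @on E y h1 h2 => exact ⟨1, Subgroup.one_mem _, by rw [one_mul]; exact Or.inr ⟨E, h1, h2⟩⟩
  | @rot E k w h1 h2 h3 =>
      refine ⟨(r E ^ k)⁻¹, Subgroup.inv_mem _ (windA_rot_mem h1 k), ?_⟩
      rw [inv_mul_cancel_left]
      exact Or.inl h3
  | @step E E' k y h1 h2 h3 _ ih =>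
      obtain ⟨h, hh, hy⟩ := ih
      refine ⟨h * (r E ^ k)⁻¹, Subgroup.mul_mem _ hh (Subgroup.inv_mem _ (windA_rot_mem h1 k)), ?_⟩
      rw [mul_assoc, inv_mul_cancel_left]
      exact hy

set_option linter.unusedVariables false in
theorem zz_red (F : Fam c Δ T0 z d P Q r T) (M : WM c Δ d P r T x0 W H Y) {y : G}
    (hy : y ∈ ZZ c Q r W (SS c Q W Y)) :
    ∃ h ∈ HH r H (SS c Q W Y), h * y ∈ BB c Q W (SS c Q W Y) := by
  rcases hy with hy | ⟨E, hy⟩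
  · exact ⟨1, Subgroup.one_mem _, by rw [one_mul]; exact Or.inl hy⟩
  · exact windA_red hy

/-- the elements of the new group. -/
theorem hh_form (F : Fam c Δ T0 z d P Q r T) (M : WM c Δ d P r T x0 W H Y) {h : G}
    (hh : h ∈ HH r H (SS c Q W Y)) :
    h ∈ H ∨ ∃ E, Pt (SS c Q W Y) r (H : Set G) (fun _ => ∅) E h := by
  have h1 := windA_inv (W := (H : Set G)) (A := fun _ => ∅) F.rconj
    (fun h hh E hE => ss_inv F M hh hE) (fun h hh w hw => H.mul_mem hh hw)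
    (fun _ _ _ _ h => h.elim) (fun _ _ _ h => h.elim) hh (y := 1)
    (Or.inl H.one_mem)
  rw [mul_one] at h1
  exact h1

theorem pt_orbit (M : WM c Δ d P r T x0 W H Y) {S : Set ι} {E : ι} {h w : G}
    (h1 : Pt S r (H : Set G) (fun _ => ∅) E h) (hw : w ∈ W) :
    Pt S r W (fun _ => ∅) E (h * w) := by
  induction h1 with
  | on _ h2 => exact h2.elim
  | rot h1 h2 h3 =>
      rw [mul_assoc]
      exact Pt.rot h1 h2 (M.inv _ h3 _ hw)
  | step h1 h2 h3 _ ih =>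
      rw [mul_assoc]
      exact Pt.step h1 h2 h3 ih

theorem Pt.mono {S : Set ι} {A A' : ι → Set G} {E : ι} {y : G} (h : Pt S r W A E y)
    (hA : ∀ E, A E ⊆ A' E) : Pt S r W A' E y := by
  induction h with
  | on h1 h2 => exact Pt.on h1 (hA _ h2)
  | rot h1 h2 h3 => exact Pt.rot h1 h2 h3
  | step h1 h2 h3 _ ih => exact Pt.step h1 h2 h3 ih

end WINDA

end Burn
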