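import Pool.Agent.Burn.WindA
import Pool.Agent.Burn.WindB

set_option autoImplicit false

/-!
# WINDC : quasi-convexity of the windmill
-/

namespace Burn

section metric
variable {X : Type} {d : X → X → ℕ}

/-- two points of an interval at the same distance from an end are close. -/
theorem windc_close {δ : ℕ} (hg : Geo d) (hh : Hyp d δ) {x y q q' : X} (h : Btw d x q y)
    (h' : Btw d x q' y) (he : d x q = d x q') : d q q' ≤ δ := by
  unfold Btw at h h'
  have h1 := hg.symm q' y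
  have h2 := hg.symm q y
  rcases hh x y q q' with h3 | h3
  · have h4 := hg.symm y q'
    omega
  · have h4 := hg.symm y q
    omega

/-- a point of an interval is close to every path with the same ends. -/
theorem windc_path {δ : ℕ} (hg : Geo d) (hh : Hyp d δ) {x y q : X} (h : Btw d x q y) {p : ℕ → X}
    {m : ℕ} (hp : IsPath d p m) (h0 : d x (p 0) = 0) (h1 : d (p m) y = 0) :
    ∃ i, i ≤ m ∧ d q (p i) ≤ δ := by
  have hm := hp 0 m (Nat.zero_le _) le_rfl
  have e1 : d x y = m := by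
    have a1 := hg.tri x (p 0) y
    have a2 := hg.tri (p 0) (p m) y
    have a3 := hg.tri (p 0) x (p m)
    have a4 := hg.tri x y (p m)
    have a5 := hg.symm x (p 0)
    have a6 := hg.symm (p m) y
    omega
  have hi : d x q ≤ m := by
    unfold Btw at h
    omega
  refine ⟨d x q, hi, windc_close hg hh h ?_ ?_⟩
  · have b1 := hp 0 (d x q) (Nat.zero_le _) hi
    have b2 := hp (d x q) m hi le_rfl
    have b3 := hg.tri x (p 0) (p (d x q))
    have b4 := hg.tri (p (d x q)) (p m) y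
    have b5 := hg.tri x (p (d x q)) y
    unfold Btw
    omega
  · have b1 := hp 0 (d x q) (Nat.zero_le _) hi
    have b3 := hg.tri x (p 0) (p (d x q))
    have b4 := hg.tri (p 0) x (p (d x q))
    have a5 := hg.symm x (p 0)
    omega

theorem windc_btw (hg : Geo d) {x y : X} {p : ℕ → X} (hp : IsPath d p (d x y)) (h0 : p 0 = x)
    (h1 : d (p (d x y)) y = 0) {i : ℕ} (hi : i ≤ d x y) : Btw d x (p i) y := by
  have b1 := hp 0 i (Nat.zero_le _) hi
  have b2 := hp i (d x y) hi le_rfl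
  have b4 := hg.tri (p i) (p (d x y)) y
  have b5 := hg.tri x (p i) y
  rw [h0] at b1
  unfold Btw
  omega

/-- if all points between `x` and `y` are close to `Z` then `x` and `y` are joined. -/
theorem windc_joined (hg : Geo d) {x y : X} {l : ℤ} {Z : Set X}
    (h : ∀ q, Btw d x q y → ∃ w ∈ Z, (d q w : ℤ) ≤ l) :
    ∃ (p : ℕ → X) (m : ℕ), IsPath d p m ∧ d x (p 0) = 0 ∧ d (p m) y = 0 ∧
      ∀ i, i ≤ m → ∃ w ∈ Z, (d (p i) w : ℤ) ≤ l := by
  obtain ⟨p, hp, h0, h1⟩ := exists_path hg x y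
  exact ⟨p, d x y, hp, by rw [h0]; exact hg.refl x, h1, fun i hi => h _ (windc_btw hg hp h0 h1 hi)⟩

end metric

section group
variable {G : Type} [Group G] {d : G → G → ℕ}

omit [Group G] in
theorem windc_near {δ : ℕ} (hg : Geo d) (hh : Hyp d δ) {x y q : G} {l : ℤ} {Z : Set G}
    (h : Joined d l Z x y) (hq : Btw d x q y) : ∃ w ∈ Z, (d q w : ℤ) ≤ l + δ := by
  obtain ⟨p, m, hp, h0, h1, h2⟩ := h
  obtain ⟨i, hi, hi'⟩ := windc_path hg hh hq hp h0 h1
  obtain ⟨w, hw, hw'⟩ := h2 i hi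
  refine ⟨w, hw, ?_⟩
  have := hg.tri q (p i) w
  have h3 : (d q w : ℤ) ≤ d q (p i) + d (p i) w := by exact_mod_cast this
  have h4 : (d q (p i) : ℤ) ≤ δ := by exact_mod_cast hi'
  linarith

omit [Group G] in
theorem windc_mono {l : ℤ} {Z Z' : Set G} (hZ : Z ⊆ Z') {x y : G} (h : Joined d l Z x y) :
    Joined d l Z' x y := by
  obtain ⟨p, m, hp, h0, h1, h2⟩ := h
  refine ⟨p, m, hp, h0, h1, fun i hi => ?_⟩
  obtain ⟨w, hw, hw'⟩ := h2 i hi
  exact ⟨w, hZ hw, hw'⟩

theorem windc_mul (hl : LeftInv d) {l : ℤ} {Z : Set G} {g : G} (hZ : ∀ w ∈ Z, g * w ∈ Z) {x y : G}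
    (h : Joined d l Z x y) : Joined d l Z (g * x) (g * y) := by
  obtain ⟨p, m, hp, h0, h1, h2⟩ := h
  refine ⟨fun i => g * p i, m, fun i j hij hj => ?_, ?_, ?_, fun i hi => ?_⟩
  · simp only
    rw [hl]
    exact hp i j hij hj
  · rw [hl]
    exact h0
  · rw [hl]
    exact h1
  · obtain ⟨w, hw, hw'⟩ := h2 i hi
    exact ⟨g * w, hZ w hw, by rw [hl]; exact hw'⟩

omit [Group G] in
/-- concatenation -/
theorem windc_cat (hg : Geo d) {l : ℤ} {Z : Set G} {x u y : G} (hb : Btw d x u y)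
    (h : Joined d l Z x u) (h' : Joined d l Z u y) : Joined d l Z x y := by
  obtain ⟨p, s, hp, h0, h1, h2⟩ := h
  obtain ⟨q, t, hq, h0', h1', h2'⟩ := h'
  unfold Btw at hb
  have hpq : d (p s) (q 0) = 0 := by
    have := hg.tri (p s) u (q 0)
    omega
  have es : s = d x u := by
    have a1 := hp 0 s (Nat.zero_le _) le_rfl
    have a2 := hg.tri (p 0) x (p s)
    have a3 := hg.tri x u (p s)
    have a4 := hg.tri x (p 0) u
    have a5 := hg.tri (p 0) (p s) u
    have a6 := hg.symm x (p 0)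
    have a7 := hg.symm u (p s)
    omega
  have et : t = d u y := by
    have a1 := hq 0 t (Nat.zero_le _) le_rfl
    have a2 := hg.tri (q 0) u (q t)
    have a3 := hg.tri u y (q t)
    have a4 := hg.tri u (q 0) y
    have a5 := hg.tri (q 0) (q t) y
    have a6 := hg.symm u (q 0)
    have a7 := hg.symm y (q t)
    omega
  obtain ⟨f, hf⟩ : ∃ f : ℕ → G, f = fun i => if i < s then p i else q (i - s) := ⟨_, rfl⟩
  have hf0 : d x (f 0) = 0 := by
    rw [hf]
    by_cases hs : 0 < s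
    · simp only [if_pos hs]
      exact h0
    · have hs' : s = 0 := by omega
      subst hs'
      simp only [lt_irrefl, if_false, Nat.sub_zero]
      have := hg.tri x (p 0) (q 0)
      omega
  have hft : f (s + t) = q t := by
    rw [hf]
    simp only
    rw [if_neg (by omega), Nat.add_sub_cancel_left]
  refine ⟨f, s + t, ?_, hf0, by rw [hft]; exact h1', fun i hi => ?_⟩
  · refine isPath_of_steps hg (fun i hi => ?_) ?_
    · rw [hf]
      simp only
      by_cases h3 : i + 1 < s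
      · rw [if_pos (by omega), if_pos h3]
        have := hp i (i + 1) (by omega) (by omega)
        omega
      · by_cases h4 : i < s
        · have e : s = i + 1 := by omega
          rw [if_pos h4, if_neg h3]
          have e2 : i + 1 - s = 0 := by omega
          rw [e2]
          have a1 := hp i s (by omega) le_rfl
          have a2 := hg.tri (p i) (p s) (q 0)
          omega
        · rw [if_neg h4, if_neg h3]
          have e2 : i + 1 - s = (i - s) + 1 := by omega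
          rw [e2]
          have := hq (i - s) (i - s + 1) (by omega) (by omega)
          omega
    · rw [hft]
      have a1 := hg.tri x (f 0) y
      have a2 := hg.tri (f 0) (q t) y
      omega
  · rw [hf]
    simp only
    by_cases h3 : i < s
    · rw [if_pos h3]
      exact h2 i h3.le
    · rw [if_neg h3]
      exact h2' (i - s) (by omega)

end group

/-- taking a neighbourhood improves the constant. -/
theorem wc_nbhd {G : Type} [Group G] {z : G} {d : G → G → ℕ} (hB : Base 3 z d) {Z : Set G}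
    {l m : ℤ} (hl : 0 ≤ l) (hm : l + 30 ≤ m)
    (hZ : ∀ x ∈ Z, ∀ y ∈ Z, Joined d l Z x y) {x y : G} (hx : ∃ w ∈ Z, (d x w : ℤ) ≤ m)
    (hy : ∃ w ∈ Z, (d y w : ℤ) ≤ m) : Joined d 12 {v | ∃ w ∈ Z, (d v w : ℤ) ≤ m} x y := by
  have hg := hB.geo
  have hsl := hyp_slim hg hB.hyp
  obtain ⟨x', hx', hxx⟩ := hx
  obtain ⟨y', hy', hyy⟩ := hy
  refine windc_joined hg fun q hq => ?_
  obtain ⟨q1, hq1, hd1⟩ := hsl x y x' q hq
  have hd1' : (d q q1 : ℤ) ≤ 6 := by exact_mod_cast hd1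
  rcases hq1 with h1 | h1
  · refine ⟨q1, ⟨x', hx', ?_⟩, by linarith⟩
    have : d q1 x' ≤ d x x' := by
      unfold Btw at h1
      omega
    have h2 : (d q1 x' : ℤ) ≤ d x x' := by exact_mod_cast this
    linarith
  · obtain ⟨q2, hq2, hd2⟩ := hsl x' y y' q1 h1
    have hd2' : (d q1 q2 : ℤ) ≤ 6 := by exact_mod_cast hd2
    have hd3 : (d q q2 : ℤ) ≤ 12 := by
      have : (d q q2 : ℤ) ≤ d q q1 + d q1 q2 := by exact_mod_cast hg.tri q q1 q2
      linarith
    refine ⟨q2, ?_, hd3⟩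
    rcases hq2 with h2 | h2
    · obtain ⟨w, hw, hw'⟩ := windc_near hg hB.hyp (hZ x' hx' y' hy') h2
      refine ⟨w, hw, ?_⟩
      push_cast at hw'
      linarith
    · refine ⟨y', hy', ?_⟩
      have : d q2 y' ≤ d y y' := by
        unfold Btw at h2
        have a1 := hg.symm y' q2
        have a2 := hg.symm y y'
        omega
      have h3 : (d q2 y' : ℤ) ≤ d y y' := by exact_mod_cast this
      linarith

section WIND
variable {G : Type} [Group G] {ι : Type} [MulAction G ι] {c Δ T0 : ℤ} {z : G} {d : G → G → ℕ}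
  {P Q : ι → G → ℤ} {r : ι → G} {T : ι → ℤ} {x0 : G} {W : Set G} {H : Subgroup G} {Y : Set ι}

/-- points between two points of `W` -/
theorem windc_ww (F : Fam c Δ T0 z d P Q r T) (M : WM c Δ d P r T x0 W H Y) {x y q : G}
    (hx : x ∈ W) (hy : y ∈ W) (hq : Btw d x q y) :
    ∃ w ∈ BB c Q W (SS c Q W Y), 2 * (d q w : ℤ) ≤ 9 * c := by
  have hg := F.base.geo
  have hc := F.hc
  obtain ⟨p, m, hp, h0, h1, h2⟩ := M.wq x hx y hy
  obtain ⟨i, hi, hi'⟩ := windc_path hg F.base.hyp hq hp h0 h1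
  obtain ⟨w, hw, hw'⟩ := h2 i hi
  refine ⟨w, Or.inl hw, ?_⟩
  have := hg.tri q (p i) w
  have h3 : (d q w : ℤ) ≤ 15 := by exact_mod_cast (by omega : d q w ≤ 15)
  linarith

/-- points close to a line -/
theorem windc_line (F : Fam c Δ T0 z d P Q r T) {E : ι} (hE : E ∈ SS c Q W Y) {q : G}
    (hq : Q E q ≤ 6 * c) : ∃ w ∈ BB c Q W (SS c Q W Y), 2 * (d q w : ℤ) ≤ 9 * c := by
  obtain ⟨a, ha1, _, ha3⟩ := (F.axis E).axn F.base.geo q
  have hc := F.hc
  exact ⟨a, Or.inr ⟨E, hE, by linarith⟩, by linarith⟩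

/-- points between a point of `W` and a point of a new line -/
theorem windc_wl (F : Fam c Δ T0 z d P Q r T) (M : WM c Δ d P r T x0 W H Y) {E : ι}
    (hE : E ∈ SS c Q W Y) {x y q : G} (hx : x ∈ W) (hy : Q E y ≤ 2 * c) (hq : Btw d x q y) :
    ∃ w ∈ BB c Q W (SS c Q W Y), 2 * (d q w : ℤ) ≤ 9 * c + 24 := by
  have hg := F.base.geo
  have hc := F.hc
  have hsl := hyp_slim hg F.base.hyp
  have hE0 := hE.2
  obtain ⟨w, hw, hqw⟩ := hE0
  obtain ⟨v, hv, _, hv3⟩ := (F.axis E).axn hg w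
  have near : ∀ {q q' : G}, d q q' ≤ 2 * 3 →
      (∃ w ∈ BB c Q W (SS c Q W Y), 2 * (d q' w : ℤ) ≤ 9 * c + 12) →
      ∃ w ∈ BB c Q W (SS c Q W Y), 2 * (d q w : ℤ) ≤ 9 * c + 24 := by
    rintro q q' h ⟨a, ha, ha'⟩
    refine ⟨a, ha, ?_⟩
    have h1 : (d q a : ℤ) ≤ d q q' + d q' a := by exact_mod_cast hg.tri q q' a
    have h2 : (d q q' : ℤ) ≤ 6 := by exact_mod_cast h
    linarith
  obtain ⟨q1, hq1, hd1⟩ := hsl x y w q hq
  refine near hd1 ?_
  rcases hq1 with h1 | h1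
  · obtain ⟨a, ha, ha'⟩ := windc_ww F M hx hw h1
    exact ⟨a, ha, by linarith⟩
  · obtain ⟨q2, hq2, hd2⟩ := hsl w y v q1 h1
    have h12 : (d q1 q2 : ℤ) ≤ 6 := by exact_mod_cast hd2
    rcases hq2 with h2 | h2
    · refine ⟨v, Or.inr ⟨E, hE, by linarith⟩, ?_⟩
      have h3 : d q2 v ≤ d w v := by
        unfold Btw at h2
        omega
      have h4 : (d q1 v : ℤ) ≤ d q1 q2 + d q2 v := by exact_mod_cast hg.tri q1 q2 v
      have h5 : (d q2 v : ℤ) ≤ d w v := by exact_mod_cast h3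
      linarith
    · have h3 := (F.axis E).axq hg h2
      obtain ⟨a, ha, ha'⟩ := windc_line (W := W) (Y := Y) F hE (q := q2) (by linarith)
      refine ⟨a, ha, ?_⟩
      have h4 : (d q1 a : ℤ) ≤ d q1 q2 + d q2 a := by exact_mod_cast hg.tri q1 q2 a
      linarith

theorem windc_bb (F : Fam c Δ T0 z d P Q r T) (M : WM c Δ d P r T x0 W H Y) {x y q : G}
    (hx : x ∈ BB c Q W (SS c Q W Y)) (hy : y ∈ BB c Q W (SS c Q W Y)) (hq : Btw d x q y) :
    ∃ w ∈ BB c Q W (SS c Q W Y), 2 * (d q w : ℤ) ≤ 9 * c + 36 := by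
  have hg := F.base.geo
  have hc := F.hc
  have hsl := hyp_slim hg F.base.hyp
  rcases hx with hx | ⟨E, hE, hx⟩ <;> rcases hy with hy | ⟨E', hE', hy⟩
  · obtain ⟨a, ha, ha'⟩ := windc_ww F M hx hy hq
    exact ⟨a, ha, by linarith⟩
  · obtain ⟨a, ha, ha'⟩ := windc_wl F M hE' hx hy hq
    exact ⟨a, ha, by linarith⟩
  · obtain ⟨a, ha, ha'⟩ := windc_wl F M hE hy hx (Btw.symm hg hq)
    exact ⟨a, ha, by linarith⟩
  · have hw0 := hE.2
    obtain ⟨w, hw, _⟩ := hw0
    obtain ⟨q1, hq1, hd1⟩ := hsl x y w q hq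
    have h12 : (d q q1 : ℤ) ≤ 6 := by exact_mod_cast hd1
    have h3 : ∃ a ∈ BB c Q W (SS c Q W Y), 2 * (d q1 a : ℤ) ≤ 9 * c + 24 := by
      rcases hq1 with h1 | h1
      · exact windc_wl F M hE hw hx (Btw.symm hg h1)
      · exact windc_wl F M hE' hw hy h1
    obtain ⟨a, ha, ha'⟩ := h3
    refine ⟨a, ha, ?_⟩
    have h4 : (d q a : ℤ) ≤ d q q1 + d q1 a := by exact_mod_cast hg.tri q q1 a
    linarith

theorem wc_base (F : Fam c Δ T0 z d P Q r T) (M : WM c Δ d P r T x0 W H Y) {x y : G}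
    (hx : x ∈ BB c Q W (SS c Q W Y)) (hy : y ∈ BB c Q W (SS c Q W Y)) :
    Joined d (5 * c) (BB c Q W (SS c Q W Y)) x y := by
  refine windc_joined F.base.geo fun q hq => ?_
  obtain ⟨a, ha, ha'⟩ := windc_bb F M hx hy hq
  have hc := F.hc
  exact ⟨a, ha, by linarith⟩

omit [MulAction G ι] in
theorem windc_sub {S : Set ι} : BB c Q W S ⊆ ZZ c Q r W S := by
  rintro y (hy | ⟨E, hE, hy⟩)
  · exact Or.inl hy
  · exact Or.inr ⟨E, Pt.on hE hy⟩

/-- the step of the induction -/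
theorem windc_step (F : Fam c Δ T0 z d P Q r T) (hT : 100 * Δ + 2000 * c ≤ T0)
    (M : WM c Δ d P r T x0 W H Y) {E : ι} {k : ℤ} {y : G} (hE : E ∈ SS c Q W Y) (hk : k ≠ 0)
    (hy : y ∈ W ∨ ∃ E', E' ≠ E ∧ Pt (SS c Q W Y) r W (LL c Q) E' y)
    (ih : ∀ x ∈ BB c Q W (SS c Q W Y), Joined d (5 * c) (ZZ c Q r W (SS c Q W Y)) x y) {x : G}
    (hx : x ∈ BB c Q W (SS c Q W Y)) :
    Joined d (5 * c) (ZZ c Q r W (SS c Q W Y)) x (r E ^ k * y) := by
  have hg := F.base.geo
  have hc := F.hc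
  have hΔ := F.hΔ
  have hTE := F.hT E
  have hmem : r E ^ k ∈ HH r H (SS c Q W Y) := windA_rot_mem hE k
  -- points of the line
  have key : ∀ u : G, Q E u ≤ 2 * c →
      Joined d (5 * c) (ZZ c Q r W (SS c Q W Y)) u (r E ^ k * y) := by
    intro u hu
    have h1 : Q E (r E ^ (-k) * u) ≤ 2 * c := by rw [windA_Qr F E]; exact hu
    have h2 := windc_mul F.base.left (g := r E ^ k) (fun w hw => zz_inv F M hmem hw)
      (ih (r E ^ (-k) * u) (Or.inr ⟨E, hE, h1⟩))
    rwa [zpow_neg, mul_inv_cancel_left] at h2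
  by_cases hxE : Q E x ≤ 2 * c
  · exact key x hxE
  · have hx' : x ∈ W ∨ ∃ E' ∈ SS c Q W Y, E' ≠ E ∧ Q E' x ≤ 2 * c := by
      rcases hx with hx | ⟨E', hE', hx⟩
      · exact Or.inl hx
      · refine Or.inr ⟨E', hE', ?_, hx⟩
        rintro rfl
        exact hxE hx
    have h1 := wb_bb F M hE hx' M.base
    have h2 := wb_str F hT M hk hE hy M.base
    have h3 : |P E (r E ^ k * y) - P E x0| ≤ |P E x - P E (r E ^ k * y)| + |P E x - P E x0| := by
      have : P E (r E ^ k * y) - P E x0 =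
          -(P E x - P E (r E ^ k * y)) + (P E x - P E x0) := by ring
      rw [this]
      refine (abs_add_le _ _).trans ?_
      rw [abs_neg]
    obtain ⟨u, hu1, hu2, _⟩ := (F.axis E).axu hg (by linarith) (a := x) (b := r E ^ k * y)
      (by linarith)
    exact windc_cat hg hu1
      (windc_mono windc_sub (wc_base F M hx (Or.inr ⟨E, hE, hu2⟩))) (key u hu2)

theorem wc_zz (F : Fam c Δ T0 z d P Q r T) (hT : 100 * Δ + 2000 * c ≤ T0)
    (M : WM c Δ d P r T x0 W H Y) {x y : G}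
    (hx : x ∈ ZZ c Q r W (SS c Q W Y)) (hy : y ∈ ZZ c Q r W (SS c Q W Y)) :
    Joined d (5 * c) (ZZ c Q r W (SS c Q W Y)) x y := by
  have hW : ∀ w ∈ W, ∀ x ∈ BB c Q W (SS c Q W Y),
      Joined d (5 * c) (ZZ c Q r W (SS c Q W Y)) x w := fun w hw x hx =>
    windc_mono windc_sub (wc_base F M hx (Or.inl hw))
  have key : ∀ y ∈ ZZ c Q r W (SS c Q W Y), ∀ x ∈ BB c Q W (SS c Q W Y),
      Joined d (5 * c) (ZZ c Q r W (SS c Q W Y)) x y := by
    rintro y (hy | ⟨E, hy⟩)
    · exact hW y hy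
    · induction hy with
      | on hE hy => exact fun x hx => windc_mono windc_sub (wc_base F M hx (Or.inr ⟨_, hE, hy⟩))
      | rot hE hk hw => exact fun x hx => windc_step F hT M hE hk (Or.inl hw) (hW _ hw) hx
      | step hE hk hne hpt ih =>
        exact fun x hx => windc_step F hT M hE hk (Or.inr ⟨_, hne, hpt⟩) ih hx
  obtain ⟨h, hh, hhx⟩ := zz_red F M hx
  have h1 := key (h * y) (zz_inv F M hh hy) (h * x) hhx
  have h2 := windc_mul F.base.left (g := h⁻¹)
    (fun w hw => zz_inv F M (Subgroup.inv_mem _ hh) hw) h1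
  rwa [inv_mul_cancel_left, inv_mul_cancel_left] at h2

end WIND

end Burn
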